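import Mathlib

/-!
A linear code of dimension `a + 1 + r` and length `(2^(a+1) - 1) s + r`, `r ≤ s`, all whose words
outside a subspace of dimension `r` have weight `2^a s`.
-/

namespace Pool.Agent.H59.MW

open Finset

/-- the number of `u` with `c + ⟨u, x⟩ ≠ 0` for `x ≠ 0` -/
theorem half_count {m : ℕ} {x : Fin m → ZMod 2} (hx : x ≠ 0) (c : ZMod 2) :
    2 * (Finset.univ.filter (fun u : Fin m → ZMod 2 => c + ∑ i, u i * x i ≠ 0)).card =
      2 ^ m := by
  obtain ⟨j, hj⟩ : ∃ j, x j ≠ 0 := by
    by_contra hcon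
    push Not at hcon
    exact hx (funext hcon)
  have hj1 : x j = 1 := by
    have : ∀ a : ZMod 2, a ≠ 0 → a = 1 := by decide
    exact this _ hj
  have key : ∀ u : Fin m → ZMod 2, ∑ i, (u + Pi.single j 1 : Fin m → ZMod 2) i * x i =
      ∑ i, u i * x i + 1 := by
    intro u
    simp only [Pi.add_apply, add_mul, Finset.sum_add_distrib]
    congr 1
    rw [Finset.sum_eq_single j]
    · rw [Pi.single_eq_same, one_mul, hj1]
    · intro b _ hb
      rw [Pi.single_eq_of_ne hb, zero_mul]
    · intro h; exact absurd (Finset.mem_univ _) h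
  have flip : ∀ a b : ZMod 2, (a + (b + 1) ≠ 0 ↔ ¬ (a + b ≠ 0)) := by decide
  have h1 : (Finset.univ.filter (fun u : Fin m → ZMod 2 => c + ∑ i, u i * x i ≠ 0)).card =
      (Finset.univ.filter (fun u : Fin m → ZMod 2 => ¬ (c + ∑ i, u i * x i ≠ 0))).card := by
    apply Finset.card_nbij' (fun u => u + Pi.single j 1) (fun u => u + Pi.single j 1)
    · intro u hu
      rw [Finset.mem_coe, Finset.mem_filter] at *
      refine ⟨Finset.mem_univ _, ?_⟩
      rw [key, flip, not_not]
      exact hu.2
    · intro u hu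
      rw [Finset.mem_coe, Finset.mem_filter] at *
      refine ⟨Finset.mem_univ _, ?_⟩
      rw [key, flip]
      exact hu.2
    · intro u _
      ext i
      simp only [Pi.add_apply]
      rw [add_assoc, CharTwo.add_self_eq_zero, add_zero]
    · intro u _
      ext i
      simp only [Pi.add_apply]
      rw [add_assoc, CharTwo.add_self_eq_zero, add_zero]
  have h2 := Finset.card_filter_add_card_filter_not
    (s := (Finset.univ : Finset (Fin m → ZMod 2))) (fun u => c + ∑ i, u i * x i ≠ 0)
  rw [Finset.card_univ, Fintype.card_fun, ZMod.card, Fintype.card_fin] at h2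
  omega

/-- index set of the coordinates -/
abbrev Idx (a s r : ℕ) : Type :=
  (Fin (s - r) × {u : Fin (a + 1) → ZMod 2 // u ≠ 0}) ⊕ (Fin r × (Fin (a + 1) → ZMod 2))

theorem card_idx {a s r : ℕ} (hr : r ≤ s) :
    Fintype.card (Idx a s r) = (2 ^ (a + 1) - 1) * s + r := by
  have h1 : Fintype.card {u : Fin (a + 1) → ZMod 2 // u ≠ 0} = 2 ^ (a + 1) - 1 := by
    rw [Fintype.card_subtype_compl, Fintype.card_fun, ZMod.card, Fintype.card_fin]
    simp
  rw [Fintype.card_sum, Fintype.card_prod, Fintype.card_prod, h1, Fintype.card_fun, ZMod.card,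
    Fintype.card_fin, Fintype.card_fin, Fintype.card_fin]
  obtain ⟨t, rfl⟩ : ∃ t, s = r + t := ⟨s - r, by omega⟩
  obtain ⟨q, hq⟩ : ∃ q, 2 ^ (a + 1) = q + 1 := ⟨2 ^ (a + 1) - 1, by
    have : 1 ≤ 2 ^ (a + 1) := Nat.one_le_two_pow
    omega⟩
  rw [hq, Nat.add_sub_cancel, Nat.add_sub_cancel_left]
  ring

/-- the code -/
def co (a s r : ℕ) : ((Fin (a + 1) → ZMod 2) × (Fin r → ZMod 2)) →ₗ[ZMod 2]
    (Idx a s r → ZMod 2) where
  toFun v := Sum.elim (fun p => ∑ i, p.2.1 i * v.1 i) (fun p => v.2 p.1 + ∑ i, p.2 i * v.1 i)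
  map_add' v v' := by
    ext1 p
    rcases p with p | p
    · simp only [Sum.elim_inl, Prod.fst_add, Pi.add_apply, mul_add, Finset.sum_add_distrib]
    · simp only [Sum.elim_inr, Prod.fst_add, Prod.snd_add, Pi.add_apply, mul_add,
        Finset.sum_add_distrib]
      ring
  map_smul' c v := by
    ext1 p
    rcases p with p | p
    · simp only [Sum.elim_inl, Prod.smul_fst, Pi.smul_apply, smul_eq_mul, RingHom.id_apply,
        Finset.mul_sum]
      apply Finset.sum_congr rfl
      intro i _
      ring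
    · simp only [Sum.elim_inr, Prod.smul_fst, Prod.smul_snd, Pi.smul_apply, smul_eq_mul,
        RingHom.id_apply, Finset.mul_sum, mul_add]
      congr 1
      apply Finset.sum_congr rfl
      intro i _
      ring

theorem norm_co {a s r : ℕ} (hr : r ≤ s) (v : (Fin (a + 1) → ZMod 2) × (Fin r → ZMod 2))
    (hv : v.1 ≠ 0) : hammingNorm (co a s r v) = 2 ^ a * s := by
  have e1 : hammingNorm (co a s r v) = ∑ p : Idx a s r, if co a s r v p ≠ 0 then 1 else 0 := by
    rw [← Finset.card_filter]
    rfl
  rw [e1, Fintype.sum_sum_type, Fintype.sum_prod_type, Fintype.sum_prod_type]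
  have e2 : ∀ j : Fin (s - r), (∑ u : {u : Fin (a + 1) → ZMod 2 // u ≠ 0},
      if co a s r v (Sum.inl (j, u)) ≠ 0 then 1 else 0) = 2 ^ a := by
    intro j
    have h1 := half_count hv 0
    rw [pow_succ, mul_comm] at h1
    have h2 := Nat.eq_of_mul_eq_mul_right (by norm_num) h1
    rw [← h2, Finset.card_filter]
    change (∑ u : {u : Fin (a + 1) → ZMod 2 // u ≠ 0},
      if (∑ i, u.1 i * v.1 i) ≠ 0 then 1 else 0) = _
    rw [Finset.sum_subtype (Finset.univ.filter (fun u : Fin (a + 1) → ZMod 2 => u ≠ 0))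
      (p := fun u => u ≠ 0) (by simp) (fun u => if (∑ i, u i * v.1 i) ≠ 0 then 1 else 0) |>.symm]
    rw [Finset.sum_filter_of_ne]
    · simp only [zero_add]
    · intro u _ hu h0
      apply hu
      rw [h0]
      simp
  have e3 : ∀ j : Fin r, (∑ u : Fin (a + 1) → ZMod 2,
      if co a s r v (Sum.inr (j, u)) ≠ 0 then 1 else 0) = 2 ^ a := by
    intro j
    have h1 := half_count hv (v.2 j)
    rw [pow_succ, mul_comm] at h1
    have h2 := Nat.eq_of_mul_eq_mul_right (by norm_num) h1
    rw [← h2, Finset.card_filter]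
    rfl
  rw [Finset.sum_congr rfl (fun j _ => e2 j), Finset.sum_congr rfl (fun j _ => e3 j),
    Finset.sum_const, Finset.sum_const, Finset.card_univ, Finset.card_univ, Fintype.card_fin,
    Fintype.card_fin, smul_eq_mul, smul_eq_mul, ← add_mul, Nat.sub_add_cancel hr, mul_comm]

theorem co_injective {a s r : ℕ} (hr : r ≤ s) (hs : 0 < s) : Function.Injective (co a s r) := by
  rw [← LinearMap.ker_eq_bot, LinearMap.ker_eq_bot']
  intro v hv
  have h1 : v.1 = 0 := by
    by_contra hne
    have := norm_co hr v hne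
    rw [hv, hammingNorm_zero] at this
    have h2 : 0 < 2 ^ a * s := by positivity
    omega
  have h2 : v.2 = 0 := by
    ext1 j
    have := congrFun hv (Sum.inr (j, 0))
    change v.2 j + ∑ i, (0 : Fin (a + 1) → ZMod 2) i * v.1 i = 0 at this
    simpa using this
  exact Prod.ext h1 h2

theorem norm_extend {n : ℕ} {ι : Type*} [Fintype ι] [DecidableEq ι] (e : ι ↪ Fin n)
    (f : ι → ZMod 2) : hammingNorm (Function.extend e f 0) = hammingNorm f := by
  unfold hammingNorm
  rw [← Finset.card_map e]
  congr 1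
  ext i
  simp only [Finset.mem_filter, Finset.mem_univ, true_and, Finset.mem_map]
  constructor
  · intro h
    by_cases hi : ∃ j, e j = i
    · obtain ⟨j, rfl⟩ := hi
      rw [e.injective.extend_apply] at h
      exact ⟨j, h, rfl⟩
    · rw [Function.extend_apply' _ _ _ hi] at h
      exact absurd rfl h
  · rintro ⟨j, h, rfl⟩
    rw [e.injective.extend_apply]
    exact h

/-- the lower bound -/
theorem exists_small (n a s r : ℕ) (hs : 0 < s) (hr : r ≤ s)
    (hn : (2 ^ (a + 1) - 1) * s + r ≤ n) :
    ∃ U : Submodule (ZMod 2) (Fin n → ZMod 2), Module.finrank (ZMod 2) U = a + 1 + r ∧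
      2 ^ (a + 1 + r) - 2 ^ r ≤
        {x : Fin n → ZMod 2 | x ∈ U ∧ hammingNorm x = 2 ^ a * s}.ncard := by
  classical
  obtain ⟨e⟩ : Nonempty (Idx a s r ↪ Fin n) := by
    apply Function.Embedding.nonempty_of_card_le
    rw [card_idx hr, Fintype.card_fin]
    exact hn
  set L : ((Fin (a + 1) → ZMod 2) × (Fin r → ZMod 2)) →ₗ[ZMod 2] (Fin n → ZMod 2) :=
    (Function.ExtendByZero.linearMap (ZMod 2) e).comp (co a s r) with hL
  have hLapp : ∀ v, L v = Function.extend e (co a s r v) 0 := fun v => rfl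
  have hinj : Function.Injective L := by
    intro v v' h
    rw [hLapp, hLapp] at h
    apply co_injective hr hs
    ext1 p
    have := congrFun h (e p)
    rwa [e.injective.extend_apply, e.injective.extend_apply] at this
  refine ⟨LinearMap.range L, ?_, ?_⟩
  · rw [LinearMap.finrank_range_of_inj hinj, Module.finrank_prod, Module.finrank_fin_fun,
      Module.finrank_fin_fun]
  · have h1 : (Finset.univ.filter
        (fun v : (Fin (a + 1) → ZMod 2) × (Fin r → ZMod 2) => v.1 ≠ 0)).card =
        2 ^ (a + 1 + r) - 2 ^ r := by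
      have h2 := Finset.card_filter_add_card_filter_not
        (s := (Finset.univ : Finset ((Fin (a + 1) → ZMod 2) × (Fin r → ZMod 2))))
        (fun v => v.1 ≠ 0)
      have h3 : (Finset.univ.filter
        (fun v : (Fin (a + 1) → ZMod 2) × (Fin r → ZMod 2) => ¬ v.1 ≠ 0)).card = 2 ^ r := by
        have : Finset.univ.filter
          (fun v : (Fin (a + 1) → ZMod 2) × (Fin r → ZMod 2) => ¬ v.1 ≠ 0) =
          ({0} : Finset (Fin (a + 1) → ZMod 2)) ×ˢ Finset.univ := by
          ext v
          simp only [Finset.mem_filter, Finset.mem_univ, true_and, Finset.mem_product,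
            Finset.mem_singleton, not_not, and_true]
        rw [this, Finset.card_product, Finset.card_singleton, one_mul, Finset.card_univ,
          Fintype.card_fun, ZMod.card, Fintype.card_fin]
      rw [h3, Finset.card_univ, Fintype.card_prod, Fintype.card_fun, Fintype.card_fun, ZMod.card,
        Fintype.card_fin, Fintype.card_fin, ← pow_add] at h2
      omega
    rw [← h1, ← Set.ncard_coe_finset, ← Set.ncard_image_of_injective _ hinj]
    apply Set.ncard_le_ncard _ (Set.toFinite _)
    rintro x ⟨v, hv, rfl⟩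
    rw [Finset.mem_coe, Finset.mem_filter] at hv
    refine ⟨LinearMap.mem_range_self L v, ?_⟩
    rw [hLapp, norm_extend, norm_co hr v hv.2]

end Pool.Agent.H59.MW
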