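import Pool.Agent.H59.MW.Good

/-!
Existence of the extremal flats in `Fin n`.
-/

namespace Pool.Agent.H59.MW

open Finset Pool.Agent.H59.CW

set_option linter.unusedSectionVars false

variable {n : ℕ}

theorem exists_fresh {X : Finset (Fin n)} (h : X.card < n) : ∃ p, p ∉ X := by
  by_contra hcon
  push Not at hcon
  have : X = Finset.univ := Finset.eq_univ_iff_forall.2 hcon
  rw [this, Finset.card_univ, Fintype.card_fin] at h
  omega

/-- adding `f` fixed elements -/
theorem good_fixed (f : ℕ) {X : Finset (Fin n)} {A : Finset (Finset (Fin n))} {d v N : ℕ}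
    (h : Good X A d v N) (hc : X.card + f ≤ n) :
    ∃ (Y : Finset (Fin n)) (B : Finset (Finset (Fin n))), Good Y B d (v + f) N ∧
      Y.card = X.card + f := by
  induction f with
  | zero => exact ⟨X, A, h, rfl⟩
  | succ f ih =>
    obtain ⟨Y, B, hB, hY⟩ := ih (by omega)
    obtain ⟨p, hp⟩ := exists_fresh (X := Y) (by omega)
    exact ⟨_, _, hB.one hp, by rw [Finset.card_insert_of_notMem hp, hY]; omega⟩

/-- adding `f` opposite pairs -/
theorem good_pairs (f : ℕ) {X : Finset (Fin n)} {A : Finset (Finset (Fin n))} {d v N : ℕ}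
    (h : Good X A d v N) (hc : X.card + 2 * f ≤ n) :
    ∃ (Y : Finset (Fin n)) (B : Finset (Finset (Fin n))), Good Y B (d + f) (v + f) (2 ^ f * N) ∧
      Y.card = X.card + 2 * f := by
  induction f with
  | zero => exact ⟨X, A, by simpa using h, rfl⟩
  | succ f ih =>
    obtain ⟨Y, B, hB, hY⟩ := ih (by omega)
    obtain ⟨p, hp⟩ := exists_fresh (X := Y) (by omega)
    obtain ⟨r, hr⟩ := exists_fresh (X := insert p Y) (by
      rw [Finset.card_insert_of_notMem hp]; omega)
    rw [Finset.mem_insert, not_or] at hr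
    refine ⟨insert p (insert r Y), B.image (fun x => insert p x) ∪ B.image (fun x => insert r x),
      ?_, ?_⟩
    · have := hB.pair (p := p) (r := r) hp hr.2 (fun hh => hr.1 hh.symm)
      have e : 2 ^ (f + 1) * N = 2 * (2 ^ f * N) := by rw [pow_succ]; ring
      rw [e]
      exact this
    · rw [Finset.card_insert_of_notMem, Finset.card_insert_of_notMem hr.2, hY]
      · omega
      · rw [Finset.mem_insert, not_or]
        exact ⟨fun hh => hr.1 hh.symm, hp⟩

/-- the trivial flat -/
theorem good_empty : Good (∅ : Finset (Fin n)) {∅} 0 0 1 := by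
  refine ⟨by simp, ⟨by simp, ?_⟩, by simp, by simp, rfl⟩
  intro x hx y hy z hz
  rw [Finset.mem_singleton] at *
  rw [hx, hy, hz]
  rfl

/-- all sets of one parity in a set of size `2e` -/
theorem good_parity {e : ℕ} (he : 1 ≤ e) (hn : 2 * e ≤ n) :
    ∃ (X : Finset (Fin n)) (A : Finset (Finset (Fin n))), Good X A (2 * e - 1) e
      ((2 * e).choose e) ∧ X.card = 2 * e := by
  obtain ⟨S, _, hS⟩ := Finset.exists_subset_card_eq
    (s := (Finset.univ : Finset (Fin n))) (n := 2 * e) (by simpa using hn)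
  have hS' : S.card = (2 * e - 1) + 1 := by omega
  have hf : Flat S.powerset := by
    refine ⟨⟨∅, by simp⟩, ?_⟩
    intro x hx y hy z hz
    rw [Finset.mem_powerset] at *
    exact tri_subset hx hy hz
  have hex : ∃ x ∈ S.powerset, x.card = e := by
    obtain ⟨t, ht, htc⟩ := Finset.exists_subset_card_eq (s := S) (n := e) (by omega)
    exact ⟨t, Finset.mem_powerset.2 ht, htc⟩
  have hcount : ∀ (p : Finset (Fin n) → Prop) [DecidablePred p],
      (∀ x, x.card = e → p x) → cnt (S.powerset.filter p) e = (2 * e).choose e := by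
    intro p _ hp
    unfold CW.cnt
    rw [← hS, ← Finset.card_powersetCard]
    congr 1
    ext x
    simp only [Finset.mem_powersetCard, Finset.mem_filter, Finset.mem_powerset]
    constructor
    · rintro ⟨h1, h2⟩; exact ⟨h1.1, h2⟩
    · rintro ⟨h1, h2⟩; exact ⟨⟨h1, hp x h2⟩, h2⟩
  by_cases hodd : Odd e
  · refine ⟨S, S.powerset.filter (fun x => Odd x.card), ⟨?_, ?_, ?_, ?_, ?_⟩, hS⟩
    · intro x hx
      rw [Finset.mem_filter, Finset.mem_powerset] at hx
      exact hx.1
    · apply hf.filter aff_odd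
      obtain ⟨x, hx, hxc⟩ := hex
      exact ⟨x, hx, by rw [hxc]; exact hodd⟩
    · exact (card_odd_powerset hS').1
    · intro x hx
      rw [Finset.mem_filter] at hx
      exact iff_of_true hx.2 hodd
    · exact hcount _ (fun x hx => by rw [hx]; exact hodd)
  · refine ⟨S, S.powerset.filter (fun x => ¬ Odd x.card), ⟨?_, ?_, ?_, ?_, ?_⟩, hS⟩
    · intro x hx
      rw [Finset.mem_filter, Finset.mem_powerset] at hx
      exact hx.1
    · apply hf.filter aff_odd.not
      obtain ⟨x, hx, hxc⟩ := hex
      exact ⟨x, hx, by rw [hxc]; exact hodd⟩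
    · exact (card_odd_powerset hS').2
    · intro x hx
      rw [Finset.mem_filter] at hx
      exact iff_of_false hx.2 hodd
    · exact hcount _ (fun x hx => by rw [hx]; exact hodd)

/-- the extremal flat in the middle range -/
theorem good_mid {e v : ℕ} (he : 1 ≤ e) (hev : e ≤ v) (hn : 2 * v ≤ n) :
    ∃ (X : Finset (Fin n)) (A : Finset (Finset (Fin n))), Good X A (v + e - 1) v
      (2 ^ (v - e) * (2 * e).choose e) := by
  obtain ⟨X, A, hA, hX⟩ := good_parity (n := n) he (by omega)
  obtain ⟨Y, B, hB, hY⟩ := good_pairs (v - e) hA (by omega)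
  refine ⟨Y, B, ?_⟩
  have e1 : 2 * e - 1 + (v - e) = v + e - 1 := by omega
  have e2 : e + (v - e) = v := by omega
  rw [e1, e2] at hB
  exact hB

/-- the extremal flat for small dimension -/
theorem good_small {d v : ℕ} (hd : d ≤ v) (hn : 2 * v ≤ n) :
    ∃ (X : Finset (Fin n)) (A : Finset (Finset (Fin n))), Good X A d v (2 ^ d) := by
  obtain ⟨Y, B, hB, hY⟩ := good_pairs d (good_empty (n := n)) (by simp; omega)
  simp only [zero_add, Finset.card_empty, mul_one] at hB hY
  obtain ⟨Z, C, hC, _⟩ := good_fixed (v - d) hB (by omega)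
  have e1 : d + (v - d) = v := by omega
  rw [e1] at hC
  exact ⟨Z, C, hC⟩

/-- linear span of a flat of odd sets -/
theorem span_odd {A : Finset (Finset (Fin n))} (hA : Flat A) {d : ℕ} (hc : A.card = 2 ^ d)
    (ho : ∀ x ∈ A, Odd x.card) {w : ℕ} (hw : Odd w) :
    ∃ B : Finset (Finset (Fin n)), ∅ ∈ B ∧ (∀ x ∈ B, ∀ y ∈ B, symmDiff x y ∈ B) ∧
      B.card = 2 ^ (d + 1) ∧ cnt B w = cnt A w := by
  obtain ⟨z, hz⟩ := hA.1
  set B := A ∪ A.image (fun x => symmDiff x z) with hB
  have mem : ∀ x, x ∈ B ↔ (x ∈ A ∨ symmDiff x z ∈ A) := by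
    intro x
    rw [hB, Finset.mem_union, Finset.mem_image]
    constructor
    · rintro (h | ⟨y, hy, rfl⟩)
      · exact Or.inl h
      · right; rw [symmDiff_inv]; exact hy
    · rintro (h | h)
      · exact Or.inl h
      · right; exact ⟨_, h, symmDiff_inv x z⟩
  have hsd : ∀ x y : Finset (Fin n), ∀ t, t ∈ symmDiff x y ↔ ¬ (t ∈ x ↔ t ∈ y) := by
    intro x y t
    rw [Finset.mem_symmDiff]; tauto
  have heven : ∀ x, symmDiff x z ∈ A → ¬ Odd x.card := by
    intro x hx
    have h1 := ho _ hx
    rw [odd_symmDiff] at h1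
    have h2 := ho z hz
    tauto
  refine ⟨B, ?_, ?_, ?_, ?_⟩
  · rw [mem]
    right
    have : symmDiff ∅ z = z := by
      ext t; rw [hsd]; simp
    rw [this]; exact hz
  · intro x hx y hy
    rw [mem] at hx hy ⊢
    rcases hx with hx | hx <;> rcases hy with hy | hy
    · right
      have := hA.2 x hx y hy z hz
      exact this
    · left
      have := hA.2 x hx _ hy z hz
      convert this using 1
      ext t; rw [hsd, mem_tri, hsd]
      by_cases h1 : t ∈ x <;> by_cases h2 : t ∈ y <;> by_cases h3 : t ∈ z <;> simp [h1, h2, h3]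
    · left
      have := hA.2 _ hx y hy z hz
      convert this using 1
      ext t; rw [hsd, mem_tri, hsd]
      by_cases h1 : t ∈ x <;> by_cases h2 : t ∈ y <;> by_cases h3 : t ∈ z <;> simp [h1, h2, h3]
    · right
      have := hA.2 _ hx _ hy z hz
      convert this using 1
      ext t; rw [hsd, hsd, mem_tri, hsd, hsd]
      by_cases h1 : t ∈ x <;> by_cases h2 : t ∈ y <;> by_cases h3 : t ∈ z <;> simp [h1, h2, h3]
  · rw [hB, Finset.card_union_of_disjoint, Finset.card_image_of_injective, hc, pow_succ]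
    · ring
    · intro x y h
      have h' : symmDiff x z = symmDiff y z := h
      rw [← symmDiff_inv x z, h', symmDiff_inv]
    · rw [Finset.disjoint_left]
      intro x hx hx'
      rw [Finset.mem_image] at hx'
      obtain ⟨y, hy, rfl⟩ := hx'
      exact heven _ (by rw [symmDiff_inv]; exact hy) (ho _ hx)
  · unfold CW.cnt
    congr 1
    ext x
    simp only [Finset.mem_filter, mem]
    constructor
    · rintro ⟨h | h, h2⟩
      · exact ⟨h, h2⟩
      · exact absurd (by rw [h2]; exact hw) (heven x h)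
    · rintro ⟨h, h2⟩
      exact ⟨Or.inl h, h2⟩

/-- complements of a flat -/
theorem compl_flat {A : Finset (Finset (Fin n))} (hA : Flat A) {d : ℕ} (hc : A.card = 2 ^ d)
    {w : ℕ} (hw : w ≤ n) :
    Flat (A.image (fun x => xᶜ)) ∧ (A.image (fun x => xᶜ)).card = 2 ^ d ∧
      cnt (A.image (fun x => xᶜ)) (n - w) = cnt A w := by
  refine ⟨⟨hA.1.image _, ?_⟩, ?_, ?_⟩
  · intro x hx y hy z hz
    rw [Finset.mem_image] at *
    obtain ⟨x', hx', rfl⟩ := hx
    obtain ⟨y', hy', rfl⟩ := hy
    obtain ⟨z', hz', rfl⟩ := hz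
    exact ⟨tri x' y' z', hA.2 _ hx' _ hy' _ hz', (compl_tri _ _ _).symm⟩
  · rw [Finset.card_image_of_injective _ compl_injective, hc]
  · unfold CW.cnt
    symm
    apply Finset.card_nbij (fun x => xᶜ)
    · intro x hx
      rw [Finset.mem_coe, Finset.mem_filter] at hx ⊢
      refine ⟨Finset.mem_image_of_mem _ hx.1, ?_⟩
      rw [Finset.card_compl, Fintype.card_fin, hx.2]
    · exact compl_injective.injOn
    · intro x hx
      rw [Finset.mem_coe, Finset.mem_filter, Finset.mem_image] at hx
      obtain ⟨⟨y, hy, rfl⟩, hcd⟩ := hx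
      refine ⟨y, ?_, rfl⟩
      rw [Finset.mem_coe, Finset.mem_filter]
      refine ⟨hy, ?_⟩
      rw [Finset.card_compl, Fintype.card_fin] at hcd
      have : y.card ≤ n := by
        have := Finset.card_le_univ y
        rwa [Fintype.card_fin] at this
      omega

end Pool.Agent.H59.MW
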