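import Pool.Agent.H59.MW.All
import Pool.Agent.H59.MW.Good2

/-!
Upper and lower bounds for odd weight, middle and small dimension.
-/

namespace Pool.Agent.H59.MW

open Finset Pool.Agent.H59.CW

set_option linter.unusedSectionVars false

variable {n : ℕ}

/-- upper bound for a flat of dimension `d = k - 1`, `v < k ≤ 2 v` -/
theorem cnt_le_mid {A : Finset (Finset (Fin n))} (hA : Flat A) {k v : ℕ}
    (hd : A.card = 2 ^ (k - 1)) (h1 : v < k) (h2 : k ≤ 2 * v) :
    cnt A v ≤ (2 * (k - v)).choose (k - v) * 2 ^ (2 * v - k) := by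
  have h := affine_bound hA (d := k - 1) (w := v) (e := k - v) hd (by omega) (by omega)
  have e1 : 2 ^ v = 2 ^ (2 * v - k) * 2 ^ (k - v) := by
    rw [← pow_add]; congr 1; omega
  rw [e1, ← mul_assoc] at h
  exact Nat.le_of_mul_le_mul_right h (by positivity)

theorem cnt_le_card {A : Finset (Finset (Fin n))} {v : ℕ} : cnt A v ≤ A.card := by
  unfold CW.cnt
  exact Finset.card_le_card (Finset.filter_subset _ _)

theorem cnt_zero {A : Finset (Finset (Fin n))} {w : ℕ} (hw : Odd w)
    (h : ¬ ∃ x ∈ A, Odd x.card) : cnt A w = 0 := by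
  unfold CW.cnt
  rw [Finset.card_eq_zero]
  apply Finset.filter_eq_empty_iff.2
  intro x hx hxc
  exact h ⟨x, hx, by rw [hxc]; exact hw⟩

/-- reduction of the upper bound for a linear family to flats of codimension one -/
theorem upper_of_flat {A : Finset (Finset (Fin n))} (hA : Flat A) (h0 : ∅ ∈ A) {k w N : ℕ}
    (hd : A.card = 2 ^ k) (hw : Odd w) (hwn : w ≤ n)
    (H : ∀ B : Finset (Finset (Fin n)), Flat B → B.card = 2 ^ (k - 1) →
      cnt B (min w (n - w)) ≤ N) : cnt A w ≤ N := by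
  by_cases hne : ∃ x ∈ A, Odd x.card
  · obtain ⟨d, rfl, hc⟩ := odd_part hA h0 hd hne
    have hf : Flat (A.filter (fun x => Odd x.card)) := hA.filter aff_odd hne
    rw [cnt_odd hw]
    rcases le_total w (n - w) with h | h
    · rw [min_eq_left h] at H
      exact H _ hf (by simpa using hc)
    · rw [min_eq_right h] at H
      obtain ⟨c1, c2, c3⟩ := compl_flat hf hc hwn
      rw [← c3]
      exact H _ c1 (by simpa using c2)
  · rw [cnt_zero hw hne]
    exact Nat.zero_le _

/-- from an extremal flat to a linear family -/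
theorem lower_of_flat {k w N : ℕ} (hk : 1 ≤ k) (hw : Odd w) (hwn : w ≤ n)
    (H : ∃ (X : Finset (Fin n)) (A : Finset (Finset (Fin n))),
      Good X A (k - 1) (min w (n - w)) N) :
    ∃ B : Finset (Finset (Fin n)), ∅ ∈ B ∧ (∀ x ∈ B, ∀ y ∈ B, symmDiff x y ∈ B) ∧
      B.card = 2 ^ k ∧ cnt B w = N := by
  obtain ⟨X, A, hA⟩ := H
  obtain ⟨d, rfl⟩ : ∃ d, k = d + 1 := ⟨k - 1, by omega⟩
  rw [Nat.add_sub_cancel] at hA
  rcases le_total w (n - w) with h | h
  · rw [min_eq_left h] at hA
    obtain ⟨B, h1, h2, h3, h4⟩ := span_odd hA.flat hA.card (fun x hx => (hA.par x hx).2 hw) hw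
    exact ⟨B, h1, h2, h3, by rw [h4, hA.cnt]⟩
  · rw [min_eq_right h] at hA
    obtain ⟨c1, c2, c3⟩ := compl_flat hA.flat hA.card (w := n - w) (by omega)
    have e1 : n - (n - w) = w := by omega
    rw [e1] at c3
    have hodd : ∀ x ∈ A.image (fun x => xᶜ), Odd x.card := by
      intro x hx
      rw [Finset.mem_image] at hx
      obtain ⟨y, hy, rfl⟩ := hx
      have h1 := hA.par y hy
      have h2 : y.card ≤ n := by
        have := Finset.card_le_univ y
        rwa [Fintype.card_fin] at this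
      rw [Finset.card_compl, Fintype.card_fin]
      rw [Nat.odd_sub hwn, ← Nat.not_odd_iff_even] at h1
      rw [Nat.odd_sub h2, ← Nat.not_odd_iff_even]
      tauto
    obtain ⟨B, h1, h2, h3, h4⟩ := span_odd c1 c2 hodd hw
    exact ⟨B, h1, h2, h3, by rw [h4, c3, hA.cnt]⟩

end Pool.Agent.H59.MW
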