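import Pool.Agent.H59.MW.BDefs

/-!
# MW-ACT: the number of `u` for which a vector is active

`S = {b : v b ≠ 0}` (there `v b = 1`), `v ⬝ᵥ u = ∑_{b ∈ S} u b`; `msk ε u v ≠ 0` iff `u b = ε` for some `b ∈ S`.
* `S = {b, b'}`: `v ⬝ᵥ u = u b + u b'`. `ε = 0`: active iff `u b ≠ u b'` (then one of them is 0): half of all `u`.
  `ε = 1`: `v ⬝ᵥ u ≠ 1` iff `u b = u b'`, and one of them is 1: `u b = u b' = 1`: a quarter of all `u`.
* `|S| ≥ 3`: `v ⬝ᵥ u ≠ ε` for half of all `u` (flip `u` at a point of `S`: involution). Among them only those with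
  `u b ≠ ε` for all `b ∈ S` are not active; the number of `u` with prescribed values at three points of `S` is
  `2^(|C|-3)`, i.e. one eighth. So at least `1/2 - 1/8`.
Useful: for distinct `b₁,…,b_k` the number of `u` with `u b_i = c_i` is `2^|C| / 2^k` (e.g. by flipping: the map
`u ↦ u + ∑ ε_i single b_i` permutes the `2^k` classes; or `Fintype.card_pi`/`Fintype.piFinset`).
-/
namespace Pool.Agent.H59.MW

open Finset

variable {C ρ : Type*} [Fintype C] [DecidableEq C] [DecidableEq ρ]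

theorem act_aux_cnt_fix (T : Finset C) (c : C → ZMod 2) :
    ((univ.filter (fun u : C → ZMod 2 => ∀ b ∈ T, u b = c b)).card : ℝ) * 2 ^ T.card
      = 2 ^ Fintype.card C := by
  have h1 : (univ.filter (fun u : C → ZMod 2 => ∀ b ∈ T, u b = c b))
      = Fintype.piFinset (fun b => if b ∈ T then ({c b} : Finset (ZMod 2)) else univ) := by
    ext u
    simp only [mem_filter, mem_univ, true_and, Fintype.mem_piFinset]
    constructor
    · intro h b
      by_cases hb : b ∈ T
      · simp [hb, h b hb]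
      · simp [hb]
    · intro h b hb
      have := h b
      simpa [hb] using this
  rw [h1, Fintype.card_piFinset]
  have h2 : ∀ b : C, (if b ∈ T then ({c b} : Finset (ZMod 2)) else univ).card
      = if b ∈ T then 1 else 2 := by
    intro b
    split_ifs
    · simp
    · simp [ZMod.card]
  simp only [h2]
  have h3 : (2 : ℝ) ^ T.card = ∏ b : C, (if b ∈ T then (2 : ℝ) else 1) := by
    rw [Finset.prod_ite]
    simp
  rw [h3]
  push_cast
  rw [← Finset.prod_mul_distrib]
  have h4 : ∀ b : C, ((if b ∈ T then (1 : ℝ) else 2) * if b ∈ T then (2 : ℝ) else 1) = 2 := by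
    intro b
    split_ifs <;> norm_num
  simp only [h4]
  simp

theorem act_aux_cnt_two (x y : C) (hxy : x ≠ y) (p q : ZMod 2) :
    ((univ.filter (fun u : C → ZMod 2 => u x = p ∧ u y = q)).card : ℝ)
      = 1 / 4 * 2 ^ Fintype.card C := by
  have h := act_aux_cnt_fix ({x, y} : Finset C) (fun b => if b = x then p else q)
  rw [Finset.card_pair hxy] at h
  have e : (univ.filter (fun u : C → ZMod 2 => ∀ b ∈ ({x, y} : Finset C), u b = if b = x then p else q))
      = (univ.filter (fun u : C → ZMod 2 => u x = p ∧ u y = q)) := by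
    ext u
    simp only [mem_filter, mem_univ, true_and, mem_insert, mem_singleton]
    constructor
    · intro h
      have h1 := h x (Or.inl rfl)
      have h2 := h y (Or.inr rfl)
      rw [if_pos rfl] at h1
      rw [if_neg (Ne.symm hxy)] at h2
      exact ⟨h1, h2⟩
    · rintro ⟨h1, h2⟩ b (rfl | rfl)
      · simp [h1]
      · rw [if_neg (Ne.symm hxy)]
        exact h2
  rw [e] at h
  linarith

theorem act_aux_zne_zero (z : ZMod 2) : z ≠ 0 ↔ z = 1 := by
  revert z; decide

omit [DecidableEq C] in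
theorem act_aux_msk_ne (ε : ZMod 2) (u v : C → ZMod 2) :
    msk ε u v ≠ 0 ↔ ∃ b, u b = ε ∧ v b ≠ 0 := by
  constructor
  · intro h
    by_contra hc
    push Not at hc
    apply h
    ext b
    simp only [msk, Pi.zero_apply]
    split_ifs with hb
    · exact hc b hb
    · rfl
  · rintro ⟨b, hb, hv⟩ h
    apply hv
    have := congrFun h b
    simpa [msk, hb] using this

theorem act_aux_two_supp (v : C → ZMod 2) (h : (univ.filter (fun b => v b ≠ 0)).card = 2) :
    ∃ x y : C, x ≠ y ∧ (∀ u : C → ZMod 2, v ⬝ᵥ u = u x + u y) ∧ ∀ b, v b ≠ 0 ↔ b = x ∨ b = y := by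
  obtain ⟨x, y, hxy, he⟩ := Finset.card_eq_two.1 h
  have hb : ∀ b, v b ≠ 0 ↔ b = x ∨ b = y := by
    intro b
    have : b ∈ univ.filter (fun b => v b ≠ 0) ↔ b ∈ ({x, y} : Finset C) := by rw [he]
    simpa using this
  refine ⟨x, y, hxy, ?_, hb⟩
  intro u
  have h1 : v ⬝ᵥ u = ∑ b ∈ ({x, y} : Finset C), v b * u b := by
    rw [dotProduct]
    symm
    apply Finset.sum_subset (Finset.subset_univ _)
    intro b _ hbn
    have : ¬ (v b ≠ 0) := by
      rw [hb]
      simpa using hbn
    push Not at this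
    rw [this, zero_mul]
  rw [h1, Finset.sum_pair hxy]
  have hx : v x = 1 := (act_aux_zne_zero _).1 ((hb x).2 (Or.inl rfl))
  have hy : v y = 1 := (act_aux_zne_zero _).1 ((hb y).2 (Or.inr rfl))
  rw [hx, hy, one_mul, one_mul]

theorem act_aux_zact0 (p q : ZMod 2) : (p + q ≠ 0 ∧ (p = 0 ∨ q = 0)) ↔ ((p = 0 ∧ q = 1) ∨ (p = 1 ∧ q = 0)) := by
  revert p q; decide

theorem act_aux_zact1 (p q : ZMod 2) : (p + q ≠ 1 ∧ (p = 1 ∨ q = 1)) ↔ (p = 1 ∧ q = 1) := by
  revert p q; decide

omit [DecidableEq C] in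
theorem act_two_iff (v : C → ZMod 2) (x y : C) (hd : ∀ u : C → ZMod 2, v ⬝ᵥ u = u x + u y)
    (hb : ∀ b, v b ≠ 0 ↔ b = x ∨ b = y) (ε : ZMod 2) (u : C → ZMod 2) :
    act ε u v ↔ (u x + u y ≠ ε ∧ (u x = ε ∨ u y = ε)) := by
  unfold act
  rw [act_aux_msk_ne, hd u]
  constructor
  · rintro ⟨h1, b, h2, h3⟩
    refine ⟨h1, ?_⟩
    rcases (hb b).1 h3 with rfl | rfl
    · exact Or.inl h2
    · exact Or.inr h2
  · rintro ⟨h1, h2 | h2⟩
    · exact ⟨h1, x, h2, (hb x).2 (Or.inl rfl)⟩
    · exact ⟨h1, y, h2, (hb y).2 (Or.inr rfl)⟩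

theorem act_two_zero (v : C → ZMod 2) (h : (univ.filter (fun b => v b ≠ 0)).card = 2) :
    ((univ.filter (fun u : C → ZMod 2 => act 0 u v)).card : ℝ) = 1 / 2 * 2 ^ Fintype.card C := by
  obtain ⟨x, y, hxy, hd, hb⟩ := act_aux_two_supp v h
  have e : (univ.filter (fun u : C → ZMod 2 => act 0 u v))
      = (univ.filter (fun u : C → ZMod 2 => u x = 0 ∧ u y = 1)) ∪
        (univ.filter (fun u : C → ZMod 2 => u x = 1 ∧ u y = 0)) := by
    ext u
    simp only [mem_filter, mem_univ, true_and, mem_union]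
    rw [act_two_iff v x y hd hb, act_aux_zact0]
  have hdj : Disjoint (univ.filter (fun u : C → ZMod 2 => u x = 0 ∧ u y = 1))
        (univ.filter (fun u : C → ZMod 2 => u x = 1 ∧ u y = 0)) := by
    rw [Finset.disjoint_filter]
    rintro u _ ⟨h1, _⟩ ⟨h2, _⟩
    rw [h1] at h2
    exact absurd h2 (by decide)
  rw [e, Finset.card_union_of_disjoint hdj]
  push_cast
  rw [act_aux_cnt_two x y hxy, act_aux_cnt_two x y hxy]
  ring

theorem act_two_one (v : C → ZMod 2) (h : (univ.filter (fun b => v b ≠ 0)).card = 2) :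
    ((univ.filter (fun u : C → ZMod 2 => act 1 u v)).card : ℝ) = 1 / 4 * 2 ^ Fintype.card C := by
  obtain ⟨x, y, hxy, hd, hb⟩ := act_aux_two_supp v h
  have e : (univ.filter (fun u : C → ZMod 2 => act 1 u v))
      = (univ.filter (fun u : C → ZMod 2 => u x = 1 ∧ u y = 1)) := by
    ext u
    simp only [mem_filter, mem_univ, true_and]
    rw [act_two_iff v x y hd hb, act_aux_zact1]
  rw [e, act_aux_cnt_two x y hxy]

theorem act_aux_zadd_one_ne_p (z e : ZMod 2) : z + 1 ≠ e ↔ z = e := by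
  revert z e; decide

theorem act_aux_znot (z e : ZMod 2) : z ≠ e ↔ z = e + 1 := by
  revert z e; decide

theorem act_aux_card_ne_half (v : C → ZMod 2) (x : C) (hx : v x ≠ 0) (ε : ZMod 2) :
    ((univ.filter (fun u : C → ZMod 2 => v ⬝ᵥ u ≠ ε)).card : ℝ) = 1 / 2 * 2 ^ Fintype.card C := by
  have hx1 : v x = 1 := (act_aux_zne_zero _).1 hx
  have h1 : (univ.filter (fun u : C → ZMod 2 => v ⬝ᵥ u ≠ ε)).card
      = (univ.filter (fun u : C → ZMod 2 => v ⬝ᵥ u = ε)).card := by
    apply Finset.card_bij (fun u _ => u + Pi.single x 1)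
    · intro u hu
      simp only [mem_filter, mem_univ, true_and] at hu ⊢
      rw [dotProduct_add, dotProduct_single, hx1, mul_one]
      exact (by revert hu; generalize v ⬝ᵥ u = z; revert z ε; decide)
    · intro u _ w _ e
      exact add_right_cancel e
    · intro w hw
      refine ⟨w + Pi.single x 1, ?_, ?_⟩
      · simp only [mem_filter, mem_univ, true_and] at hw ⊢
        rw [dotProduct_add, dotProduct_single, hx1, mul_one, act_aux_zadd_one_ne_p]
        exact hw
      · rw [add_assoc]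
        ext b
        simp only [Pi.add_apply]
        generalize (Pi.single x (1 : ZMod 2) : C → ZMod 2) b = z
        have : z + z = 0 := by revert z; decide
        rw [this, add_zero]
  have h2 := Finset.card_filter_add_card_filter_not (s := (univ : Finset (C → ZMod 2)))
    (fun u : C → ZMod 2 => v ⬝ᵥ u = ε)
  have h3 : (univ : Finset (C → ZMod 2)).card = 2 ^ Fintype.card C := by
    simp [ZMod.card]
  rw [h3] at h2
  have h4 : (((univ.filter (fun u : C → ZMod 2 => v ⬝ᵥ u = ε)).card : ℝ) +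
    ((univ.filter (fun u : C → ZMod 2 => ¬ v ⬝ᵥ u = ε)).card : ℝ)) = 2 ^ Fintype.card C := by
    exact_mod_cast h2
  have h5 : ((univ.filter (fun u : C → ZMod 2 => v ⬝ᵥ u ≠ ε)).card : ℝ)
      = ((univ.filter (fun u : C → ZMod 2 => v ⬝ᵥ u = ε)).card : ℝ) := by exact_mod_cast h1
  have h6 : ((univ.filter (fun u : C → ZMod 2 => ¬ v ⬝ᵥ u = ε)).card : ℝ)
    = ((univ.filter (fun u : C → ZMod 2 => v ⬝ᵥ u ≠ ε)).card : ℝ) := rfl
  rw [h6] at h4
  linarith

theorem act_three (ε : ZMod 2) (v : C → ZMod 2)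
    (h : 3 ≤ (univ.filter (fun b => v b ≠ 0)).card) :
    3 / 8 * 2 ^ Fintype.card C ≤ ((univ.filter (fun u : C → ZMod 2 => act ε u v)).card : ℝ) := by
  obtain ⟨T, hT, hTc⟩ := Finset.exists_subset_card_eq h
  have hne : T.Nonempty := by
    rw [← Finset.card_pos, hTc]
    norm_num
  obtain ⟨x, hx⟩ := hne
  have hxv : v x ≠ 0 := by simpa using hT hx
  have h1 := act_aux_card_ne_half v x hxv ε
  have h2 := act_aux_cnt_fix T (fun _ => ε + 1)
  rw [hTc] at h2
  have hsub : (univ.filter (fun u : C → ZMod 2 => v ⬝ᵥ u ≠ ε)) ⊆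
      (univ.filter (fun u : C → ZMod 2 => act ε u v)) ∪
        (univ.filter (fun u : C → ZMod 2 => ∀ b ∈ T, u b = ε + 1)) := by
    intro u hu
    simp only [mem_filter, mem_univ, true_and, mem_union] at hu ⊢
    by_cases hm : msk ε u v ≠ 0
    · exact Or.inl ⟨hu, hm⟩
    · right
      intro b hb
      rw [← act_aux_znot]
      intro hub
      apply hm
      rw [act_aux_msk_ne]
      exact ⟨b, hub, by simpa using hT hb⟩
  have h3 := (Finset.card_le_card hsub).trans (Finset.card_union_le _ _)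
  have h4 : ((univ.filter (fun u : C → ZMod 2 => v ⬝ᵥ u ≠ ε)).card : ℝ) ≤
      ((univ.filter (fun u : C → ZMod 2 => act ε u v)).card : ℝ) +
      ((univ.filter (fun u : C → ZMod 2 => ∀ b ∈ T, u b = ε + 1)).card : ℝ) := by
    exact_mod_cast h3
  linarith

end Pool.Agent.H59.MW
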