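import Pool.Agent.H59.MW.Fin2

/-!
# The affine theorem for all `n` and `d`
-/

namespace Pool.Agent.H59.MW

open Finset Pool.Agent.H59.CW

set_option linter.unusedSectionVars false

variable {α : Type*} [DecidableEq α]

theorem sdiff_tri {U x y z : Finset α} (hx : x ⊆ U) (hy : y ⊆ U) (hz : z ⊆ U) :
    tri (U \ x) (U \ y) (U \ z) = U \ tri x y z := by
  ext i
  simp only [mem_tri, Finset.mem_sdiff]
  by_cases h0 : i ∈ U
  · simp only [h0, true_and]
    tauto
  · have h1 : i ∉ x := fun h => h0 (hx h)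
    have h2 : i ∉ y := fun h => h0 (hy h)
    have h3 : i ∉ z := fun h => h0 (hz h)
    simp [h0]

/-- the family of complements -/
def comp (U : Finset α) (A : Finset (Finset α)) : Finset (Finset α) := A.image (fun x => U \ x)

theorem comp_inj {U : Finset α} {A : Finset (Finset α)} (hU : ∀ x ∈ A, x ⊆ U) :
    Set.InjOn (fun x => U \ x) (A : Set (Finset α)) := by
  intro x hx y hy h
  have h' : U \ x = U \ y := h
  rw [← Finset.sdiff_sdiff_eq_self (hU x hx), ← Finset.sdiff_sdiff_eq_self (hU y hy), h']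

theorem comp_facts {U : Finset α} {A : Finset (Finset α)} (hU : ∀ x ∈ A, x ⊆ U) (hA : Flat A) :
    (∀ x ∈ comp U A, x ⊆ U) ∧ Flat (comp U A) ∧ (comp U A).card = A.card := by
  refine ⟨?_, ⟨hA.1.image _, ?_⟩, Finset.card_image_of_injOn (comp_inj hU)⟩
  · intro x hx
    unfold comp at hx
    rw [Finset.mem_image] at hx
    obtain ⟨y, _, rfl⟩ := hx
    exact Finset.sdiff_subset
  · intro x hx y hy z hz
    unfold comp at *
    rw [Finset.mem_image] at *
    obtain ⟨x, hx, rfl⟩ := hx
    obtain ⟨y, hy, rfl⟩ := hy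
    obtain ⟨z, hz, rfl⟩ := hz
    exact ⟨tri x y z, hA.2 x hx y hy z hz, (sdiff_tri (hU x hx) (hU y hy) (hU z hz)).symm⟩

theorem comp_cnt {U : Finset α} {A : Finset (Finset α)} (hU : ∀ x ∈ A, x ⊆ U) {w : ℕ}
    (hw : w ≤ U.card) : cnt A w ≤ cnt (comp U A) (U.card - w) := by
  unfold cnt
  apply Finset.card_le_card_of_injOn (fun x => U \ x)
  · intro x hx
    rw [Finset.mem_coe, Finset.mem_filter] at hx ⊢
    refine ⟨Finset.mem_image_of_mem _ hx.1, ?_⟩
    rw [Finset.card_sdiff_of_subset (hU x hx.1), hx.2]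
  · exact (comp_inj hU).mono (Finset.coe_subset.2 (Finset.filter_subset _ _))

theorem TT_step {n d : ℕ} (ih1 : ∀ n' < n, ∀ d', TT α n' d') (ih2 : ∀ d' < d, TT α n d') :
    TT α n d := by
  -- the case `2w ≤ n`
  have key : ∀ (U : Finset α) (A : Finset (Finset α)), U.card = n → (∀ x ∈ A, x ⊆ U) → Flat A →
      A.card = 2 ^ d → ∀ w : ℕ, 2 * w ≤ n → (cnt A w : ℝ) ≤ 2 ^ d * bt (1 + d - w) := by
    intro U A hn hU hA hd w hw
    by_contra hcon
    push Not at hcon
    have hcl : (cnt A w : ℝ) ≤ 2 ^ d := by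
      have : cnt A w ≤ A.card := Finset.card_filter_le _ _
      rw [hd] at this
      exact_mod_cast this
    have he : ¬ ((1 : ℤ) + d - w ≤ 1) := by
      intro h
      rw [bt_of_le h] at hcon
      linarith
    have he2 : w + 1 ≤ d := by omega
    have hh : MC U A d w (d + 1 - w) (n - 2 * w) := by
      refine ⟨hU, hA, hd, by omega, by omega, by omega, by rw [hn]; exact ih1,
        by rw [hn]; exact ih2, ?_⟩
      have : ((d + 1 - w : ℕ) : ℤ) = 1 + d - w := by omega
      rw [this]
      exact hcon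
    exact hh.false
  intro U A hn hU hA hd w
  rcases le_or_gt (2 * w) n with hw | hw
  · exact key U A hn hU hA hd w hw
  · rcases le_or_gt w n with hwn | hwn
    · obtain ⟨c1, c2, c3⟩ := comp_facts hU hA
      have h1 := key U (comp U A) hn c1 c2 (by rw [c3, hd]) (n - w) (by omega)
      have h2 : (cnt A w : ℝ) ≤ cnt (comp U A) (n - w) := by
        have := comp_cnt hU (w := w) (by omega)
        rw [hn] at this
        exact_mod_cast this
      refine h2.trans (h1.trans ?_)
      apply mul_le_mul_of_nonneg_left _ (by positivity)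
      apply bt_anti
      omega
    · have : cnt A w = 0 := by
        unfold cnt
        rw [Finset.card_eq_zero]
        apply Finset.filter_eq_empty_iff.2
        intro x hx h
        have := Finset.card_le_card (hU x hx)
        omega
      rw [this, Nat.cast_zero]
      have := bt_pos (1 + d - w)
      positivity

theorem TT_all (n d : ℕ) : TT α n d := by
  induction n using Nat.strong_induction_on generalizing d with
  | _ n ih1 =>
    induction d using Nat.strong_induction_on with
    | _ d ih2 =>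
      exact TT_step (fun n' hn' d' => ih1 n' hn' d') (fun d' hd' => ih2 d' hd')

/-- the affine theorem, in integers: `cnt A w * 2 ^ e ≤ C(2e, e) * 2 ^ w`, `d + 1 = w + e`. -/
theorem affine_bound {A : Finset (Finset α)} (hA : Flat A) {d w e : ℕ} (hd : A.card = 2 ^ d)
    (he : d + 1 = w + e) (h1 : 1 ≤ e) :
    cnt A w * 2 ^ e ≤ (2 * e).choose e * 2 ^ w := by
  have h := TT_all (A.biUnion id).card d (A.biUnion id) A rfl
    (fun x hx => Finset.subset_biUnion_of_mem id hx) hA hd w
  have e1 : (1 : ℤ) + d - w = (e : ℤ) := by omega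
  rw [e1, bt_nat h1] at h
  have h2 : ((cnt A w * 2 ^ e : ℕ) : ℝ) ≤ (((2 * e).choose e * 2 ^ w : ℕ) : ℝ) := by
    push_cast
    have e2 : (2 : ℝ) ^ d * 2 = 2 ^ w * 2 ^ e := by
      rw [← pow_succ, ← pow_add, he]
    have e3 : (4 : ℝ) ^ e = 2 ^ e * 2 ^ e := by
      rw [← mul_pow]; norm_num
    have h3 : (0 : ℝ) < 2 ^ e := by positivity
    rw [e3] at h
    have h4 : (2 : ℝ) ^ d * (2 * (Nat.centralBinom e : ℝ) / (2 ^ e * 2 ^ e)) * 2 ^ e =
        (Nat.centralBinom e : ℝ) * 2 ^ w := by
      have : (2 : ℝ) ^ d * (2 * (Nat.centralBinom e : ℝ) / (2 ^ e * 2 ^ e)) * 2 ^ e =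
        (2 ^ d * 2) * (Nat.centralBinom e : ℝ) / 2 ^ e := by field_simp
      rw [this, e2]; field_simp
    have h5 := mul_le_mul_of_nonneg_right h h3.le
    rw [h4] at h5
    rw [Nat.centralBinom] at h5
    exact h5
  exact_mod_cast h2

end Pool.Agent.H59.MW
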