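import Mathlib

/-!
Definitions for the block lemma: `C` = columns, `N j : C → ZMod 2` = row `j`. For `u : C → ZMod 2` and `ε : ZMod 2` take
the rows `j ∈ R` with `N j ⬝ᵥ u ≠ ε` and restrict them to the columns with `u b = ε`; `rke ε R N u` is the rank. A vector
`v` is active (`act ε u v`) if `v ⬝ᵥ u ≠ ε` and its restriction is not zero.
-/
namespace Pool.Agent.H59.MW

open Finset

variable {C ρ : Type*} [Fintype C] [DecidableEq C] [DecidableEq ρ]

/-- restriction of `v` to the coordinates where `u` equals `ε` -/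
def msk (ε : ZMod 2) (u v : C → ZMod 2) : C → ZMod 2 := fun b => if u b = ε then v b else 0

/-- restriction of `v` to the coordinates in `Y` -/
def rst (Y : Finset C) (v : C → ZMod 2) : C → ZMod 2 := fun b => if b ∈ Y then v b else 0

/-- rank of the rows `j ∈ R` with `N j ⬝ᵥ u ≠ ε`, restricted to the columns with `u = ε` -/
noncomputable def rke (ε : ZMod 2) (R : Finset ρ) (N : ρ → C → ZMod 2) (u : C → ZMod 2) : ℕ :=
  Module.finrank (ZMod 2) (Submodule.span (ZMod 2)
    ((fun j => msk ε u (N j)) '' {j | j ∈ R ∧ N j ⬝ᵥ u ≠ ε}))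

/-- active rows -/
def act (ε : ZMod 2) (u v : C → ZMod 2) : Prop := v ⬝ᵥ u ≠ ε ∧ msk ε u v ≠ 0

instance (ε : ZMod 2) (u v : C → ZMod 2) : Decidable (act ε u v) :=
  inferInstanceAs (Decidable (_ ∧ _))


end Pool.Agent.H59.MW
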