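import Mathlib

/-!
The numbers `bt e = 2 * C(2e, e) / 4^e` (`e ≥ 1`), `bt e = 1` for `e ≤ 1`.
-/

namespace Pool.Agent.H59.MW

/-- `bt e = 2 C(2e,e) / 4^e` for `e ≥ 1`, and `1` for `e ≤ 1`. -/
noncomputable def bt (e : ℤ) : ℝ :=
  if e ≤ 1 then 1 else 2 * (Nat.centralBinom e.toNat : ℝ) / 4 ^ e.toNat

theorem bt_of_le {e : ℤ} (h : e ≤ 1) : bt e = 1 := by
  unfold bt; rw [if_pos h]

theorem bt_nat {m : ℕ} (h : 1 ≤ m) : bt (m : ℤ) = 2 * (Nat.centralBinom m : ℝ) / 4 ^ m := by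
  unfold bt
  split_ifs with h1
  · have : m = 1 := by omega
    subst this
    norm_num [Nat.centralBinom]
  · simp

theorem bt_succ {e : ℤ} (h : 1 ≤ e) : bt (e + 1) * (2 * e + 2) = bt e * (2 * e + 1) := by
  obtain ⟨m, rfl⟩ : ∃ m : ℕ, e = m := ⟨e.toNat, by omega⟩
  have h1 : 1 ≤ m := by omega
  have e1 : ((m : ℤ) + 1) = ((m + 1 : ℕ) : ℤ) := by push_cast; ring
  rw [e1, bt_nat h1, bt_nat (by omega)]
  have h2 := Nat.succ_mul_centralBinom_succ m
  have h3 : ((m : ℝ) + 1) * (Nat.centralBinom (m + 1) : ℝ) =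
      2 * (2 * (m : ℝ) + 1) * (Nat.centralBinom m : ℝ) := by exact_mod_cast h2
  rw [pow_succ]
  have h4 : (4 : ℝ) ^ m ≠ 0 := by positivity
  field_simp
  push_cast
  linear_combination (2 : ℝ) * h3

theorem bt_pos (e : ℤ) : 0 < bt e := by
  unfold bt
  split_ifs with h
  · norm_num
  · have : 0 < Nat.centralBinom e.toNat := Nat.centralBinom_pos _
    positivity

theorem bt_step (e : ℤ) : bt (e + 1) ≤ bt e := by
  rcases le_or_gt e 0 with h | h
  · rw [bt_of_le (by omega), bt_of_le (by omega)]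
  · have h1 := bt_succ (e := e) (by omega)
    have h2 : (1 : ℝ) ≤ e := by exact_mod_cast (show (1 : ℤ) ≤ e by omega)
    have h3 := bt_pos e
    have h4 : bt (e + 1) * (2 * e + 2) ≤ bt e * (2 * e + 2) := by
      rw [h1]; nlinarith
    exact le_of_mul_le_mul_right h4 (by linarith)

theorem bt_anti {e f : ℤ} (h : e ≤ f) : bt f ≤ bt e := by
  obtain ⟨k, rfl⟩ : ∃ k : ℕ, f = e + k := ⟨(f - e).toNat, by omega⟩
  clear h
  induction k with
  | zero => simp
  | succ k ih =>
    have := bt_step (e + k)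
    push_cast
    rw [← add_assoc]
    exact this.trans ih

theorem bt_le_one (e : ℤ) : bt e ≤ 1 := by
  rcases le_or_gt e 1 with h | h
  · rw [bt_of_le h]
  · have := bt_anti (e := 1) (f := e) (by omega)
    rwa [bt_of_le le_rfl] at this

theorem bt_one : bt 1 = 1 := bt_of_le le_rfl

theorem bt_two : bt 2 = 3 / 4 := by
  have := bt_succ (e := 1) le_rfl
  rw [bt_one] at this; norm_num at this; linarith

theorem bt_three : bt 3 = 5 / 8 := by
  have := bt_succ (e := 2) (by norm_num)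
  rw [bt_two] at this; norm_num at this; linarith

theorem bt_four : bt 4 = 35 / 64 := by
  have := bt_succ (e := 3) (by norm_num)
  rw [bt_three] at this; norm_num at this; linarith

theorem bt_ten : bt 10 = 46189 / 131072 := by
  have h5 : bt 5 = 63 / 128 := by
    have := bt_succ (e := 4) (by norm_num)
    rw [bt_four] at this; norm_num at this; linarith
  have h6 : bt 6 = 231 / 512 := by
    have := bt_succ (e := 5) (by norm_num)
    rw [h5] at this; norm_num at this; linarith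
  have h7 : bt 7 = 429 / 1024 := by
    have := bt_succ (e := 6) (by norm_num)
    rw [h6] at this; norm_num at this; linarith
  have h8 : bt 8 = 6435 / 16384 := by
    have := bt_succ (e := 7) (by norm_num)
    rw [h7] at this; norm_num at this; linarith
  have h9 : bt 9 = 12155 / 32768 := by
    have := bt_succ (e := 8) (by norm_num)
    rw [h8] at this; norm_num at this; linarith
  have := bt_succ (e := 9) (by norm_num)
  rw [h9] at this; norm_num at this; linarith

/-- `bt^2 (g + 1/4)` is non-decreasing for `g ≥ 1`. -/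
theorem up_step {g : ℤ} (h : 1 ≤ g) :
    bt g ^ 2 * (g + 1 / 4) ≤ bt (g + 1) ^ 2 * (g + 1 + 1 / 4) := by
  have h1 := bt_succ h
  have h2 : (1 : ℝ) ≤ g := by exact_mod_cast h
  have h3 := bt_pos g
  have e1 : bt (g + 1) = bt g * (2 * g + 1) / (2 * g + 2) := by
    rw [← h1]; field_simp
  rw [e1]
  have e2 : (bt g * (2 * g + 1) / (2 * g + 2)) ^ 2 * ((g : ℝ) + 1 + 1 / 4) =
      bt g ^ 2 * ((2 * g + 1) ^ 2 * (g + 1 + 1 / 4) / (2 * g + 2) ^ 2) := by
    field_simp
  rw [e2]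
  apply mul_le_mul_of_nonneg_left _ (by positivity)
  rw [le_div_iff₀ (by positivity)]
  nlinarith

/-- `bt^2 (g + 27/100)` is non-increasing for `g ≥ 3`. -/
theorem down_step {g : ℤ} (h : 3 ≤ g) :
    bt (g + 1) ^ 2 * (g + 1 + 27 / 100) ≤ bt g ^ 2 * (g + 27 / 100) := by
  have h1 := bt_succ (e := g) (by omega)
  have h2 : (3 : ℝ) ≤ g := by exact_mod_cast h
  have h3 := bt_pos g
  have e1 : bt (g + 1) = bt g * (2 * g + 1) / (2 * g + 2) := by
    rw [← h1]; field_simp
  rw [e1]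
  have e2 : (bt g * (2 * g + 1) / (2 * g + 2)) ^ 2 * ((g : ℝ) + 1 + 27 / 100) =
      bt g ^ 2 * ((2 * g + 1) ^ 2 * (g + 1 + 27 / 100) / (2 * g + 2) ^ 2) := by
    field_simp
  rw [e2]
  apply mul_le_mul_of_nonneg_left _ (by positivity)
  rw [div_le_iff₀ (by positivity)]
  nlinarith

theorem up_mono {g : ℤ} (h : 1 ≤ g) (k : ℕ) :
    bt g ^ 2 * (g + 1 / 4) ≤ bt (g + k) ^ 2 * (g + k + 1 / 4) := by
  induction k with
  | zero => simp
  | succ k ih =>
    refine ih.trans ?_
    have := up_step (g := g + k) (by omega)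
    push_cast at this ⊢
    rw [← add_assoc]
    rw [← add_assoc]
    exact this

theorem down_mono {g : ℤ} (h : 3 ≤ g) (k : ℕ) :
    bt (g + k) ^ 2 * (g + k + 27 / 100) ≤ bt g ^ 2 * (g + 27 / 100) := by
  induction k with
  | zero => simp
  | succ k ih =>
    refine le_trans ?_ ih
    have := down_step (g := g + k) (by omega)
    push_cast at this ⊢
    rw [← add_assoc]
    rw [← add_assoc]
    exact this

/-- (B1) -/
theorem bt_upper (g : ℤ) {e : ℤ} (he : 3 ≤ e) :
    bt g ^ 2 * (g + 1 / 4) ≤ bt e ^ 2 * (e + 27 / 100) := by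
  have key : ∀ g : ℤ, 1 ≤ g → bt g ^ 2 * (g + 1 / 4) ≤ bt e ^ 2 * (e + 27 / 100) := by
    intro g hg
    obtain ⟨M, hM1, hM2⟩ : ∃ M : ℤ, g ≤ M ∧ e ≤ M := ⟨max g e, le_max_left _ _, le_max_right _ _⟩
    obtain ⟨k, rfl⟩ : ∃ k : ℕ, M = g + k := ⟨(M - g).toNat, by omega⟩
    obtain ⟨l, hl⟩ : ∃ l : ℕ, g + k = e + l := ⟨(g + k - e).toNat, by omega⟩
    have h1 := up_mono hg k
    have h2 := down_mono he l
    have h3 : ((g : ℝ) + k) = e + l := by exact_mod_cast hl
    rw [← hl] at h2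
    rw [← h3] at h2
    have h4 := bt_pos (g + k)
    nlinarith
  rcases le_or_gt g 0 with hg | hg
  · have h1 := key 1 le_rfl
    have h2 : (g : ℝ) ≤ 0 := by exact_mod_cast hg
    rw [bt_of_le (by omega)]
    rw [bt_one] at h1
    norm_num at h1 ⊢
    linarith
  · exact key g (by omega)

/-- (B2) -/
theorem bt_lower {e : ℤ} (he : 3 ≤ e) : (12728 : ℝ) / 10000 ≤ bt e ^ 2 * (e + 27 / 100) := by
  have := bt_upper 10 he
  rw [bt_ten] at this
  push_cast at this
  refine le_trans ?_ this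
  norm_num

/-- (B3) -/
theorem bt_inv {e : ℤ} (he : 4 ≤ e) : 1 / bt e ≤ 1 + e / (48 / 10) := by
  obtain ⟨k, rfl⟩ : ∃ k : ℕ, e = 4 + k := ⟨(e - 4).toNat, by omega⟩
  clear he
  induction k with
  | zero =>
    simp only [Nat.cast_zero, add_zero]
    rw [bt_four]; norm_num
  | succ k ih =>
    have h1 := bt_succ (e := 4 + k) (by omega)
    have h3 := bt_pos (4 + (k : ℤ))
    have h4 := bt_pos (4 + (k : ℤ) + 1)
    have e0 : (4 + ((k + 1 : ℕ) : ℤ)) = 4 + (k : ℤ) + 1 := by push_cast; ring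
    rw [e0]
    rw [div_le_iff₀ h3] at ih
    rw [div_le_iff₀ h4]
    push_cast at ih h1 ⊢
    have hk : (0 : ℝ) ≤ k := Nat.cast_nonneg _
    have e1 : bt (4 + (k : ℤ) + 1) = bt (4 + k) * (2 * (4 + k) + 1) / (2 * (4 + k) + 2) := by
      rw [← h1]; field_simp
    rw [e1]
    have e2 : (1 + (4 + (k : ℝ) + 1) / (48 / 10)) *
        (bt (4 + k) * (2 * (4 + k) + 1) / (2 * (4 + k) + 2)) =
        bt (4 + k) * ((1 + (4 + (k : ℝ) + 1) / (48 / 10)) * (2 * (4 + k) + 1) /
          (2 * (4 + k) + 2)) := by ring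
    rw [e2]
    refine ih.trans ?_
    rw [mul_comm]
    apply mul_le_mul_of_nonneg_left _ h3.le
    rw [le_div_iff₀ (by positivity)]
    nlinarith

/-- `2 bt (e+1) ≥ ...` : parity constant -/
theorem bt_half {e : ℤ} (he : 2 ≤ e) : bt (e - 1) / 2 ≤ bt e := by
  have h1 := bt_succ (e := e - 1) (by omega)
  have h2 : (2 : ℝ) ≤ e := by exact_mod_cast he
  have h3 := bt_pos (e - 1)
  rw [sub_add_cancel] at h1
  push_cast at h1
  have h4 : (bt (e - 1) / 2) * (2 * (e - 1) + 2) ≤ bt e * (2 * (e - 1) + 2) := by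
    rw [h1]; nlinarith
  exact le_of_mul_le_mul_right h4 (by linarith)

theorem bt_pred {e : ℤ} (he : 2 ≤ e) : bt (e - 1) * (2 * e - 1) = bt e * (2 * e) := by
  have h1 := bt_succ (e := e - 1) (by omega)
  rw [sub_add_cancel] at h1
  push_cast at h1
  linarith

/-- multiplicities at least three are impossible for `e ≥ 3` -/
theorem bt_three_par {e : ℤ} (he : 3 ≤ e) : (bt (e - 1) + bt (e + 2)) / 2 ≤ bt e := by
  have h1 := bt_pred (e := e) (by omega)
  have h2 := bt_succ (e := e) (by omega)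
  have h3 := bt_succ (e := e + 1) (by omega)
  have he' : (3 : ℝ) ≤ e := by exact_mod_cast he
  have h0 := bt_pos e
  have e2 : e + 1 + 1 = e + 2 := by ring
  rw [e2] at h3
  push_cast at h3
  have hpos : (0 : ℝ) < 2 * e - 1 := by linarith
  have a1 : bt (e - 1) = bt e * (2 * e) / (2 * e - 1) := by
    rw [← h1, mul_div_assoc, div_self hpos.ne', mul_one]
  have a2 : bt (e + 1) = bt e * (2 * e + 1) / (2 * e + 2) := by
    rw [← h2]; field_simp
  have a3 : bt (e + 2) = bt e * ((2 * e + 1) * (2 * e + 3) / ((2 * e + 2) * (2 * e + 4))) := by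
    have : bt (e + 2) = bt (e + 1) * (2 * (e + 1) + 1) / (2 * (e + 1) + 2) := by
      rw [← h3]; field_simp
    rw [this, a2]
    field_simp
    ring
  rw [a1, a3]
  have key : (2 * (e : ℝ)) / (2 * e - 1) + (2 * e + 1) * (2 * e + 3) / ((2 * e + 2) * (2 * e + 4))
      ≤ 2 := by
    rw [div_add_div _ _ (by positivity) (by positivity), div_le_iff₀ (by positivity)]
    nlinarith
  have : (bt e * (2 * e) / (2 * e - 1) +
      bt e * ((2 * e + 1) * (2 * e + 3) / ((2 * e + 2) * (2 * e + 4)))) / 2 =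
      bt e * (((2 * (e : ℝ)) / (2 * e - 1) +
        (2 * e + 1) * (2 * e + 3) / ((2 * e + 2) * (2 * e + 4))) / 2) := by ring
  rw [this]
  nlinarith

end Pool.Agent.H59.MW
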