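import Pool.Agent.H59.MW.BDefs

/-!
# MW-BLOCK: expected rank of a random half of a matrix over `ZMod 2`

Rows `J` vanish on `Y`, rows `P` vanish outside `Y`, inside `J` (inside `P`) the supports are pairwise disjoint, every other
row `j ∈ R' = R \ (J ∪ P)` has a nonzero entry outside `Y`.
(1) For each `u`: `rke ≥ #{j ∈ J active} + rk_Y(u)`, where `rk_Y(u)` is the rank of the restrictions to
  `{b ∈ Y : u b = ε}` of the rows `j ∈ P ∪ R'` with `N j ⬝ᵥ u ≠ ε`: the linear map `rst Y` maps the span of the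
  restricted rows onto the span defining `rk_Y` (rows of `J` go to `0`), and its kernel contains the restrictions of the
  active rows of `J`, which are independent (nonzero, disjoint supports).
(2) Fix `u` on `Y`; let `u` vary outside `Y` (`M = 2^{|C \ Y|}` vectors). For `j ∈ P`, `N j ⬝ᵥ u` does not change; let
  `p = #{j ∈ P active}`; their restrictions are independent (disjoint supports), span `W`. For `j ∈ R'` exactly half of the
  `M` vectors have `N j ⬝ᵥ u ≠ ε` (flip `u` at a column outside `Y` where `N j ≠ 0`). Choose `S ⊆ R'` such that the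
  restrictions of the rows `j ∈ S` to `{b ∈ Y : u b = ε}` are a basis of (span of all restrictions of `R'`) + W modulo `W`:
  `|S| ≥ ρ - p`, `ρ` = rank of the restrictions of all rows of `R'` to `{b ∈ Y : u b = ε}`. Then
  `rk_Y(u) ≥ p + #{j ∈ S : N j ⬝ᵥ u ≠ ε}` (independence modulo `W`), so `∑ rk_Y ≥ M (p + |S|/2) ≥ M (p/2 + ρ/2)`.
(3) `ρ(u) + ρ(u + 1) ≥ ρY` := rank of the restrictions of `R'` to `Y`, since the restriction to `Y` is the sum of the
  restrictions to `{b ∈ Y : u b = ε}` and `{b ∈ Y : u b ≠ ε}` (subadditivity of `finrank` of spans). As `u ↦ u + 1` is a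
  bijection, `∑_u ρ(u) ≥ 2^|C| ρY / 2`.
Altogether `∑_u rke ≥ ∑_u #{J active} + (1/2) ∑_u #{P active} + (1/4) 2^{|C|} ρY`.
(Summing over `u` in the classes of vectors with the same restriction to `Y`: e.g. average over the shifts `u + z`, `z` supported outside `Y`.)
-/
namespace Pool.Agent.H59.MW

open Finset

variable {C ρ : Type*} [Fintype C] [DecidableEq C] [DecidableEq ρ]

theorem blk_flip : ∀ ε x : ZMod 2, (x + 1 ≠ ε) ↔ ¬ (x ≠ ε) := by decide

theorem blk_flip' : ∀ ε x : ZMod 2, (x + 1 = ε) ↔ ¬ (x = ε) := by decide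

section aux

variable {V : Type*} [AddCommGroup V] [Module (ZMod 2) V] [Module.Finite (ZMod 2) V]
variable {κ : Type*} [DecidableEq κ]

omit [Fintype C] [DecidableEq C] [DecidableEq ρ] in
theorem blk_split (f : V →ₗ[ZMod 2] V) (S A B : Submodule (ZMod 2) V) (hA : A ≤ S)
    (hAk : A ≤ LinearMap.ker f) (hB : B ≤ S.map f) :
    Module.finrank (ZMod 2) A + Module.finrank (ZMod 2) B ≤ Module.finrank (ZMod 2) S := by
  have h1 := LinearMap.finrank_range_add_finrank_ker (f.domRestrict S)
  have h2 : LinearMap.range (f.domRestrict S) = S.map f := by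
    rw [LinearMap.range_domRestrict]
  have h3 : Module.finrank (ZMod 2) B ≤ Module.finrank (ZMod 2) (LinearMap.range (f.domRestrict S)) := by
    rw [h2]
    exact Submodule.finrank_mono hB
  have h4 : Module.finrank (ZMod 2) A ≤ Module.finrank (ZMod 2) (LinearMap.ker (f.domRestrict S)) := by
    have h5 : A.comap S.subtype ≤ LinearMap.ker (f.domRestrict S) := by
      intro x hx
      rw [LinearMap.mem_ker, LinearMap.domRestrict_apply]
      exact hAk hx
    have h6 := Submodule.finrank_mono h5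
    have h7 : Module.finrank (ZMod 2) (A.comap S.subtype) = Module.finrank (ZMod 2) A :=
      (Submodule.comapSubtypeEquivOfLe hA).finrank_eq
    omega
  omega

omit [Fintype C] [DecidableEq C] [DecidableEq ρ] in
theorem blk_card (r : κ → V) (T : Finset κ) :
    Module.finrank (ZMod 2) (Submodule.span (ZMod 2) (r '' (T : Set κ))) ≤ T.card := by
  classical
  have h1 : r '' (T : Set κ) = ((T.image r : Finset V) : Set V) := by
    rw [Finset.coe_image]
  rw [h1]
  exact (finrank_span_finset_le_card _).trans Finset.card_image_le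

omit [Fintype C] [DecidableEq C] [DecidableEq ρ] in
theorem blk_sup_le (A B : Submodule (ZMod 2) V) :
    Module.finrank (ZMod 2) (A ⊔ B : Submodule (ZMod 2) V)
      ≤ Module.finrank (ZMod 2) A + Module.finrank (ZMod 2) B :=
  Submodule.finrank_add_le_finrank_add_finrank A B

omit [Fintype C] [DecidableEq C] [DecidableEq ρ] in
/-- Choice of a basis modulo `W`. -/
theorem blk_basis (W : Submodule (ZMod 2) V) (r : κ → V) (R' : Finset κ) :
    ∃ S ⊆ R', Module.finrank (ZMod 2) W + S.card ≤
        Module.finrank (ZMod 2) (W ⊔ Submodule.span (ZMod 2) (r '' (S : Set κ)) : Submodule (ZMod 2) V) ∧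
      ∀ j ∈ R', r j ∈ W ⊔ Submodule.span (ZMod 2) (r '' (S : Set κ)) := by
  classical
  induction R' using Finset.induction_on with
  | empty =>
    refine ⟨∅, subset_rfl, ?_, ?_⟩
    · rw [Finset.card_empty, add_zero]
      exact Submodule.finrank_mono le_sup_left
    · intro j hj
      exact absurd hj (Finset.notMem_empty j)
  | insert j R0 hj ih =>
    obtain ⟨S, hS, h1, h2⟩ := ih
    by_cases hc : r j ∈ W ⊔ Submodule.span (ZMod 2) (r '' (S : Set κ))
    · refine ⟨S, hS.trans (Finset.subset_insert _ _), h1, ?_⟩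
      intro l hl
      rcases Finset.mem_insert.1 hl with rfl | hl
      · exact hc
      · exact h2 l hl
    · have hjS : j ∉ S := fun h => hj (hS h)
      have hmono : Submodule.span (ZMod 2) (r '' (S : Set κ))
          ≤ Submodule.span (ZMod 2) (r '' ((insert j S : Finset κ) : Set κ)) :=
        Submodule.span_mono (Set.image_mono (by
          rw [Finset.coe_insert]; exact Set.subset_insert _ _))
      have hmono2 : W ⊔ Submodule.span (ZMod 2) (r '' (S : Set κ))
          ≤ W ⊔ Submodule.span (ZMod 2) (r '' ((insert j S : Finset κ) : Set κ)) :=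
        sup_le_sup_left hmono _
      have hmem : r j ∈ W ⊔ Submodule.span (ZMod 2) (r '' ((insert j S : Finset κ) : Set κ)) :=
        Submodule.mem_sup_right (Submodule.subset_span ⟨j, by simp, rfl⟩)
      refine ⟨insert j S, Finset.insert_subset_insert _ hS, ?_, ?_⟩
      · have hlt : W ⊔ Submodule.span (ZMod 2) (r '' (S : Set κ))
            < W ⊔ Submodule.span (ZMod 2) (r '' ((insert j S : Finset κ) : Set κ)) :=
          lt_of_le_of_ne hmono2 (fun he => hc (he ▸ hmem))
        have h3 := Submodule.finrank_lt_finrank_of_lt hlt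
        rw [Finset.card_insert_of_notMem hjS]
        omega
      · intro l hl
        rcases Finset.mem_insert.1 hl with rfl | hl
        · exact hmem
        · exact hmono2 (h2 l hl)

omit [Fintype C] [DecidableEq C] [DecidableEq ρ] in
/-- Subsets of the chosen set are independent modulo `W`. -/
theorem blk_sub (W : Submodule (ZMod 2) V) (r : κ → V) {S T : Finset κ} (hT : T ⊆ S)
    (h : Module.finrank (ZMod 2) W + S.card ≤
        Module.finrank (ZMod 2) (W ⊔ Submodule.span (ZMod 2) (r '' (S : Set κ)) : Submodule (ZMod 2) V)) :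
    Module.finrank (ZMod 2) W + T.card ≤
        Module.finrank (ZMod 2) (W ⊔ Submodule.span (ZMod 2) (r '' (T : Set κ)) : Submodule (ZMod 2) V) := by
  classical
  have h1 : W ⊔ Submodule.span (ZMod 2) (r '' (S : Set κ))
      ≤ (W ⊔ Submodule.span (ZMod 2) (r '' (T : Set κ))) ⊔
        Submodule.span (ZMod 2) (r '' ((S \ T : Finset κ) : Set κ)) := by
    refine sup_le (le_sup_left.trans le_sup_left) ?_
    rw [Submodule.span_le]
    rintro _ ⟨j, hj, rfl⟩
    by_cases hjT : j ∈ T
    · exact Submodule.mem_sup_left (Submodule.mem_sup_right (Submodule.subset_span ⟨j, hjT, rfl⟩))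
    · exact Submodule.mem_sup_right (Submodule.subset_span ⟨j, by simpa [hjT] using hj, rfl⟩)
  have h2 := (Submodule.finrank_mono h1).trans (blk_sup_le _ _)
  have h3 := blk_card r (S \ T)
  have h4 := Finset.card_sdiff_add_card_eq_card hT
  omega

end aux

section aux2

omit [DecidableEq C] in
/-- Nonzero vectors with disjoint supports are independent. -/
theorem blk_indep (v : ρ → C → ZMod 2) (A : Finset ρ) (h0 : ∀ j ∈ A, v j ≠ 0)
    (hd : ∀ j ∈ A, ∀ l ∈ A, j ≠ l → ∀ b, v j b = 0 ∨ v l b = 0) :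
    A.card ≤ Module.finrank (ZMod 2) (Submodule.span (ZMod 2) (v '' (A : Set ρ))) := by
  classical
  have hli : LinearIndependent (ZMod 2) (fun j : A => v j) := by
    rw [linearIndependent_iff']
    intro s g hg j hj
    have hne := h0 j j.2
    obtain ⟨b, hb⟩ := Function.ne_iff.1 hne
    have h1 := congrFun hg b
    rw [Finset.sum_apply, Finset.sum_eq_single_of_mem j hj] at h1
    · rw [Pi.smul_apply, smul_eq_mul] at h1
      rcases mul_eq_zero.1 h1 with h2 | h2
      · exact h2
      · exact absurd h2 hb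
    · intro l _ hlj
      have hlj' : (j : ρ) ≠ (l : ρ) := fun h => hlj (Subtype.ext h.symm)
      rcases hd j j.2 l l.2 hlj' b with h2 | h2
      · exact absurd h2 hb
      · rw [Pi.smul_apply, h2, smul_zero]
  have h1 := finrank_span_eq_card hli
  have h2 : Set.range (fun j : A => v j) = v '' (A : Set ρ) := by
    ext x
    simp
  rw [h2, Fintype.card_coe] at h1
  exact h1.ge

/-- The restriction as a linear map. -/
def rstL (Y : Finset C) : (C → ZMod 2) →ₗ[ZMod 2] (C → ZMod 2) where
  toFun := rst Y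
  map_add' x y := by
    funext b
    simp only [rst, Pi.add_apply]
    split_ifs <;> simp
  map_smul' c x := by
    funext b
    simp only [rst, Pi.smul_apply, RingHom.id_apply]
    split_ifs <;> simp

end aux2

theorem block (ε : ZMod 2) (R J P : Finset ρ) (N : ρ → C → ZMod 2) (Y : Finset C)
    (hJ : J ⊆ R) (hP : P ⊆ R) (hJP : Disjoint J P)
    (hJY : ∀ j ∈ J, ∀ b ∈ Y, N j b = 0) (hPY : ∀ j ∈ P, ∀ b, b ∉ Y → N j b = 0)
    (hJd : ∀ j ∈ J, ∀ l ∈ J, j ≠ l → ∀ b, N j b = 0 ∨ N l b = 0)
    (hPd : ∀ j ∈ P, ∀ l ∈ P, j ≠ l → ∀ b, N j b = 0 ∨ N l b = 0)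
    (hR : ∀ j ∈ R, j ∉ J → j ∉ P → ∃ b, b ∉ Y ∧ N j b ≠ 0) :
    (∑ u : C → ZMod 2, ((J.filter (fun j => act ε u (N j))).card : ℝ)) +
      1 / 2 * ∑ u : C → ZMod 2, ((P.filter (fun j => act ε u (N j))).card : ℝ) +
      1 / 4 * 2 ^ Fintype.card C * (Module.finrank (ZMod 2) (Submodule.span (ZMod 2)
        ((fun j => rst Y (N j)) '' {j | j ∈ R ∧ j ∉ J ∧ j ∉ P})) : ℝ) ≤
      ∑ u : C → ZMod 2, (rke ε R N u : ℝ) := by
  classical
  set R' : Finset ρ := R.filter (fun j => j ∉ J ∧ j ∉ P) with hR'
  set q : (C → ZMod 2) → ρ → C → ZMod 2 := fun u j => rst Y (msk ε u (N j)) with hq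
  set PA : (C → ZMod 2) → Finset ρ := fun u => P.filter (fun j => act ε u (N j)) with hPA
  set JA : (C → ZMod 2) → Finset ρ := fun u => J.filter (fun j => act ε u (N j)) with hJA
  set W : (C → ZMod 2) → Submodule (ZMod 2) (C → ZMod 2) := fun u =>
    Submodule.span (ZMod 2) (q u '' (PA u : Set ρ)) with hW
  set rho : (C → ZMod 2) → ℕ := fun u =>
    Module.finrank (ZMod 2) (Submodule.span (ZMod 2) (q u '' (R' : Set ρ))) with hrho
  -- dependence on the restriction to `Y` only
  have hqY : ∀ u j, q (rst Y u) j = q u j := by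
    intro u j
    funext b
    simp only [hq, rst, msk]
    by_cases hb : b ∈ Y
    · simp [hb]
    · simp [hb]
  have hPm : ∀ u, ∀ j ∈ P, msk ε u (N j) = q u j := by
    intro u j hj
    funext b
    simp only [hq, rst, msk]
    by_cases hb : b ∈ Y
    · simp [hb]
    · simp [hb, hPY j hj b hb]
  have hPdot : ∀ u, ∀ j ∈ P, N j ⬝ᵥ rst Y u = N j ⬝ᵥ u := by
    intro u j hj
    simp only [dotProduct]
    refine Finset.sum_congr rfl fun b _ => ?_
    by_cases hb : b ∈ Y
    · simp [rst, hb]
    · simp [hPY j hj b hb]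
  have hPAY : ∀ u, PA (rst Y u) = PA u := by
    intro u
    simp only [hPA]
    refine Finset.filter_congr fun j hj => ?_
    unfold act
    rw [hPdot u j hj, hPm _ j hj, hPm _ j hj, hqY]
  have hWY : ∀ u, W (rst Y u) = W u := by
    intro u
    simp only [hW]
    rw [hPAY]
    congr 1
    exact Set.image_congr fun j _ => hqY u j
  have hWge : ∀ u, (PA u).card ≤ Module.finrank (ZMod 2) (W u) := by
    intro u
    refine blk_indep (q u) (PA u) ?_ ?_
    · intro j hj
      have hj' := Finset.mem_filter.1 hj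
      rw [← hPm u j hj'.1]
      exact hj'.2.2
    · intro j hj l hl hjl b
      have hj' := (Finset.mem_filter.1 hj).1
      have hl' := (Finset.mem_filter.1 hl).1
      rw [← hPm u j hj', ← hPm u l hl']
      simp only [msk]
      rcases hPd j hj' l hl' hjl b with h | h
      · left; simp [h]
      · right; simp [h]
  have hWle : ∀ u, Module.finrank (ZMod 2) (W u) ≤ (PA u).card := fun u => blk_card _ _
  -- the basis modulo `W`
  have hbas := fun u => blk_basis (W u) (q u) R'
  choose Sc hSc1 hSc2 hSc3 using hbas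
  set S : (C → ZMod 2) → Finset ρ := fun u => Sc (rst Y u) with hS
  have hS1 : ∀ u, S u ⊆ R' := fun u => hSc1 _
  have himg : ∀ u (T : Set ρ), q (rst Y u) '' T = q u '' T := fun u T =>
    Set.image_congr fun j _ => hqY u j
  have hS2 : ∀ u, Module.finrank (ZMod 2) (W u) + (S u).card ≤
      Module.finrank (ZMod 2) (W u ⊔ Submodule.span (ZMod 2) (q u '' (S u : Set ρ)) :
        Submodule (ZMod 2) (C → ZMod 2)) := by
    intro u
    have h := hSc2 (rst Y u)
    rw [hWY, himg] at h
    exact h
  have hS3 : ∀ u, rho u ≤ (PA u).card + (S u).card := by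
    intro u
    have h1 : Submodule.span (ZMod 2) (q u '' (R' : Set ρ)) ≤
        W u ⊔ Submodule.span (ZMod 2) (q u '' (S u : Set ρ)) := by
      rw [Submodule.span_le]
      rintro _ ⟨j, hj, rfl⟩
      have h := hSc3 (rst Y u) j hj
      rw [hWY, himg, hqY] at h
      exact h
    have h2 := (Submodule.finrank_mono h1).trans (blk_sup_le _ _)
    have h3 := blk_card (q u) (S u)
    have h4 := hWle u
    simp only [hrho]
    omega
  -- step 1
  have step1 : ∀ u, (JA u).card + ((PA u).card + ((S u).filter (fun j => N j ⬝ᵥ u ≠ ε)).card)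
      ≤ rke ε R N u := by
    intro u
    set T := (S u).filter (fun j => N j ⬝ᵥ u ≠ ε) with hT
    have hTS : T ⊆ S u := Finset.filter_subset _ _
    have hB := blk_sub (W u) (q u) hTS (hS2 u)
    have hJ1 : (JA u).card ≤ Module.finrank (ZMod 2)
        (Submodule.span (ZMod 2) ((fun j => msk ε u (N j)) '' (JA u : Set ρ))) := by
      refine blk_indep _ (JA u) ?_ ?_
      · intro j hj
        exact (Finset.mem_filter.1 hj).2.2
      · intro j hj l hl hjl b
        have hj' := (Finset.mem_filter.1 hj).1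
        have hl' := (Finset.mem_filter.1 hl).1
        simp only [msk]
        rcases hJd j hj' l hl' hjl b with h | h
        · left; simp [h]
        · right; simp [h]
    have key := blk_split (rstL Y) (Submodule.span (ZMod 2)
        ((fun j => msk ε u (N j)) '' {j | j ∈ R ∧ N j ⬝ᵥ u ≠ ε}))
      (Submodule.span (ZMod 2) ((fun j => msk ε u (N j)) '' (JA u : Set ρ)))
      (W u ⊔ Submodule.span (ZMod 2) (q u '' (T : Set ρ))) ?_ ?_ ?_
    · have hge := hWge u
      unfold rke
      omega
    · refine Submodule.span_mono (Set.image_mono fun j hj => ?_)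
      have hj' := Finset.mem_filter.1 (Finset.mem_coe.1 hj)
      exact ⟨hJ hj'.1, hj'.2.1⟩
    · rw [Submodule.span_le]
      rintro _ ⟨j, hj, rfl⟩
      have hj' := (Finset.mem_filter.1 (Finset.mem_coe.1 hj)).1
      rw [SetLike.mem_coe, LinearMap.mem_ker]
      show rst Y (msk ε u (N j)) = 0
      funext b
      simp only [rst, msk, Pi.zero_apply]
      by_cases hb : b ∈ Y
      · simp [hJY j hj' b hb]
      · simp [hb]
    · refine sup_le ?_ ?_
      · simp only [hW]
        rw [Submodule.span_le]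
        rintro _ ⟨j, hj, rfl⟩
        have hj' := Finset.mem_filter.1 (Finset.mem_coe.1 hj)
        exact ⟨msk ε u (N j), Submodule.subset_span ⟨j, ⟨hP hj'.1, hj'.2.1⟩, rfl⟩, rfl⟩
      · rw [Submodule.span_le]
        rintro _ ⟨j, hj, rfl⟩
        have hj' := Finset.mem_filter.1 (Finset.mem_coe.1 hj)
        have hjR : j ∈ R := (Finset.mem_filter.1 (hS1 u hj'.1)).1
        exact ⟨msk ε u (N j), Submodule.subset_span ⟨j, ⟨hjR, hj'.2⟩, rfl⟩, rfl⟩
  -- step 2: half of the rows of `S`
  have step2 : ∑ u, (((S u).filter (fun j => N j ⬝ᵥ u ≠ ε)).card : ℝ)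
      = 1 / 2 * ∑ u, ((S u).card : ℝ) := by
    have e1 : ∀ u, (((S u).filter (fun j => N j ⬝ᵥ u ≠ ε)).card : ℝ)
        = ∑ j ∈ R', (if j ∈ S u ∧ N j ⬝ᵥ u ≠ ε then (1:ℝ) else 0) := by
      intro u
      rw [Finset.sum_boole]
      congr 2
      ext j
      simp only [Finset.mem_filter]
      constructor
      · rintro ⟨h1, h2⟩
        exact ⟨hS1 u h1, h1, h2⟩
      · rintro ⟨_, h1, h2⟩
        exact ⟨h1, h2⟩
    have e2 : ∀ u, ((S u).card : ℝ) = ∑ j ∈ R', (if j ∈ S u then (1:ℝ) else 0) := by
      intro u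
      rw [Finset.sum_boole]
      congr 2
      ext j
      simp only [Finset.mem_filter]
      exact ⟨fun h => ⟨hS1 u h, h⟩, fun h => h.2⟩
    simp only [e1, e2]
    rw [Finset.sum_comm, Finset.sum_comm (s := Finset.univ) (t := R'), Finset.mul_sum]
    refine Finset.sum_congr rfl fun j hj => ?_
    have hj' := Finset.mem_filter.1 hj
    obtain ⟨b, hbY, hbN⟩ := hR j hj'.1 hj'.2.1 hj'.2.2
    have hN1 : N j b = 1 := by
      have : ∀ x : ZMod 2, x ≠ 0 → x = 1 := by decide
      exact this _ hbN
    set z : C → ZMod 2 := Pi.single b 1 with hz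
    have hSz : ∀ u, S (u + z) = S u := by
      intro u
      simp only [hS]
      congr 1
      funext c
      simp only [rst, Pi.add_apply]
      by_cases hc : c ∈ Y
      · have hcb : c ≠ b := fun h => hbY (h ▸ hc)
        simp [hc, hz, hcb]
      · simp [hc]
    have hdot : ∀ u, N j ⬝ᵥ (u + z) = N j ⬝ᵥ u + 1 := by
      intro u
      rw [dotProduct_add, hz, dotProduct_single, hN1, mul_one]
    have e3 : ∑ u, (if j ∈ S u ∧ N j ⬝ᵥ u ≠ ε then (1:ℝ) else 0)
        = ∑ u, (if j ∈ S u ∧ ¬ (N j ⬝ᵥ u ≠ ε) then (1:ℝ) else 0) := by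
      rw [← Equiv.sum_comp (Equiv.addRight z) (fun u => if j ∈ S u ∧ N j ⬝ᵥ u ≠ ε then (1:ℝ) else 0)]
      refine Finset.sum_congr rfl fun u _ => ?_
      have a1 : (j ∈ S ((Equiv.addRight z) u) ∧ N j ⬝ᵥ (Equiv.addRight z) u ≠ ε) ↔
          (j ∈ S u ∧ ¬ (N j ⬝ᵥ u ≠ ε)) := by
        show (j ∈ S (u + z) ∧ N j ⬝ᵥ (u + z) ≠ ε) ↔ _
        rw [hSz, hdot, blk_flip]
      exact if_congr a1 rfl rfl
    have e4 : ∑ u, (if j ∈ S u then (1:ℝ) else 0)
        = ∑ u, (if j ∈ S u ∧ N j ⬝ᵥ u ≠ ε then (1:ℝ) else 0)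
          + ∑ u, (if j ∈ S u ∧ ¬ (N j ⬝ᵥ u ≠ ε) then (1:ℝ) else 0) := by
      rw [← Finset.sum_add_distrib]
      refine Finset.sum_congr rfl fun u _ => ?_
      by_cases h1 : j ∈ S u <;> by_cases h2 : N j ⬝ᵥ u ≠ ε <;> simp [h1, h2]
    rw [← e3] at e4
    linarith
  -- step 3
  have step3 : (2:ℝ) ^ Fintype.card C * (Module.finrank (ZMod 2) (Submodule.span (ZMod 2)
        ((fun j => rst Y (N j)) '' {j | j ∈ R ∧ j ∉ J ∧ j ∉ P})) : ℝ) ≤ 2 * ∑ u, (rho u : ℝ) := by
    have hset : {j | j ∈ R ∧ j ∉ J ∧ j ∉ P} = (R' : Set ρ) := by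
      ext j
      simp [hR']
    rw [hset]
    set rY := Module.finrank (ZMod 2) (Submodule.span (ZMod 2) ((fun j => rst Y (N j)) '' (R' : Set ρ)))
      with hrY
    have h1 : ∀ u, rY ≤ rho u + rho (u + 1) := by
      intro u
      have h2 : Submodule.span (ZMod 2) ((fun j => rst Y (N j)) '' (R' : Set ρ)) ≤
          Submodule.span (ZMod 2) (q u '' (R' : Set ρ)) ⊔
            Submodule.span (ZMod 2) (q (u + 1) '' (R' : Set ρ)) := by
        rw [Submodule.span_le]
        rintro _ ⟨j, hj, rfl⟩
        have h3 : rst Y (N j) = q u j + q (u + 1) j := by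
          funext b
          simp only [hq, rst, msk, Pi.add_apply, Pi.one_apply, blk_flip']
          by_cases hb : b ∈ Y <;> by_cases hu : u b = ε <;> simp [hb, hu]
        show rst Y (N j) ∈ _
        rw [h3]
        exact Submodule.add_mem _ (Submodule.mem_sup_left (Submodule.subset_span ⟨j, hj, rfl⟩))
          (Submodule.mem_sup_right (Submodule.subset_span ⟨j, hj, rfl⟩))
      exact (Submodule.finrank_mono h2).trans (blk_sup_le _ _)
    have h2 : ∑ u, (rho (u + 1) : ℝ) = ∑ u, (rho u : ℝ) :=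
      Equiv.sum_comp (Equiv.addRight (1 : C → ZMod 2)) (fun u => (rho u : ℝ))
    have h3 : ∑ _u : C → ZMod 2, (rY : ℝ) ≤ ∑ u, ((rho u : ℝ) + (rho (u + 1) : ℝ)) :=
      Finset.sum_le_sum fun u _ => by exact_mod_cast h1 u
    rw [Finset.sum_add_distrib, h2, Finset.sum_const, Finset.card_univ, nsmul_eq_mul] at h3
    have h4 : (Fintype.card (C → ZMod 2) : ℝ) = 2 ^ Fintype.card C := by
      rw [Fintype.card_fun, ZMod.card]
      push_cast
      ring
    rw [h4] at h3
    linarith
  -- conclusion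
  have c1 : ∑ u, (((JA u).card : ℝ) + ((PA u).card + ((S u).filter (fun j => N j ⬝ᵥ u ≠ ε)).card))
      ≤ ∑ u, (rke ε R N u : ℝ) :=
    Finset.sum_le_sum fun u _ => by exact_mod_cast step1 u
  have c2 : ∑ u, (rho u : ℝ) ≤ ∑ u, (((PA u).card : ℝ) + (S u).card) :=
    Finset.sum_le_sum fun u _ => by exact_mod_cast hS3 u
  rw [Finset.sum_add_distrib, Finset.sum_add_distrib, step2] at c1
  rw [Finset.sum_add_distrib] at c2
  linarith

end Pool.Agent.H59.MW
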