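import Pool.Agent.H59.MW.Defs

/-!
# MW-CELL: first consequences of minimality

`e` is the exponent: `bt e = 2 C(2e,e)/4^e`, `d + 1 = w + e`, `|U| = 2w + s`.

* `cell`: if `w < t` then `cnt B w = 0` (every member has at least `t` elements). Otherwise apply `TT`
  to `era T B` (`CW.era_subset`, `Flat.era`, `CW.cnt_era`): `|era T B| = 2^b`,
  `cnt B w ≤ cnt (era T B) (w - t) ≤ 2^b bt (1 + b - (w - t))`.
* `MC.ess`: coordinate `i` in no member: apply `h.ih1` to `U.erase i`, same `A` (`bt` of the same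
  argument `1 + d - w = e`): contradiction with `h.big`. Coordinate `i` in all members: `cell` with
  `T = {i}`, `t = 1`, `b = d`: `bt (e + 1) ≤ bt e` (`bt_anti`).
* `MC.opp`: `i, j` always different. If `era {i,j}` is injective on `A`: `cell` with `T = {i,j}`,
  `t = 1`, `b = d`. Otherwise there are `x ≠ y` in `A` with the same trace outside `{i,j}`, so
  `symmDiff x y = {i,j}` and `Per A {i,j}` (`per_of_exists`). Then apply `cell` to the half
  `A.filter (i ∈ ·)` (dimension `d - 1`, `t = 1`: `bt (1 + (d-1) - w + 1) = bt e`) and to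
  `A.filter (i ∉ ·)` (same), and add (`cnt_add`): `cnt A w ≤ 2^d bt e`. (In fact this second
  argument also works if `era` is injective: both halves are injective anyway since inside a half
  the trace on `{i,j}` is constant. So no case distinction is needed: `i` is essential by `MC.ess`.)
* `MC.par`: otherwise the half `A.filter (Odd card)` (or its complement) contains all members of
  size `w`, so by `h.ih2 (d-1)`: `cnt A w ≤ 2^(d-1) bt (e-1) ≤ 2^d bt e` (`bt_half`).
  `CW.aff_odd : Aff (fun x => Odd x.card)`.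
* `MC.hyp`: `h.ih2 (d-1)` applied to the half: `cnt ≤ 2^(d-1) bt (e-1)`, `bt (e-1) (2e-1) = bt e (2e)`
  (`bt_pred`), and `2^d bt e < cnt A w`.
* `MC.unif`: the sum is `cnt A w - 2 cnt (A.filter p) w = 2 cnt (A.filter (¬p)) w - cnt A w`
  (`cnt_add`), use `MC.hyp` for `p` and for `¬ p`.

Status: complete (helper26).
-/

namespace Pool.Agent.H59.MW

open Finset Pool.Agent.H59.CW

set_option linter.unusedSectionVars false

variable {α : Type*} [DecidableEq α] {U : Finset α} {A : Finset (Finset α)} {d w e s : ℕ}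

theorem cell {T : Finset α} {B : Finset (Finset α)} {b w t : ℕ} (hU : ∀ x ∈ B, x ⊆ U)
    (hB : Flat B) (hb : B.card = 2 ^ b) (hTT : TT α (U \ T).card b)
    (hinj : ∀ x ∈ B, ∀ y ∈ B, x \ T = y \ T → x = y) (ht : ∀ x ∈ B, (x ∩ T).card = t) :
    (cnt B w : ℝ) ≤ 2 ^ b * bt (1 + b - w + t) := by
  rcases Nat.lt_or_ge w t with hwt | hwt
  · have h0 : cnt B w = 0 := by
      unfold cnt
      rw [Finset.card_eq_zero]
      apply Finset.filter_eq_empty_iff.2
      intro x hx hc
      have h1 := ht x hx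
      have h2 := Finset.card_le_card (Finset.inter_subset_left (s₁ := x) (s₂ := T))
      omega
    rw [h0]
    have := bt_pos (1 + b - w + t)
    push_cast
    positivity
  · obtain ⟨e1, e2⟩ := cnt_era (A := B) (T := T) hinj (t := t) (w := w) (fun x hx _ => ht x hx)
    have h3 := hTT (U \ T) (era T B) rfl (era_subset hU) (hB.era T) (by rw [e1, hb]) (w - t)
    have h4 : (cnt B w : ℝ) ≤ cnt (era T B) (w - t) := by exact_mod_cast e2
    refine h4.trans (h3.trans (le_of_eq ?_))
    congr 2
    omega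

theorem MC.pos (h : MC U A d w e s) : 0 < cnt A w := by
  have h1 := h.big
  have h2 := bt_pos (e : ℤ)
  have h3 : (0 : ℝ) < cnt A w := lt_of_le_of_lt (by positivity) h1
  exact_mod_cast h3

theorem MC.ess (h : MC U A d w e s) : ∀ i ∈ U, Ess A i := by
  intro i hi
  have hbig := h.big
  constructor
  · by_contra hc
    push Not at hc
    have h1 := h.ih1 (U.erase i).card (Finset.card_erase_lt_of_mem hi) d (U.erase i) A rfl
      (fun x hx => by
        intro j hj
        rw [Finset.mem_erase]
        refine ⟨?_, h.hU x hx hj⟩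
        rintro rfl
        exact hc x hx hj) h.hA h.hd w
    have h2 : (1 + (d : ℤ) - w) = e := by have := h.he; omega
    rw [h2] at h1
    linarith
  · by_contra hc
    push Not at hc
    have hT : TT α (U \ {i}).card d := by
      apply h.ih1
      apply Finset.card_lt_card
      refine ⟨Finset.sdiff_subset, ?_⟩
      intro hs
      have := hs hi
      simp at this
    have h1 := cell (U := U) (T := {i}) (t := 1) (w := w) h.hU h.hA h.hd hT
      (by
        intro x hx y hy hxy
        ext j
        by_cases hj : j = i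
        · subst hj; exact ⟨fun _ => hc y hy, fun _ => hc x hx⟩
        · have := Finset.ext_iff.1 hxy j
          simp only [Finset.mem_sdiff, Finset.mem_singleton, hj, not_false_eq_true, and_true] at this
          exact this)
      (by
        intro x hx
        rw [Finset.inter_singleton_of_mem (hc x hx)]
        simp)
    have h2 : (1 + (d : ℤ) - w + (1 : ℕ)) = e + 1 := by have := h.he; push_cast; omega
    rw [h2] at h1
    have h3 := bt_step (e : ℤ)
    have h4 : (2 : ℝ) ^ d * bt ((e : ℤ) + 1) ≤ 2 ^ d * bt e :=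
      mul_le_mul_of_nonneg_left h3 (by positivity)
    linarith

theorem MC.d_pos (h : MC U A d w e s) {p : Finset α → Prop}
    (h1 : ∃ x ∈ A, p x) (h2 : ∃ x ∈ A, ¬ p x) : ∃ b, d = b + 1 := by
  rcases d with _ | b
  · exfalso
    have := h.hd
    rw [pow_zero] at this
    obtain ⟨a, ha⟩ := Finset.card_eq_one.1 this
    obtain ⟨x, hx, hpx⟩ := h1
    obtain ⟨y, hy, hpy⟩ := h2
    rw [ha, Finset.mem_singleton] at hx hy
    subst hx; subst hy
    exact hpy hpx
  · exact ⟨b, rfl⟩

theorem MC.opp_aux (h : MC U A d w e s) {i j : α} (hi : i ∈ U)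
    {b : ℕ} (hb : d = b + 1) {B : Finset (Finset α)} (hBA : B ⊆ A) (hBf : Flat B)
    (hBc : B.card = 2 ^ b) {t : Finset α} (ht : t.card = 1) (htr : ∀ x ∈ B, x ∩ {i, j} = t) :
    (cnt B w : ℝ) ≤ 2 ^ b * bt e := by
  have hT : TT α (U \ {i, j}).card b := by
    apply h.ih1
    apply Finset.card_lt_card
    refine ⟨Finset.sdiff_subset, ?_⟩
    intro hs
    have := hs hi
    simp at this
  have h1 := cell (U := U) (T := {i, j}) (t := 1) (w := w) (fun x hx => h.hU x (hBA hx)) hBf hBc hT
    (by
      intro x hx y hy hxy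
      rw [← Finset.sdiff_union_inter x {i, j}, ← Finset.sdiff_union_inter y {i, j}, hxy, htr x hx,
        htr y hy])
    (by
      intro x hx
      rw [htr x hx, ht])
  have h2 : (1 + (b : ℤ) - w + (1 : ℕ)) = e := by have := h.he; push_cast; omega
  rw [h2] at h1
  exact h1

theorem MC.opp (h : MC U A d w e s) :
    ∀ i ∈ U, ∀ j ∈ U, i ≠ j → ¬ ∀ x ∈ A, ¬ (i ∈ x ↔ j ∈ x) := by
  intro i hi j hj hij hall
  have hess := h.ess i hi
  obtain ⟨b, hb⟩ := h.d_pos hess.1 hess.2
  have hd := h.hd
  rw [hb] at hd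
  have c1 := hess.card_mem h.hA hd
  have c2 := hess.card_not_mem h.hA hd
  have f1 : Flat (A.filter (fun x => i ∈ x)) := h.hA.filter (aff_mem i) hess.1
  have f2 : Flat (A.filter (fun x => i ∉ x)) := h.hA.filter (aff_mem i).not hess.2
  have b1 := h.opp_aux (i := i) (j := j) hi hb (Finset.filter_subset _ _) f1 c1 (t := {i}) (by simp)
    (by
      intro x hx
      rw [Finset.mem_filter] at hx
      have := hall x hx.1
      ext k
      simp only [Finset.mem_inter, Finset.mem_insert, Finset.mem_singleton]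
      constructor
      · rintro ⟨hk, rfl | rfl⟩
        · rfl
        · exact absurd ⟨fun _ => hk, fun _ => hx.2⟩ this
      · rintro rfl
        exact ⟨hx.2, Or.inl rfl⟩)
  have b2 := h.opp_aux (i := i) (j := j) hi hb (Finset.filter_subset _ _) f2 c2 (t := {j}) (by simp)
    (by
      intro x hx
      rw [Finset.mem_filter] at hx
      have := hall x hx.1
      ext k
      simp only [Finset.mem_inter, Finset.mem_insert, Finset.mem_singleton]
      constructor
      · rintro ⟨hk, rfl | rfl⟩
        · exact absurd hk hx.2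
        · rfl
      · rintro rfl
        refine ⟨?_, Or.inr rfl⟩
        by_contra hk
        exact this ⟨fun q => absurd q hx.2, fun q => absurd q hk⟩)
  have b3 := cnt_add A (fun x => i ∈ x) w
  have b4 : (cnt (A.filter (fun x => i ∈ x)) w : ℝ) + cnt (A.filter (fun x => i ∉ x)) w = cnt A w := by
    exact_mod_cast b3
  have hbig := h.big
  rw [hb, pow_succ] at hbig
  linarith

theorem MC.half_bd (h : MC U A d w e s) {p : Finset α → Prop} [DecidablePred p] (hp : Aff p)
    (h1 : ∃ x ∈ A, p x) (h2 : ∃ x ∈ A, ¬ p x) :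
    (cnt (A.filter p) w : ℝ) ≤ 2 ^ d * (bt ((e : ℤ) - 1) / 2) := by
  obtain ⟨b, hb⟩ := h.d_pos h1 h2
  have hd := h.hd
  rw [hb] at hd
  have c1 := h.hA.pow_half hp h1 h2 hd
  have h3 := h.ih2 b (by omega) U (A.filter p) rfl
    (fun x hx => h.hU x (Finset.mem_filter.1 hx).1) (h.hA.filter hp h1) c1 w
  have h4 : (1 + (b : ℤ) - w) = e - 1 := by have := h.he; omega
  rw [h4] at h3
  rw [hb, pow_succ]
  linarith

theorem MC.par (h : MC U A d w e s) : ∀ x ∈ A, (Odd x.card ↔ Odd w) := by
  intro x hx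
  by_contra hc
  have hp : Aff (fun x : Finset α => (Odd x.card ↔ Odd w)) := by
    intro x y z
    have := aff_odd (α := α) x y z
    simp only at this
    tauto
  have hpos := h.pos
  obtain ⟨y, hy⟩ := Finset.card_pos.1 (show 0 < (A.filter (fun x => x.card = w)).card from hpos)
  rw [Finset.mem_filter] at hy
  have h1 := h.half_bd hp ⟨y, hy.1, by rw [hy.2]⟩ ⟨x, hx, hc⟩
  have h2 : cnt (A.filter (fun x => (Odd x.card ↔ Odd w))) w = cnt A w := by
    unfold cnt
    congr 1
    ext z
    simp only [Finset.mem_filter]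
    constructor
    · rintro ⟨⟨q1, _⟩, q3⟩; exact ⟨q1, q3⟩
    · rintro ⟨q1, q3⟩; exact ⟨⟨q1, by rw [q3]⟩, q3⟩
  rw [h2] at h1
  have h3 := bt_half (e := (e : ℤ)) (by have := h.e2; omega)
  have h4 : (2 : ℝ) ^ d * (bt ((e : ℤ) - 1) / 2) ≤ 2 ^ d * bt e :=
    mul_le_mul_of_nonneg_left h3 (by positivity)
  have := h.big
  linarith

theorem MC.hyp (h : MC U A d w e s) {p : Finset α → Prop} [DecidablePred p] (hp : Aff p)
    (h1 : ∃ x ∈ A, p x) (h2 : ∃ x ∈ A, ¬ p x) :
    (cnt (A.filter p) w : ℝ) * (2 * e - 1) < cnt A w * e := by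
  have h3 := h.half_bd hp h1 h2
  have he : (2 : ℝ) ≤ e := by exact_mod_cast h.e2
  have h4 := bt_pred (e := (e : ℤ)) (by have := h.e2; omega)
  push_cast at h4
  have h5 : (cnt (A.filter p) w : ℝ) * (2 * e - 1) ≤
      2 ^ d * (bt ((e : ℤ) - 1) / 2) * (2 * e - 1) :=
    mul_le_mul_of_nonneg_right h3 (by linarith)
  have h6 : (2 : ℝ) ^ d * (bt ((e : ℤ) - 1) / 2) * (2 * e - 1) = 2 ^ d * bt e * e := by
    have : (2 : ℝ) ^ d * (bt ((e : ℤ) - 1) / 2) * (2 * e - 1) =
      2 ^ d * (bt ((e : ℤ) - 1) * (2 * e - 1)) / 2 := by ring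
    rw [this, h4]; ring
  have h7 : (2 : ℝ) ^ d * bt e * e < cnt A w * e :=
    mul_lt_mul_of_pos_right h.big (by linarith)
  linarith

/-- uniformity -/
theorem MC.unif (h : MC U A d w e s) {p : Finset α → Prop} [DecidablePred p] (hp : Aff p)
    (h1 : ∃ x ∈ A, p x) (h2 : ∃ x ∈ A, ¬ p x) :
    |∑ x ∈ EE A w, (if p x then (-1 : ℝ) else 1)| * (2 * e - 1) < cnt A w := by
  have q1 := h.hyp hp h1 h2
  have q2 := h.hyp hp.not h2 (by
    obtain ⟨x, hx, hpx⟩ := h1
    exact ⟨x, hx, by simpa using hpx⟩)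
  have q3 : (cnt (A.filter p) w : ℝ) + cnt (A.filter (fun x => ¬ p x)) w = cnt A w := by
    exact_mod_cast cnt_add A p w
  have q4 : ∑ x ∈ EE A w, (if p x then (-1 : ℝ) else 1) =
      cnt (A.filter (fun x => ¬ p x)) w - cnt (A.filter p) w := by
    rw [Finset.sum_ite]
    have r1 : (EE A w).filter p = (A.filter p).filter (fun x => x.card = w) := by
      ext x; simp only [EE, Finset.mem_filter]; tauto
    have r2 : (EE A w).filter (fun x => ¬ p x) =
        (A.filter (fun x => ¬ p x)).filter (fun x => x.card = w) := by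
      ext x; simp only [EE, Finset.mem_filter]; tauto
    rw [r1, r2]
    simp only [Finset.sum_const, nsmul_eq_mul, mul_one, mul_neg]
    unfold cnt
    ring
  rw [q4]
  have he : (2 : ℝ) ≤ e := by exact_mod_cast h.e2
  rcases abs_cases ((cnt (A.filter (fun x => ¬ p x)) w : ℝ) - cnt (A.filter p) w) with hh | hh
  · rw [hh.1]; nlinarith
  · rw [hh.1]; nlinarith

end Pool.Agent.H59.MW
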