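import Pool.Agent.H59.MW.Cell

/-!
# MW-COR: signs and pair correlations in a minimal counterexample

`chi i x = -1` if `i ∈ x`, `1` otherwise (`CW.chi`). All facts follow from `Cell.lean`.

* `MC.mag_pos`: `mag = cnt A w - 2 cnt (A.filter (i ∈ ·)) w`; the half `A.filter (i ∈ ·)` has
  dimension `d - 1` and `cell` with `T = {i}`, `t = 1` (n smaller: `h.ih1`) gives
  `cnt ≤ 2^(d-1) bt (1 + (d-1) - w + 1) = 2^(d-1) bt e < cnt A w / 2`.
* `MC.mag_lt`: `MC.unif` with `p = (i ∈ ·)` (essential by `MC.ess`).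
* `MC.cor_gt`: `MC.unif` with `p x = ¬ (i ∈ x ↔ j ∈ x)` (`CW.aff_split`), not constant by `hp` and
  `MC.opp`; `chi i x * chi j x = if ¬ (i ∈ x ↔ j ∈ x) then -1 else 1`.
* `MC.cor_pos`: `cor = cnt A w - 2 cnt (A.filter (split)) w`; the split half has dimension `d - 1`,
  `era {i,j}` is injective on it since `{i,j}` is not a period (see `CW.split_inj` for the
  argument: if `x \ {i,j} = y \ {i,j}` and both are split and `x ≠ y` then `symmDiff x y = {i,j}`),
  `|x ∩ {i,j}| = 1`: `cell` gives `cnt ≤ 2^(d-1) bt (1 + (d-1) - w + 1) = 2^(d-1) bt e`.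
* `cor_of_par`: `chi i x = chi j x` for `x ∈ A`.
* `MC.sum_cor`, `MC.sum_mag`: `CW.sum_chi`: `∑ i ∈ U, chi i x = |U| - 2|x| = s` for `x ∈ EE A w`.
* `MC.s_pos`: `U` is nonempty since `A` has `2^d ≥ 2` members; sum `MC.mag_pos`, `MC.mag_lt`
  over `U` and use `MC.sum_mag`.
-/

namespace Pool.Agent.H59.MW

open Finset Pool.Agent.H59.CW

set_option linter.unusedSectionVars false

variable {α : Type*} [DecidableEq α] {U : Finset α} {A : Finset (Finset α)} {d w e s : ℕ}

theorem cor_sum_sign (A : Finset (Finset α)) (w : ℕ) (p : Finset α → Prop) [DecidablePred p] :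
    ∑ x ∈ EE A w, (if p x then (-1 : ℤ) else 1) = (cnt A w : ℤ) - 2 * (cnt (A.filter p) w : ℤ) := by
  have h1 : ∀ x ∈ EE A w, (if p x then (-1 : ℤ) else 1) = 1 - 2 * (if p x then 1 else 0) := by
    intro x _
    split_ifs <;> norm_num
  rw [Finset.sum_congr rfl h1, Finset.sum_sub_distrib, ← Finset.mul_sum, Finset.sum_const,
    ← Finset.sum_filter, Finset.sum_const, card_EE]
  have h2 : (EE A w).filter p = (A.filter p).filter (fun x => x.card = w) := by
    ext x
    simp only [EE, Finset.mem_filter]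
    tauto
  rw [h2]
  unfold cnt
  simp

theorem cor_chi_mul (i j : α) (x : Finset α) :
    chi i x * chi j x = if ¬ (i ∈ x ↔ j ∈ x) then (-1 : ℤ) else 1 := by
  unfold chi
  by_cases h1 : i ∈ x <;> by_cases h2 : j ∈ x <;> simp [h1, h2]

theorem MC.cor_dim (h : MC U A d w e s) : ∃ d', d = d' + 1 := by
  have h1 := h.he
  have h2 := h.e2
  exact ⟨d - 1, by omega⟩

theorem MC.cor_two (h : MC U A d w e s) : (0 : ℝ) < 2 * e - 1 := by
  have h2 : (2 : ℝ) ≤ e := by exact_mod_cast h.e2
  linarith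

theorem MC.cor_cnt_pos (h : MC U A d w e s) : (0 : ℝ) < cnt A w := by
  refine lt_trans ?_ h.big
  have := bt_pos e
  positivity

/-- the half of `A` on which `p` holds has less than half of the members of size `w` -/
theorem MC.cor_half (h : MC U A d w e s) {T : Finset α} {p : Finset α → Prop} [DecidablePred p] (hp : Aff p)
    (h1 : ∃ x ∈ A, p x) (h2 : ∃ x ∈ A, ¬ p x) (hT : ∃ i ∈ T, i ∈ U)
    (hinj : ∀ x ∈ A.filter p, ∀ y ∈ A.filter p, x \ T = y \ T → x = y)
    (ht : ∀ x ∈ A.filter p, (x ∩ T).card = 1) : 2 * (cnt (A.filter p) w : ℤ) < cnt A w := by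
  obtain ⟨d', rfl⟩ := h.cor_dim
  have hc : (A.filter p).card = 2 ^ d' := h.hA.pow_half hp h1 h2 h.hd
  have hlt : (U \ T).card < U.card := by
    obtain ⟨i, hiT, hiU⟩ := hT
    apply Finset.card_lt_card
    rw [Finset.ssubset_iff_of_subset Finset.sdiff_subset]
    exact ⟨i, hiU, by simp [hiT]⟩
  have h3 := cell (U := U) (T := T) (B := A.filter p) (b := d') (w := w) (t := 1)
    (fun x hx => h.hU x (Finset.mem_filter.1 hx).1) (h.hA.filter hp h1) hc (h.ih1 _ hlt d') hinj ht
  have he : (1 + (d' : ℤ) - (w : ℤ) + ((1 : ℕ) : ℤ)) = e := by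
    have := h.he
    push_cast
    omega
  rw [he] at h3
  have h4 := h.big
  rw [pow_succ] at h4
  have h5 : 2 * (cnt (A.filter p) w : ℝ) < cnt A w := by linarith
  exact_mod_cast h5

theorem cor_mag_eq (A : Finset (Finset α)) (w : ℕ) (i : α) :
    mag A w i = (cnt A w : ℤ) - 2 * (cnt (A.filter (fun x => i ∈ x)) w : ℤ) :=
  cor_sum_sign A w (fun x => i ∈ x)

theorem cor_cor_eq (A : Finset (Finset α)) (w : ℕ) (i j : α) :
    cor A w i j = (cnt A w : ℤ) - 2 * (cnt (A.filter (fun x => ¬ (i ∈ x ↔ j ∈ x))) w : ℤ) := by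
  rw [← cor_sum_sign A w (fun x => ¬ (i ∈ x ↔ j ∈ x))]
  exact Finset.sum_congr rfl fun x _ => cor_chi_mul i j x

theorem MC.mag_pos (h : MC U A d w e s) {i : α} (hi : i ∈ U) : 0 < mag A w i := by
  have h1 := h.ess i hi
  rw [cor_mag_eq]
  have h2 := h.cor_half (T := {i}) (aff_mem i) h1.1 h1.2 ⟨i, by simp, hi⟩ (by
    intro x hx y hy hxy
    have hx' := (Finset.mem_filter.1 hx).2
    have hy' := (Finset.mem_filter.1 hy).2
    ext t
    by_cases ht : t = i
    · subst ht
      exact iff_of_true hx' hy'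
    · have := Finset.ext_iff.1 hxy t
      simpa [ht] using this) (by
    intro x hx
    have hx' := (Finset.mem_filter.1 hx).2
    rw [Finset.inter_singleton_of_mem hx', Finset.card_singleton])
  linarith

theorem MC.mag_lt (h : MC U A d w e s) {i : α} (hi : i ∈ U) :
    (mag A w i : ℝ) * (2 * e - 1) < cnt A w := by
  have h1 := h.ess i hi
  have h2 := h.unif (aff_mem i) h1.1 h1.2
  have h3 : (mag A w i : ℝ) = ∑ x ∈ EE A w, (if i ∈ x then (-1 : ℝ) else 1) := by
    unfold mag chi
    push_cast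
    rfl
  rw [h3]
  exact lt_of_le_of_lt (mul_le_mul_of_nonneg_right (le_abs_self _) h.cor_two.le) h2

theorem MC.cor_gt (h : MC U A d w e s) {i j : α} (hi : i ∈ U) (hj : j ∈ U)
    (hp : ¬ Par A i j) : -(cnt A w : ℝ) < cor A w i j * (2 * e - 1) := by
  have hij : i ≠ j := by
    rintro rfl
    exact hp fun x _ => Iff.rfl
  have h1 : ∃ x ∈ A, ¬ (i ∈ x ↔ j ∈ x) := by
    by_contra hcon
    push Not at hcon
    exact hp fun x hx => by
      have := hcon x hx
      tauto
  have h2 : ∃ x ∈ A, ¬ ¬ (i ∈ x ↔ j ∈ x) := by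
    by_contra hcon
    refine h.opp i hi j hj hij fun x hx hx' => hcon ⟨x, hx, fun h3 => h3 hx'⟩
  have h3 := h.unif (aff_split i j) h1 h2
  have h4 : (cor A w i j : ℝ) = ∑ x ∈ EE A w, (if ¬ (i ∈ x ↔ j ∈ x) then (-1 : ℝ) else 1) := by
    have h5 : cor A w i j = ∑ x ∈ EE A w, (if ¬ (i ∈ x ↔ j ∈ x) then (-1 : ℤ) else 1) :=
      Finset.sum_congr rfl fun x _ => cor_chi_mul i j x
    rw [h5]
    push_cast
    rfl
  rw [← h4] at h3
  have h6 := neg_abs_le (cor A w i j : ℝ)
  have h7 := mul_le_mul_of_nonneg_right h6 h.cor_two.le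
  linarith

theorem MC.cor_pos (h : MC U A d w e s) {i j : α} (hi : i ∈ U) (hj : j ∈ U)
    (hp : ¬ Par A i j) (hs : ¬ Per A {i, j}) : 0 < cor A w i j := by
  have hij : i ≠ j := by
    rintro rfl
    exact hp fun x _ => Iff.rfl
  have h1 : ∃ x ∈ A, ¬ (i ∈ x ↔ j ∈ x) := by
    by_contra hcon
    push Not at hcon
    exact hp fun x hx => by
      have := hcon x hx
      tauto
  have h2 : ∃ x ∈ A, ¬ ¬ (i ∈ x ↔ j ∈ x) := by
    by_contra hcon
    refine h.opp i hi j hj hij fun x hx hx' => hcon ⟨x, hx, fun h3 => h3 hx'⟩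
  rw [cor_cor_eq]
  have h3 := h.cor_half (T := {i, j}) (aff_split i j) h1 h2 ⟨i, by simp, hi⟩ (by
    intro x hx y hy hxy
    obtain ⟨hxA, hx'⟩ := Finset.mem_filter.1 hx
    obtain ⟨hyA, hy'⟩ := Finset.mem_filter.1 hy
    have hm : ∀ t, t ≠ i → t ≠ j → (t ∈ x ↔ t ∈ y) := by
      intro t ht1 ht2
      have := Finset.ext_iff.1 hxy t
      simpa [ht1, ht2] using this
    by_cases hc : i ∈ x ↔ i ∈ y
    · ext t
      by_cases ht1 : t = i
      · subst ht1; exact hc
      by_cases ht2 : t = j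
      · subst ht2; tauto
      exact hm t ht1 ht2
    · exfalso
      apply hs
      apply per_of_exists h.hA
      refine ⟨x, hxA, ?_⟩
      convert hyA using 1
      ext t
      rw [mem_symmDiff_pair]
      by_cases ht1 : t = i
      · subst ht1; simp; tauto
      by_cases ht2 : t = j
      · subst ht2; simp; tauto
      simp only [ht1, ht2, or_self, if_false]
      exact hm t ht1 ht2) (by
    intro x hx
    obtain ⟨hxA, hx'⟩ := Finset.mem_filter.1 hx
    rw [Finset.card_eq_one]
    by_cases hi' : i ∈ x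
    · have hj' : j ∉ x := by tauto
      refine ⟨i, ?_⟩
      ext t
      simp only [Finset.mem_inter, Finset.mem_insert, Finset.mem_singleton]
      constructor
      · rintro ⟨ht, rfl | rfl⟩
        · rfl
        · exact absurd ht hj'
      · rintro rfl
        exact ⟨hi', by simp⟩
    · have hj' : j ∈ x := by tauto
      refine ⟨j, ?_⟩
      ext t
      simp only [Finset.mem_inter, Finset.mem_insert, Finset.mem_singleton]
      constructor
      · rintro ⟨ht, rfl | rfl⟩
        · exact absurd ht hi'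
        · rfl
      · rintro rfl
        exact ⟨hj', by simp⟩)
  linarith

theorem cor_of_par {i j : α} (hp : Par A i j) : cor A w i j = cnt A w := by
  unfold cor
  have h1 : ∀ x ∈ EE A w, chi i x * chi j x = 1 := by
    intro x hx
    rw [mem_EE] at hx
    rw [cor_chi_mul, if_neg]
    exact fun h2 => h2 (hp x hx.1)
  rw [Finset.sum_congr rfl h1, Finset.sum_const, card_EE]
  simp

theorem cor_comm (i j : α) : cor A w i j = cor A w j i := by
  unfold cor
  exact Finset.sum_congr rfl (fun x _ => mul_comm _ _)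

theorem MC.cor_sum_chi (h : MC U A d w e s) {x : Finset α} (hx : x ∈ EE A w) :
    ∑ i ∈ U, chi i x = s := by
  rw [mem_EE] at hx
  rw [sum_chi (h.hU x hx.1), hx.2, h.hn]
  push_cast
  ring

theorem MC.sum_cor (h : MC U A d w e s) (i : α) :
    ∑ j ∈ U, cor A w i j = s * mag A w i := by
  unfold cor mag
  rw [Finset.sum_comm, Finset.mul_sum]
  refine Finset.sum_congr rfl fun x hx => ?_
  rw [← Finset.mul_sum, h.cor_sum_chi hx, mul_comm]

theorem MC.sum_mag (h : MC U A d w e s) : ∑ i ∈ U, mag A w i = s * cnt A w := by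
  unfold mag
  rw [Finset.sum_comm, Finset.sum_congr rfl fun x hx => h.cor_sum_chi hx, Finset.sum_const, card_EE]
  simp [mul_comm]

theorem MC.s_pos (h : MC U A d w e s) : 0 < s ∧ (2 * e - 1) * s < 2 * w + s := by
  have hU : U.Nonempty := by
    by_contra hcon
    rw [Finset.not_nonempty_iff_eq_empty] at hcon
    have h1 : A ⊆ {∅} := by
      intro x hx
      have := h.hU x hx
      rw [hcon, Finset.subset_empty] at this
      simp [this]
    have h2 := Finset.card_le_card h1
    rw [Finset.card_singleton, h.hd] at h2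
    obtain ⟨d', rfl⟩ := h.cor_dim
    have h3 : 0 < 2 ^ d' := by positivity
    rw [pow_succ] at h2
    omega
  have hc := h.cor_cnt_pos
  have h1 : (0 : ℤ) < s * cnt A w := by
    rw [← h.sum_mag]
    exact Finset.sum_pos (fun i hi => h.mag_pos hi) hU
  have hs : 0 < s := by
    rcases Nat.eq_zero_or_pos s with h0 | h0
    · rw [h0] at h1
      simp at h1
    · exact h0
  refine ⟨hs, ?_⟩
  have h2 : ∑ i ∈ U, ((mag A w i : ℝ) * (2 * e - 1)) < ∑ _i ∈ U, (cnt A w : ℝ) :=
    Finset.sum_lt_sum_of_nonempty hU fun i hi => h.mag_lt hi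
  rw [← Finset.sum_mul, Finset.sum_const, nsmul_eq_mul, h.hn] at h2
  have h3 : ∑ i ∈ U, (mag A w i : ℝ) = (s : ℝ) * cnt A w := by
    exact_mod_cast h.sum_mag
  rw [h3] at h2
  have h4 : ((2 * e - 1) * s : ℝ) < 2 * w + s := by
    push_cast at h2
    by_contra hcon
    push Not at hcon
    have := mul_le_mul_of_nonneg_right hcon hc.le
    nlinarith
  have h5 : (((2 * e - 1 : ℕ) : ℝ)) = 2 * e - 1 := by
    have := h.e2
    rw [Nat.cast_sub (by omega)]
    push_cast
    ring
  rw [← h5] at h4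
  exact_mod_cast h4

end Pool.Agent.H59.MW
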