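import Pool.Agent.H59.MW.Cor

/-!
# MW-DBL: parallel classes

* `MC.mult`: three parallel coordinates `i, j, k`. The half `A.filter (i ∈ ·)` contains `{i,j,k}`
  in each member, so `cell` with `T = {i,j,k}`, `t = 3` gives `cnt ≤ 2^(d-1) bt (e + 2)`
  (`1 + (d-1) - w + 3 = e + 2`); the half `A.filter (i ∉ ·)`: `h.ih2`: `cnt ≤ 2^(d-1) bt (e-1)`.
  Add (`cnt_add`) and use `bt_three_par`: `cnt A w ≤ 2^d bt e`, contradiction with `h.big`.
* `MC.cor_dbl`: let `T = {i,i',j,j'}` (four different elements). On the split half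
  `B = A.filter (¬ (i ∈ x ↔ j ∈ x))` (dimension `d-1`) the trace on `T` is `{i,i'}` or `{j,j'}`,
  `|x ∩ T| = 2`; `era T` is injective on `B`: if `x \ T = y \ T`, `x ≠ y`, then
  `symmDiff x y = T` is a period. So `cell` gives `cnt B w ≤ 2^(d-1) bt (e+1)`,
  `cor = cnt A w - 2 cnt B w`, `bt (e+1) (2e+2) = bt e (2e+1)`:
  `cor (2e+2) ≥ (2e+2) cnt A w - 2^d bt e (2e+1) > cnt A w`.
* `ser_twin`: if `j ≠ i'` then for `x ∈ A` the member `symmDiff x {i,j}` differs from `x` at `i` but
  not at `i'`, contradicting `Par A i i'`.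
* `MC.dbl_s`: for `i ∈ Dbl U A` with twin `i'`: `s * mag i = ∑ j, cor i j ≥ 2 cnt A w` since
  `cor i i = cor i i' = cnt A w` and all other terms are `≥ 0` (`cor_of_par`, or `MC.cor_pos`: `{i,j}`
  is not a period by `ser_twin`). With `MC.mag_lt`: `2 (2e-1) cnt A w ≤ s (2e-1) mag i < s cnt A w`
  (here `s > 0` by `MC.s_pos`), so `s > 4e - 2`.
-/

namespace Pool.Agent.H59.MW

open Finset Pool.Agent.H59.CW

set_option linter.unusedSectionVars false

variable {α : Type*} [DecidableEq α] {U : Finset α} {A : Finset (Finset α)} {d w e s : ℕ}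

theorem Dbl_pos (h : MC U A d w e s) {i : α} (hi : i ∈ U) : ∃ d', d = d' + 1 := by
  rcases d with _ | d
  · exfalso
    have hE := h.ess i hi
    obtain ⟨⟨x, hx, hix⟩, ⟨y, hy, hiy⟩⟩ := hE
    have h1 : A.card = 1 := by rw [h.hd]; rfl
    obtain ⟨z, hz⟩ := Finset.card_eq_one.1 h1
    rw [hz, Finset.mem_singleton] at hx hy
    subst hx
    subst hy
    exact hiy hix
  · exact ⟨d, rfl⟩

theorem Dbl_cnt_pos (h : MC U A d w e s) : (0 : ℝ) < cnt A w :=
  lt_of_le_of_lt (mul_nonneg (by positivity) (bt_pos _).le) h.big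

theorem Dbl_card_lt {T : Finset α} {i : α} (hi : i ∈ U) (hiT : i ∈ T) :
    (U \ T).card < U.card := by
  apply Finset.card_lt_card
  refine ⟨Finset.sdiff_subset, fun hsub => ?_⟩
  have := hsub hi
  simp [hiT] at this

theorem MC.mult (h : MC U A d w e s) (he : 3 ≤ e) {i j k : α} (hi : i ∈ U)
    (hij : i ≠ j) (hik : i ≠ k) (hjk : j ≠ k) (h1 : Par A i j) (h2 : Par A i k)
    (hj : j ∈ U) (hk : k ∈ U) : False := by
  obtain ⟨d', rfl⟩ := Dbl_pos h hi
  have hE := h.ess i hi
  set T : Finset α := {i, j, k} with hT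
  have hiT : i ∈ T := by simp [hT]
  have hTc : T.card = 3 := by
    rw [hT, Finset.card_insert_of_notMem, Finset.card_insert_of_notMem, Finset.card_singleton]
    · simpa using hjk
    · simp [hij, hik]
  have hinter : ∀ x ∈ A.filter (fun x => i ∈ x), x ∩ T = T := by
    intro x hx
    rw [Finset.mem_filter] at hx
    apply Finset.inter_eq_right.2
    intro t ht
    rw [hT] at ht
    simp only [Finset.mem_insert, Finset.mem_singleton] at ht
    rcases ht with rfl | rfl | rfl
    · exact hx.2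
    · exact (h1 x hx.1).1 hx.2
    · exact (h2 x hx.1).1 hx.2
  have c1 := cell (U := U) (T := T) (B := A.filter (fun x => i ∈ x)) (b := d') (w := w) (t := 3)
    (fun x hx => h.hU x (Finset.mem_filter.1 hx).1) (h.hA.filter (aff_mem i) hE.1)
    (hE.card_mem h.hA h.hd) (h.ih1 _ (Dbl_card_lt hi hiT) d')
    (by
      intro x hx y hy hxy
      rw [← Finset.sdiff_union_inter x T, ← Finset.sdiff_union_inter y T, hxy, hinter x hx,
        hinter y hy])
    (by intro x hx; rw [hinter x hx, hTc])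
  have c2 := h.ih2 d' (by omega) U (A.filter (fun x => i ∉ x)) rfl
    (fun x hx => h.hU x (Finset.mem_filter.1 hx).1)
    (h.hA.filter (aff_mem i).not (by simpa using hE.2)) (hE.card_not_mem h.hA h.hd) w
  have hhe := h.he
  have z1 : (1 + (d' : ℤ) - w + ((3 : ℕ) : ℤ)) = e + 2 := by push_cast; omega
  have z2 : (1 + (d' : ℤ) - w) = e - 1 := by omega
  rw [z1] at c1
  rw [z2] at c2
  have hadd := cnt_add A (fun x => i ∈ x) w
  have hadd' : (cnt (A.filter (fun x => i ∈ x)) w : ℝ) + cnt (A.filter (fun x => i ∉ x)) w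
      = cnt A w := by exact_mod_cast hadd
  have h3 := bt_three_par (e := (e : ℤ)) (by omega)
  have hbig := h.big
  rw [pow_succ] at hbig
  have hp : (0 : ℝ) < 2 ^ d' := by positivity
  nlinarith

theorem Dbl_cor (A : Finset (Finset α)) (w : ℕ) (i j : α) :
    cor A w i j = (cnt A w : ℤ) - 2 * (cnt (A.filter (fun x => ¬ (i ∈ x ↔ j ∈ x))) w : ℤ) := by
  unfold cor
  have h0 : ∀ x ∈ EE A w, chi i x * chi j x
      = 1 - 2 * (if ¬ (i ∈ x ↔ j ∈ x) then (1 : ℤ) else 0) := by
    intro x _
    unfold chi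
    by_cases h1 : i ∈ x <;> by_cases h2 : j ∈ x <;> simp [h1, h2]
  rw [Finset.sum_congr rfl h0, Finset.sum_sub_distrib, ← Finset.mul_sum, Finset.sum_boole,
    Finset.sum_const, card_EE]
  simp only [mul_one, nsmul_eq_mul]
  congr 3
  unfold cnt EE
  rw [Finset.filter_filter, Finset.filter_filter]
  congr 1
  apply Finset.filter_congr
  intro x _
  exact and_comm

theorem Dbl_inter {x : Finset α} {i i' j j' : α} (a1 : i ∈ x) (a2 : i' ∈ x) (a3 : j ∉ x)
    (a4 : j' ∉ x) : x ∩ {i, i', j, j'} = {i, i'} := by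
  ext t
  simp only [Finset.mem_inter, Finset.mem_insert, Finset.mem_singleton]
  constructor
  · rintro ⟨b1, b2⟩
    rcases b2 with b | b | b | b
    · exact Or.inl b
    · exact Or.inr b
    · rw [b] at b1; exact absurd b1 a3
    · rw [b] at b1; exact absurd b1 a4
  · rintro (b | b)
    · rw [b]; exact ⟨a1, Or.inl rfl⟩
    · rw [b]; exact ⟨a2, Or.inr (Or.inl rfl)⟩

theorem Dbl_inter' {x : Finset α} {i i' j j' : α} (a1 : i ∉ x) (a2 : i' ∉ x) (a3 : j ∈ x)
    (a4 : j' ∈ x) : x ∩ {i, i', j, j'} = {j, j'} := by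
  ext t
  simp only [Finset.mem_inter, Finset.mem_insert, Finset.mem_singleton]
  constructor
  · rintro ⟨b1, b2⟩
    rcases b2 with b | b | b | b
    · rw [b] at b1; exact absurd b1 a1
    · rw [b] at b1; exact absurd b1 a2
    · exact Or.inl b
    · exact Or.inr b
  · rintro (b | b)
    · rw [b]; exact ⟨a3, Or.inr (Or.inr (Or.inl rfl))⟩
    · rw [b]; exact ⟨a4, Or.inr (Or.inr (Or.inr rfl))⟩

theorem MC.cor_dbl (h : MC U A d w e s) {i i' j j' : α} (hi : i ∈ U) (hi' : i' ∈ U)
    (hj : j ∈ U) (hj' : j' ∈ U) (hii : i ≠ i') (hjj : j ≠ j') (h1 : Par A i i')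
    (h2 : Par A j j') (hp : ¬ Par A i j) (hs : ¬ Per A {i, i', j, j'}) :
    (cnt A w : ℝ) < cor A w i j * (2 * e + 2) := by
  obtain ⟨d', rfl⟩ := Dbl_pos h hi
  have hij : i ≠ j := by
    rintro rfl
    exact hp fun x _ => Iff.rfl
  have hij' : i ≠ j' := by
    rintro rfl
    exact hp fun x hx => (h2 x hx).symm
  have hi'j : i' ≠ j := by
    rintro rfl
    exact hp h1
  have hi'j' : i' ≠ j' := by
    rintro rfl
    exact hp fun x hx => (h1 x hx).trans (h2 x hx).symm
  set T : Finset α := {i, i', j, j'} with hT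
  have hiT : i ∈ T := by simp [hT]
  have hmem : ∀ x ∈ A.filter (fun x => ¬ (i ∈ x ↔ j ∈ x)),
      x ∈ A ∧ ((i ∈ x ∧ i' ∈ x ∧ j ∉ x ∧ j' ∉ x) ∨ (i ∉ x ∧ i' ∉ x ∧ j ∈ x ∧ j' ∈ x)) := by
    intro x hx
    rw [Finset.mem_filter] at hx
    have a1 := h1 x hx.1
    have a2 := h2 x hx.1
    refine ⟨hx.1, ?_⟩
    have a3 := hx.2
    tauto
  have hne1 : ∃ x ∈ A, ¬ (i ∈ x ↔ j ∈ x) := by
    unfold Par at hp
    push Not at hp
    obtain ⟨x, hx, hx2⟩ := hp
    refine ⟨x, hx, ?_⟩
    tauto
  have hne2 : ∃ x ∈ A, ¬ ¬ (i ∈ x ↔ j ∈ x) := by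
    have := h.opp i hi j hj hij
    push Not at this ⊢
    obtain ⟨x, hx, hx2⟩ := this
    refine ⟨x, hx, ?_⟩
    tauto
  have c1 := cell (U := U) (T := T) (B := A.filter (fun x => ¬ (i ∈ x ↔ j ∈ x))) (b := d')
    (w := w) (t := 2)
    (fun x hx => h.hU x (Finset.mem_filter.1 hx).1) (h.hA.filter (aff_split i j) hne1)
    (h.hA.pow_half (aff_split i j) hne1 hne2 h.hd) (h.ih1 _ (Dbl_card_lt hi hiT) d')
    (by
      intro x hx y hy hxy
      obtain ⟨hxA, hx2⟩ := hmem x hx
      obtain ⟨hyA, hy2⟩ := hmem y hy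
      have hout : ∀ t, t ∉ T → (t ∈ x ↔ t ∈ y) := by
        intro t ht
        have h3 : t ∈ x \ T ↔ t ∈ y \ T := by rw [hxy]
        simpa [Finset.mem_sdiff, ht] using h3
      by_cases hc : i ∈ x ↔ i ∈ y
      · ext t
        by_cases ht : t ∈ T
        · rw [hT] at ht
          simp only [Finset.mem_insert, Finset.mem_singleton] at ht
          rcases hx2 with ⟨a1, a2, a3, a4⟩ | ⟨a1, a2, a3, a4⟩
          · rcases hy2 with ⟨b1, b2, b3, b4⟩ | ⟨b1, b2, b3, b4⟩
            · rcases ht with rfl | rfl | rfl | rfl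
              · exact iff_of_true a1 b1
              · exact iff_of_true a2 b2
              · exact iff_of_false a3 b3
              · exact iff_of_false a4 b4
            · exact absurd (hc.1 a1) b1
          · rcases hy2 with ⟨b1, b2, b3, b4⟩ | ⟨b1, b2, b3, b4⟩
            · exact absurd (hc.2 b1) a1
            · rcases ht with rfl | rfl | rfl | rfl
              · exact iff_of_false a1 b1
              · exact iff_of_false a2 b2
              · exact iff_of_true a3 b3
              · exact iff_of_true a4 b4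
        · exact hout t ht
      · exfalso
        apply hs
        refine per_of_exists h.hA ⟨x, hxA, ?_⟩
        have h4 : symmDiff x T = y := by
          ext t
          rw [Finset.mem_symmDiff]
          by_cases ht : t ∈ T
          · have ht' := ht
            rw [hT] at ht'
            simp only [Finset.mem_insert, Finset.mem_singleton] at ht'
            have key : ¬ (t ∈ x ↔ t ∈ y) := by
              rcases hx2 with ⟨a1, a2, a3, a4⟩ | ⟨a1, a2, a3, a4⟩
              · rcases hy2 with ⟨b1, b2, b3, b4⟩ | ⟨b1, b2, b3, b4⟩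
                · exact absurd (iff_of_true a1 b1) hc
                · rcases ht' with rfl | rfl | rfl | rfl
                  · exact fun q => b1 (q.1 a1)
                  · exact fun q => b2 (q.1 a2)
                  · exact fun q => a3 (q.2 b3)
                  · exact fun q => a4 (q.2 b4)
              · rcases hy2 with ⟨b1, b2, b3, b4⟩ | ⟨b1, b2, b3, b4⟩
                · rcases ht' with rfl | rfl | rfl | rfl
                  · exact fun q => a1 (q.2 b1)
                  · exact fun q => a2 (q.2 b2)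
                  · exact fun q => b3 (q.1 a3)
                  · exact fun q => b4 (q.1 a4)
                · exact absurd (iff_of_false a1 b1) hc
            clear hx2 hy2 hout hc
            by_cases q1 : t ∈ x <;> by_cases q2 : t ∈ y <;> simp_all
          · have := hout t ht
            rw [← this]
            constructor
            · rintro (⟨q, _⟩ | ⟨q, _⟩)
              · exact q
              · exact absurd q ht
            · exact fun q => Or.inl ⟨q, ht⟩
        rw [h4]
        exact hyA)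
    (by
      intro x hx
      obtain ⟨hxA, hx2⟩ := hmem x hx
      rcases hx2 with ⟨a1, a2, a3, a4⟩ | ⟨a1, a2, a3, a4⟩
      · rw [hT, Dbl_inter a1 a2 a3 a4, Finset.card_pair hii]
      · rw [hT, Dbl_inter' a1 a2 a3 a4, Finset.card_pair hjj])
  have hhe := h.he
  have z1 : (1 + (d' : ℤ) - w + ((2 : ℕ) : ℤ)) = e + 1 := by push_cast; omega
  rw [z1] at c1
  have hc := Dbl_cor A w i j
  have hc' : (cor A w i j : ℝ) = (cnt A w : ℝ)
      - 2 * (cnt (A.filter (fun x => ¬ (i ∈ x ↔ j ∈ x))) w : ℝ) := by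
    rw [hc]; push_cast; ring
  have he2 := h.e2
  have h3 := bt_succ (e := (e : ℤ)) (by omega)
  have hbig := h.big
  rw [pow_succ] at hbig
  have hp' : (0 : ℝ) < 2 ^ d' := by positivity
  rw [hc']
  push_cast at h3
  have e1 : (2 : ℝ) ≤ e := by exact_mod_cast he2
  set C := (cnt (A.filter (fun x => ¬ (i ∈ x ↔ j ∈ x))) w : ℝ) with hC
  have h4 : C * (2 * e + 2) ≤ 2 ^ d' * (bt e * (2 * e + 1)) := by
    rw [← h3, ← mul_assoc]
    exact mul_le_mul_of_nonneg_right c1 (by linarith)
  have h5 : 2 ^ d' * 2 * bt e * (2 * e + 1) < cnt A w * (2 * e + 1) :=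
    mul_lt_mul_of_pos_right hbig (by linarith)
  nlinarith

theorem ser_twin (hA : A.Nonempty) {i i' j : α} (hii : i ≠ i') (hij : i ≠ j)
    (h1 : Par A i i') (hs : Per A {i, j}) : j = i' := by
  by_contra hne
  obtain ⟨x, hx⟩ := hA
  have hy := hs x hx
  have a1 := h1 x hx
  have a2 := h1 _ hy
  rw [mem_symmDiff_pair, mem_symmDiff_pair] at a2
  have b1 : i = i ∨ i = j := Or.inl rfl
  have b2 : ¬ (i' = i ∨ i' = j) := by
    rintro (h | h)
    · exact hii h.symm
    · exact hne h.symm
  rw [if_pos b1, if_neg b2] at a2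
  tauto

theorem MC.dbl_s (h : MC U A d w e s) (hne : (Dbl U A).Nonempty) : 4 * e - 1 ≤ s := by
  obtain ⟨i, hi0⟩ := hne
  unfold Dbl at hi0
  rw [Finset.mem_filter] at hi0
  obtain ⟨hi, i', hi', hne', hpar⟩ := hi0
  have hcnt := Dbl_cnt_pos h
  have hself : cor A w i i = cnt A w := cor_of_par fun x _ => Iff.rfl
  have htwin : cor A w i i' = cnt A w := cor_of_par hpar
  have hnn : ∀ j ∈ U, 0 ≤ cor A w i j := by
    intro j hj
    by_cases hp : Par A i j
    · rw [cor_of_par hp]; exact Int.natCast_nonneg _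
    · have hij : i ≠ j := by
        rintro rfl
        exact hp fun x _ => Iff.rfl
      refine (h.cor_pos hi hj hp fun hs => ?_).le
      have := ser_twin h.hA.1 hne'.symm hij hpar hs
      subst this
      exact hp hpar
  have hsum := h.sum_cor i
  have hge : 2 * (cnt A w : ℤ) ≤ ∑ j ∈ U, cor A w i j := by
    have hsub : ({i, i'} : Finset α) ⊆ U := by
      intro t ht
      simp only [Finset.mem_insert, Finset.mem_singleton] at ht
      rcases ht with rfl | rfl
      · exact hi
      · exact hi'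
    have h1 := Finset.sum_le_sum_of_subset_of_nonneg hsub (f := fun j => cor A w i j)
      (fun j hj _ => hnn j hj)
    rw [Finset.sum_pair hne'.symm, hself, htwin] at h1
    linarith
  rw [hsum] at hge
  have hge' : 2 * (cnt A w : ℝ) ≤ s * mag A w i := by exact_mod_cast hge
  have hmag := h.mag_lt hi
  have he2 := h.e2
  have e1 : (2 : ℝ) ≤ e := by exact_mod_cast he2
  have hs0 := h.s_pos.1
  have hs1 : (0 : ℝ) < s := by exact_mod_cast hs0
  have h3 : 2 * (cnt A w : ℝ) * (2 * e - 1) ≤ s * (mag A w i * (2 * e - 1)) := by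
    have := mul_le_mul_of_nonneg_right hge' (show (0 : ℝ) ≤ 2 * e - 1 by linarith)
    linarith
  have h4 : (s : ℝ) * (mag A w i * (2 * e - 1)) < s * cnt A w :=
    mul_lt_mul_of_pos_left hmag hs1
  have h5 : (2 * (2 * e - 1) : ℝ) * cnt A w < s * cnt A w := by linarith
  have h6 : (2 * (2 * e - 1) : ℝ) < s := lt_of_mul_lt_mul_right h5 hcnt.le
  have h7 : (4 * e : ℝ) < s + 2 := by linarith
  have h8 : 4 * e < s + 2 := by exact_mod_cast h7
  omega

end Pool.Agent.H59.MW
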