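import Pool.Agent.H59.MW.Cor

/-!
# MW-FOUR: small exponents

* `MC.VV_le_sq`: if no pair of non-parallel coordinates has negative correlation then
  `s² N = ∑_{i,j ∈ U} cor i j` (`MC.sum_cor`, `MC.sum_mag`, `N = cnt A w`) `≥ N * #{(i,j) parallel}`
  (`cor_of_par`), so `VV U A ≤ s²`.
* `MC.half`: `CW.cantelli` with `V = VV U A` (positive: `(i,i)`, `U` nonempty by `MC.s_pos`..; essential
  and opposite hypotheses by `MC.ess`, `MC.opp`): `N (s² + V) ≤ 2^d V ≤ 2^d (s² + V)/2`.
* `MC.no_ser`: `e = 2, 3`, `{i,j}` a period, `i, j` not parallel. The split half (`¬ (i ∈ x ↔ j ∈ x)`)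
  has at most `2^(d-1) bt (e-1)` members of size `w` (`h.ih2`). In the other half the map
  `x ↦ symmDiff x {i,j}` is an involution which changes the size by `2`, so at most half of its
  `2^(d-1)` members have size `w`: `N ≤ 2^(d-1) (bt (e-1) + 1/2) ≤ 2^d bt e` for `e = 2` (`bt 1 = 1`,
  `bt 2 = 3/4`) and `e = 3` (`bt 2 = 3/4`, `bt 3 = 5/8`): contradiction with `h.big`.
* `MC.four_le`: if `e ≤ 3` all non-parallel pairs have positive correlation (`MC.cor_pos` and
  `MC.no_ser`), `MC.half` gives `2N ≤ 2^d`, but `N > 2^d bt e ≥ 2^d * 5/8`.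
* `MC.five_le`: the same with `bt 4 = 35/64 > 1/2`.
-/

namespace Pool.Agent.H59.MW

open Finset Pool.Agent.H59.CW

set_option linter.unusedSectionVars false

variable {α : Type*} [DecidableEq α] {U : Finset α} {A : Finset (Finset α)} {d w e s : ℕ}

theorem MC.VV_le_sq (h : MC U A d w e s)
    (hc : ∀ i ∈ U, ∀ j ∈ U, ¬ Par A i j → 0 ≤ cor A w i j) : VV U A ≤ s ^ 2 := by
  have hN : (0 : ℝ) < cnt A w := lt_of_le_of_lt
    (mul_nonneg (by positivity) (bt_pos _).le) h.big
  have hN' : (0 : ℤ) < cnt A w := by exact_mod_cast hN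
  have h1 : ∑ p ∈ U ×ˢ U, cor A w p.1 p.2 = (s : ℤ) * (s * cnt A w) := by
    rw [Finset.sum_product, ← h.sum_mag, Finset.mul_sum]
    exact Finset.sum_congr rfl fun i _ => h.sum_cor i
  have h2 : (VV U A : ℤ) * cnt A w ≤ ∑ p ∈ U ×ˢ U, cor A w p.1 p.2 := by
    have h3 : (VV U A : ℤ) * cnt A w =
        ∑ p ∈ (U ×ˢ U).filter (fun p => Par A p.1 p.2), cor A w p.1 p.2 := by
      rw [Finset.sum_congr rfl (fun p hp => cor_of_par (Finset.mem_filter.1 hp).2),
        Finset.sum_const]
      simp [VV]
    rw [h3]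
    refine Finset.sum_le_sum_of_subset_of_nonneg (Finset.filter_subset _ _) ?_
    intro p hp hp'
    rw [Finset.mem_product] at hp
    refine hc p.1 hp.1 p.2 hp.2 (fun hpar => hp' ?_)
    exact Finset.mem_filter.2 ⟨Finset.mem_product.2 hp, hpar⟩
  rw [h1] at h2
  have h3 : (VV U A : ℤ) * cnt A w ≤ (s : ℤ) ^ 2 * cnt A w := by linarith
  have h4 := le_of_mul_le_mul_right h3 hN'
  exact_mod_cast h4

theorem MC.half (h : MC U A d w e s)
    (hc : ∀ i ∈ U, ∀ j ∈ U, ¬ Par A i j → 0 ≤ cor A w i j) : 2 * cnt A w ≤ 2 ^ d := by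
  have hVV := h.VV_le_sq hc
  have hUne : U.Nonempty := by
    rw [← Finset.card_pos, h.hn]
    have := h.s_pos.1
    omega
  have hVpos : 0 < VV U A := by
    obtain ⟨i, hi⟩ := hUne
    unfold VV
    rw [Finset.card_pos]
    exact ⟨(i, i), Finset.mem_filter.2 ⟨Finset.mem_product.2 ⟨hi, hi⟩, fun _ _ => Iff.rfl⟩⟩
  have h1 := cantelli h.hA h.hU h.ess h.opp w (VV U A : ℤ) rfl (by exact_mod_cast hVpos)
  have h2 : ((U.card : ℤ) - 2 * w) = s := by
    rw [h.hn]
    push_cast
    ring
  rw [h2, h.hd] at h1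
  have h3 : (VV U A : ℤ) ≤ (s : ℤ) ^ 2 := by exact_mod_cast hVV
  have h4 : (0 : ℤ) < VV U A := by exact_mod_cast hVpos
  have h5 : (2 * cnt A w : ℤ) * VV U A ≤ (2 ^ d : ℕ) * VV U A := by
    have h6 : (0 : ℤ) ≤ cnt A w := by positivity
    nlinarith
  have h6 := le_of_mul_le_mul_right h5 h4
  exact_mod_cast h6

theorem MC.no_ser (h : MC U A d w e s) (he : e ≤ 3) {i j : α} (hi : i ∈ U) (hj : j ∈ U)
    (hp : ¬ Par A i j) : ¬ Per A {i, j} := by
  intro hper
  have hij : i ≠ j := by
    rintro rfl
    exact hp (fun _ _ => Iff.rfl)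
  set p : Finset α → Prop := fun x => ¬ (i ∈ x ↔ j ∈ x) with hpdef
  have haff : Aff p := aff_split i j
  have h1 : ∃ x ∈ A, p x := by
    by_contra hcon
    push Not at hcon
    exact hp (fun x hx => not_not.1 (hcon x hx))
  have h2 : ∃ x ∈ A, ¬ p x := by
    by_contra hcon
    push Not at hcon
    exact h.opp i hi j hj hij (fun x hx => hcon x hx)
  have hcard := h.hA.card_filter haff h1 h2
  have hd0 : 0 < d := by
    rcases Nat.eq_zero_or_pos d with h0 | h0
    · exfalso
      rw [h.hd, h0] at hcard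
      omega
    · exact h0
  obtain ⟨d', rfl⟩ : ∃ d', d = d' + 1 := ⟨d - 1, by omega⟩
  have hc1 : (A.filter p).card = 2 ^ d' := h.hA.pow_half haff h1 h2 h.hd
  have hc2 : (A.filter (fun x => ¬ p x)).card = 2 ^ d' := by
    have h3 := h.hA.card_half haff h1 h2
    rw [← h3, hc1]
  -- the split half
  have hb1 : (cnt (A.filter p) w : ℝ) ≤ 2 ^ d' * bt ((e : ℤ) - 1) := by
    have h3 := h.ih2 d' (by omega) U (A.filter p) rfl
      (fun x hx => h.hU x (Finset.mem_filter.1 hx).1) (h.hA.filter haff h1) hc1 w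
    have h4 : (1 + (d' : ℤ) - w) = (e : ℤ) - 1 := by
      have := h.he
      omega
    rwa [h4] at h3
  -- the other half
  have hb2 : 2 * cnt (A.filter (fun x => ¬ p x)) w ≤ 2 ^ d' := by
    set B := A.filter (fun x => ¬ p x) with hB
    have hinv : ∀ x ∈ B, symmDiff x {i, j} ∈ B := by
      intro x hx
      rw [hB, Finset.mem_filter] at hx ⊢
      refine ⟨hper x hx.1, ?_⟩
      have hx2 := hx.2
      simp only [hpdef, not_not] at hx2 ⊢
      rw [mem_symmDiff_pair, mem_symmDiff_pair, if_pos (Or.inl rfl), if_pos (Or.inr rfl)]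
      exact not_congr hx2
    have hsz : ∀ x ∈ B, x.card = w → (symmDiff x {i, j}).card ≠ w := by
      intro x hx hxw
      rw [hB, Finset.mem_filter] at hx
      have hx2 := hx.2
      simp only [hpdef, not_not] at hx2
      by_cases hix : i ∈ x
      · have hjx := hx2.1 hix
        have h5 : symmDiff x {i, j} = x \ {i, j} := by
          ext t
          rw [mem_symmDiff_pair, Finset.mem_sdiff, Finset.mem_insert, Finset.mem_singleton]
          by_cases h6 : t = i
          · subst h6; simp [hix]
          · by_cases h7 : t = j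
            · subst h7; simp [hjx]
            · simp [h6, h7]
        have h6 : (x \ {i, j}).card + ({i, j} : Finset α).card = x.card :=
          Finset.card_sdiff_add_card_eq_card (by
            intro t ht
            rw [Finset.mem_insert, Finset.mem_singleton] at ht
            rcases ht with rfl | rfl
            · exact hix
            · exact hjx)
        rw [Finset.card_pair hij] at h6
        rw [h5]
        omega
      · have hjx : j ∉ x := fun h7 => hix (hx2.2 h7)
        have h5 : symmDiff x {i, j} = x ∪ {i, j} := by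
          ext t
          rw [mem_symmDiff_pair, Finset.mem_union, Finset.mem_insert, Finset.mem_singleton]
          by_cases h6 : t = i
          · subst h6; simp [hix]
          · by_cases h7 : t = j
            · subst h7; simp [hjx]
            · simp [h6, h7]
        have h6 : (x ∪ {i, j}).card = x.card + ({i, j} : Finset α).card := by
          apply Finset.card_union_of_disjoint
          rw [Finset.disjoint_right]
          intro t ht
          rw [Finset.mem_insert, Finset.mem_singleton] at ht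
          rcases ht with rfl | rfl
          · exact hix
          · exact hjx
        rw [Finset.card_pair hij] at h6
        rw [h5]
        omega
    set C := B.filter (fun x => x.card = w) with hC
    have h5 : (C.image (fun x => symmDiff x {i, j})).card = C.card := by
      apply Finset.card_image_of_injective
      intro x y hxy
      have := congrArg (fun z => symmDiff z {i, j}) hxy
      simpa [symmDiff_assoc] using this
    have h6 : Disjoint C (C.image (fun x => symmDiff x {i, j})) := by
      rw [Finset.disjoint_right]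
      intro y hy hy'
      obtain ⟨x, hx, rfl⟩ := Finset.mem_image.1 hy
      rw [hC, Finset.mem_filter] at hx hy'
      exact hsz x hx.1 hx.2 hy'.2
    have h7 : C ∪ C.image (fun x => symmDiff x {i, j}) ⊆ B := by
      intro y hy
      rw [Finset.mem_union] at hy
      rcases hy with hy | hy
      · exact (Finset.mem_filter.1 hy).1
      · obtain ⟨x, hx, rfl⟩ := Finset.mem_image.1 hy
        exact hinv x (Finset.mem_filter.1 hx).1
    have h8 := Finset.card_le_card h7
    rw [Finset.card_union_of_disjoint h6, h5, hc2] at h8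
    have h9 : cnt B w = C.card := rfl
    rw [h9]
    omega
  have hadd := cnt_add A p w
  have hadd' : (cnt (A.filter p) w : ℝ) + cnt (A.filter (fun x => ¬ p x)) w = cnt A w := by
    exact_mod_cast hadd
  have hb2' : 2 * (cnt (A.filter (fun x => ¬ p x)) w : ℝ) ≤ 2 ^ d' := by exact_mod_cast hb2
  have hbig := h.big
  have he2 := h.e2
  have hpow : (2 : ℝ) ^ (d' + 1) = 2 * 2 ^ d' := by ring
  rw [hpow] at hbig
  have hpos : (0 : ℝ) < 2 ^ d' := by positivity
  rcases (by omega : e = 2 ∨ e = 3) with rfl | rfl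
  · have h5 : (((2 : ℕ) : ℤ) - 1) = 1 := by norm_num
    rw [h5, bt_one] at hb1
    have h6 : bt ((2 : ℕ) : ℤ) = 3 / 4 := by rw [← bt_two]; rfl
    rw [h6] at hbig
    linarith
  · have h5 : (((3 : ℕ) : ℤ) - 1) = 2 := by norm_num
    rw [h5, bt_two] at hb1
    have h6 : bt ((3 : ℕ) : ℤ) = 5 / 8 := by rw [← bt_three]; rfl
    rw [h6] at hbig
    linarith

theorem MC.four_le (h : MC U A d w e s) : 4 ≤ e := by
  by_contra hcon
  have he : e ≤ 3 := by omega
  have hhalf := h.half (fun i hi j hj hp => (h.cor_pos hi hj hp (h.no_ser he hi hj hp)).le)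
  have hhalf' : 2 * (cnt A w : ℝ) ≤ 2 ^ d := by exact_mod_cast hhalf
  have hbig := h.big
  have he2 := h.e2
  have hpos : (0 : ℝ) < 2 ^ d := by positivity
  rcases (by omega : e = 2 ∨ e = 3) with rfl | rfl
  · have h6 : bt ((2 : ℕ) : ℤ) = 3 / 4 := by rw [← bt_two]; rfl
    rw [h6] at hbig
    linarith
  · have h6 : bt ((3 : ℕ) : ℤ) = 5 / 8 := by rw [← bt_three]; rfl
    rw [h6] at hbig
    linarith

theorem MC.five_le (h : MC U A d w e s)
    (hns : ∀ i ∈ U, ∀ j ∈ U, i ≠ j → ¬ Per A {i, j}) : 5 ≤ e := by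
  by_contra hcon
  have he4 := h.four_le
  have he : e = 4 := by omega
  subst he
  have hhalf := h.half (fun i hi j hj hp => (h.cor_pos hi hj hp (hns i hi j hj (by
    rintro rfl
    exact hp (fun _ _ => Iff.rfl)))).le)
  have hhalf' : 2 * (cnt A w : ℝ) ≤ 2 ^ d := by exact_mod_cast hhalf
  have hbig := h.big
  have hpos : (0 : ℝ) < 2 ^ d := by positivity
  have h6 : bt ((4 : ℕ) : ℤ) = 35 / 64 := by rw [← bt_four]; rfl
  rw [h6] at hbig
  linarith

end Pool.Agent.H59.MW
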