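import Pool.Agent.H59.MW.Defs

/-!
# MW-LO: Littlewood-Offord with size bias (no minimality needed)

`g a` (`a : ι`) are pairwise disjoint periods of `A` of size `2v`; `p a, q a ∈ g a`; for `x ∈ A`:
if exactly one of `p a, q a` is in `x` then `|x ∩ g a| = v`, otherwise `|x ∩ g a| ∈ {0, 2v}`.
`KK p q x` = number of `a` with `p a ∈ x ↔ q a ∈ x`;  `LL K = C(K, K/2)/2^K`.

* `lo`. For `T : Finset ι` put `x_T = symmDiff x (T.biUnion g)`. Facts: `x_T ∈ A` (induction on `T`),
  `x ↦ x_T` is an involution of `A`, `KK x_T = KK x` (both or none of `p a, q a` are flipped), and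
  `|x_T| = |x| + ∑_{a ∈ T} (2v - 2|x ∩ g a|)` (disjointness), where the summand is `0` if `a` is not
  counted in `KK x` and `±2v` if it is counted. Fix `x ∈ A`, let `S` = the set of counted `a`
  (`|S| = KK x`), `S⁻ = {a ∈ S : |x ∩ g a| = 2v}`. If `|x_T| = w` then
  `|T ∩ (S \ S⁻)| - |T ∩ S⁻| = c` is determined, i.e. `|symmDiff (T ∩ S) S⁻| = c + |S⁻|` is
  determined; so the number of `T` with `|x_T| = w` is at most
  `2^(|ι|-|S|) * C(|S|, m) ≤ 2^|ι| LL |S|` (`Nat.choose_le_middle`); map
  `T ↦ (T \ S, symmDiff (T ∩ S) S⁻)`. Finally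
  `2^|ι| ∑_{x ∈ EE} KK x = ∑_T ∑_{x ∈ A} [|x_T| = w] KK x = ∑_{x ∈ A} KK x * #{T : |x_T| = w}`.
* `LL_bound`: `LL (2j) = LL (2j-1) = bt j / 2` for `j ≥ 1` (`bt_nat`, `Nat.centralBinom`,
  `2 C(2j-1, j-1) = C(2j, j)`), so `K LL(K)^2 ≤ j bt(j)^2 / 2 ≤ (1/2) bt(j)^2 (j + 1/4)`, then `bt_upper`.
-/

namespace Pool.Agent.H59.MW

open Finset Pool.Agent.H59.CW

set_option linter.unusedSectionVars false

variable {α : Type*} [DecidableEq α] {A : Finset (Finset α)} {ι : Type*} [Fintype ι]
  [DecidableEq ι]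

/-- number of indices for which `x` contains both or none of `p a, q a` -/
def KK (p q : ι → α) (x : Finset α) : ℕ := (univ.filter (fun a => (p a ∈ x ↔ q a ∈ x))).card

/-- maximal atom of a sum of `K` signs -/
noncomputable def LL (K : ℕ) : ℝ := (K.choose (K / 2) : ℝ) / 2 ^ K

/-- flipping the blocks of `T` -/
def fl (g : ι → Finset α) (x : Finset α) (T : Finset ι) : Finset α := symmDiff x (T.biUnion g)

theorem fl_fl (g : ι → Finset α) (x : Finset α) (T : Finset ι) : fl g (fl g x T) T = x := by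
  unfold fl
  rw [symmDiff_symmDiff_cancel_right]

theorem fl_mem {g : ι → Finset α} (hper : ∀ a, Per A (g a))
    (hdis : ∀ a b, a ≠ b → Disjoint (g a) (g b)) {x : Finset α} (hx : x ∈ A) (T : Finset ι) :
    fl g x T ∈ A := by
  induction T using Finset.induction_on with
  | empty =>
    have h : fl g x ∅ = x := by
      unfold fl
      rw [Finset.biUnion_empty, ← Finset.bot_eq_empty, symmDiff_bot]
    rw [h]
    exact hx
  | insert a T ha ih =>
    have h1 := hper a _ ih
    have h2 : Disjoint (T.biUnion g) (g a) := by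
      rw [Finset.disjoint_biUnion_left]
      intro b hb
      exact hdis b a (fun h => ha (h ▸ hb))
    have h3 : fl g x (insert a T) = symmDiff (fl g x T) (g a) := by
      unfold fl
      rw [symmDiff_assoc, Finset.biUnion_insert]
      congr 1
      rw [h2.symmDiff_eq_sup, Finset.sup_eq_union, Finset.union_comm]
    rw [h3]
    exact h1

theorem mem_fl {g : ι → Finset α} (hdis : ∀ a b, a ≠ b → Disjoint (g a) (g b))
    {x : Finset α} {T : Finset ι} {i : α} {a : ι} (hi : i ∈ g a) :
    i ∈ fl g x T ↔ ¬ (i ∈ x ↔ a ∈ T) := by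
  have h1 : i ∈ T.biUnion g ↔ a ∈ T := by
    rw [Finset.mem_biUnion]
    constructor
    · rintro ⟨b, hb, hib⟩
      by_cases hab : a = b
      · exact hab ▸ hb
      · exact absurd hib (Finset.disjoint_left.1 (hdis a b hab) hi)
    · intro h
      exact ⟨a, h, hi⟩
  unfold fl
  rw [Finset.mem_symmDiff, h1]
  tauto

theorem KK_fl {g : ι → Finset α} {p q : ι → α} (hdis : ∀ a b, a ≠ b → Disjoint (g a) (g b))
    (hp : ∀ a, p a ∈ g a) (hq : ∀ a, q a ∈ g a) (x : Finset α) (T : Finset ι) :
    KK p q (fl g x T) = KK p q x := by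
  unfold KK
  congr 1
  apply Finset.filter_congr
  intro a _
  rw [mem_fl hdis (hp a), mem_fl hdis (hq a)]
  tauto

theorem card_fl {g : ι → Finset α} {v : ℕ} (hdis : ∀ a b, a ≠ b → Disjoint (g a) (g b))
    (hc : ∀ a, (g a).card = 2 * v) (x : Finset α) (T : Finset ι) :
    ((fl g x T).card : ℤ) = x.card + ∑ a ∈ T, ((2 * v : ℤ) - 2 * (x ∩ g a).card) := by
  have h1 : (T.biUnion g).card = ∑ a ∈ T, (g a).card :=
    Finset.card_biUnion fun a _ b _ hab => hdis a b hab
  have h2 : (x ∩ T.biUnion g).card = ∑ a ∈ T, (x ∩ g a).card := by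
    rw [Finset.inter_biUnion]
    exact Finset.card_biUnion fun a _ b _ hab =>
      (hdis a b hab).mono Finset.inter_subset_right Finset.inter_subset_right
  have h3 : ∀ s t : Finset α, ((symmDiff s t).card : ℤ) = s.card + t.card - 2 * (s ∩ t).card := by
    intro s t
    have e1 : symmDiff s t = (s \ t) ∪ (t \ s) := rfl
    have e2 : (s \ t).card + (s ∩ t).card = s.card := Finset.card_sdiff_add_card_inter s t
    have e3 : (t \ s).card + (t ∩ s).card = t.card := Finset.card_sdiff_add_card_inter t s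
    have e4 : Disjoint (s \ t) (t \ s) := disjoint_sdiff_sdiff
    rw [e1, Finset.card_union_of_disjoint e4]
    rw [Finset.inter_comm t s] at e3
    push_cast
    omega
  unfold fl
  rw [h3, h1, h2]
  push_cast
  simp only [hc, Finset.sum_sub_distrib, ← Finset.mul_sum, Finset.sum_const]
  push_cast
  ring

theorem card_symmDiff' {β : Type*} [DecidableEq β] (s t : Finset β) :
    ((symmDiff s t).card : ℤ) = s.card + t.card - 2 * (s ∩ t).card := by
  have e1 : symmDiff s t = (s \ t) ∪ (t \ s) := rfl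
  have e2 : (s \ t).card + (s ∩ t).card = s.card := Finset.card_sdiff_add_card_inter s t
  have e3 : (t \ s).card + (t ∩ s).card = t.card := Finset.card_sdiff_add_card_inter t s
  have e4 : Disjoint (s \ t) (t \ s) := disjoint_sdiff_sdiff
  rw [e1, Finset.card_union_of_disjoint e4]
  rw [Finset.inter_comm t s] at e3
  push_cast
  omega

theorem count_T {w v : ℕ} (hv : 0 < v) (p q : ι → α) (g : ι → Finset α)
    (hdis : ∀ a b, a ≠ b → Disjoint (g a) (g b))
    (hc : ∀ a, (g a).card = 2 * v) {x : Finset α}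
    (h0 : ∀ a, ¬ (p a ∈ x ↔ q a ∈ x) → (x ∩ g a).card = v)
    (h1 : ∀ a, (p a ∈ x ↔ q a ∈ x) → (x ∩ g a).card = 0 ∨ (x ∩ g a).card = 2 * v) :
    (((univ : Finset (Finset ι)).filter (fun T => (fl g x T).card = w)).card : ℝ) ≤
      2 ^ Fintype.card ι * LL (KK p q x) := by
  classical
  set S : Finset ι := univ.filter (fun a => (p a ∈ x ↔ q a ∈ x)) with hS
  set Sm : Finset ι := S.filter (fun a => (x ∩ g a).card = 2 * v) with hSm
  have hK : KK p q x = S.card := rfl
  have hSmS : Sm ⊆ S := Finset.filter_subset _ _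
  have key : ∀ T : Finset ι, ((fl g x T).card : ℤ) =
      x.card + 2 * v * (((symmDiff (T ∩ S) Sm).card : ℤ) - Sm.card) := by
    intro T
    rw [card_fl hdis hc]
    have e1 : ∑ a ∈ T, ((2 * v : ℤ) - 2 * (x ∩ g a).card) =
        ∑ a ∈ T ∩ S, ((2 * v : ℤ) - 2 * (x ∩ g a).card) := by
      symm
      apply Finset.sum_subset Finset.inter_subset_left
      intro a haT haS
      have : ¬ (p a ∈ x ↔ q a ∈ x) := by
        intro h
        apply haS
        rw [Finset.mem_inter]
        exact ⟨haT, by rw [hS, Finset.mem_filter]; exact ⟨Finset.mem_univ _, h⟩⟩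
      rw [h0 a this]
      ring
    have e2 : ∀ a ∈ T ∩ S, ((2 * v : ℤ) - 2 * (x ∩ g a).card) =
        2 * v * (1 - 2 * (if a ∈ Sm then 1 else 0)) := by
      intro a ha
      have haS : a ∈ S := (Finset.mem_inter.1 ha).2
      have hpq : (p a ∈ x ↔ q a ∈ x) := (Finset.mem_filter.1 haS).2
      rcases h1 a hpq with h | h
      · have : a ∉ Sm := by
          rw [hSm, Finset.mem_filter]
          rintro ⟨_, h2⟩
          omega
        rw [if_neg this, h]
        push_cast
        ring
      · have : a ∈ Sm := by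
          rw [hSm, Finset.mem_filter]
          exact ⟨haS, h⟩
        rw [if_pos this, h]
        push_cast
        ring
    have e3 : ∑ a ∈ T ∩ S, (if a ∈ Sm then (1 : ℤ) else 0) = ((T ∩ S) ∩ Sm).card := by
      rw [Finset.sum_ite_mem]
      simp
    rw [e1, Finset.sum_congr rfl e2, ← Finset.mul_sum, Finset.sum_sub_distrib, ← Finset.mul_sum,
      e3, card_symmDiff']
    simp only [Finset.sum_const, mul_one, nsmul_eq_mul]
    ring
  set F : Finset (Finset ι) := (univ : Finset (Finset ι)).filter (fun T => (fl g x T).card = w)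
    with hF
  rcases F.eq_empty_or_nonempty with hE | ⟨T0, hT0⟩
  · rw [hE]
    simp only [Finset.card_empty, Nat.cast_zero]
    unfold LL
    positivity
  · set m : ℕ := (symmDiff (T0 ∩ S) Sm).card with hm
    have hsame : ∀ T ∈ F, (symmDiff (T ∩ S) Sm).card = m := by
      intro T hT
      have k1 := key T
      have k2 := key T0
      rw [(Finset.mem_filter.1 hT).2] at k1
      rw [(Finset.mem_filter.1 hT0).2] at k2
      have hv' : (2 * v : ℤ) ≠ 0 := by
        have : (0 : ℤ) < v := by exact_mod_cast hv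
        omega
      have k3 : (2 * v : ℤ) * (((symmDiff (T ∩ S) Sm).card : ℤ) - Sm.card) =
          2 * v * (((symmDiff (T0 ∩ S) Sm).card : ℤ) - Sm.card) := by linarith
      have k4 := mul_left_cancel₀ hv' k3
      rw [hm]
      omega
    have hcard : F.card ≤ ((Sᶜ).powerset ×ˢ (S.powersetCard m)).card := by
      apply Finset.card_le_card_of_injOn (fun T => (T \ S, symmDiff (T ∩ S) Sm))
      · intro T hT
        have hT' : T ∈ F := by simpa using hT
        simp only [Finset.coe_product, Set.mem_prod, Finset.mem_coe, Finset.mem_powerset,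
          Finset.mem_powersetCard]
        refine ⟨?_, ?_, hsame T hT'⟩
        · intro a ha
          rw [Finset.mem_compl]
          exact (Finset.mem_sdiff.1 ha).2
        · intro a ha
          rcases Finset.mem_symmDiff.1 ha with h | h
          · exact (Finset.mem_inter.1 h.1).2
          · exact hSmS h.1
      · intro T _ T' _ hTT
        simp only [Prod.mk.injEq] at hTT
        obtain ⟨t1, t2⟩ := hTT
        have t3 : T ∩ S = T' ∩ S := by
          have := congrArg (fun z => symmDiff z Sm) t2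
          simpa only [symmDiff_symmDiff_cancel_right] using this
        rw [← Finset.sdiff_union_inter T S, ← Finset.sdiff_union_inter T' S, t1, t3]
    rw [Finset.card_product, Finset.card_powerset, Finset.card_powersetCard,
      Finset.card_compl] at hcard
    have h2 : S.card.choose m ≤ S.card.choose (S.card / 2) := Nat.choose_le_middle m S.card
    have h3 : F.card ≤ 2 ^ (Fintype.card ι - S.card) * S.card.choose (S.card / 2) :=
      hcard.trans (Nat.mul_le_mul_left _ h2)
    have h4 : S.card ≤ Fintype.card ι := Finset.card_le_univ S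
    have h5 : (2 : ℝ) ^ Fintype.card ι = 2 ^ (Fintype.card ι - S.card) * 2 ^ S.card := by
      rw [← pow_add]
      congr 1
      omega
    rw [hK]
    unfold LL
    rw [h5]
    have h6 : ((F.card : ℕ) : ℝ) ≤
        2 ^ (Fintype.card ι - S.card) * (S.card.choose (S.card / 2) : ℝ) := by exact_mod_cast h3
    refine h6.trans (le_of_eq ?_)
    have h7 : (2 : ℝ) ^ S.card ≠ 0 := by positivity
    field_simp

theorem lo {w v : ℕ} (hv : 0 < v) (p q : ι → α) (g : ι → Finset α) (hper : ∀ a, Per A (g a))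
    (hdis : ∀ a b, a ≠ b → Disjoint (g a) (g b)) (hp : ∀ a, p a ∈ g a) (hq : ∀ a, q a ∈ g a)
    (hc : ∀ a, (g a).card = 2 * v)
    (h0 : ∀ a, ∀ x ∈ A, ¬ (p a ∈ x ↔ q a ∈ x) → (x ∩ g a).card = v)
    (h1 : ∀ a, ∀ x ∈ A, (p a ∈ x ↔ q a ∈ x) → (x ∩ g a).card = 0 ∨ (x ∩ g a).card = 2 * v) :
    (∑ x ∈ EE A w, (KK p q x : ℝ)) ≤ ∑ x ∈ A, (KK p q x : ℝ) * LL (KK p q x) := by
  classical
  have hT : ∀ T : Finset ι, (∑ x ∈ EE A w, (KK p q x : ℝ)) =
      ∑ x ∈ A, (if (fl g x T).card = w then (KK p q x : ℝ) else 0) := by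
    intro T
    rw [← Finset.sum_filter]
    apply Finset.sum_bij' (fun x _ => fl g x T) (fun x _ => fl g x T)
    · intro x hx
      rw [mem_EE] at hx
      rw [Finset.mem_filter, fl_fl]
      exact ⟨fl_mem hper hdis hx.1 T, hx.2⟩
    · intro x hx
      rw [Finset.mem_filter] at hx
      rw [mem_EE]
      exact ⟨fl_mem hper hdis hx.1 T, hx.2⟩
    · intro x _
      exact fl_fl g x T
    · intro x _
      exact fl_fl g x T
    · intro x _
      rw [KK_fl hdis hp hq]
  have h2 : (2 : ℝ) ^ Fintype.card ι * (∑ x ∈ EE A w, (KK p q x : ℝ)) =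
      ∑ x ∈ A, (KK p q x : ℝ) *
        (((univ : Finset (Finset ι)).filter (fun T => (fl g x T).card = w)).card : ℝ) := by
    have e1 : (2 : ℝ) ^ Fintype.card ι * (∑ x ∈ EE A w, (KK p q x : ℝ)) =
        ∑ T : Finset ι, ∑ x ∈ A, (if (fl g x T).card = w then (KK p q x : ℝ) else 0) := by
      rw [← Finset.sum_congr rfl (fun T _ => hT T), Finset.sum_const, Finset.card_univ,
        Fintype.card_finset, nsmul_eq_mul]
      push_cast
      ring
    rw [e1, Finset.sum_comm]
    apply Finset.sum_congr rfl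
    intro x _
    rw [← Finset.sum_filter, Finset.sum_const, nsmul_eq_mul, mul_comm]
  have h3 : ∑ x ∈ A, (KK p q x : ℝ) *
        (((univ : Finset (Finset ι)).filter (fun T => (fl g x T).card = w)).card : ℝ) ≤
      ∑ x ∈ A, (KK p q x : ℝ) * (2 ^ Fintype.card ι * LL (KK p q x)) := by
    apply Finset.sum_le_sum
    intro x hx
    apply mul_le_mul_of_nonneg_left _ (Nat.cast_nonneg _)
    exact count_T hv p q g hdis hc (fun a => h0 a x hx) (fun a => h1 a x hx)
  have h4 : ∑ x ∈ A, (KK p q x : ℝ) * (2 ^ Fintype.card ι * LL (KK p q x)) =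
      2 ^ Fintype.card ι * ∑ x ∈ A, (KK p q x : ℝ) * LL (KK p q x) := by
    rw [Finset.mul_sum]
    exact Finset.sum_congr rfl fun x _ => by ring
  rw [← h2, h4] at h3
  exact le_of_mul_le_mul_left h3 (by positivity)

theorem LL_even {j : ℕ} (hj : 1 ≤ j) : LL (2 * j) = bt j / 2 := by
  unfold LL
  rw [bt_nat hj, Nat.mul_div_cancel_left j (by norm_num), ← Nat.centralBinom_eq_two_mul_choose,
    pow_mul]
  norm_num
  ring

theorem LL_odd (k : ℕ) : LL (2 * k + 1) = bt ((k + 1 : ℕ) : ℤ) / 2 := by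
  unfold LL
  have e0 : (2 * k + 1) / 2 = k := by omega
  have e1 : Nat.centralBinom (k + 1) = 2 * (2 * k + 1).choose k := by
    rw [Nat.centralBinom_eq_two_mul_choose, two_mul, ← add_assoc,
      Nat.choose_succ_succ' (k + 1 + k) k]
    have e2 : (k + 1 + k).choose (k + 1) = (k + 1 + k).choose k := by
      rw [← Nat.choose_symm_add]
    rw [e2]
    have e3 : k + 1 + k = 2 * k + 1 := by ring
    rw [e3]
    ring
  rw [bt_nat (by omega), e0, e1]
  have e4 : (4 : ℝ) ^ (k + 1) = 2 * 2 ^ (2 * k + 1) := by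
    rw [pow_succ, pow_succ, pow_mul]
    norm_num
    ring
  rw [e4]
  push_cast
  have e5 : (2 : ℝ) ^ (2 * k + 1) ≠ 0 := by positivity
  field_simp

theorem LL_bound (K : ℕ) {e : ℤ} (he : 3 ≤ e) :
    (K : ℝ) * LL K ^ 2 ≤ 1 / 2 * (bt e ^ 2 * (e + 27 / 100)) := by
  rcases Nat.even_or_odd' K with ⟨j, rfl | rfl⟩
  · rcases Nat.eq_zero_or_pos j with rfl | hj
    · have h1 := bt_lower he
      simp only [Nat.mul_zero, Nat.cast_zero, zero_mul]
      linarith
    · have h1 := bt_upper (j : ℤ) he
      rw [LL_even hj]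
      push_cast at h1 ⊢
      have h2 := sq_nonneg (bt (j : ℤ))
      nlinarith
  · have h1 := bt_upper ((j + 1 : ℕ) : ℤ) he
    rw [LL_odd j]
    push_cast at h1 ⊢
    have h2 := sq_nonneg (bt ((j : ℤ) + 1))
    nlinarith

end Pool.Agent.H59.MW
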