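import Pool.Agent.H59.MW.Cell
import Pool.Agent.H59.MW.LO

/-!
# MW-LOB: at most `e + 1` disjoint words of the special form

With `K = KK p q`, `N = cnt A w`, `M = ∑_{x ∈ A} K x`, `θ = (2e-2)/(2e-1)`:
* `M ≥ |ι| 2^(d-1)`, and `2^d ∑_{x ∈ EE} K x ≥ θ N M`: termwise in `a` (exchange sums): if
  `Par A (p a) (q a)` then both sides count everything (`N` and `2^d`); otherwise the predicate
  `¬ (p a ∈ x ↔ q a ∈ x)` is affine and not constant (`MC.opp`), `#{x ∈ A : p a ∈ x ↔ q a ∈ x} = 2^(d-1)`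
  (`Flat.pow_half`) and `MC.hyp` (for the split predicate) gives
  `#{x ∈ EE : equal} = N - cnt (split) ≥ N - N e/(2e-1) = N (e-1)/(2e-1) = θ N / 2`.
* by `lo` and Cauchy-Schwarz (`Finset.sum_mul_sq_le_sq_mul_sq` or `inner_mul_le_norm_mul_norm`)
  `(∑_{EE} K)^2 ≤ (∑_A K LL(K))^2 ≤ (∑_A K) (∑_A K LL(K)^2) ≤ M * 2^d * (1/2) bt(e)^2 (e + .27)`
  (`LL_bound`).
* so `θ² N² M² ≤ 4^d M 2^d (1/2) bt(e)^2 (e+.27)`, and `N > 2^d bt e`: `θ² M ≤ 2^d (1/2)(e+.27)`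
  (if `M > 0`), `|ι| θ² ≤ e + .27` so `|ι| (2e-2)² ≤ (e+.27)(2e-1)²`, which is false for
  `|ι| ≥ e + 2`, `e ≥ 4`: `(e+2)(2e-2)² - (e+.27)(2e-1)² = 4e³-12e+8 - (4e³-2.92e²-.08e+.27)
  = 2.92 e² - 11.92 e + 7.73 > 0` for `e ≥ 4` (check: `(e+2)(4e²-8e+4) = 4e³-12e+8`,
  `(e+.27)(4e²-4e+1) = 4e³ - 4e² + e + 1.08e² - 1.08e + .27 = 4e³ - 2.92e² - .08e + .27`).
-/

namespace Pool.Agent.H59.MW

open Finset Pool.Agent.H59.CW

set_option linter.unusedSectionVars false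

variable {α : Type*} [DecidableEq α] {U : Finset α} {A : Finset (Finset α)} {d w e s : ℕ}
  {ι : Type*} [Fintype ι] [DecidableEq ι]

theorem MC.lob_term (h : MC U A d w e s) (he : 4 ≤ e) {i j : α} (hi : i ∈ U) (hj : j ∈ U)
    (hij : i ≠ j) :
    (2 * e - 2 : ℝ) * (cnt A w : ℝ) * ((A.filter (fun x => (i ∈ x ↔ j ∈ x))).card : ℝ) ≤
      2 ^ d * (2 * e - 1 : ℝ) * (((EE A w).filter (fun x => (i ∈ x ↔ j ∈ x))).card : ℝ) ∧
    (2 : ℝ) ^ d ≤ 2 * ((A.filter (fun x => (i ∈ x ↔ j ∈ x))).card : ℝ) := by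
  have he' : (4 : ℝ) ≤ e := by exact_mod_cast he
  have hN : (0 : ℝ) ≤ cnt A w := Nat.cast_nonneg _
  have h2d : (0 : ℝ) < 2 ^ d := by positivity
  have hcard : (A.card : ℝ) = 2 ^ d := by exact_mod_cast h.hd
  by_cases hp : ∃ x ∈ A, ¬ (i ∈ x ↔ j ∈ x)
  · have hq : ∃ x ∈ A, ¬ ¬ (i ∈ x ↔ j ∈ x) := by
      have h1 := h.opp i hi j hj hij
      push Not at h1
      obtain ⟨x, hx, hx'⟩ := h1
      exact ⟨x, hx, not_not.2 hx'⟩
    have h3 := h.hA.card_filter (aff_split i j) hp hq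
    have h4 := card_filter_add (A := A) (fun x => ¬ (i ∈ x ↔ j ∈ x))
    have h5 := h.hyp (aff_split i j) hp hq
    have h6 := cnt_add A (fun x => ¬ (i ∈ x ↔ j ∈ x)) w
    have e1 : A.filter (fun x => ¬ ¬ (i ∈ x ↔ j ∈ x)) = A.filter (fun x => (i ∈ x ↔ j ∈ x)) :=
      Finset.filter_congr fun x _ => not_not
    have e2 : ((EE A w).filter (fun x => (i ∈ x ↔ j ∈ x))).card =
        cnt (A.filter (fun x => (i ∈ x ↔ j ∈ x))) w := by
      unfold EE cnt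
      rw [Finset.filter_comm]
    rw [e1] at h4 h6
    rw [e2]
    have h7 : (2 : ℝ) * ((A.filter (fun x => (i ∈ x ↔ j ∈ x))).card : ℝ) = 2 ^ d := by
      have h8 : 2 * (A.filter (fun x => (i ∈ x ↔ j ∈ x))).card = A.card := by omega
      rw [← hcard]
      exact_mod_cast h8
    have h8 : (cnt (A.filter (fun x => ¬ (i ∈ x ↔ j ∈ x))) w : ℝ) +
        cnt (A.filter (fun x => (i ∈ x ↔ j ∈ x))) w = cnt A w := by exact_mod_cast h6
    refine ⟨?_, h7.ge⟩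
    have h9 : (2 * e - 2 : ℝ) * (cnt A w : ℝ) *
        ((A.filter (fun x => (i ∈ x ↔ j ∈ x))).card : ℝ) = 2 ^ d * ((e - 1) * cnt A w) := by
      rw [← h7]; ring
    rw [h9, mul_assoc]
    refine mul_le_mul_of_nonneg_left ?_ h2d.le
    nlinarith
  · push Not at hp
    have e1 : A.filter (fun x => (i ∈ x ↔ j ∈ x)) = A := Finset.filter_true_of_mem hp
    have e2 : (EE A w).filter (fun x => (i ∈ x ↔ j ∈ x)) = EE A w :=
      Finset.filter_true_of_mem fun x hx => hp x (mem_EE.1 hx).1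
    rw [e1, e2, card_EE, hcard]
    constructor
    · have h9 : 0 ≤ (2 : ℝ) ^ d * cnt A w := by positivity
      nlinarith
    · linarith

theorem lob_exchange (p q : ι → α) (B : Finset (Finset α)) :
    (∑ x ∈ B, (KK p q x : ℝ)) = ∑ a, ((B.filter (fun x => (p a ∈ x ↔ q a ∈ x))).card : ℝ) := by
  have h1 : ∀ x, (KK p q x : ℝ) = ∑ a, if (p a ∈ x ↔ q a ∈ x) then (1 : ℝ) else 0 := by
    intro x
    unfold KK
    rw [Finset.card_filter]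
    push_cast
    rfl
  simp_rw [h1]
  rw [Finset.sum_comm]
  refine Finset.sum_congr rfl fun a _ => ?_
  rw [Finset.card_filter]
  push_cast
  rfl

theorem MC.lo_bound (h : MC U A d w e s) (he : 4 ≤ e) {v : ℕ} (hv : 0 < v) (p q : ι → α)
    (g : ι → Finset α) (hpU : ∀ a, p a ∈ U) (hqU : ∀ a, q a ∈ U) (hpq : ∀ a, p a ≠ q a)
    (hper : ∀ a, Per A (g a))
    (hdis : ∀ a b, a ≠ b → Disjoint (g a) (g b)) (hp : ∀ a, p a ∈ g a) (hq : ∀ a, q a ∈ g a)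
    (hc : ∀ a, (g a).card = 2 * v)
    (h0 : ∀ a, ∀ x ∈ A, ¬ (p a ∈ x ↔ q a ∈ x) → (x ∩ g a).card = v)
    (h1 : ∀ a, ∀ x ∈ A, (p a ∈ x ↔ q a ∈ x) → (x ∩ g a).card = 0 ∨ (x ∩ g a).card = 2 * v) :
    Fintype.card ι ≤ e + 1 := by
  by_contra hcon
  have hι : e + 2 ≤ Fintype.card ι := by omega
  have he' : (4 : ℝ) ≤ e := by exact_mod_cast he
  have hι' : (e : ℝ) + 2 ≤ Fintype.card ι := by exact_mod_cast hι
  have h2d : (0 : ℝ) < 2 ^ d := by positivity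
  have hcard : (A.card : ℝ) = 2 ^ d := by exact_mod_cast h.hd
  obtain ⟨N, hN⟩ : ∃ N : ℝ, N = cnt A w := ⟨_, rfl⟩
  obtain ⟨M, hM⟩ : ∃ M : ℝ, M = ∑ x ∈ A, (KK p q x : ℝ) := ⟨_, rfl⟩
  obtain ⟨S, hS⟩ : ∃ S : ℝ, S = ∑ x ∈ EE A w, (KK p q x : ℝ) := ⟨_, rfl⟩
  obtain ⟨b, hb⟩ : ∃ b : ℝ, b = bt e := ⟨_, rfl⟩
  have hbpos : 0 < b := by rw [hb]; exact bt_pos _
  have hbig : 2 ^ d * b < N := by rw [hb, hN]; exact h.big
  have hS0 : 0 ≤ S := by rw [hS]; positivity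
  -- (1)
  have k1 : (2 * e - 2 : ℝ) * N * M ≤ 2 ^ d * (2 * e - 1 : ℝ) * S := by
    rw [hM, hS, lob_exchange, lob_exchange, Finset.mul_sum, Finset.mul_sum, hN]
    exact Finset.sum_le_sum fun a _ => (h.lob_term he (hpU a) (hqU a) (hpq a)).1
  have k2 : (Fintype.card ι : ℝ) * 2 ^ d ≤ 2 * M := by
    rw [hM, lob_exchange, Finset.mul_sum]
    calc (Fintype.card ι : ℝ) * 2 ^ d = ∑ _a : ι, (2 : ℝ) ^ d := by
          rw [Finset.sum_const, Finset.card_univ, nsmul_eq_mul]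
      _ ≤ _ := Finset.sum_le_sum fun a _ => (h.lob_term he (hpU a) (hqU a) (hpq a)).2
  have hMpos : 0 < M := by nlinarith
  -- (3)
  have k3 : S ^ 2 ≤ M * (2 ^ d * (1 / 2 * (b ^ 2 * (e + 27 / 100)))) := by
    have h3 := lo (A := A) (w := w) hv p q g hper hdis hp hq hc h0 h1
    rw [← hS] at h3
    have h4 : (∑ x ∈ A, (KK p q x : ℝ) * LL (KK p q x)) ^ 2 ≤
        (∑ x ∈ A, (KK p q x : ℝ)) * ∑ x ∈ A, (KK p q x : ℝ) * LL (KK p q x) ^ 2 :=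
      Finset.sum_sq_le_sum_mul_sum_of_sq_eq_mul A (fun _ _ => Nat.cast_nonneg _)
        (fun _ _ => by positivity) (fun _ _ => by ring)
    have h5 : ∑ x ∈ A, (KK p q x : ℝ) * LL (KK p q x) ^ 2 ≤
        2 ^ d * (1 / 2 * (b ^ 2 * (e + 27 / 100))) := by
      calc ∑ x ∈ A, (KK p q x : ℝ) * LL (KK p q x) ^ 2 ≤
          ∑ _x ∈ A, (1 / 2 * (b ^ 2 * ((e : ℝ) + 27 / 100))) := by
            refine Finset.sum_le_sum fun x _ => ?_
            have := LL_bound (KK p q x) (e := (e : ℤ)) (by omega)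
            rw [hb]
            exact_mod_cast this
        _ = _ := by rw [Finset.sum_const, nsmul_eq_mul, hcard]
    calc S ^ 2 ≤ (∑ x ∈ A, (KK p q x : ℝ) * LL (KK p q x)) ^ 2 := by
          exact pow_le_pow_left₀ hS0 h3 2
      _ ≤ _ := h4
      _ ≤ _ := by
          rw [← hM]
          exact mul_le_mul_of_nonneg_left h5 hMpos.le
  -- (4)
  have k4 : ((2 * e - 2 : ℝ) * N * M) ^ 2 ≤ (2 ^ d * (2 * e - 1 : ℝ)) ^ 2 * S ^ 2 := by
    rw [← mul_pow]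
    refine pow_le_pow_left₀ ?_ k1 2
    have : (0 : ℝ) ≤ 2 * e - 2 := by linarith
    have hN0 : 0 ≤ N := by rw [hN]; positivity
    positivity
  have k5 : ((2 * e - 2 : ℝ) * (2 ^ d * b) * M) ^ 2 ≤ ((2 * e - 2 : ℝ) * N * M) ^ 2 := by
    refine pow_le_pow_left₀ ?_ ?_ 2
    · have : (0 : ℝ) ≤ 2 * e - 2 := by linarith
      positivity
    · refine mul_le_mul_of_nonneg_right ?_ hMpos.le
      exact mul_le_mul_of_nonneg_left hbig.le (by linarith)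
  have k6 : (2 ^ d * b) ^ 2 * M * ((2 * e - 2 : ℝ) ^ 2 * M) ≤
      (2 ^ d * b) ^ 2 * M * ((2 * e - 1 : ℝ) ^ 2 * (2 ^ d * (1 / 2 * (e + 27 / 100)))) := by
    calc (2 ^ d * b) ^ 2 * M * ((2 * e - 2 : ℝ) ^ 2 * M) =
        ((2 * e - 2 : ℝ) * (2 ^ d * b) * M) ^ 2 := by ring
      _ ≤ (2 ^ d * (2 * e - 1 : ℝ)) ^ 2 * S ^ 2 := k5.trans k4
      _ ≤ (2 ^ d * (2 * e - 1 : ℝ)) ^ 2 * (M * (2 ^ d * (1 / 2 * (b ^ 2 * (e + 27 / 100))))) :=
        mul_le_mul_of_nonneg_left k3 (by positivity)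
      _ = _ := by ring
  have k7 := le_of_mul_le_mul_left k6 (by positivity)
  have k8 : (2 * e - 2 : ℝ) ^ 2 * (Fintype.card ι : ℝ) ≤ (2 * e - 1 : ℝ) ^ 2 * (e + 27 / 100) := by
    have h9 : (2 * e - 2 : ℝ) ^ 2 * ((Fintype.card ι : ℝ) * 2 ^ d) ≤
        (2 * e - 2 : ℝ) ^ 2 * (2 * M) := mul_le_mul_of_nonneg_left k2 (by positivity)
    have h10 : ((2 * e - 2 : ℝ) ^ 2 * (Fintype.card ι : ℝ)) * 2 ^ d ≤
        ((2 * e - 1 : ℝ) ^ 2 * (e + 27 / 100)) * 2 ^ d := by linarith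
    exact le_of_mul_le_mul_right h10 h2d
  have k9 : (2 * e - 2 : ℝ) ^ 2 * (e + 2) ≤ (2 * e - 2 : ℝ) ^ 2 * (Fintype.card ι : ℝ) :=
    mul_le_mul_of_nonneg_left hι' (by positivity)
  nlinarith

end Pool.Agent.H59.MW
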