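import Pool.Agent.H59.MW.Dbl
import Pool.Agent.H59.MW.LOB
import Pool.Agent.H59.MW.Four

/-!
# MW-DBLC: few twins

* `MC.dbl4`: let `i, i'` be twins and let `C ⊆ U` be such that no two different elements of `C` are parallel, each
  `j ∈ C` has the twin `tw j ∈ U`, and is either parallel to `i` or `{i, i', j, tw j}` is a period. Then
  `|C| ≤ 2e + 3`. Proof: for two different `j, l ∈ C` the elements `j, tw j, l, tw l` are four different
  elements (`j, l` are not parallel) and `{j, tw j, l, tw l}` is a period: if both `{i,i',j,tw j}` and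
  `{i,i',l,tw l}` are periods, their symmetric difference (note `{i,i'}` and `{j, tw j}` are disjoint or equal,
  by `MC.mult`: at most two elements in a parallel class); if `j` is parallel to `i` then `{j, tw j} = {i, i'}` by
  `MC.mult`. (`MC.mult` needs `3 ≤ e`: `MC.four_le`.) Pair up the elements of `C` (e.g. an enumeration
  `Fin |C| → C`, `k = |C|/2` pairs) and apply `MC.lo_bound` with `v = 2`, `g a = {j, tw j, l, tw l}`, `p a = j`,
  `q a = l`. `x` contains both or none of `j, tw j`. So `|C|/2 ≤ e + 1`.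
* `MC.dbl_card`: `D = Dbl U A`, `N = cnt A w`. If `D = ∅` trivial. Fix `i ∈ D` with twin `i'`, and for every
  `j ∈ D` its twin `tw j` (unique by `MC.mult`). `s mag i = ∑_{j ∈ U} cor i j` (`MC.sum_cor`)
  `≥ 2N + ∑_{j ∈ D'} cor i j`, where `D'` = the `j ∈ D` not parallel to `i` such that `{i,i',j,tw j}` is not
  a period; the omitted terms are `≥ 0` (`cor_of_par`, or `MC.cor_pos` with `ser_twin`), and
  `cor i j (2e+2) > N` for `j ∈ D'` (`MC.cor_dbl`). `D \ D'` is closed under `tw`; choosing one element of each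
  twin pair gives a set `C` as in `MC.dbl4` (with `|D \ D'| = 2|C|`), so `|D'| ≥ |D| - 2(2e+3)`. Hence
  `(2e+2) s mag i ≥ (2(2e+2) + |D| - 2(2e+3)) N = (|D| - 2) N`, and with `mag i (2e-1) < N` (`MC.mag_lt`):
  `(|D| - 2)(2e-1) < (2e+2) s`.
-/

namespace Pool.Agent.H59.MW

open Finset Pool.Agent.H59.CW

set_option linter.unusedSectionVars false

variable {α : Type*} [DecidableEq α] {U : Finset α} {A : Finset (Finset α)} {d w e s : ℕ}

theorem Par.symm' {i j : α} (h : Par A i j) : Par A j i := fun x hx => (h x hx).symm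

theorem Par.trans' {i j k : α} (h : Par A i j) (h' : Par A j k) : Par A i k :=
  fun x hx => (h x hx).trans (h' x hx)

theorem Par.refl' (i : α) : Par A i i := fun _ _ => Iff.rfl

/-- at most two elements in a parallel class -/
theorem MC.two_class (h : MC U A d w e s) {i i' j : α} (hi : i ∈ U) (hi' : i' ∈ U) (hii : i ≠ i')
    (h1 : Par A i i') (hj : j ∈ U) (hp : Par A i j) : j = i ∨ j = i' := by
  by_contra hcon
  push Not at hcon
  have h4 := h.four_le
  exact h.mult (by omega) hi hii (Ne.symm hcon.1) (Ne.symm hcon.2) h1 hp hi' hj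

theorem MC.pair_class (h : MC U A d w e s) {i i' j j' : α} (hi : i ∈ U) (hi' : i' ∈ U)
    (hii : i ≠ i') (h1 : Par A i i') (hj : j ∈ U) (hj' : j' ∈ U) (hjj : j ≠ j')
    (h2 : Par A j j') (hp : Par A i j) : (j = i ∧ j' = i') ∨ (j = i' ∧ j' = i) := by
  have a1 := h.two_class hi hi' hii h1 hj hp
  have a2 := h.two_class hi hi' hii h1 hj' (Par.trans' hp h2)
  rcases a1 with rfl | rfl
  · rcases a2 with rfl | rfl
    · exact absurd rfl hjj
    · exact Or.inl ⟨rfl, rfl⟩
  · rcases a2 with rfl | rfl
    · exact Or.inr ⟨rfl, rfl⟩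
    · exact absurd rfl hjj

theorem card_inter_four {x : Finset α} {a b c d : α} (hab : a ≠ b) (hac : a ≠ c) (had : a ≠ d)
    (hbc : b ≠ c) (hbd : b ≠ d) (hcd : c ≠ d) :
    (x ∩ {a, b, c, d}).card = (if a ∈ x then 1 else 0) + (if b ∈ x then 1 else 0) +
      (if c ∈ x then 1 else 0) + (if d ∈ x then 1 else 0) := by
  rw [Finset.inter_comm, ← Finset.filter_mem_eq_inter, Finset.card_filter]
  rw [Finset.sum_insert (by simp [hab, hac, had]), Finset.sum_insert (by simp [hbc, hbd]),
    Finset.sum_insert (by simp [hcd]), Finset.sum_singleton]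
  ring

theorem MC.dbl4_per (h : MC U A d w e s) {i i' : α} (hi : i ∈ U) (hi' : i' ∈ U) (hii : i ≠ i')
    (h1 : Par A i i') {j l j' l' : α} (hj : j ∈ U) (hl : l ∈ U) (hj' : j' ∈ U) (hl' : l' ∈ U)
    (hjj : j ≠ j') (hll : l ≠ l') (h2 : Par A j j') (h3 : Par A l l') (hjl : ¬ Par A j l)
    (p1 : Par A i j ∨ Per A {i, i', j, j'}) (p2 : Par A i l ∨ Per A {i, i', l, l'}) :
    Per A {j, j', l, l'} := by
  rcases p1 with p1 | p1
  · have hp : Per A {i, i', l, l'} := by
      rcases p2 with p2 | p2
      · exact absurd (Par.trans' (Par.symm' p1) p2) hjl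
      · exact p2
    rcases h.pair_class hi hi' hii h1 hj hj' hjj h2 p1 with ⟨rfl, rfl⟩ | ⟨rfl, rfl⟩
    · exact hp
    · rw [Finset.insert_comm]
      exact hp
  · by_cases q1 : Par A i j
    · have hp : Per A {i, i', l, l'} := by
        rcases p2 with p2 | p2
        · exact absurd (Par.trans' (Par.symm' q1) p2) hjl
        · exact p2
      rcases h.pair_class hi hi' hii h1 hj hj' hjj h2 q1 with ⟨rfl, rfl⟩ | ⟨rfl, rfl⟩
      · exact hp
      · rw [Finset.insert_comm]
        exact hp
    · by_cases q2 : Par A i l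
      · have e1 : ({j, j', l, l'} : Finset α) = {l, l', j, j'} := by
          ext t
          simp only [Finset.mem_insert, Finset.mem_singleton]
          tauto
        rw [e1]
        rcases h.pair_class hi hi' hii h1 hl hl' hll h3 q2 with ⟨rfl, rfl⟩ | ⟨rfl, rfl⟩
        · exact p1
        · rw [Finset.insert_comm]
          exact p1
      · rcases p2 with p2 | p2
        · exact absurd p2 q2
        · have n1 : ∀ t, t = i ∨ t = i' → ¬ (t = j ∨ t = j' ∨ t = l ∨ t = l') := by
            intro t ht ht'
            have hit : Par A i t := by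
              rcases ht with rfl | rfl
              · exact Par.refl' _
              · exact h1
            rcases ht' with rfl | rfl | rfl | rfl
            · exact q1 hit
            · exact q1 (Par.trans' hit (Par.symm' h2))
            · exact q2 hit
            · exact q2 (Par.trans' hit (Par.symm' h3))
          have n2 : ∀ t, t = j ∨ t = j' → ¬ (t = l ∨ t = l') := by
            intro t ht ht'
            have hjt : Par A j t := by
              rcases ht with rfl | rfl
              · exact Par.refl' _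
              · exact h2
            rcases ht' with rfl | rfl
            · exact hjl hjt
            · exact hjl (Par.trans' hjt (Par.symm' h3))
          intro x hx
          have e1 : symmDiff x {j, j', l, l'} =
              symmDiff (symmDiff x {i, i', j, j'}) {i, i', l, l'} := by
            ext t
            have a1 := n1 t
            have a2 := n2 t
            simp only [Finset.mem_symmDiff, Finset.mem_insert, Finset.mem_singleton]
            by_cases b1 : t = i <;> by_cases b2 : t = i' <;> by_cases b3 : t = j <;>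
              by_cases b4 : t = j' <;> by_cases b5 : t = l <;> by_cases b6 : t = l' <;>
              by_cases b7 : t ∈ x <;> simp_all
          rw [e1]
          exact p2 _ (p1 _ hx)

theorem MC.dbl4 (h : MC U A d w e s) {i i' : α} (hi : i ∈ U) (hi' : i' ∈ U) (hii : i ≠ i')
    (h1 : Par A i i') (C : Finset α) (hC : ∀ j ∈ C, j ∈ U)
    (hCp : ∀ j ∈ C, ∀ l ∈ C, j ≠ l → ¬ Par A j l) (tw : α → α)
    (htw : ∀ j ∈ C, tw j ∈ U ∧ tw j ≠ j ∧ Par A j (tw j))
    (hper : ∀ j ∈ C, Par A i j ∨ Per A {i, i', j, tw j}) : C.card ≤ 2 * e + 3 := by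
  set c := C.card with hc
  let en : Fin c ≃ C := (Finset.equivFinOfCardEq hc.symm).symm
  let p : Fin (c / 2) → α := fun a => (en ⟨2 * a.1, by have := a.2; omega⟩ : C)
  let q : Fin (c / 2) → α := fun a => (en ⟨2 * a.1 + 1, by have := a.2; omega⟩ : C)
  have hpC : ∀ a, p a ∈ C := fun a => (en ⟨2 * a.1, by have := a.2; omega⟩ : C).2
  have hqC : ∀ a, q a ∈ C := fun a => (en ⟨2 * a.1 + 1, by have := a.2; omega⟩ : C).2
  have hne : ∀ m n : Fin c, m ≠ n → (en m : α) ≠ (en n : α) := by
    intro m n hmn he
    exact hmn (en.injective (Subtype.ext he))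
  have hpq : ∀ a, p a ≠ q a := by
    intro a
    apply hne
    intro he
    have := congrArg Fin.val he
    simp only at this
    omega
  have hpq' : ∀ a b, p a ≠ q b := by
    intro a b
    apply hne
    intro he
    have := congrArg Fin.val he
    simp only at this
    omega
  have hpp : ∀ a b, a ≠ b → p a ≠ p b := by
    intro a b hab
    apply hne
    intro he
    have := congrArg Fin.val he
    simp only at this
    exact hab (Fin.ext (by omega))
  have hqq : ∀ a b, a ≠ b → q a ≠ q b := by
    intro a b hab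
    apply hne
    intro he
    have := congrArg Fin.val he
    simp only at this
    exact hab (Fin.ext (by omega))
  let g : Fin (c / 2) → Finset α := fun a => {p a, tw (p a), q a, tw (q a)}
  have hg : ∀ a t, t ∈ g a → Par A (p a) t ∨ Par A (q a) t := by
    intro a t ht
    simp only [g, Finset.mem_insert, Finset.mem_singleton] at ht
    rcases ht with rfl | rfl | rfl | rfl
    · exact Or.inl (Par.refl' _)
    · exact Or.inl (htw _ (hpC a)).2.2
    · exact Or.inr (Par.refl' _)
    · exact Or.inr (htw _ (hqC a)).2.2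
  have hnp : ∀ a, ¬ Par A (p a) (q a) := fun a => hCp _ (hpC a) _ (hqC a) (hpq a)
  have d1 : ∀ a, p a ≠ tw (p a) := fun a => (htw _ (hpC a)).2.1.symm
  have d2 : ∀ a, q a ≠ tw (q a) := fun a => (htw _ (hqC a)).2.1.symm
  have d3 : ∀ a, p a ≠ tw (q a) := fun a he =>
    hnp a (Par.symm' (he ▸ (htw _ (hqC a)).2.2))
  have d4 : ∀ a, tw (p a) ≠ q a := fun a he => hnp a (he ▸ (htw _ (hpC a)).2.2)
  have d5 : ∀ a, tw (p a) ≠ tw (q a) := fun a he =>
    hnp a (Par.trans' (htw _ (hpC a)).2.2 (he ▸ Par.symm' (htw _ (hqC a)).2.2))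
  have hcard : ∀ a, (g a).card = 2 * 2 := by
    intro a
    simp only [g]
    rw [Finset.card_insert_of_notMem (by simp [d1 a, hpq a, d3 a]),
      Finset.card_insert_of_notMem (by simp [d4 a, d5 a]),
      Finset.card_insert_of_notMem (by simp [d2 a]), Finset.card_singleton]
  have hint : ∀ a x, (x ∩ g a).card = (if p a ∈ x then 1 else 0) +
      (if tw (p a) ∈ x then 1 else 0) + (if q a ∈ x then 1 else 0) +
      (if tw (q a) ∈ x then 1 else 0) := fun a x =>
    card_inter_four (d1 a) (hpq a) (d3 a) (d4 a) (d5 a) (d2 a)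
  have key := h.lo_bound h.four_le (v := 2) (by norm_num) p q g (fun a => hC _ (hpC a))
    (fun a => hC _ (hqC a)) hpq
    (fun a => h.dbl4_per hi hi' hii h1 (hC _ (hpC a)) (hC _ (hqC a)) (htw _ (hpC a)).1
      (htw _ (hqC a)).1 (d1 a) (d2 a) (htw _ (hpC a)).2.2 (htw _ (hqC a)).2.2 (hnp a)
      (hper _ (hpC a)) (hper _ (hqC a)))
    (by
      intro a b hab
      rw [Finset.disjoint_left]
      intro t hta htb
      rcases hg a t hta with u1 | u1 <;> rcases hg b t htb with u2 | u2
      · exact hCp _ (hpC a) _ (hpC b) (hpp a b hab) (Par.trans' u1 (Par.symm' u2))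
      · exact hCp _ (hpC a) _ (hqC b) (hpq' a b) (Par.trans' u1 (Par.symm' u2))
      · exact hCp _ (hqC a) _ (hpC b) (hpq' b a).symm (Par.trans' u1 (Par.symm' u2))
      · exact hCp _ (hqC a) _ (hqC b) (hqq a b hab) (Par.trans' u1 (Par.symm' u2)))
    (fun a => by simp [g]) (fun a => by simp [g]) hcard
    (by
      intro a x hx hs
      rw [hint]
      have e1 := (htw _ (hpC a)).2.2 x hx
      have e2 := (htw _ (hqC a)).2.2 x hx
      by_cases b1 : p a ∈ x <;> by_cases b2 : q a ∈ x <;> simp_all)
    (by
      intro a x hx hs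
      rw [hint]
      have e1 := (htw _ (hpC a)).2.2 x hx
      have e2 := (htw _ (hqC a)).2.2 x hx
      by_cases b1 : p a ∈ x <;> by_cases b2 : q a ∈ x <;> simp_all)
  rw [Fintype.card_fin] at key
  omega

/-- a transversal of the parallel classes -/
theorem exists_transversal (A : Finset (Finset α)) (E : Finset α) :
    ∃ C ⊆ E, (∀ j ∈ C, ∀ l ∈ C, j ≠ l → ¬ Par A j l) ∧ ∀ j ∈ E, ∃ c ∈ C, Par A c j := by
  classical
  induction E using Finset.induction_on with
  | empty => exact ⟨∅, by simp, by simp, by simp⟩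
  | insert a E ha ih =>
    obtain ⟨C, hCE, hC1, hC2⟩ := ih
    by_cases hc : ∃ c ∈ C, Par A c a
    · refine ⟨C, hCE.trans (Finset.subset_insert _ _), hC1, fun j hj => ?_⟩
      rcases Finset.mem_insert.1 hj with rfl | hj
      · exact hc
      · exact hC2 j hj
    · push Not at hc
      refine ⟨insert a C, Finset.insert_subset_insert _ hCE, ?_, ?_⟩
      · intro j hj l hl hjl
        rcases Finset.mem_insert.1 hj with ej | hj'
        · rcases Finset.mem_insert.1 hl with el | hl'
          · exact absurd (ej.trans el.symm) hjl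
          · rw [ej]
            exact fun hp => hc l hl' (Par.symm' hp)
        · rcases Finset.mem_insert.1 hl with el | hl'
          · rw [el]
            exact hc j hj'
          · exact hC1 j hj' l hl' hjl
      · intro j hj
        rcases Finset.mem_insert.1 hj with rfl | hj
        · exact ⟨j, Finset.mem_insert_self _ _, Par.refl' _⟩
        · obtain ⟨c, hc1, hc2⟩ := hC2 j hj
          exact ⟨c, Finset.mem_insert_of_mem hc1, hc2⟩

theorem MC.dbl_card (h : MC U A d w e s) :
    ((Dbl U A).card : ℝ) * (2 * e - 1) ≤ 2 * ((2 * e - 1) + (e + 1) * s) := by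
  classical
  have he4 : (4 : ℝ) ≤ e := by exact_mod_cast h.four_le
  have hs0 : (0 : ℝ) ≤ s := Nat.cast_nonneg _
  have hN : (0 : ℝ) < cnt A w := lt_of_le_of_lt (by have := bt_pos e; positivity) h.big
  have hNi : (0 : ℤ) < cnt A w := by exact_mod_cast hN
  rcases (Dbl U A).eq_empty_or_nonempty with hD | hD
  · rw [hD]
    simp only [Finset.card_empty, Nat.cast_zero, zero_mul]
    nlinarith
  · obtain ⟨i, hiD⟩ := hD
    obtain ⟨hiU, i', hi'U, hii', hpar⟩ := Finset.mem_filter.1 hiD
    have hii : i ≠ i' := hii'.symm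
    have htw : ∀ j, ∃ t, j ∈ Dbl U A → t ∈ U ∧ t ≠ j ∧ Par A j t := by
      intro j
      by_cases hj : j ∈ Dbl U A
      · obtain ⟨_, t, h1, h2, h3⟩ := Finset.mem_filter.1 hj
        exact ⟨t, fun _ => ⟨h1, h2, h3⟩⟩
      · exact ⟨j, fun h => absurd h hj⟩
    choose tw htw using htw
    have hDU : ∀ j ∈ Dbl U A, j ∈ U := fun j hj => (Finset.mem_filter.1 hj).1
    set D' := (Dbl U A).filter (fun j => ¬ Par A i j ∧ ¬ Per A {i, i', j, tw j}) with hD'
    set E := (Dbl U A).filter (fun j => ¬ (¬ Par A i j ∧ ¬ Per A {i, i', j, tw j})) with hE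
    have hDE : D'.card + E.card = (Dbl U A).card :=
      Finset.card_filter_add_card_filter_not _
    -- the exceptional pairs
    have hEc : E.card ≤ 2 * (2 * e + 3) := by
      obtain ⟨C, hCE, hC1, hC2⟩ := exists_transversal A E
      have hCD : ∀ j ∈ C, j ∈ Dbl U A := fun j hj => (Finset.mem_filter.1 (hCE hj)).1
      have hCc := h.dbl4 hiU hi'U hii hpar C (fun j hj => hDU j (hCD j hj)) hC1 tw
        (fun j hj => htw j (hCD j hj)) (fun j hj => by
          have h1 := (Finset.mem_filter.1 (hCE hj)).2
          by_contra hcon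
          push Not at hcon
          exact h1 hcon)
      have hsub : E ⊆ C.biUnion (fun c => {c, tw c}) := by
        intro j hj
        obtain ⟨c, hc, hcj⟩ := hC2 j hj
        rw [Finset.mem_biUnion]
        refine ⟨c, hc, ?_⟩
        have t1 := htw c (hCD c hc)
        have := h.two_class (hDU c (hCD c hc)) t1.1 t1.2.1.symm t1.2.2
          (hDU j (Finset.mem_filter.1 hj).1) hcj
        simpa using this
      calc E.card ≤ (C.biUnion (fun c => {c, tw c})).card := Finset.card_le_card hsub
        _ ≤ ∑ c ∈ C, ({c, tw c} : Finset α).card := Finset.card_biUnion_le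
        _ ≤ ∑ c ∈ C, 2 := Finset.sum_le_sum fun c _ => Finset.card_le_two
        _ = C.card * 2 := by rw [Finset.sum_const, smul_eq_mul]
        _ ≤ 2 * (2 * e + 3) := by omega
    -- the sum of correlations
    have hAne : A.Nonempty := h.hA.1
    have hcor0 : ∀ j ∈ U, 0 ≤ cor A w i j := by
      intro j hj
      by_cases hp : Par A i j
      · rw [cor_of_par hp]
        exact hNi.le
      · refine (h.cor_pos hiU hj hp (fun hs => hp ?_)).le
        have hij : i ≠ j := fun he => hp (he ▸ Par.refl' _)
        rw [ser_twin hAne hii hij hpar hs]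
        exact hpar
    have hsum := h.sum_cor i
    have hsub : insert i (insert i' D') ⊆ U := by
      intro j hj
      rcases Finset.mem_insert.1 hj with rfl | hj
      · exact hiU
      · rcases Finset.mem_insert.1 hj with rfl | hj
        · exact hi'U
        · exact hDU j (Finset.mem_filter.1 hj).1
    have hi'D' : i' ∉ D' := fun hm => (Finset.mem_filter.1 hm).2.1 hpar
    have hiD' : i ∉ insert i' D' := by
      intro hm
      rcases Finset.mem_insert.1 hm with he | hm
      · exact hii he
      · exact (Finset.mem_filter.1 hm).2.1 (Par.refl' _)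
    have hle : cor A w i i + (cor A w i i' + ∑ j ∈ D', cor A w i j) ≤ s * mag A w i := by
      rw [← hsum, ← Finset.sum_insert hi'D', ← Finset.sum_insert hiD']
      exact Finset.sum_le_sum_of_subset_of_nonneg hsub (fun j hj _ => hcor0 j hj)
    rw [cor_of_par (Par.refl' i), cor_of_par hpar] at hle
    have hle' : (cnt A w : ℝ) + (cnt A w + ∑ j ∈ D', (cor A w i j : ℝ)) ≤ s * mag A w i := by
      exact_mod_cast hle
    have hD'sum : (D'.card : ℝ) * cnt A w ≤ (∑ j ∈ D', (cor A w i j : ℝ)) * (2 * e + 2) := by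
      rw [Finset.sum_mul, ← nsmul_eq_mul, ← Finset.sum_const]
      refine Finset.sum_le_sum fun j hj => ?_
      obtain ⟨hjD, hnp, hns⟩ := Finset.mem_filter.1 hj
      have t1 := htw j hjD
      exact (h.cor_dbl hiU hi'U (hDU j hjD) t1.1 hii t1.2.1.symm hpar t1.2.2 hnp hns).le
    have hmag := h.mag_lt hiU
    have hD'c : ((Dbl U A).card : ℝ) - 2 * (2 * e + 3) ≤ D'.card := by
      have h1 : (Dbl U A).card ≤ D'.card + 2 * (2 * e + 3) := by omega
      have h2 : ((Dbl U A).card : ℝ) ≤ D'.card + 2 * (2 * e + 3) := by exact_mod_cast h1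
      linarith
    have k1 : (((Dbl U A).card : ℝ) - 2) * cnt A w ≤ s * mag A w i * (2 * e + 2) := by
      have : (((Dbl U A).card : ℝ) - 2 * (2 * e + 3)) * cnt A w ≤ D'.card * cnt A w :=
        mul_le_mul_of_nonneg_right hD'c hN.le
      nlinarith
    have k2 : (((Dbl U A).card : ℝ) - 2) * cnt A w * (2 * e - 1) ≤
        s * (2 * e + 2) * cnt A w := by
      have h1 : (((Dbl U A).card : ℝ) - 2) * cnt A w * (2 * e - 1) ≤
          s * mag A w i * (2 * e + 2) * (2 * e - 1) :=
        mul_le_mul_of_nonneg_right k1 (by linarith)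
      have h2 : (s : ℝ) * (2 * e + 2) * ((mag A w i : ℝ) * (2 * e - 1)) ≤
          (s : ℝ) * (2 * e + 2) * cnt A w :=
        mul_le_mul_of_nonneg_left hmag.le (by positivity)
      linarith
    have k3 : (((Dbl U A).card : ℝ) - 2) * (2 * e - 1) ≤ s * (2 * e + 2) := by
      refine le_of_mul_le_mul_right ?_ hN
      nlinarith
    nlinarith

end Pool.Agent.H59.MW
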