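import Pool.Agent.H59.CW.Trans
import Pool.Agent.H59.MW.Beta

/-!
The affine theorem `TT` and minimal counterexamples `MC`.
-/

namespace Pool.Agent.H59.MW

open Finset Pool.Agent.H59.CW

set_option linter.unusedSectionVars false

variable {α : Type*} [DecidableEq α]

/-- The affine theorem for `n` coordinates and dimension `d`: at most `2^d bt(1+d-w)` members of
size `w`. -/
def TT (α : Type*) [DecidableEq α] (n d : ℕ) : Prop :=
  ∀ (U : Finset α) (A : Finset (Finset α)), U.card = n → (∀ x ∈ A, x ⊆ U) → Flat A →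
    A.card = 2 ^ d → ∀ w : ℕ, (cnt A w : ℝ) ≤ 2 ^ d * bt (1 + d - w)

/-- the members of size `w` -/
def EE (A : Finset (Finset α)) (w : ℕ) : Finset (Finset α) := A.filter (fun x => x.card = w)

theorem mem_EE {A : Finset (Finset α)} {w : ℕ} {x : Finset α} :
    x ∈ EE A w ↔ x ∈ A ∧ x.card = w := by
  simp [EE]

theorem card_EE (A : Finset (Finset α)) (w : ℕ) : (EE A w).card = cnt A w := rfl

/-- A minimal counterexample (in `(|U|, d)`, lexicographically); `|U| = 2w + s`,
`d + 1 = w + e`. -/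
structure MC (U : Finset α) (A : Finset (Finset α)) (d w e s : ℕ) : Prop where
  hU : ∀ x ∈ A, x ⊆ U
  hA : Flat A
  hd : A.card = 2 ^ d
  hn : U.card = 2 * w + s
  he : d + 1 = w + e
  e2 : 2 ≤ e
  ih1 : ∀ n' < U.card, ∀ d', TT α n' d'
  ih2 : ∀ d' < d, TT α U.card d'
  big : 2 ^ d * bt e < cnt A w

/-- sum over the members of size `w` of a product of two signs -/
def cor (A : Finset (Finset α)) (w : ℕ) (i j : α) : ℤ := ∑ x ∈ EE A w, chi i x * chi j x

/-- sum over the members of size `w` of a sign -/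
def mag (A : Finset (Finset α)) (w : ℕ) (i : α) : ℤ := ∑ x ∈ EE A w, chi i x

/-- the coordinates which are in series with another coordinate -/
def SerS (U : Finset α) (A : Finset (Finset α)) : Finset α :=
  U.filter (fun i => ∃ j ∈ U, j ≠ i ∧ Per A {i, j})

/-- the number of ordered pairs of parallel coordinates -/
def VV (U : Finset α) (A : Finset (Finset α)) : ℕ :=
  ((U ×ˢ U).filter (fun p => Par A p.1 p.2)).card

/-- the coordinates which have a twin -/
def Dbl (U : Finset α) (A : Finset (Finset α)) : Finset α :=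
  U.filter (fun i => ∃ j ∈ U, j ≠ i ∧ Par A i j)

/-- self-orthogonal direction space -/
def SO (A : Finset (Finset α)) : Prop := ∀ u v, Per A u → Per A v → Even (u ∩ v).card

/-! ### parametrisation -/

/-- the point with parameter `t` -/
def pt {d : ℕ} (U : Finset α) (a : α → Fin d → ZMod 2) (c : α → ZMod 2) (t : Fin d → ZMod 2) :
    Finset α := U.filter (fun i => a i ⬝ᵥ t + c i = 1)

/-- the direction with parameter `h` -/
def Ih {d : ℕ} (U : Finset α) (a : α → Fin d → ZMod 2) (h : Fin d → ZMod 2) :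
    Finset α := U.filter (fun i => a i ⬝ᵥ h = 1)

/-- rank of a set of coordinates -/
noncomputable def rk {d : ℕ} (a : α → Fin d → ZMod 2) (X : Finset α) : ℕ :=
  Module.finrank (ZMod 2) (Submodule.span (ZMod 2) (a '' (X : Set α)))

/-- `A` is parametrised by `Fin d → ZMod 2`. -/
structure Sys (U : Finset α) (A : Finset (Finset α)) (d : ℕ) (a : α → Fin d → ZMod 2)
    (c : α → ZMod 2) : Prop where
  inj : Function.Injective (pt U a c)
  im : ∀ x, x ∈ A ↔ ∃ t, pt U a c t = x

theorem zadd_eq_one (x y : ZMod 2) : x + y = 1 ↔ ¬ (x = 1 ↔ y = 1) := by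
  revert x y; decide

theorem pt_add {d : ℕ} (U : Finset α) (a : α → Fin d → ZMod 2) (c : α → ZMod 2)
    (t h : Fin d → ZMod 2) : pt U a c (t + h) = symmDiff (pt U a c t) (Ih U a h) := by
  ext i
  simp only [pt, Ih, Finset.mem_filter, Finset.mem_symmDiff, dotProduct_add]
  have h1 : a i ⬝ᵥ t + a i ⬝ᵥ h + c i = 1 ↔ ¬ (a i ⬝ᵥ t + c i = 1 ↔ a i ⬝ᵥ h = 1) := by
    rw [show a i ⬝ᵥ t + a i ⬝ᵥ h + c i = (a i ⬝ᵥ t + c i) + a i ⬝ᵥ h by ring]
    exact zadd_eq_one _ _
  tauto

end Pool.Agent.H59.MW
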