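import Pool.Agent.H59.MW.FBase

/-!
# MW-DICH: a quadratic function equal to 1 on a uniform set

(`FBase.lean`: `ch_inv`, `ch_pars`, `ch_add`, `sum_ch_ite`.) `Q t = ±1`,
`Q t Q (t+h) Q (t+h') Q (t+h+h') = sg (B h h')`, `B h` additive, `S b = ∑_{t ∈ E} ch b t`,
`q b = 2^{-d} ∑_t Q t ch b t`, `R = {h : ∀ h', B h h' = 0}`.
* Parseval: `∑_b (q b)² = 1`, and `|E| = ∑_{t ∈ E} Q t = ∑_b q b S b` (`ch_pars` or `ch_inv`).
* `(q b)² = 4^{-d} ∑_h ch b h ∑_t Q t Q (t+h)`. For fixed `h`, with `t` replaced by `0 + h'`: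
  `Q h' Q (h'+h) = Q 0 Q h sg (B h h')` (hypothesis `hB` at `t = 0`, and `Q² = 1`). So
  `∑_t Q t Q (t+h) = Q 0 Q h ∑_{h'} sg (B h h')`, which is `2^d Q 0 Q h` if `h ∈ R`, and `0` otherwise (`B h` is additive
  and takes the value 1: translate by such a vector).
* `ω h = Q 0 Q h` satisfies `ω (h + h') = ω h ω h'` for `h ∈ R` (`hB` at `t = 0`). `R` is closed under addition
  (from `hB`, `B h h' = B h' h`, so `B` is additive in the first variable as well). So
  `(q b)² = 2^{-d} ∑_{h ∈ R} ch b h ω h ∈ {0, |R|/2^d}`: if some `h₀ ∈ R` has `ch b h₀ ω h₀ = -1`, translation by `h₀`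
  shows that the sum is `0`; otherwise it is `|R|`.
* Put `ρ = |R|/2^d ≤ 1` (`R ∋ 0` so `ρ > 0`), `r = √ρ`: `|q b| ∈ {0, r}`, so `∑_b |q b| = (1/r) ∑ (q b)² = 1/r`.
 (i) `q 0 ≠ 0`. `1 = ∑_b q b (S b/|E|) ≤ r + ∑_{b≠0} |q b| |S b|/|E|` (`S 0 = |E|`). If `r < 1` some `q b ≠ 0` with
   `b ≠ 0` (Parseval), so `1 < r + c (1/r - r)`; multiply by `r/(1-r)`: `r < c (1 + r)`, i.e.
   `r (1-c) < c`, square: second alternative. If `r = 1` then `R` is everything (`|R| = 2^d`), so `B = 0`, and `|q 0| = 1`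
   gives that `Q` is constant (`|∑ Q t| = 2^d`), `= 1` on the nonempty set `E`: first alternative.
 (ii) `q 0 = 0`: `1 ≤ ∑_{b≠0} |q b||S b|/|E| < c (1/r)`, `r < c`, `r (1-c) < c`: second alternative.
-/

namespace Pool.Agent.H59.MW

open Finset

variable {d : ℕ}

theorem dich_sg_pm (x : ZMod 2) : sg x = 1 ∨ sg x = -1 := by
  unfold sg; split_ifs
  · right; rfl
  · left; rfl

theorem dich_sg_inj {x y : ZMod 2} (h : sg x = sg y) : x = y := by
  rcases zmod2_cases x with rfl | rfl <;> rcases zmod2_cases y with rfl | rfl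
  · rfl
  · simp [sg] at h; norm_num at h
  · simp [sg] at h; norm_num at h
  · rfl

theorem dich_sum_sg_add {f : (Fin d → ZMod 2) → ZMod 2} (hf : ∀ t t', f (t + t') = f t + f t') :
    ∑ t, sg (f t) = if ∀ t, f t = 0 then 2 ^ d else 0 := by
  split_ifs with h
  · rw [Finset.sum_congr rfl (fun t _ => by rw [h t])]
    simp [sg]
  · push Not at h
    obtain ⟨u, hu⟩ := h
    have hu1 : f u = 1 := (zmod2_cases _).resolve_left hu
    have h1 : ∑ t, sg (f (t + u)) = ∑ t, sg (f t) :=
      Fintype.sum_equiv (Equiv.addRight u) _ _ (fun t => by rw [Equiv.coe_addRight])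
    have h3 : ∀ t, sg (f (t + u)) = - sg (f t) := by
      intro t
      rw [hf, sg_add, hu1]
      simp [sg]
    rw [Finset.sum_congr rfl (fun t _ => h3 t), Finset.sum_neg_distrib] at h1
    linarith

theorem dich_sq (Q : (Fin d → ZMod 2) → ℝ) (hQ : ∀ t, Q t = 1 ∨ Q t = -1)
    (B : (Fin d → ZMod 2) → (Fin d → ZMod 2) → ZMod 2)
    (hB : ∀ t h h', Q t * Q (t + h) * Q (t + h') * Q (t + h + h') = sg (B h h'))
    (hadd : ∀ h t t', B h (t + t') = B h t + B h t') (b : Fin d → ZMod 2) :
    (∑ t, Q t * ch b t) ^ 2 = 0 ∨ (∑ t, Q t * ch b t) ^ 2 =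
      2 ^ d * ((univ.filter (fun h => ∀ h', B h h' = 0)).card : ℝ) := by
  have hQ2 : ∀ t, Q t * Q t = 1 := by
    intro t; rcases hQ t with h | h <;> rw [h] <;> norm_num
  have hB0 : ∀ h h', Q h' * Q (h + h') = Q 0 * Q h * sg (B h h') := by
    intro h h'
    have := hB 0 h h'
    rw [zero_add, zero_add] at this
    rw [← this]
    linear_combination (-(Q h' * Q (h + h')) * (Q h * Q h) * 1) * hQ2 0 +
      (-(Q h' * Q (h + h'))) * hQ2 h
  -- first formula
  have hform : (∑ t, Q t * ch b t) ^ 2 =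
      2 ^ d * ∑ h ∈ univ.filter (fun h => ∀ h', B h h' = 0), ch b h * (Q 0 * Q h) := by
    have h1 : (∑ t, Q t * ch b t) ^ 2 = ∑ t, ∑ h, (Q t * Q (h + t)) * ch b h := by
      rw [sq, Finset.sum_mul]
      apply Finset.sum_congr rfl
      intro t _
      have h2 : ∑ h, Q (h + t) * ch b (h + t) = ∑ h, Q h * ch b h :=
        Fintype.sum_equiv (Equiv.addRight t) _ _ (fun h => by rw [Equiv.coe_addRight])
      rw [← h2, Finset.mul_sum]
      apply Finset.sum_congr rfl
      intro h _
      rw [ch_add]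
      linear_combination (Q t * Q (h + t) * ch b h) * ch_sq b t
    rw [h1, Finset.sum_comm, Finset.mul_sum, Finset.sum_filter]
    apply Finset.sum_congr rfl
    intro h _
    have h3 : ∑ t, (Q t * Q (h + t)) * ch b h = (Q 0 * Q h * ch b h) * ∑ t, sg (B h t) := by
      rw [Finset.mul_sum]
      apply Finset.sum_congr rfl
      intro t _
      rw [hB0]; ring
    rw [h3, dich_sum_sg_add (hadd h)]
    split_ifs
    · ring
    · ring
  have hsymm : ∀ h h', B h h' = B h' h := by
    intro h h'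
    apply dich_sg_inj
    rw [← hB 0 h h', ← hB 0 h' h, zero_add, zero_add, add_comm h h']
    ring
  set R := univ.filter (fun h => ∀ h', B h h' = 0) with hR
  have hRadd : ∀ h₁ ∈ R, ∀ h₂ ∈ R, h₁ + h₂ ∈ R := by
    intro h₁ hh₁ h₂ hh₂
    rw [hR, Finset.mem_filter] at hh₁ hh₂ ⊢
    refine ⟨Finset.mem_univ _, fun h' => ?_⟩
    rw [hsymm, hadd, hsymm h' h₁, hsymm h' h₂, hh₁.2, hh₂.2, add_zero]
  have hφ : ∀ h, ch b h * (Q 0 * Q h) = 1 ∨ ch b h * (Q 0 * Q h) = -1 := by
    intro h
    have h1 : ch b h = 1 ∨ ch b h = -1 := by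
      rw [ch_eq]; exact dich_sg_pm _
    rcases h1 with h1 | h1 <;> rcases hQ 0 with h2 | h2 <;> rcases hQ h with h3 | h3 <;>
      rw [h1, h2, h3] <;> norm_num
  rw [hform]
  by_cases hex : ∃ h₀ ∈ R, ch b h₀ * (Q 0 * Q h₀) = -1
  · left
    obtain ⟨h₀, hh₀, hv⟩ := hex
    have hZ : ∑ h ∈ R, ch b h * (Q 0 * Q h) = - ∑ h ∈ R, ch b h * (Q 0 * Q h) := by
      rw [← Finset.sum_neg_distrib]
      refine Finset.sum_bij' (fun h _ => h + h₀) (fun h _ => h + h₀)
        (fun h hh => hRadd h hh h₀ hh₀) (fun h hh => hRadd h hh h₀ hh₀) ?_ ?_ ?_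
      · intro h _
        rw [add_assoc, add_self_vec, add_zero]
      · intro h _
        rw [add_assoc, add_self_vec, add_zero]
      · intro h hh
        rw [ch_add]
        have h5 := hB0 h h₀
        have h6 : B h h₀ = 0 := (Finset.mem_filter.1 hh).2 h₀
        rw [h6] at h5
        have h7 : sg 0 = 1 := by simp [sg]
        rw [h7, mul_one] at h5
        -- h5 : Q h₀ * Q (h + h₀) = Q 0 * Q h
        have h8 : Q (h + h₀) = Q 0 * Q h * Q h₀ := by
          linear_combination Q h₀ * h5 - Q (h + h₀) * hQ2 h₀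
        rw [h8]
        have hv' : ch b h₀ * Q 0 * Q h₀ = -1 := by rw [← hv]; ring
        linear_combination (ch b h * Q 0 * Q h) * hv'
    have : ∑ h ∈ R, ch b h * (Q 0 * Q h) = 0 := by linarith
    rw [this, mul_zero]
  · right
    push Not at hex
    rw [Finset.sum_congr rfl (fun h hh => (hφ h).resolve_right (hex h hh))]
    simp

theorem dich {E : Finset (Fin d → ZMod 2)} (hE : E.Nonempty) {c : ℝ} (hc0 : 0 < c) (hc1 : c < 1)
    (hc : ∀ b : Fin d → ZMod 2, b ≠ 0 → |∑ t ∈ E, ch b t| < c * E.card)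
    (Q : (Fin d → ZMod 2) → ℝ) (hQ : ∀ t, Q t = 1 ∨ Q t = -1) (hQE : ∀ t ∈ E, Q t = 1)
    (B : (Fin d → ZMod 2) → (Fin d → ZMod 2) → ZMod 2)
    (hB : ∀ t h h', Q t * Q (t + h) * Q (t + h') * Q (t + h + h') = sg (B h h'))
    (hadd : ∀ h t t', B h (t + t') = B h t + B h t') :
    ((∀ h h', B h h' = 0) ∧ ∀ t, Q t = 1) ∨
      ((univ.filter (fun h => ∀ h', B h h' = 0)).card : ℝ) * (1 - c) ^ 2 < c ^ 2 * 2 ^ d := by
  classical
  have hQ2 : ∀ t, Q t * Q t = 1 := by
    intro t; rcases hQ t with h | h <;> rw [h] <;> norm_num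
  set R := univ.filter (fun h => ∀ h', B h h' = 0) with hR
  set M : ℝ := 2 ^ d with hM
  have hMpos : 0 < M := by positivity
  set P : (Fin d → ZMod 2) → ℝ := fun b => ∑ t, Q t * ch b t with hP
  set S : (Fin d → ZMod 2) → ℝ := fun b => ∑ t ∈ E, ch b t with hS
  have hEpos : (0 : ℝ) < E.card := by exact_mod_cast hE.card_pos
  have hcardM : ((univ : Finset (Fin d → ZMod 2)).card : ℝ) = M := by
    rw [hM, Finset.card_univ]; simp
  have F1 : ∑ b, P b ^ 2 = M * M := by
    have h1 := ch_pars Q Q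
    have h2 : ∑ t, Q t * Q t = M := by
      rw [Finset.sum_congr rfl (fun t _ => hQ2 t)]
      rw [Finset.sum_const, nsmul_eq_mul, mul_one, hcardM]
    rw [h2] at h1
    rw [← h1]
    exact Finset.sum_congr rfl (fun b _ => sq _)
  have hS' : ∀ b, ∑ t, (if t ∈ E then (1 : ℝ) else 0) * ch b t = S b := by
    intro b
    simp only [ite_mul, one_mul, zero_mul, hS]
    rw [← Finset.sum_filter]
    congr 1
    ext t; simp
  have F2 : ∑ b, P b * S b = M * E.card := by
    have h1 := ch_pars Q (fun t => if t ∈ E then (1 : ℝ) else 0)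
    have h2 : ∑ t, Q t * (if t ∈ E then (1 : ℝ) else 0) = E.card := by
      simp only [mul_ite, mul_one, mul_zero]
      rw [← Finset.sum_filter]
      have : (univ.filter (fun t => t ∈ E)) = E := by ext t; simp
      rw [this, Finset.sum_congr rfl hQE]
      simp
    rw [h2] at h1
    rw [← h1]
    exact Finset.sum_congr rfl (fun b _ => by rw [hS'])
  have F3 : ∀ b, P b ^ 2 = 0 ∨ P b ^ 2 = M * (R.card : ℝ) := fun b => dich_sq Q hQ B hB hadd b
  have h0R : (0 : Fin d → ZMod 2) ∈ R := by
    rw [hR, Finset.mem_filter]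
    refine ⟨Finset.mem_univ _, fun h' => ?_⟩
    have hs : B 0 h' = B h' 0 := by
      apply dich_sg_inj
      rw [← hB 0 0 h', ← hB 0 h' 0]
      simp only [zero_add, add_zero]
      ring
    rw [hs]
    have := hadd h' 0 0
    rw [add_zero] at this
    exact (left_eq_add.1 this)
  have hRpos : (0 : ℝ) < R.card := by exact_mod_cast Finset.card_pos.2 ⟨0, h0R⟩
  have hRle : (R.card : ℝ) ≤ M := by
    rw [← hcardM]
    exact_mod_cast Finset.card_le_card (Finset.filter_subset _ _)
  set s : ℝ := Real.sqrt (M * R.card) with hs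
  have hspos : 0 < s := Real.sqrt_pos.2 (mul_pos hMpos hRpos)
  have hs2 : s ^ 2 = M * R.card := Real.sq_sqrt (mul_pos hMpos hRpos).le
  have F3' : ∀ b, |P b| = 0 ∨ |P b| = s := by
    intro b
    rcases F3 b with h | h
    · left; rw [abs_eq_zero]; exact pow_eq_zero_iff (two_ne_zero) |>.1 h
    · right
      rw [← hs2, ← sq_abs] at h
      exact (pow_left_inj₀ (abs_nonneg _) hspos.le two_ne_zero).1 h
  have F4 : s * ∑ b, |P b| = M * M := by
    rw [← F1, Finset.mul_sum]
    apply Finset.sum_congr rfl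
    intro b _
    rw [← sq_abs]
    rcases F3' b with h | h <;> rw [h] <;> ring
  have hS0 : S 0 = E.card := by
    rw [hS]
    simp only [ch_zero, Finset.sum_const, nsmul_eq_mul, mul_one]
  have hsplit : ∀ f : (Fin d → ZMod 2) → ℝ, ∑ b, f b = f 0 + ∑ b ∈ univ.erase 0, f b := by
    intro f
    rw [Finset.add_sum_erase _ _ (Finset.mem_univ _)]
  -- main inequality
  have hmain : M * E.card ≤ |P 0| * E.card + ∑ b ∈ univ.erase 0, |P b| * |S b| := by
    rw [← F2, hsplit, hS0]
    refine add_le_add ?_ (Finset.sum_le_sum fun b _ => ?_)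
    · exact mul_le_mul_of_nonneg_right (le_abs_self _) hEpos.le
    · rw [← abs_mul]; exact le_abs_self _
  have hstrict : (∃ b ∈ (univ : Finset (Fin d → ZMod 2)).erase 0, P b ≠ 0) →
      ∑ b ∈ univ.erase 0, |P b| * |S b| < c * E.card * ∑ b ∈ univ.erase 0, |P b| := by
    rintro ⟨b₀, hb₀, hb₀'⟩
    rw [Finset.mul_sum]
    refine Finset.sum_lt_sum (fun b hb => ?_) ⟨b₀, hb₀, ?_⟩
    · rw [mul_comm (c * _)]
      exact mul_le_mul_of_nonneg_left (hc b (Finset.ne_of_mem_erase hb)).le (abs_nonneg _)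
    · rw [mul_comm (c * _)]
      exact mul_lt_mul_of_pos_left (hc b₀ (Finset.ne_of_mem_erase hb₀)) (abs_pos.2 hb₀')
  have hsum := hsplit (fun b => |P b|)
  have hsumE : ∀ x : ℝ, |P 0| = x → (0 < M * M - s * x) →
      ∃ b ∈ (univ : Finset (Fin d → ZMod 2)).erase 0, P b ≠ 0 := by
    intro x hx hpos
    by_contra hcon
    push Not at hcon
    have h1 : ∑ b ∈ (univ : Finset (Fin d → ZMod 2)).erase 0, |P b| = 0 :=
      Finset.sum_eq_zero fun b hb => by rw [hcon b hb, abs_zero]
    rw [h1, add_zero] at hsum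
    rw [hsum, hx] at F4
    linarith
  rcases F3' 0 with h0 | h0
  · -- P 0 = 0
    right
    have hex := hsumE 0 h0 (by rw [mul_zero, sub_zero]; positivity)
    have h1 := hstrict hex
    rw [h0, zero_mul, zero_add] at hmain
    rw [h0, zero_add] at hsum
    rw [← hsum] at h1
    have h2 : M * E.card < c * E.card * ∑ b, |P b| := lt_of_le_of_lt hmain h1
    have h3 : s * (M * E.card) < c * E.card * (M * M) := by
      rw [← F4]
      calc s * (M * E.card) < s * (c * E.card * ∑ b, |P b|) := mul_lt_mul_of_pos_left h2 hspos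
        _ = _ := by ring
    have h4 : s < c * M := by
      by_contra hcon
      push Not at hcon
      have : c * M * (M * E.card) ≤ s * (M * E.card) :=
        mul_le_mul_of_nonneg_right hcon (by positivity)
      nlinarith
    have h5 : s ^ 2 < (c * M) ^ 2 := by
      exact pow_lt_pow_left₀ h4 hspos.le two_ne_zero
    rw [hs2] at h5
    have h6 : (R.card : ℝ) < c ^ 2 * M := by
      have e1 : (c * M) ^ 2 = M * (c ^ 2 * M) := by ring
      rw [e1] at h5
      exact lt_of_mul_lt_mul_left h5 hMpos.le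
    calc (R.card : ℝ) * (1 - c) ^ 2 ≤ R.card * 1 := by
          refine mul_le_mul_of_nonneg_left ?_ hRpos.le
          nlinarith
      _ < c ^ 2 * M := by rw [mul_one]; exact h6
  · -- |P 0| = s
    rcases lt_or_ge s M with hsM | hsM
    · right
      have hex := hsumE s h0 (by nlinarith)
      have h1 := hstrict hex
      rw [h0] at hmain hsum
      have h2 : M * E.card < s * E.card + c * E.card * (∑ b, |P b| - s) := by
        have : ∑ b ∈ (univ : Finset (Fin d → ZMod 2)).erase 0, |P b| = ∑ b, |P b| - s := by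
          linarith
        rw [← this]
        linarith
      have h2' : M < s + c * (∑ b, |P b| - s) := by
        have e1 : s * E.card + c * E.card * (∑ b, |P b| - s) =
            (s + c * (∑ b, |P b| - s)) * E.card := by ring
        rw [e1] at h2
        exact lt_of_mul_lt_mul_right h2 hEpos.le
      have h3 : s * M < s * s + c * (M * M - s * s) := by
        rw [← F4]
        calc s * M < s * (s + c * (∑ b, |P b| - s)) := mul_lt_mul_of_pos_left h2' hspos
          _ = _ := by ring
      have h4 : s * (1 - c) < c * M := by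
        by_contra hcon
        push Not at hcon
        have h5 : (M - s) * (c * M) ≤ (M - s) * (s * (1 - c)) :=
          mul_le_mul_of_nonneg_left hcon (by linarith)
        have e1 : (M - s) * (c * M) = c * (M * M - s * s) - (s * M - s * s) + (1 - c) * (s * M - s * s) := by
          ring
        have e2 : (M - s) * (s * (1 - c)) = (1 - c) * (s * M - s * s) := by ring
        rw [e1, e2] at h5
        linarith
      have h5 : (s * (1 - c)) ^ 2 < (c * M) ^ 2 :=
        pow_lt_pow_left₀ h4 (mul_nonneg hspos.le (by linarith)) two_ne_zero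
      rw [mul_pow, hs2] at h5
      have e1 : (c * M) ^ 2 = M * (c ^ 2 * M) := by ring
      have e2 : M * R.card * (1 - c) ^ 2 = M * (R.card * (1 - c) ^ 2) := by ring
      rw [e1, e2] at h5
      exact lt_of_mul_lt_mul_left h5 hMpos.le
    · left
      have h1 : M * M ≤ M * R.card := by
        rw [← hs2, sq]
        exact mul_le_mul hsM hsM hMpos.le hspos.le
      have h2 : M ≤ R.card := le_of_mul_le_mul_left h1 hMpos
      have h3 : (R.card : ℝ) = M := le_antisymm hRle h2
      have hRuniv : R = univ := by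
        apply Finset.eq_univ_of_card
        have h4 : (R.card : ℝ) = ((univ : Finset (Fin d → ZMod 2)).card : ℝ) := by
          rw [hcardM, h3]
        rw [← Finset.card_univ]
        exact_mod_cast h4
      refine ⟨fun h h' => ?_, ?_⟩
      · have : h ∈ R := by rw [hRuniv]; exact Finset.mem_univ _
        exact (Finset.mem_filter.1 this).2 h'
      · have h4 : P 0 ^ 2 = M ^ 2 := by
          rw [← sq_abs, h0, hs2, h3]; ring
        have h5 : P 0 = ∑ t, Q t := by
          rw [hP]
          simp only [ch_zero, mul_one]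
        rcases sq_eq_sq_iff_eq_or_eq_neg.1 h4 with h6 | h6
        · have h7 : ∑ t, (1 - Q t) = 0 := by
            rw [Finset.sum_sub_distrib, ← h5, h6, Finset.sum_const, nsmul_eq_mul, mul_one, hcardM,
              sub_self]
          have h8 := (Finset.sum_eq_zero_iff_of_nonneg (fun t _ => by
            rcases hQ t with h | h <;> rw [h] <;> norm_num)).1 h7
          intro t
          have := h8 t (Finset.mem_univ _)
          linarith
        · exfalso
          have h7 : ∑ t, (1 + Q t) = 0 := by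
            rw [Finset.sum_add_distrib, ← h5, h6, Finset.sum_const, nsmul_eq_mul, mul_one, hcardM,
              add_neg_cancel]
          have h8 := (Finset.sum_eq_zero_iff_of_nonneg (fun t _ => by
            rcases hQ t with h | h <;> rw [h] <;> norm_num)).1 h7
          obtain ⟨t, ht⟩ := hE
          have h9 := h8 t (Finset.mem_univ _)
          rw [hQE t ht] at h9
          norm_num at h9

end Pool.Agent.H59.MW
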