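import Pool.Agent.H59.MW.EdmA

/-!
# MW-EDM: a basis and a disjoint independent set

`edm_aux` with `K = L = ⊥` and `m` = the minimum over `F ⊆ U` of `|U \ F| + 2 finrank (span (a '' F))`, attained at `F`
(`Finset.exists_min_image` on `U.powerset`): disjoint `I, J ⊆ U` with `finrank (span (a '' I)) = |I|`, same for `J`, so
`a` is linearly independent on `I` and on `J` (`linearIndependent_iff_card_eq_finrank_span` or similar; `a` is injective
on them), and `|U| + 2 finrank (span (a '' F)) ≤ |I| + |J| + |F|`. Extend `I` to `B`, `I ⊆ B ⊆ U`, `a` independent on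
`B`, `span (a '' B) = span (a '' U) = ⊤` (`exists_linearIndepOn_extension`), so `|B| = d`; take `J' = J \ B`:
`|B| + |J'| = |B ∪ J| ≥ |I ∪ J| = |I| + |J|`.
-/
namespace Pool.Agent.H59.MW

open Finset

theorem edmonds_basis {α : Type*} [DecidableEq α] {d : ℕ} (U : Finset α)
    (a : α → Fin d → ZMod 2) (ht : Submodule.span (ZMod 2) (a '' (U : Set α)) = ⊤) :
    ∃ B J F : Finset α, B ⊆ U ∧ J ⊆ U ∧ F ⊆ U ∧ Disjoint B J ∧ B.card = d ∧
      LinearIndepOn (ZMod 2) a (B : Set α) ∧ LinearIndepOn (ZMod 2) a (J : Set α) ∧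
      U.card + 2 * Module.finrank (ZMod 2) (Submodule.span (ZMod 2) (a '' (F : Set α))) ≤
        d + J.card + F.card := by
  classical
  have hbs : ∀ S : Submodule (ZMod 2) (Fin d → ZMod 2), Module.finrank (ZMod 2)
      ((⊥ : Submodule (ZMod 2) (Fin d → ZMod 2)) ⊔ S : Submodule (ZMod 2) (Fin d → ZMod 2)) =
      Module.finrank (ZMod 2) S := fun S => by rw [bot_sup_eq]
  obtain ⟨F, hF, hmin⟩ := Finset.exists_min_image U.powerset
    (fun F => (U \ F).card + 2 * Module.finrank (ZMod 2)
      (Submodule.span (ZMod 2) (a '' (F : Set α)))) ⟨∅, Finset.mem_powerset.2 (Finset.empty_subset _)⟩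
  rw [Finset.mem_powerset] at hF
  obtain ⟨I, J, hI, hJ, hIJ, hrI, hrJ, hm⟩ := edm_aux a U (⊥ : Submodule (ZMod 2) (Fin d → ZMod 2)) ⊥
    ((U \ F).card + 2 * Module.finrank (ZMod 2) (Submodule.span (ZMod 2) (a '' (F : Set α)))) (by
      intro F' hF'
      have := hmin F' (Finset.mem_powerset.2 hF')
      rw [hbs, finrank_bot]
      omega)
  rw [hbs, finrank_bot, zero_add] at hrI hrJ
  have indep : ∀ T : Finset α, Module.finrank (ZMod 2) (Submodule.span (ZMod 2) (a '' (T : Set α))) = T.card →
      LinearIndepOn (ZMod 2) a (T : Set α) := by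
    intro T hT
    have h1 : LinearIndependent (ZMod 2) (fun x : T => a x.1) := by
      rw [linearIndependent_iff_card_eq_finrank_span, Set.finrank]
      have : Set.range (fun x : T => a x.1) = a '' (T : Set α) := by
        ext y
        simp
      rw [this, hT]
      simp
    exact h1
  have hIi := indep I hrI
  have hJi := indep J hrJ
  obtain ⟨b, hbU, hIb, hspan, hbi⟩ := exists_linearIndepOn_extension hIi
    (show (I : Set α) ⊆ (U : Set α) from by exact_mod_cast hI)
  have hbfin : b.Finite := U.finite_toSet.subset hbU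
  obtain ⟨B, rfl⟩ := hbfin.exists_finset_coe
  have hBU : B ⊆ U := by exact_mod_cast hbU
  have hIB : I ⊆ B := by exact_mod_cast hIb
  have htop : Submodule.span (ZMod 2) (a '' (B : Set α)) = ⊤ := by
    rw [eq_top_iff, ← ht, Submodule.span_le]
    exact hspan
  have hBd : B.card = d := by
    have h1 : LinearIndependent (ZMod 2) (fun x : B => a x.1) := hbi
    rw [linearIndependent_iff_card_eq_finrank_span, Set.finrank] at h1
    have : Set.range (fun x : B => a x.1) = a '' (B : Set α) := by
      ext y
      simp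
    rw [this, htop, finrank_top] at h1
    simpa using h1
  refine ⟨B, J \ B, F, hBU, Finset.sdiff_subset.trans hJ, hF, Finset.disjoint_sdiff, hBd, hbi, ?_, ?_⟩
  · exact hJi.mono (by exact_mod_cast Finset.sdiff_subset)
  · have h1 : (B ∪ J).card = B.card + (J \ B).card := by
      rw [← Finset.union_sdiff_self_eq_union, Finset.card_union_of_disjoint Finset.disjoint_sdiff]
    have h2 : (I ∪ J).card = I.card + J.card := Finset.card_union_of_disjoint hIJ
    have h3 : (I ∪ J).card ≤ (B ∪ J).card := Finset.card_le_card (Finset.union_subset_union hIB le_rfl)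
    have h4 : (U \ F).card + F.card = U.card := Finset.card_sdiff_add_card_eq_card hF
    omega

end Pool.Agent.H59.MW
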