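import Mathlib

/-!
# MW-EDMA: two disjoint independent sets modulo subspaces (matroid union for two linear matroids)

Write `r X = finrank (K ⊔ span (a '' X)) - finrank K`, `t X = finrank (L ⊔ span (a '' X)) - finrank L`. The claim: if
`m ≤ |E \ F| + r F + t F` for all `F ⊆ E`, then there are disjoint `I, J ⊆ E` with `r I = |I|`, `t J = |J|`,
`m ≤ |I| + |J|`. (`r I = |I|` says that `I` is independent modulo `K`.)
Induction on `E` (`Finset.induction_on`), for all `K L m`. `E = ∅`: `m ≤ 0`. Step `E = insert e E'`; for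
`K' = K ⊔ span {a e}`: `K' ⊔ span (a '' X) = K ⊔ span (a '' (insert e X))`, `finrank K' = finrank K + [a e ∉ K]`. If `m = 0`
take `I = J = ∅`.
 (1) `a e ∈ K` and `a e ∈ L`: the hypothesis for `insert e F` gives it for `(E', K, L, m)`: apply the claim.
 (2) `a e ∉ K`, `a e ∈ L`: the claim applies to `(E', K', L, m-1)`: for `F ⊆ E'` use the hypothesis for
     `insert e F`: `m ≤ |E' \ F| + r(F ∪ e) + t(F ∪ e)`, `r (F ∪ e) = r' F + 1`, `t(F ∪ e) = t F`. Put `e` into `I`.
 (3) `a e ∈ K`, `a e ∉ L`: symmetric (put `e` into `J`).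
 (4) `a e ∉ K`, `a e ∉ L`: if the claim applies to `(E', K', L, m-1)` or to `(E', K, L', m-1)` we are done as before.
     Otherwise there are `X, Y ⊆ E'` with `|E' \ X| + r'(X) + t(X) ≤ m-2`, `|E' \ Y| + r(Y) + t'(Y) ≤ m-2`, i.e.
     `|E' \ X| + r(X∪e) + t(X) + |E' \ Y| + r(Y) + t(Y∪e) ≤ 2m - 2`. By submodularity
     `r(X∪e) + r(Y) ≥ r(X∪Y∪e) + r(X∩Y)`, `t(X) + t(Y∪e) ≥ t(X∪Y∪e) + t(X∩Y)`, and
     `|E' \ X| + |E' \ Y| = |E \ (X∪Y∪e)| + |E \ (X∩Y)| - 1`, so by the hypothesis for `X∪Y∪e` and `X∩Y`:
     `2m - 2 ≥ 2m - 1`. Contradiction.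
Submodularity: for subspaces `P = K ⊔ span (a '' X₁)`, `Q = K ⊔ span (a '' X₂)`:
`finrank (P ⊔ Q) + finrank (P ⊓ Q) = finrank P + finrank Q` (`Submodule.finrank_sup_add_finrank_inf_eq`),
`P ⊔ Q = K ⊔ span (a '' (X₁ ∪ X₂))`, `K ⊔ span (a '' (X₁ ∩ X₂)) ≤ P ⊓ Q`.
-/
namespace Pool.Agent.H59.MW

open Finset Module Submodule

section Help

variable {k W α : Type*} [Field k] [AddCommGroup W] [Module k W] [FiniteDimensional k W]
    [DecidableEq α] (a : α → W)

omit [FiniteDimensional k W] in
theorem sup_insert (K : Submodule k W) (e : α) (X : Finset α) :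
    K ⊔ span k {a e} ⊔ span k (a '' (X : Set α)) =
      K ⊔ span k (a '' ((insert e X : Finset α) : Set α)) := by
  rw [Finset.coe_insert, Set.image_insert_eq, span_insert, sup_assoc]

omit [FiniteDimensional k W] in
theorem sup_insert_mem (K : Submodule k W) (e : α) (X : Finset α) (h : a e ∈ K) :
    K ⊔ span k (a '' ((insert e X : Finset α) : Set α)) = K ⊔ span k (a '' (X : Set α)) := by
  rw [← sup_insert]
  congr 1
  rw [sup_eq_left, span_singleton_le_iff_mem]
  exact h

omit [FiniteDimensional k W] [DecidableEq α] in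
theorem finrank_empty (K : Submodule k W) :
    finrank k (K ⊔ span k (a '' ((∅ : Finset α) : Set α)) : Submodule k W) =
      finrank k K + (∅ : Finset α).card := by
  have : K ⊔ span k (a '' ((∅ : Finset α) : Set α)) = K := by simp
  rw [this, Finset.card_empty, add_zero]

theorem finrank_sup_single (K : Submodule k W) (e : α) (h : a e ∉ K) :
    finrank k (K ⊔ span k {a e} : Submodule k W) = finrank k K + 1 := by
  have h0 : a e ≠ 0 := fun h0 => h (h0 ▸ K.zero_mem)
  have h1 := finrank_sup_add_finrank_inf_eq K (span k {a e})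
  have h2 : K ⊓ span k {a e} = ⊥ := by
    rw [← disjoint_iff, disjoint_span_singleton' h0]
    exact h
  rw [h2, finrank_bot, finrank_span_singleton h0] at h1
  omega

theorem submod (K : Submodule k W) (X Y : Finset α) :
    finrank k (K ⊔ span k (a '' ((X ∪ Y : Finset α) : Set α)) : Submodule k W) +
      finrank k (K ⊔ span k (a '' ((X ∩ Y : Finset α) : Set α)) : Submodule k W) ≤
    finrank k (K ⊔ span k (a '' (X : Set α)) : Submodule k W) +
      finrank k (K ⊔ span k (a '' (Y : Set α)) : Submodule k W) := by
  rw [← finrank_sup_add_finrank_inf_eq (K ⊔ span k (a '' (X : Set α)))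
    (K ⊔ span k (a '' (Y : Set α)))]
  have h1 : K ⊔ span k (a '' ((X ∪ Y : Finset α) : Set α)) =
      (K ⊔ span k (a '' (X : Set α))) ⊔ (K ⊔ span k (a '' (Y : Set α))) := by
    rw [Finset.coe_union, Set.image_union, span_union]
    rw [← sup_sup_distrib_left]
  rw [h1]
  refine Nat.add_le_add_left ?_ _
  apply finrank_mono
  refine le_inf ?_ ?_
  · exact sup_le_sup_left (span_mono (Set.image_mono (by simp))) _
  · exact sup_le_sup_left (span_mono (Set.image_mono (by simp))) _

theorem step_done (e : α) (E' : Finset α) (he : e ∉ E') (K L : Submodule k W) (m : ℕ)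
    (hm : 1 ≤ m) (hK : a e ∉ K)
    (ih : ∀ (K L : Submodule k W) (m : ℕ),
    (∀ F ⊆ E', m + finrank k K + finrank k L ≤ (E' \ F).card +
      finrank k (K ⊔ span k (a '' (F : Set α)) : Submodule k W) +
      finrank k (L ⊔ span k (a '' (F : Set α)) : Submodule k W)) →
    ∃ I J : Finset α, I ⊆ E' ∧ J ⊆ E' ∧ Disjoint I J ∧
      finrank k (K ⊔ span k (a '' (I : Set α)) : Submodule k W) = finrank k K + I.card ∧
      finrank k (L ⊔ span k (a '' (J : Set α)) : Submodule k W) = finrank k L + J.card ∧
      m ≤ I.card + J.card)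
    (h1 : ∀ F ⊆ E', m + finrank k K + finrank k L ≤ (E' \ F).card +
      finrank k (K ⊔ span k (a '' ((insert e F : Finset α) : Set α)) : Submodule k W) +
      finrank k (L ⊔ span k (a '' (F : Set α)) : Submodule k W)) :
    ∃ I J : Finset α, I ⊆ insert e E' ∧ J ⊆ insert e E' ∧ Disjoint I J ∧
      finrank k (K ⊔ span k (a '' (I : Set α)) : Submodule k W) = finrank k K + I.card ∧
      finrank k (L ⊔ span k (a '' (J : Set α)) : Submodule k W) = finrank k L + J.card ∧
      m ≤ I.card + J.card := by
  obtain ⟨I, J, hI, hJ, hIJ, h2, h3, h4⟩ := ih (K ⊔ span k {a e}) L (m - 1) (by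
    intro F hF
    have := h1 F hF
    rw [sup_insert, finrank_sup_single a K e hK]
    omega)
  refine ⟨insert e I, J, Finset.insert_subset_insert _ hI, hJ.trans (Finset.subset_insert _ _),
    ?_, ?_, h3, ?_⟩
  · rw [Finset.disjoint_insert_left]
    exact ⟨fun h => he (hJ h), hIJ⟩
  · rw [← sup_insert, h2, finrank_sup_single a K e hK,
      Finset.card_insert_of_notMem (fun h => he (hI h))]
    omega
  · rw [Finset.card_insert_of_notMem (fun h => he (hI h))]
    omega

end Help

theorem edm_aux {k W α : Type*} [Field k] [AddCommGroup W] [Module k W] [FiniteDimensional k W]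
    [DecidableEq α] (a : α → W) (E : Finset α) : ∀ (K L : Submodule k W) (m : ℕ),
    (∀ F ⊆ E, m + finrank k K + finrank k L ≤ (E \ F).card +
      finrank k (K ⊔ span k (a '' (F : Set α)) : Submodule k W) +
      finrank k (L ⊔ span k (a '' (F : Set α)) : Submodule k W)) →
    ∃ I J : Finset α, I ⊆ E ∧ J ⊆ E ∧ Disjoint I J ∧
      finrank k (K ⊔ span k (a '' (I : Set α)) : Submodule k W) = finrank k K + I.card ∧
      finrank k (L ⊔ span k (a '' (J : Set α)) : Submodule k W) = finrank k L + J.card ∧
      m ≤ I.card + J.card := by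
  induction E using Finset.induction_on with
  | empty =>
    intro K L m h
    have h0 := h ∅ (by simp)
    refine ⟨∅, ∅, by simp, by simp, by simp, finrank_empty a K, finrank_empty a L, ?_⟩
    have h1 := finrank_empty a K
    have h2 := finrank_empty a L
    simp only [Finset.card_empty, Finset.sdiff_empty] at h0 h1 h2 ⊢
    omega
  | insert e E' he ih =>
    intro K L m h
    rcases Nat.eq_zero_or_pos m with rfl | hm
    · exact ⟨∅, ∅, by simp, by simp, by simp, finrank_empty a K, finrank_empty a L, by simp⟩
    have hcard : ∀ F ⊆ E', (insert e E' \ insert e F) = E' \ F := by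
      intro F hF
      ext z
      simp only [Finset.mem_sdiff, Finset.mem_insert, not_or]
      constructor
      · rintro ⟨h1 | h1, h2, h3⟩
        · exact absurd h1 h2
        · exact ⟨h1, h3⟩
      · rintro ⟨h1, h2⟩
        exact ⟨Or.inr h1, fun h3 => he (h3 ▸ h1), h2⟩
    have hins : ∀ F ⊆ E', m + finrank k K + finrank k L ≤ (E' \ F).card +
        finrank k (K ⊔ span k (a '' ((insert e F : Finset α) : Set α)) : Submodule k W) +
        finrank k (L ⊔ span k (a '' ((insert e F : Finset α) : Set α)) : Submodule k W) := by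
      intro F hF
      have := h (insert e F) (Finset.insert_subset_insert _ hF)
      rwa [hcard F hF] at this
    by_cases hK : a e ∈ K
    · by_cases hL : a e ∈ L
      · obtain ⟨I, J, hI, hJ, hIJ, h2, h3, h4⟩ := ih K L m (by
          intro F hF
          have := hins F hF
          rwa [sup_insert_mem a K e F hK, sup_insert_mem a L e F hL] at this)
        exact ⟨I, J, hI.trans (Finset.subset_insert _ _), hJ.trans (Finset.subset_insert _ _),
          hIJ, h2, h3, h4⟩
      · obtain ⟨I, J, hI, hJ, hIJ, h2, h3, h4⟩ := step_done a e E' he L K m hm hL ih (by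
          intro F hF
          have := hins F hF
          rw [sup_insert_mem a K e F hK] at this
          omega)
        exact ⟨J, I, hJ, hI, hIJ.symm, h3, h2, by omega⟩
    · by_cases hL : a e ∈ L
      · exact step_done a e E' he K L m hm hK ih (by
          intro F hF
          have := hins F hF
          rwa [sup_insert_mem a L e F hL] at this)
      · by_cases h1 : ∀ F ⊆ E', m + finrank k K + finrank k L ≤ (E' \ F).card +
          finrank k (K ⊔ span k (a '' ((insert e F : Finset α) : Set α)) : Submodule k W) +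
          finrank k (L ⊔ span k (a '' (F : Set α)) : Submodule k W)
        · exact step_done a e E' he K L m hm hK ih h1
        by_cases h2 : ∀ F ⊆ E', m + finrank k L + finrank k K ≤ (E' \ F).card +
          finrank k (L ⊔ span k (a '' ((insert e F : Finset α) : Set α)) : Submodule k W) +
          finrank k (K ⊔ span k (a '' (F : Set α)) : Submodule k W)
        · obtain ⟨I, J, hI, hJ, hIJ, h3, h4, h5⟩ := step_done a e E' he L K m hm hL ih h2
          exact ⟨J, I, hJ, hI, hIJ.symm, h4, h3, by omega⟩
        exfalso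
        push Not at h1 h2
        obtain ⟨X, hX, hX2⟩ := h1
        obtain ⟨Y, hY, hY2⟩ := h2
        have s1 := submod a K (insert e X) Y
        have s2 := submod a L X (insert e Y)
        have e1 : insert e X ∪ Y = insert e (X ∪ Y) := by simp
        have e2 : X ∪ insert e Y = insert e (X ∪ Y) := by simp
        have e3 : insert e X ∩ Y = X ∩ Y := by
          rw [Finset.insert_inter_of_notMem (fun h => he (hY h))]
        have e4 : X ∩ insert e Y = X ∩ Y := by
          rw [Finset.inter_insert_of_notMem (fun h => he (hX h))]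
        rw [e1, e3] at s1
        rw [e2, e4] at s2
        have t1 := hins (X ∪ Y) (Finset.union_subset hX hY)
        have t2 := h (X ∩ Y) ((Finset.inter_subset_left.trans hX).trans
          (Finset.subset_insert _ _))
        have c1 : (insert e E' \ (X ∩ Y)).card = (E' \ (X ∩ Y)).card + 1 := by
          rw [Finset.insert_sdiff_of_notMem _ (fun h => he (hX (Finset.mem_inter.1 h).1)),
            Finset.card_insert_of_notMem (by simp [he])]
        have c2 : (E' \ (X ∪ Y)).card + (E' \ (X ∩ Y)).card = (E' \ X).card + (E' \ Y).card := by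
          rw [Finset.sdiff_union_distrib, Finset.sdiff_inter_distrib_right, add_comm,
            Finset.card_union_add_card_inter]
        rw [c1] at t2
        omega

end Pool.Agent.H59.MW
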