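import Pool.Agent.H59.CW.Trans

/-!
Upper bound `2 ^ k - 2 ^ (k - a - 1)` for the number of members of size `2 ^ a * s`, `s` odd, of
a linear family of dimension `k`.
-/

namespace Pool.Agent.H59.MW

open Finset Pool.Agent.H59.CW

set_option linter.unusedSectionVars false

variable {α : Type*} [DecidableEq α]

/-- a family that contains the empty set and is closed under symmetric differences -/
structure Lin (A : Finset (Finset α)) : Prop where
  zero : ∅ ∈ A
  add : ∀ x ∈ A, ∀ y ∈ A, symmDiff x y ∈ A

theorem Lin.flat {A : Finset (Finset α)} (h : Lin A) : Flat A :=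
  ⟨⟨∅, h.zero⟩, fun _ hx _ hy _ hz => h.add _ (h.add _ hx _ hy) _ hz⟩

theorem Lin.pow {A : Finset (Finset α)} (h : Lin A) : ∃ m, A.card = 2 ^ m := by
  induction hn : A.card using Nat.strong_induction_on generalizing A with
  | _ N ih =>
    by_cases hex : ∃ x ∈ A, x ≠ ∅
    · obtain ⟨x, hx, hne⟩ := hex
      obtain ⟨i, hi⟩ := Finset.nonempty_iff_ne_empty.2 hne
      have h1 := h.flat.card_filter (aff_mem i).not ⟨∅, h.zero, by simp⟩
        ⟨x, hx, by simpa using hi⟩
      have hB : Lin (A.filter (fun x => ¬ i ∈ x)) := by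
        refine ⟨by rw [Finset.mem_filter]; exact ⟨h.zero, by simp⟩, ?_⟩
        intro y hy z hz
        rw [Finset.mem_filter] at *
        refine ⟨h.add _ hy.1 _ hz.1, ?_⟩
        rw [Finset.mem_symmDiff]
        tauto
      have hpos : 0 < A.card := Finset.card_pos.2 ⟨∅, h.zero⟩
      obtain ⟨m, hm⟩ := ih (A.filter (fun x => ¬ i ∈ x)).card (by omega) hB rfl
      refine ⟨m + 1, ?_⟩
      rw [← hn, ← h1, hm, pow_succ, mul_comm]
    · push Not at hex
      refine ⟨0, ?_⟩
      have : A = {∅} := by
        ext x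
        rw [Finset.mem_singleton]
        constructor
        · exact hex x
        · rintro rfl; exact h.zero
      rw [← hn, this]
      rfl

/-- the dimension of a linear family all whose nonempty members have size `2 ^ a * s`, `s` odd -/
theorem Lin.const_dim {A : Finset (Finset α)} (h : Lin A) {m a s : ℕ} (hm : A.card = 2 ^ m)
    (hs : Odd s) (hw : ∀ x ∈ A, x ≠ ∅ → x.card = 2 ^ a * s) : m ≤ a + 1 := by
  rcases m with _ | m
  · omega
  have h1 : ∑ x ∈ A, x.card = (2 ^ (m + 1) - 1) * (2 ^ a * s) := by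
    rw [← Finset.add_sum_erase A _ h.zero, Finset.card_empty, zero_add,
      Finset.sum_congr rfl (g := fun _ => 2 ^ a * s)]
    · rw [Finset.sum_const, Finset.card_erase_of_mem h.zero, hm, smul_eq_mul]
    · intro x hx
      rw [Finset.mem_erase] at hx
      exact hw x hx.2 hx.1
  have h2 : ∑ x ∈ A, x.card = (A.biUnion id).card * 2 ^ m := by
    have e1 : ∑ x ∈ A, x.card = ∑ x ∈ A, ∑ i ∈ A.biUnion id, (if i ∈ x then 1 else 0) := by
      apply Finset.sum_congr rfl
      intro x hx
      have hsub : x ⊆ A.biUnion id := Finset.subset_biUnion_of_mem id hx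
      rw [Finset.sum_ite_mem, Finset.sum_const, smul_eq_mul, mul_one,
        Finset.inter_eq_right.2 hsub]
    rw [e1, Finset.sum_comm, Finset.sum_congr rfl (g := fun _ => 2 ^ m)]
    · rw [Finset.sum_const, smul_eq_mul]
    · intro i hi
      rw [Finset.mem_biUnion] at hi
      obtain ⟨x, hx, hix⟩ := hi
      rw [← Finset.card_filter]
      exact h.flat.pow_half (aff_mem i) ⟨x, hx, hix⟩ ⟨∅, h.zero, by simp⟩ hm
  have h3 : 2 ^ m ∣ (2 ^ (m + 1) - 1) * (2 ^ a * s) := by
    rw [← h1, h2]; exact Dvd.intro_left _ rfl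
  have h4 : Nat.Coprime (2 ^ m) (2 ^ (m + 1) - 1) := by
    apply Nat.Coprime.pow_left
    rw [Nat.coprime_two_left]
    have : 1 ≤ 2 ^ (m + 1) := Nat.one_le_two_pow
    rw [Nat.odd_sub this]
    simp [pow_succ]
  have h5 := h4.dvd_of_dvd_mul_left h3
  have h6 : Nat.Coprime (2 ^ m) s := by
    apply Nat.Coprime.pow_left
    exact Nat.coprime_two_left.2 hs
  have h7 := h6.dvd_of_dvd_mul_right h5
  rw [Nat.pow_dvd_pow_iff_le_right (by norm_num)] at h7
  omega

/-- adding one direction to a linear family -/
theorem Lin.extend {M : Finset (Finset α)} (h : Lin M) (c : Finset α) :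
    Lin (M ∪ M.image (fun x => symmDiff x c)) := by
  have key : ∀ x, x ∈ M ∪ M.image (fun x => symmDiff x c) ↔ (x ∈ M ∨ symmDiff x c ∈ M) := by
    intro x
    rw [Finset.mem_union, Finset.mem_image]
    constructor
    · rintro (h | ⟨y, hy, rfl⟩)
      · exact Or.inl h
      · right; rw [symmDiff_inv]; exact hy
    · rintro (h | h)
      · exact Or.inl h
      · right; exact ⟨_, h, symmDiff_inv x c⟩
  refine ⟨(key _).2 (Or.inl h.zero), ?_⟩
  intro x hx y hy
  rw [key] at hx hy ⊢
  rcases hx with hx | hx <;> rcases hy with hy | hy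
  · exact Or.inl (h.add _ hx _ hy)
  · right
    have := h.add _ hx _ hy
    rwa [← symmDiff_assoc] at this
  · right
    have := h.add _ hx _ hy
    rw [symmDiff_right_comm] at this
    exact this
  · left
    have := h.add _ hx _ hy
    have e : symmDiff (symmDiff x c) (symmDiff y c) = symmDiff x y := by
      ext t; simp only [Finset.mem_symmDiff]
      by_cases h1 : t ∈ x <;> by_cases h2 : t ∈ y <;> by_cases h3 : t ∈ c <;> simp [h1, h2, h3]
    rwa [e] at this

/-- the upper bound -/
theorem Lin.upper {A : Finset (Finset α)} (h : Lin A) {k a s : ℕ} (hk : A.card = 2 ^ k)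
    (hs : Odd s) (hak : a + 1 ≤ k) :
    cnt A (2 ^ a * s) ≤ 2 ^ k - 2 ^ (k - a - 1) := by
  classical
  have hw0 : 2 ^ a * s ≠ 0 := by
    have : 0 < s := hs.pos
    positivity
  obtain ⟨M, hM, hmax⟩ := Finset.exists_max_image
    (A.powerset.filter (fun M => Lin M ∧ ∀ x ∈ M, x ≠ ∅ → x.card = 2 ^ a * s))
    (fun M => M.card) ⟨{∅}, by
      rw [Finset.mem_filter, Finset.mem_powerset]
      refine ⟨by simpa using h.zero, ⟨by simp, ?_⟩, ?_⟩
      · intro x hx y hy
        rw [Finset.mem_singleton] at *
        rw [hx, hy]; simp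
      · intro x hx hne
        rw [Finset.mem_singleton] at hx
        exact absurd hx hne⟩
  rw [Finset.mem_filter, Finset.mem_powerset] at hM
  obtain ⟨hMA, hML, hMw⟩ := hM
  obtain ⟨m, hm⟩ := hML.pow
  have hma := hML.const_dim hm hs hMw
  -- every coset contains a member of another size
  have hcos : ∀ x ∈ A, ∃ y ∈ M, (symmDiff x y).card ≠ 2 ^ a * s := by
    intro x hx
    by_cases hxM : x ∈ M
    · exact ⟨x, hxM, by rw [symmDiff_self]; simpa using hw0.symm⟩
    · by_contra hcon
      push Not at hcon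
      have h1 := hmax (M ∪ M.image (fun y => symmDiff y x)) (by
        rw [Finset.mem_filter, Finset.mem_powerset]
        refine ⟨?_, hML.extend x, ?_⟩
        · apply Finset.union_subset hMA
          intro y hy
          rw [Finset.mem_image] at hy
          obtain ⟨z, hz, rfl⟩ := hy
          exact h.add _ (hMA hz) _ hx
        · intro y hy hne
          rw [Finset.mem_union, Finset.mem_image] at hy
          rcases hy with hy | ⟨z, hz, rfl⟩
          · exact hMw y hy hne
          · rw [symmDiff_comm]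
            exact hcon z hz)
      have h2 : M.card < (M ∪ M.image (fun y => symmDiff y x)).card := by
        apply Finset.card_lt_card
        rw [Finset.ssubset_iff_of_subset Finset.subset_union_left]
        refine ⟨x, ?_, hxM⟩
        rw [Finset.mem_union, Finset.mem_image]
        right
        exact ⟨∅, hML.zero, by
          ext t; simp [Finset.mem_symmDiff]⟩
      omega
  -- counting
  set T := A.filter (fun x => ¬ x.card = 2 ^ a * s) with hT
  have h3 : A.card ≤ (T ×ˢ M).card := by
    apply le_trans (Finset.card_le_card (t := (T ×ˢ M).image (fun p => symmDiff p.1 p.2)) ?_)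
      Finset.card_image_le
    intro x hx
    obtain ⟨y, hy, hxy⟩ := hcos x hx
    rw [Finset.mem_image]
    refine ⟨(symmDiff x y, y), ?_, symmDiff_inv x y⟩
    rw [Finset.mem_product, hT, Finset.mem_filter]
    exact ⟨⟨h.add _ hx _ (hMA hy), hxy⟩, hy⟩
  rw [Finset.card_product, hk, hm] at h3
  have h4 : cnt A (2 ^ a * s) + T.card = 2 ^ k := by
    rw [← hk, hT]
    exact card_filter_add _
  have h5 : 2 ^ k ≤ T.card * 2 ^ (a + 1) :=
    h3.trans (Nat.mul_le_mul_left _ (Nat.pow_le_pow_right (by norm_num) hma))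
  have h6 : 2 ^ k = 2 ^ (k - a - 1) * 2 ^ (a + 1) := by
    rw [← pow_add]; congr 1; omega
  have h7 : 2 ^ (k - a - 1) ≤ T.card := by
    rw [h6] at h5
    exact Nat.le_of_mul_le_mul_right h5 (by positivity)
  omega

end Pool.Agent.H59.MW
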