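import Mathlib

/-!
Characters of `Fin d → ZMod 2`: definitions and orthogonality.
-/

namespace Pool.Agent.H59.MW

open Finset

variable {d : ℕ}

/-- the character with index `b` -/
def ch (b t : Fin d → ZMod 2) : ℝ := if b ⬝ᵥ t = 1 then -1 else 1

/-- sign of an element of `ZMod 2` -/
def sg (x : ZMod 2) : ℝ := if x = 1 then -1 else 1

theorem zmod2_cases (x : ZMod 2) : x = 0 ∨ x = 1 := by
  revert x; decide

theorem sg_add (x y : ZMod 2) : sg (x + y) = sg x * sg y := by
  rcases zmod2_cases x with rfl | rfl <;> rcases zmod2_cases y with rfl | rfl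
  · simp [sg]
  · simp [sg]
  · simp [sg]
  · have : (1 : ZMod 2) + 1 = 0 := by decide
    rw [this]; simp [sg]

theorem ch_eq (b t : Fin d → ZMod 2) : ch b t = sg (b ⬝ᵥ t) := rfl

theorem ch_comm (b t : Fin d → ZMod 2) : ch b t = ch t b := by
  rw [ch_eq, ch_eq, dotProduct_comm]

theorem ch_add (b t t' : Fin d → ZMod 2) : ch b (t + t') = ch b t * ch b t' := by
  rw [ch_eq, ch_eq, ch_eq, dotProduct_add, sg_add]

theorem ch_zero (t : Fin d → ZMod 2) : ch 0 t = 1 := by
  simp [ch]

theorem ch_sq (b t : Fin d → ZMod 2) : ch b t * ch b t = 1 := by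
  unfold ch; split_ifs <;> norm_num

theorem add_self_vec (t : Fin d → ZMod 2) : t + t = 0 := by
  ext i
  have : ∀ x : ZMod 2, x + x = 0 := by decide
  exact this _

/-- orthogonality -/
theorem sum_ch {b : Fin d → ZMod 2} (hb : b ≠ 0) : ∑ t, ch b t = 0 := by
  obtain ⟨i, hi⟩ : ∃ i, b i ≠ 0 := by
    by_contra hcon
    push Not at hcon
    exact hb (funext hcon)
  have hi1 : b i = 1 := by
    rcases zmod2_cases (b i) with h | h
    · exact absurd h hi
    · exact h
  have h2 : ch b (Pi.single i 1) = -1 := by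
    rw [ch_eq, dotProduct_single, mul_one, hi1]
    simp [sg]
  have h3 : ∀ t, ch b (t + Pi.single i 1) = -ch b t := by
    intro t
    rw [ch_add, h2]; ring
  have h1 : ∑ t, ch b (t + Pi.single i 1) = ∑ t, ch b t :=
    Fintype.sum_equiv (Equiv.addRight (Pi.single i (1 : ZMod 2))) _ _
      (fun t => by rw [Equiv.coe_addRight])
  rw [Finset.sum_congr rfl (fun t _ => h3 t), Finset.sum_neg_distrib] at h1
  generalize (∑ t, ch b t) = x at h1
  linarith

theorem sum_ch_ite (b : Fin d → ZMod 2) : ∑ t, ch b t = if b = 0 then 2 ^ d else 0 := by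
  split_ifs with h
  · rw [h]
    simp only [ch_zero, Finset.sum_const, Finset.card_univ, nsmul_eq_mul, mul_one]
    simp
  · exact sum_ch h

theorem sum_ch_ite' (t : Fin d → ZMod 2) : ∑ b, ch b t = if t = 0 then 2 ^ d else 0 := by
  rw [← sum_ch_ite t]
  exact Finset.sum_congr rfl (fun b _ => ch_comm b t)

/-- inversion -/
theorem ch_inv (f : (Fin d → ZMod 2) → ℝ) (x : Fin d → ZMod 2) :
    ∑ b, (∑ t, f t * ch b t) * ch b x = 2 ^ d * f x := by
  have h1 : ∀ b, (∑ t, f t * ch b t) * ch b x = ∑ t, f t * ch b (t + x) := by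
    intro b
    rw [Finset.sum_mul]
    apply Finset.sum_congr rfl
    intro t _
    rw [ch_add]; ring
  rw [Finset.sum_congr rfl (fun b _ => h1 b), Finset.sum_comm]
  have h2 : ∀ t, ∑ b, f t * ch b (t + x) = if t = x then 2 ^ d * f x else 0 := by
    intro t
    rw [← Finset.mul_sum, sum_ch_ite']
    by_cases h : t = x
    · rw [if_pos h, h, if_pos (add_self_vec x)]; ring
    · rw [if_neg h, if_neg, mul_zero]
      intro h0
      apply h
      have : t + x + x = x := by rw [h0, zero_add]
      rw [add_assoc, add_self_vec, add_zero] at this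
      exact this
  rw [Finset.sum_congr rfl (fun t _ => h2 t), Finset.sum_ite_eq' Finset.univ x]
  simp

/-- Parseval -/
theorem ch_pars (f g : (Fin d → ZMod 2) → ℝ) :
    ∑ b, (∑ t, f t * ch b t) * (∑ t, g t * ch b t) = 2 ^ d * ∑ t, f t * g t := by
  have h1 : ∀ b, (∑ t, f t * ch b t) * (∑ t, g t * ch b t) =
      ∑ x, g x * ((∑ t, f t * ch b t) * ch b x) := by
    intro b
    rw [Finset.mul_sum]
    apply Finset.sum_congr rfl
    intro t _
    ring
  rw [Finset.sum_congr rfl (fun b _ => h1 b), Finset.sum_comm]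
  have h2 : ∀ x, ∑ b, g x * ((∑ t, f t * ch b t) * ch b x) = 2 ^ d * (f x * g x) := by
    intro x
    rw [← Finset.mul_sum, ch_inv]; ring
  rw [Finset.sum_congr rfl (fun x _ => h2 x), ← Finset.mul_sum]

end Pool.Agent.H59.MW
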