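import Pool.Agent.H59.MW.FBase

/-!
# MW-FOURIER: autocorrelation of a uniform set

(`FBase.lean`: `ch_inv`, `ch_pars`, `ch_add`, `sum_ch_ite`, `sum_ch_ite'`.) `S b = ∑_{t ∈ E} ch b t`.
* `sum_FF`: `∑_h #{t ∈ E : t + h ∈ E} = |E|²` (exchange the sums; `h ↦ t + h` is a bijection).
* `sum_FF_sq`: `(S b)² = ∑_h r(h) ch b h` with `r(h) = #{t ∈ E : t + h ∈ E}` (`ch_add`), so by `ch_pars`
  `∑_b (S b)^4 = 2^d ∑_h r(h)²`; `∑_b (S b)² = 2^d |E|` (`ch_pars` with `f = g` = indicator of `E`), `S 0 = |E|`.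
  `FF E h = r(h) 2^d/|E|²`. Hence `∑_h (FF - 1)² = ∑ FF² - 2 ∑ FF + 2^d = ∑ FF² - 2^d
  = 2^d ∑_b (S b)^4/|E|^4 - 2^d = 2^d ∑_{b ≠ 0} (S b/|E|)^4 ≤ 2^d c² ∑_{b≠0} (S b/|E|)² = 2^d c² (2^d/|E| - 1)`.
-/

namespace Pool.Agent.H59.MW

open Finset

variable {d : ℕ}

/-- normalised autocorrelation of `E` -/
noncomputable def FF (E : Finset (Fin d → ZMod 2)) (h : Fin d → ZMod 2) : ℝ :=
  ((E.filter (fun t => t + h ∈ E)).card : ℝ) * 2 ^ d / (E.card : ℝ) ^ 2

/-- number of pairs with difference `h` -/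
private noncomputable def rr (E : Finset (Fin d → ZMod 2)) (h : Fin d → ZMod 2) : ℝ :=
  ((E.filter (fun t => t + h ∈ E)).card : ℝ)

private theorem rr_eq (E : Finset (Fin d → ZMod 2)) (h : Fin d → ZMod 2) :
    rr E h = ∑ t ∈ E, if t + h ∈ E then (1 : ℝ) else 0 := by
  unfold rr
  rw [Finset.card_filter]
  push_cast
  rfl

private theorem rr_sum (E : Finset (Fin d → ZMod 2)) (g : (Fin d → ZMod 2) → ℝ) :
    ∑ h, rr E h * g h = ∑ t ∈ E, ∑ s ∈ E, g (t + s) := by
  have h1 : ∀ h, rr E h * g h = ∑ t ∈ E, if t + h ∈ E then g h else 0 := by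
    intro h
    rw [rr_eq, Finset.sum_mul]
    refine Finset.sum_congr rfl fun t _ => ?_
    split_ifs <;> simp
  rw [Finset.sum_congr rfl (fun h _ => h1 h), Finset.sum_comm]
  refine Finset.sum_congr rfl fun t _ => ?_
  have h2 : ∑ h, (if t + h ∈ E then g h else 0) = ∑ s, (if s ∈ E then g (t + s) else 0) := by
    refine Fintype.sum_equiv (Equiv.addLeft t) _ _ (fun h => ?_)
    rw [Equiv.coe_addLeft]
    have : t + (t + h) = h := by rw [← add_assoc, add_self_vec, zero_add]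
    rw [this]
  rw [h2, Finset.sum_ite_mem, Finset.univ_inter]

private theorem card_vec : ((Finset.univ : Finset (Fin d → ZMod 2)).card : ℝ) = 2 ^ d := by
  rw [Finset.card_univ]
  simp

private theorem FF_rr (E : Finset (Fin d → ZMod 2)) (h : Fin d → ZMod 2) :
    FF E h = rr E h * (2 ^ d / (E.card : ℝ) ^ 2) := by
  unfold FF rr
  ring

private theorem sum_rr (E : Finset (Fin d → ZMod 2)) : ∑ h, rr E h = (E.card : ℝ) ^ 2 := by
  have h1 := rr_sum E (fun _ => 1)
  simp only [mul_one, Finset.sum_const, nsmul_eq_mul] at h1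
  rw [h1]; ring

private theorem sq_S (E : Finset (Fin d → ZMod 2)) (b : Fin d → ZMod 2) :
    ∑ h, rr E h * ch b h = (∑ t ∈ E, ch b t) * (∑ t ∈ E, ch b t) := by
  rw [rr_sum, Finset.sum_mul_sum]
  refine Finset.sum_congr rfl fun t _ => Finset.sum_congr rfl fun s _ => ?_
  rw [ch_add]

private theorem S_ind (E : Finset (Fin d → ZMod 2)) (b : Fin d → ZMod 2) :
    ∑ t, (if t ∈ E then (1 : ℝ) else 0) * ch b t = ∑ t ∈ E, ch b t := by
  have : ∀ t, (if t ∈ E then (1 : ℝ) else 0) * ch b t = if t ∈ E then ch b t else 0 := by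
    intro t
    split_ifs <;> simp
  rw [Finset.sum_congr rfl (fun t _ => this t), Finset.sum_ite_mem, Finset.univ_inter]

private theorem sum_S2 (E : Finset (Fin d → ZMod 2)) :
    ∑ b, (∑ t ∈ E, ch b t) * (∑ t ∈ E, ch b t) = 2 ^ d * E.card := by
  have h1 := ch_pars (fun t => if t ∈ E then (1 : ℝ) else 0) (fun t => if t ∈ E then (1 : ℝ) else 0)
  rw [Finset.sum_congr rfl (fun b _ => by rw [S_ind])] at h1
  rw [h1]
  congr 1
  have : ∀ t, (if t ∈ E then (1 : ℝ) else 0) * (if t ∈ E then (1 : ℝ) else 0) =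
      if t ∈ E then 1 else 0 := by
    intro t
    split_ifs <;> simp
  rw [Finset.sum_congr rfl (fun t _ => this t), Finset.sum_ite_mem, Finset.univ_inter,
    Finset.sum_const, nsmul_eq_mul, mul_one]

private theorem sum_S4 (E : Finset (Fin d → ZMod 2)) :
    ∑ b, ((∑ t ∈ E, ch b t) * (∑ t ∈ E, ch b t)) * ((∑ t ∈ E, ch b t) * (∑ t ∈ E, ch b t)) =
      2 ^ d * ∑ h, rr E h * rr E h := by
  have h1 := ch_pars (rr E) (rr E)
  rw [Finset.sum_congr rfl (fun b _ => by rw [sq_S])] at h1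
  exact h1

theorem sum_FF {E : Finset (Fin d → ZMod 2)} (hE : E.Nonempty) : ∑ h, FF E h = 2 ^ d := by
  have he : (E.card : ℝ) ≠ 0 := by
    have := Finset.card_pos.2 hE
    positivity
  rw [Finset.sum_congr rfl (fun h _ => FF_rr E h), ← Finset.sum_mul, sum_rr]
  field_simp

theorem sum_FF_sq {E : Finset (Fin d → ZMod 2)} (hE : E.Nonempty) {c : ℝ} (hc0 : 0 ≤ c)
    (hc : ∀ b : Fin d → ZMod 2, b ≠ 0 → |∑ t ∈ E, ch b t| ≤ c * E.card) :
    ∑ h, (FF E h - 1) ^ 2 ≤ 2 ^ d * ((2 ^ d / E.card - 1) * c ^ 2) := by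
  have hcp : (0 : ℝ) < E.card := by
    have := Finset.card_pos.2 hE
    positivity
  set e : ℝ := (E.card : ℝ) with he
  set N : ℝ := 2 ^ d with hN
  have hNp : 0 < N := by rw [hN]; positivity
  set S : (Fin d → ZMod 2) → ℝ := fun b => ∑ t ∈ E, ch b t with hS
  have h2 : ∑ b, S b * S b = N * e := sum_S2 E
  have h4 : ∑ b, (S b * S b) * (S b * S b) = N * ∑ h, rr E h * rr E h := sum_S4 E
  have hS0 : S 0 = e := by
    simp only [hS, ch_zero, Finset.sum_const, nsmul_eq_mul, mul_one, he]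
  -- expand the left side
  have hL : ∑ h, (FF E h - 1) ^ 2 = (N / e ^ 4) * (∑ b, (S b * S b) * (S b * S b)) - N := by
    have h5 : ∀ h, (FF E h - 1) ^ 2 =
        (N ^ 2 / e ^ 4) * (rr E h * rr E h) - 2 * (N / e ^ 2) * rr E h + 1 := by
      intro h
      rw [FF_rr]
      field_simp
      ring
    rw [Finset.sum_congr rfl (fun h _ => h5 h), Finset.sum_add_distrib, Finset.sum_sub_distrib,
      ← Finset.mul_sum, ← Finset.mul_sum, sum_rr, Finset.sum_const, nsmul_eq_mul, card_vec, h4]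
    field_simp
    ring
  rw [hL]
  rw [← Finset.add_sum_erase Finset.univ (fun b => (S b * S b) * (S b * S b)) (Finset.mem_univ 0),
    hS0]
  have h6 : ∑ b ∈ Finset.univ.erase 0, (S b * S b) * (S b * S b) ≤
      (c * e) ^ 2 * ∑ b ∈ Finset.univ.erase 0, S b * S b := by
    rw [Finset.mul_sum]
    refine Finset.sum_le_sum fun b hb => ?_
    have hb0 : b ≠ 0 := Finset.ne_of_mem_erase hb
    have h7 := hc b hb0
    have h8 : S b * S b ≤ (c * e) ^ 2 := by
      rw [← abs_mul_abs_self (S b)]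
      have h9 : |S b| ≤ c * e := h7
      nlinarith [abs_nonneg (S b)]
    exact mul_le_mul_of_nonneg_right h8 (mul_self_nonneg _)
  have h7 : ∑ b ∈ Finset.univ.erase 0, S b * S b = N * e - e * e := by
    have := Finset.add_sum_erase Finset.univ (fun b => S b * S b) (Finset.mem_univ 0)
    rw [h2, hS0] at this
    linarith
  rw [h7] at h6
  have h8 : (N / e ^ 4) * (e * e * (e * e) + ∑ b ∈ Finset.univ.erase 0, (S b * S b) * (S b * S b)) - N
      ≤ (N / e ^ 4) * (e * e * (e * e) + (c * e) ^ 2 * (N * e - e * e)) - N := by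
    have : 0 ≤ N / e ^ 4 := by positivity
    nlinarith [mul_le_mul_of_nonneg_left h6 this]
  refine h8.trans (le_of_eq ?_)
  field_simp
  ring

end Pool.Agent.H59.MW
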