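import Pool.Agent.H59.MW.GlobA

/-!
# MW-GLOBB: uniformity for characters

`Sys.sum_char` gives `T, c0` with `|pt t ∩ T| = b ⬝ᵥ t + c0` in `ZMod 2`. The predicate `p x = Odd (x ∩ T).card` is affine
(`CW.aff_odd` for `x ∩ T`; `tri x y z ∩ T = tri (x ∩ T) (y ∩ T) (z ∩ T)`). It is not constant on `A`: `b ≠ 0`, so
`b ⬝ᵥ t` takes both values. `Odd m ↔ (m : ZMod 2) = 1`. So
`∑_{x ∈ EE A w} (if p x then -1 else 1) = ± ∑_{t ∈ Et} ch b t` (sign `+` if `c0 = 0`, `-` if `c0 = 1`; the sum over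
`EE A w` is the sum over `Et` via `pt`). Then `MC.unif`.
-/

namespace Pool.Agent.H59.MW

open Finset Pool.Agent.H59.CW

set_option linter.unusedSectionVars false

variable {α : Type*} [DecidableEq α] {U : Finset α} {A : Finset (Finset α)} {d w e s : ℕ}
  {a : α → Fin d → ZMod 2} {c : α → ZMod 2}

theorem unif_aff (T : Finset α) : Aff (fun x : Finset α => Odd (x ∩ T).card) := by
  intro x y z
  have h1 : tri x y z ∩ T = tri (x ∩ T) (y ∩ T) (z ∩ T) := by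
    ext i
    simp only [mem_tri, Finset.mem_inter]
    by_cases h : i ∈ T <;> simp [h]
  have h2 := aff_odd (x ∩ T) (y ∩ T) (z ∩ T)
  rw [← h1] at h2
  exact h2

theorem unif_odd (m : ℕ) : Odd m ↔ (m : ZMod 2) = 1 := by
  rw [← ZMod.natCast_eq_one_iff_odd]

theorem unif_val {b : Fin d → ZMod 2} (hb : b ≠ 0) (v : ZMod 2) :
    ∃ t : Fin d → ZMod 2, b ⬝ᵥ t = v := by
  obtain ⟨i, hi⟩ : ∃ i, b i ≠ 0 := by
    by_contra hcon
    push Not at hcon
    exact hb (funext hcon)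
  have hi1 : b i = 1 := by
    rcases zmod2_cases (b i) with h | h
    · exact absurd h hi
    · exact h
  refine ⟨Pi.single i v, ?_⟩
  rw [dotProduct_single, hi1, one_mul]

theorem unif_sum (hS : Sys U A d a c) (f : Finset α → ℝ) :
    ∑ x ∈ EE A w, f x = ∑ t ∈ Et U a c w, f (pt U a c t) := by
  symm
  apply Finset.sum_nbij (pt U a c)
  · intro t ht
    rw [Et, Finset.mem_filter] at ht
    rw [mem_EE]
    exact ⟨(hS.im _).2 ⟨t, rfl⟩, ht.2⟩
  · intro t _ t' _ h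
    exact hS.inj h
  · intro x hx
    have hx' := mem_EE.1 (Finset.mem_coe.1 hx)
    obtain ⟨t, rfl⟩ := (hS.im x).1 hx'.1
    refine ⟨t, ?_, rfl⟩
    rw [Finset.mem_coe, Et, Finset.mem_filter]
    exact ⟨Finset.mem_univ _, hx'.2⟩
  · intro t _
    rfl

theorem MC.unif_ch (h : MC U A d w e s) (hS : Sys U A d a c) (b : Fin d → ZMod 2) (hb : b ≠ 0) :
    |∑ t ∈ Et U a c w, ch b t| * (2 * e - 1) < cnt A w := by
  obtain ⟨T, hT, c0, hT1, hT2⟩ := hS.sum_char b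
  have key : ∀ t, Odd ((pt U a c t) ∩ T).card ↔ b ⬝ᵥ t + c0 = 1 := by
    intro t
    rw [unif_odd, hT1 t]
  have h1 : ∃ x ∈ A, Odd (x ∩ T).card := by
    obtain ⟨t, ht⟩ := unif_val hb (1 - c0)
    refine ⟨pt U a c t, (hS.im _).2 ⟨t, rfl⟩, ?_⟩
    rw [key, ht]; ring
  have h2 : ∃ x ∈ A, ¬ Odd (x ∩ T).card := by
    obtain ⟨t, ht⟩ := unif_val hb (0 - c0)
    refine ⟨pt U a c t, (hS.im _).2 ⟨t, rfl⟩, ?_⟩
    rw [key, ht]
    have : (0 : ZMod 2) - c0 + c0 = 0 := by ring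
    rw [this]
    decide
  have h3 := h.unif (unif_aff T) h1 h2
  rw [unif_sum hS] at h3
  have h4 : ∀ t ∈ Et U a c w, (if Odd ((pt U a c t) ∩ T).card then (-1 : ℝ) else 1) =
      ch b t * sg c0 := by
    intro t _
    rw [ch_eq, ← sg_add]
    unfold sg
    simp only [key]
  rw [Finset.sum_congr rfl h4, ← Finset.sum_mul, abs_mul] at h3
  have h5 : |sg c0| = 1 := by
    unfold sg
    split_ifs <;> norm_num
  rw [h5, mul_one] at h3
  exact h3

end Pool.Agent.H59.MW
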