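import Pool.Agent.H59.MW.Rk

/-!
# MW-RK2: bounds for the traces, from `TT`

* `bound1`: `A_Y = A.image (· ∩ Y)` is a flat of subsets of `Y` with `2^(rk a Y)` members (`Sys.card_trace`). By
  `Sys.card_fibre`, `#{x ∈ A : |x ∩ Y| = j} * 2^rk = 2^d * cnt A_Y j` (sum over the fibres), then
  `TT α Y.card (rk a Y)`.
* `bound2`: the members `y` of `A_Y` with `|y| = j mod 2` form a proper half of `A_Y` (both parities occur by `hne`;
  `CW.aff_odd`, `Flat.pow_half`), a flat with `2^(rk-1)` members (so `rk ≥ 1`); all members of size `j` are in it: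
  `cnt A_Y j ≤ 2^(rk-1) bt (1 + (rk - 1) - j)`.
-/

namespace Pool.Agent.H59.MW

open Finset Pool.Agent.H59.CW

set_option linter.unusedSectionVars false

variable {α : Type*} [DecidableEq α] {U : Finset α} {A : Finset (Finset α)} {d w e s : ℕ}
  {a : α → Fin d → ZMod 2} {c : α → ZMod 2}

theorem rk2_tri_inter (x y z Y : Finset α) : tri x y z ∩ Y = tri (x ∩ Y) (y ∩ Y) (z ∩ Y) := by
  ext i
  simp only [mem_tri, Finset.mem_inter]
  tauto

theorem rk2_flat (hA : Flat A) (Y : Finset α) : Flat (A.image (fun x => x ∩ Y)) := by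
  refine ⟨hA.1.image _, ?_⟩
  intro x hx y hy z hz
  simp only [Finset.mem_image] at *
  obtain ⟨x', hx', rfl⟩ := hx
  obtain ⟨y', hy', rfl⟩ := hy
  obtain ⟨z', hz', rfl⟩ := hz
  exact ⟨tri x' y' z', hA.2 _ hx' _ hy' _ hz', rk2_tri_inter _ _ _ _⟩

theorem rk2_count (hS : Sys U A d a c) (hA : Flat A) {Y : Finset α} (hY : Y ⊆ U) (j : ℕ) :
    (A.filter (fun x => (x ∩ Y).card = j)).card * 2 ^ rk a Y =
      cnt (A.image (fun x => x ∩ Y)) j * 2 ^ d := by
  unfold cnt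
  rw [Finset.card_eq_sum_card_fiberwise (f := fun x => x ∩ Y)
    (t := (A.image (fun x => x ∩ Y)).filter (fun x => x.card = j)), Finset.sum_mul,
    Finset.sum_congr rfl (g := fun _ => 2 ^ d), Finset.sum_const, smul_eq_mul]
  · intro y hy
    obtain ⟨hy1, hy2⟩ := Finset.mem_filter.1 hy
    rw [← hS.card_fibre hA hY hy1]
    congr 2
    ext x
    simp only [Finset.mem_filter]
    constructor
    · rintro ⟨⟨h1, h2⟩, h3⟩
      exact ⟨h1, h3⟩
    · rintro ⟨h1, h3⟩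
      exact ⟨⟨h1, by rw [h3, hy2]⟩, h3⟩
  · intro x hx
    obtain ⟨hx1, hx2⟩ := Finset.mem_filter.1 (Finset.mem_coe.1 hx)
    exact Finset.mem_coe.2 (Finset.mem_filter.2 ⟨Finset.mem_image_of_mem _ hx1, hx2⟩)

theorem rk2_sub (Y : Finset α) : ∀ x ∈ A.image (fun x => x ∩ Y), x ⊆ Y := by
  intro x hx
  obtain ⟨y, _, rfl⟩ := Finset.mem_image.1 hx
  exact Finset.inter_subset_right

theorem Sys.bound1 (hS : Sys U A d a c) (hA : Flat A) {Y : Finset α} (hY : Y ⊆ U)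
    (hT : TT α Y.card (rk a Y)) (j : ℕ) :
    ((A.filter (fun x => (x ∩ Y).card = j)).card : ℝ) ≤ 2 ^ d * bt (1 + rk a Y - j) := by
  have h1 := rk2_count hS hA hY j
  have h2 := hT Y _ rfl (rk2_sub Y) (rk2_flat hA Y) (hS.card_trace hY) j
  have h3 : ((A.filter (fun x => (x ∩ Y).card = j)).card : ℝ) * 2 ^ rk a Y =
      cnt (A.image (fun x => x ∩ Y)) j * 2 ^ d := by exact_mod_cast h1
  have h4 : (0 : ℝ) < 2 ^ rk a Y := by positivity
  refine le_of_mul_le_mul_right ?_ h4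
  rw [h3]
  calc (cnt (A.image (fun x => x ∩ Y)) j : ℝ) * 2 ^ d ≤ (2 ^ rk a Y * bt (1 + rk a Y - j)) * 2 ^ d :=
        mul_le_mul_of_nonneg_right h2 (by positivity)
    _ = _ := by ring

theorem Sys.bound2 (hS : Sys U A d a c) (hA : Flat A) {Y : Finset α} (hY : Y ⊆ U)
    (hT : TT α Y.card (rk a Y - 1))
    (hne : ∃ x ∈ A, ∃ y ∈ A, ¬ (Odd (x ∩ Y).card ↔ Odd (y ∩ Y).card)) (j : ℕ) :
    ((A.filter (fun x => (x ∩ Y).card = j)).card : ℝ) ≤ 2 ^ d / 2 * bt (rk a Y - j) := by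
  have h1 := rk2_count hS hA hY j
  have hfl := rk2_flat hA Y
  have hcd := hS.card_trace hY
  obtain ⟨x, hx, y, hy, hxy⟩ := hne
  have hxm : x ∩ Y ∈ A.image (fun x => x ∩ Y) := Finset.mem_image_of_mem _ hx
  have hym : y ∩ Y ∈ A.image (fun x => x ∩ Y) := Finset.mem_image_of_mem _ hy
  -- the parity class of `j`
  have haff : Aff (fun z : Finset α => (Odd z.card ↔ Odd j)) := by
    intro u v w
    have h0 : Odd (tri u v w).card ↔ (Odd u.card ↔ (Odd v.card ↔ Odd w.card)) := aff_odd u v w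
    by_cases hj : Odd j
    · simp only [hj, iff_true]
      exact h0
    · simp only [hj, iff_false]
      rw [h0]
      by_cases h4 : Odd u.card <;> by_cases h5 : Odd v.card <;> by_cases h6 : Odd w.card <;>
        simp [h4, h5, h6]
  have e1 : ∃ z ∈ A.image (fun x => x ∩ Y), (Odd z.card ↔ Odd j) := by
    by_cases hx1 : Odd (x ∩ Y).card ↔ Odd j
    · exact ⟨_, hxm, hx1⟩
    · exact ⟨_, hym, by tauto⟩
  have e2 : ∃ z ∈ A.image (fun x => x ∩ Y), ¬ (Odd z.card ↔ Odd j) := by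
    by_cases hx1 : Odd (x ∩ Y).card ↔ Odd j
    · exact ⟨_, hym, by tauto⟩
    · exact ⟨_, hxm, hx1⟩
  have hrk : 1 ≤ rk a Y := by
    by_contra hcon
    have h0 : rk a Y = 0 := by omega
    rw [h0, pow_zero] at hcd
    have := Finset.card_le_one.1 hcd.le _ hxm _ hym
    rw [this] at hxy
    exact hxy Iff.rfl
  obtain ⟨r, hr⟩ : ∃ r, rk a Y = r + 1 := ⟨rk a Y - 1, by omega⟩
  rw [hr] at hcd hT h1 ⊢
  rw [Nat.add_sub_cancel] at hT
  have hhalf := hfl.pow_half haff e1 e2 hcd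
  have h2 := hT Y ((A.image (fun x => x ∩ Y)).filter (fun z => (Odd z.card ↔ Odd j))) rfl
    (fun z hz => rk2_sub Y z (Finset.mem_filter.1 hz).1) (hfl.filter haff e1) hhalf j
  have h3 : cnt ((A.image (fun x => x ∩ Y)).filter (fun z => (Odd z.card ↔ Odd j))) j =
      cnt (A.image (fun x => x ∩ Y)) j := by
    unfold cnt
    congr 1
    ext z
    simp only [Finset.mem_filter]
    constructor
    · rintro ⟨⟨h4, -⟩, h5⟩
      exact ⟨h4, h5⟩
    · rintro ⟨h4, h5⟩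
      exact ⟨⟨h4, by rw [h5]⟩, h5⟩
  rw [h3] at h2
  have h4 : ((A.filter (fun x => (x ∩ Y).card = j)).card : ℝ) * 2 ^ (r + 1) =
      cnt (A.image (fun x => x ∩ Y)) j * 2 ^ d := by exact_mod_cast h1
  have h5 : (0 : ℝ) < 2 ^ (r + 1) := by positivity
  have h6 : (1 + (r : ℤ) - (j : ℤ)) = ((r + 1 : ℕ) : ℤ) - j := by
    push_cast
    ring
  rw [h6] at h2
  refine le_of_mul_le_mul_right ?_ h5
  rw [h4]
  calc (cnt (A.image (fun x => x ∩ Y)) j : ℝ) * 2 ^ d ≤ (2 ^ r * bt (((r + 1 : ℕ) : ℤ) - j)) * 2 ^ d :=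
        mul_le_mul_of_nonneg_right h2 (by positivity)
    _ = _ := by rw [pow_succ]; ring

end Pool.Agent.H59.MW
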