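import Pool.Agent.H59.MW.GlobA
import Pool.Agent.H59.MW.Cor
import Pool.Agent.H59.MW.Rk2

/-!
# MW-GLOBC: the bound off the radical

`t, t+v ∈ Et` iff `|pt t| = w` and `2 |pt t ∩ Ih v| = |Ih v|` (`pt_add`, `card_symm`). Some `v'` has `|Ih v ∩ Ih v'|` odd.
So `#{t : t, t+v ∈ Et} ≤ #{x ∈ A : |x ∩ Ih v| = |Ih v|/2}` (via `pt`), and
`≤ #{x ∈ A : |x ∩ (U \ Ih v)| = w - |Ih v|/2}` (if `w < |Ih v|/2` there is no such `t` and the bound is trivial since
`bt > 0`). Both `|x ∩ Ih v|` and `|x ∩ (U \ Ih v)|` have nonconstant parity on `A`: compare `pt t` and `pt (t+v')` for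
any `t`: `|(P △ Y) ∩ X| = |P ∩ X| + |Y ∩ X|` mod 2, and `|x|` has constant parity (`MC.par`). Apply `Sys.bound2`.
`TT` for `|Ih v|` coordinates and dimension `rk - 1`: if `|Ih v| = |U|` use `h.ih2` (`rk ≤ d` by `rk_le`, `1 ≤ d`), else
`h.ih1`; for `U \ Ih v`: `Ih v ≠ ∅` (otherwise `Bf v v' = 0`), so fewer coordinates: `h.ih1`. `|Ih v|` is even
(`MC.even_Ih`), so the integer division by 2 is exact.
-/

namespace Pool.Agent.H59.MW

open Finset Pool.Agent.H59.CW

set_option linter.unusedSectionVars false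

variable {α : Type*} [DecidableEq α] {U : Finset α} {A : Finset (Finset α)} {d w e s : ℕ}
  {a : α → Fin d → ZMod 2} {c : α → ZMod 2}

theorem gc_inter (P Q X : Finset α) :
    ∃ k : ℕ, ((symmDiff P Q) ∩ X).card + 2 * k = (P ∩ X).card + (Q ∩ X).card := by
  have h1 : (symmDiff P Q) ∩ X = symmDiff (P ∩ X) (Q ∩ X) := by
    ext i
    simp only [Finset.mem_inter, Finset.mem_symmDiff]
    tauto
  have h2 := card_symm (P ∩ X) (Q ∩ X)
  rw [← h1] at h2
  exact ⟨((P ∩ X) ∩ (Q ∩ X)).card, by omega⟩

theorem gc_sdiff {x : Finset α} (hx : x ⊆ U) (Y : Finset α) :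
    (x ∩ (U \ Y)).card + (x ∩ Y).card = x.card := by
  have h1 : x ∩ (U \ Y) = x \ Y := by
    ext i
    simp only [Finset.mem_inter, Finset.mem_sdiff]
    constructor
    · rintro ⟨h, _, h3⟩
      exact ⟨h, h3⟩
    · rintro ⟨h, h3⟩
      exact ⟨h, hx h, h3⟩
  rw [h1]
  exact Finset.card_sdiff_add_card_inter x Y

theorem MC.N_bound (h : MC U A d w e s) (hS : Sys U A d a c) (v : Fin d → ZMod 2)
    (hv : ∃ v', Bf U a v v' ≠ 0) :
    ((((Et U a c w).filter (fun t => t + v ∈ Et U a c w)).card : ℝ) ≤
      2 ^ d / 2 * bt ((rk a (Ih U a v) : ℤ) - (Ih U a v).card / 2)) ∧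
    ((((Et U a c w).filter (fun t => t + v ∈ Et U a c w)).card : ℝ) ≤
      2 ^ d / 2 * bt ((rk a (U \ Ih U a v) : ℤ) - w + (Ih U a v).card / 2)) := by
  obtain ⟨v', hv'⟩ := hv
  set Y := Ih U a v with hY
  have hYU : Y ⊆ U := Finset.filter_subset _ _
  have heven : Even Y.card := h.even_Ih hS v
  obtain ⟨y, hy⟩ := heven
  have hy2 : Y.card / 2 = y := by omega
  have hd1 : 1 ≤ d := by
    have h1 := h.he
    have h2 := h.e2
    omega
  -- odd intersection
  have hodd : Odd (Y ∩ Ih U a v').card := by
    rw [← Nat.not_even_iff_odd]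
    intro hev
    apply hv'
    unfold Bf
    rw [← hY]
    exact (ZMod.natCast_eq_zero_iff_even).2 hev
  have hAt : ∀ t, pt U a c t ∈ A := fun t => (hS.im _).2 ⟨t, rfl⟩
  have hinj := hS.inj
  -- members
  have hmem : ∀ t ∈ (Et U a c w).filter (fun t => t + v ∈ Et U a c w),
      (pt U a c t).card = w ∧ 2 * (pt U a c t ∩ Y).card = Y.card := by
    intro t ht
    rw [Finset.mem_filter] at ht
    obtain ⟨h1, h2⟩ := ht
    have h1' : (pt U a c t).card = w := (Finset.mem_filter.1 h1).2
    have h2' : (pt U a c (t + v)).card = w := (Finset.mem_filter.1 h2).2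
    refine ⟨h1', ?_⟩
    rw [pt_add] at h2'
    have h3 := card_symm (pt U a c t) (Ih U a v)
    rw [h2', h1', ← hY] at h3
    omega
  have hpar := h.par
  have hpt0 : pt U a c v' = symmDiff (pt U a c 0) (Ih U a v') := by
    rw [← pt_add, zero_add]
  obtain ⟨k, hk⟩ := gc_inter (pt U a c 0) (Ih U a v') Y
  rw [← hpt0] at hk
  have hodd' : Odd (Ih U a v' ∩ Y).card := by
    rw [Finset.inter_comm]
    exact hodd
  have hneY : ¬ (Odd (pt U a c 0 ∩ Y).card ↔ Odd (pt U a c v' ∩ Y).card) := by
    rw [Nat.odd_iff] at hodd' ⊢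
    rw [Nat.odd_iff]
    omega
  constructor
  · -- first bound
    have hT : TT α Y.card (rk a Y - 1) := by
      by_cases hc : Y.card = U.card
      · rw [hc]
        apply h.ih2
        have := rk_le (a := a) Y
        omega
      · apply h.ih1
        have := Finset.card_le_card hYU
        omega
    have h1 := hS.bound2 h.hA hYU hT ⟨_, hAt 0, _, hAt v', hneY⟩ (Y.card / 2)
    have h2 : ((Et U a c w).filter (fun t => t + v ∈ Et U a c w)).card ≤
        (A.filter (fun x => (x ∩ Y).card = Y.card / 2)).card := by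
      apply Finset.card_le_card_of_injOn (fun t => pt U a c t)
      · intro t ht
        have h3 := hmem t (by simpa using ht)
        simp only [Finset.coe_filter, Set.mem_ofPred_eq]
        exact ⟨hAt t, by omega⟩
      · intro t _ t' _ htt
        exact hinj htt
    have h4 : (((Et U a c w).filter (fun t => t + v ∈ Et U a c w)).card : ℝ) ≤
        ((A.filter (fun x => (x ∩ Y).card = Y.card / 2)).card : ℝ) := by exact_mod_cast h2
    refine h4.trans (h1.trans (le_of_eq ?_))
    congr 2
  · -- second bound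
    by_cases hw : w < Y.card / 2
    · have h1 : (Et U a c w).filter (fun t => t + v ∈ Et U a c w) = ∅ := by
        rw [Finset.eq_empty_iff_forall_notMem]
        intro t ht
        have h3 := hmem t ht
        have h4 : (pt U a c t ∩ Y).card ≤ (pt U a c t).card :=
          Finset.card_le_card Finset.inter_subset_left
        omega
      rw [h1]
      have h2 := bt_pos ((rk a (U \ Y) : ℤ) - w + Y.card / 2)
      simp only [Finset.card_empty, Nat.cast_zero]
      positivity
    · have hYne : 0 < Y.card := by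
        rcases Nat.eq_zero_or_pos Y.card with h0 | h0
        · rw [Finset.card_eq_zero] at h0
          rw [h0, Finset.empty_inter] at hodd
          simp at hodd
        · exact h0
      have hcard : (U \ Y).card < U.card := by
        have := Finset.card_sdiff_add_card_eq_card hYU
        omega
      have hT : TT α (U \ Y).card (rk a (U \ Y) - 1) := h.ih1 _ hcard _
      have hU0 := h.hU _ (hAt 0)
      have hU1 := h.hU _ (hAt v')
      have hneZ : ¬ (Odd (pt U a c 0 ∩ (U \ Y)).card ↔ Odd (pt U a c v' ∩ (U \ Y)).card) := by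
        have g0 := gc_sdiff hU0 Y
        have g1 := gc_sdiff hU1 Y
        have p0 := hpar _ (hAt 0)
        have p1 := hpar _ (hAt v')
        rw [Nat.odd_iff, Nat.odd_iff] at p0 p1 hneY ⊢
        omega
      have h1 := hS.bound2 h.hA (Finset.sdiff_subset : U \ Y ⊆ U) hT
        ⟨_, hAt 0, _, hAt v', hneZ⟩ (w - Y.card / 2)
      have h2 : ((Et U a c w).filter (fun t => t + v ∈ Et U a c w)).card ≤
          (A.filter (fun x => (x ∩ (U \ Y)).card = w - Y.card / 2)).card := by
        apply Finset.card_le_card_of_injOn (fun t => pt U a c t)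
        · intro t ht
          have h3 := hmem t (by simpa using ht)
          have g0 := gc_sdiff (h.hU _ (hAt t)) Y
          simp only [Finset.coe_filter, Set.mem_ofPred_eq]
          exact ⟨hAt t, by omega⟩
        · intro t _ t' _ htt
          exact hinj htt
      have h4 : (((Et U a c w).filter (fun t => t + v ∈ Et U a c w)).card : ℝ) ≤
          ((A.filter (fun x => (x ∩ (U \ Y)).card = w - Y.card / 2)).card : ℝ) := by
        exact_mod_cast h2
      refine h4.trans (h1.trans (le_of_eq ?_))
      congr 2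
      omega

end Pool.Agent.H59.MW
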