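import Pool.Agent.H59.MW.Defs

/-!
# MW-SOB: the self-orthogonal case

`SO A`: any two directions (`Per`) meet in an even number of coordinates.
Claim: if `I ⊆ U`, `|I| = 2m` and `TT` holds for `|U \ I|` coordinates then
`#{x ∈ A : |x ∩ I| = m, |x| = w} ≤ bt (1 + d - w) * #{x ∈ A : |x ∩ I| = m}`.

Induction on `m`, for all `U, A, d, w` (with `|U \ I|` fixed: `(U \ {i,j}) \ (I \ {i,j}) = U \ I`).
* `m = 0`: `I = ∅`: this is `TT α U.card d`.
* step: for `x` with `|x ∩ I| = m` there are exactly `m²` unordered (or `2m²` ordered) pairs `i, j ∈ I` with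
  exactly one of them in `x` (`m` in, `m` out; cf. `CW.pair_sum`). So it is enough to prove, for each fixed pair
  `i ≠ j` in `I`, with `A' = A.filter (¬ (i ∈ x ↔ j ∈ x))`, `I' = I \ {i,j}`:
  `#{x ∈ A' : |x ∩ I| = m, |x| = w} ≤ bt (1+d-w) #{x ∈ A' : |x ∩ I| = m}` (then sum over the pairs, divide by
  `2m² > 0`). If `A' = ∅` trivial. Otherwise `A'` is a flat with `2^d` (if all members are split) or `2^(d-1)`
  members. Let `B = era {i,j} A'` (a flat of subsets of `U \ {i,j}`); for `x ∈ A'`: `|x| = |x \ {i,j}| + 1`,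
  `|x ∩ I| = |(x \ {i,j}) ∩ I'| + 1`. Note `w ≥ 1` may be assumed (if `w = 0` the left side is `0`).
  Two cases. (a) `era` is injective on `A'`: `|B| = |A'| = 2^{d'}`, `d' ≥ d - 1`. (b) not injective: then
  `{i,j}` is a period of `A` (two different members of `A'` with the same trace outside `{i,j}` differ by
  `{i,j}`), so by `SO A` every period meets `{i,j}` in `0` or `2` elements, hence `x_i + x_j` is the same for all
  `x ∈ A`, so `A' = A`, every fibre of `A' → B` has exactly two elements `x, x + {i,j}`, `|B| = 2^(d-1)`. In both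
  cases `|B| = 2^{d'}` with `d' ≥ d - 1` and all fibres have the same size `f ∈ {1,2}`. `SO B`: a
  period `u'` of `B` is `u \ {i,j}` for a period `u` of `A` with `u ∩ {i,j} = ∅` or `{i,j}` (take `x' ∈ B`,
  lift `x'` and `x' + u'` to `x, y ∈ A'`, `u = x + y`); for two such periods
  `|u' ∩ v'| = |u ∩ v| - (0 or 2)`. Induction hypothesis for `(U \ {i,j}, B, d', w - 1, I', m - 1)`:
  `#{y ∈ B : |y ∩ I'| = m-1, |y| = w-1} ≤ bt (1 + d' - (w-1)) #{..} ≤ bt (1 + d - w) #{..}` (`bt_anti`,
  `d' + 1 ≥ d`). Multiply by `f`.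
-/

namespace Pool.Agent.H59.MW

open Finset Pool.Agent.H59.CW

set_option linter.unusedSectionVars false

variable {α : Type*} [DecidableEq α]

theorem pair_sum_mid (I : Finset α) (F : Finset (Finset α)) {m : ℕ} (hI : I.card = 2 * m)
    (hF : ∀ x ∈ F, (x ∩ I).card = m) :
    ∑ p ∈ I.offDiag, (F.filter (fun x => ¬ (p.1 ∈ x ↔ p.2 ∈ x))).card =
      F.card * (2 * (m * m)) := by
  have h1 : ∀ p ∈ I.offDiag, (F.filter (fun x => ¬ (p.1 ∈ x ↔ p.2 ∈ x))).card =
      ∑ x ∈ F, if ¬ (p.1 ∈ x ↔ p.2 ∈ x) then 1 else 0 := by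
    intro p _
    rw [Finset.card_filter]
  rw [Finset.sum_congr rfl h1, Finset.sum_comm]
  rw [Finset.card_eq_sum_ones, Finset.sum_mul]
  apply Finset.sum_congr rfl
  intro x hx
  have hxm := hF x hx
  rw [← Finset.card_filter]
  have h2 : I.offDiag.filter (fun p => ¬ (p.1 ∈ x ↔ p.2 ∈ x)) =
      ((x ∩ I) ×ˢ (I \ x)) ∪ ((I \ x) ×ˢ (x ∩ I)) := by
    ext ⟨a, b⟩
    simp only [Finset.mem_filter, Finset.mem_offDiag, Finset.mem_union, Finset.mem_product,
      Finset.mem_sdiff, Finset.mem_inter]
    constructor
    · rintro ⟨⟨ha, hb, hab⟩, h⟩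
      by_cases hax : a ∈ x
      · left; exact ⟨⟨hax, ha⟩, hb, by tauto⟩
      · right; exact ⟨⟨ha, hax⟩, by tauto, hb⟩
    · rintro (⟨⟨h1, h2⟩, h3, h4⟩ | ⟨⟨h1, h2⟩, h3, h4⟩)
      · refine ⟨⟨h2, h3, ?_⟩, by tauto⟩
        rintro rfl; exact h4 h1
      · refine ⟨⟨h1, h4, ?_⟩, by tauto⟩
        rintro rfl; exact h2 h3
  have h3 : (I \ x).card = m := by
    have := Finset.card_sdiff_add_card_inter I x
    rw [Finset.inter_comm I x] at this
    omega
  rw [h2, Finset.card_union_of_disjoint]
  · rw [Finset.card_product, Finset.card_product, h3, hxm]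
    ring
  · rw [Finset.disjoint_left]
    rintro ⟨a, b⟩ h1 h2
    simp only [Finset.mem_product, Finset.mem_sdiff, Finset.mem_inter] at h1 h2
    exact h2.1.2 h1.1.1

/-- sizes for split members -/
theorem card_split {x I : Finset α} {i j : α} (hij : i ≠ j) (hi : i ∈ I) (hj : j ∈ I)
    (hs : ¬ (i ∈ x ↔ j ∈ x)) :
    x.card = (x \ {i, j}).card + 1 ∧
      (x ∩ I).card = ((x \ {i, j}) ∩ (I \ {i, j})).card + 1 := by
  have key : ∀ y : Finset α, (¬ (i ∈ y ↔ j ∈ y)) → y.card = (y \ {i, j}).card + 1 := by
    intro y hy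
    have h1 := Finset.card_sdiff_add_card_inter y {i, j}
    have h2 : (y ∩ {i, j}).card = 1 := by
      by_cases h : i ∈ y
      · have hj' : j ∉ y := by tauto
        have : y ∩ {i, j} = {i} := by
          ext t
          simp only [Finset.mem_inter, Finset.mem_insert, Finset.mem_singleton]
          constructor
          · rintro ⟨h3, h4 | h4⟩
            · exact h4
            · subst h4; exact absurd h3 hj'
          · rintro rfl; exact ⟨h, Or.inl rfl⟩
        rw [this, Finset.card_singleton]
      · have hj' : j ∈ y := by tauto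
        have : y ∩ {i, j} = {j} := by
          ext t
          simp only [Finset.mem_inter, Finset.mem_insert, Finset.mem_singleton]
          constructor
          · rintro ⟨h3, h4 | h4⟩
            · subst h4; exact absurd h3 h
            · exact h4
          · rintro rfl; exact ⟨hj', Or.inr rfl⟩
        rw [this, Finset.card_singleton]
    omega
  refine ⟨key x hs, ?_⟩
  have h3 := key (x ∩ I) (by simp only [Finset.mem_inter]; tauto)
  have h4 : (x ∩ I) \ {i, j} = (x \ {i, j}) ∩ (I \ {i, j}) := by
    ext t
    simp only [Finset.mem_inter, Finset.mem_sdiff]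
    tauto
  rw [h3, h4]

/-- counting through an injective trace -/
theorem fib_one {A : Finset (Finset α)} {T : Finset α}
    (hinj : ∀ x ∈ A, ∀ y ∈ A, x \ T = y \ T → x = y) (P : Finset α → Prop) [DecidablePred P] :
    (A.filter (fun x => P (x \ T))).card = ((era T A).filter P).card := by
  have : (era T A).filter P = (A.filter (fun x => P (x \ T))).image (fun x => x \ T) := by
    ext y
    simp only [era, Finset.mem_filter, Finset.mem_image]
    constructor
    · rintro ⟨⟨x, hx, rfl⟩, hP⟩
      exact ⟨x, ⟨hx, hP⟩, rfl⟩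
    · rintro ⟨x, ⟨hx, hP⟩, rfl⟩
      exact ⟨⟨x, hx, rfl⟩, hP⟩
  rw [this, Finset.card_image_of_injOn]
  intro x hx y hy h
  simp only [Finset.coe_filter, Set.mem_ofPred_eq] at hx hy
  exact hinj x hx.1 y hy.1 h

theorem symmDiff_pair_sdiff (x : Finset α) (i j : α) :
    symmDiff x {i, j} \ {i, j} = x \ {i, j} := by
  ext t
  simp only [Finset.mem_sdiff, mem_symmDiff_pair, Finset.mem_insert, Finset.mem_singleton]
  by_cases h : t = i ∨ t = j
  · simp [h]
  · simp [h]

/-- counting through a trace with fibres of size two -/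
theorem fib_two {A : Finset (Finset α)} {i j : α} (hij : i ≠ j)
    (hs : ∀ x ∈ A, ¬ (i ∈ x ↔ j ∈ x)) (hp : Per A {i, j})
    (P : Finset α → Prop) [DecidablePred P] :
    (A.filter (fun x => P (x \ {i, j}))).card = 2 * ((era {i, j} A).filter P).card := by
  have key : ∀ x ∈ A, ∀ y ∈ A, (i ∈ x ↔ i ∈ y) → x \ {i, j} = y \ {i, j} → x = y := by
    intro x hx y hy h1 h2
    have sx := hs x hx
    have sy := hs y hy
    ext t
    by_cases ht : t = i
    · subst ht; exact h1
    by_cases ht' : t = j
    · subst ht'; tauto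
    have := Finset.ext_iff.1 h2 t
    simp only [Finset.mem_sdiff, Finset.mem_insert, Finset.mem_singleton, ht, ht', or_self,
      not_false_eq_true, and_true] at this
    exact this
  have mem1 : ∀ x : Finset α, (i ∈ symmDiff x {i, j} ↔ i ∉ x) := by
    intro x
    rw [mem_symmDiff_pair]
    simp
  have e1 : ((A.filter (fun x => i ∈ x)).filter (fun x => P (x \ {i, j}))).card =
      ((era {i, j} A).filter P).card := by
    rw [fib_one (A := A.filter (fun x => i ∈ x)) (T := {i, j})]
    · congr 2
      ext y
      simp only [era, Finset.mem_image, Finset.mem_filter]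
      constructor
      · rintro ⟨x, hx, rfl⟩
        exact ⟨x, hx.1, rfl⟩
      · rintro ⟨x, hx, rfl⟩
        by_cases h : i ∈ x
        · exact ⟨x, ⟨hx, h⟩, rfl⟩
        · exact ⟨symmDiff x {i, j}, ⟨hp x hx, (mem1 x).2 h⟩, symmDiff_pair_sdiff x i j⟩
    · intro x hx y hy h
      rw [Finset.mem_filter] at hx hy
      exact key x hx.1 y hy.1 (by simp [hx.2, hy.2]) h
  have e2 : ((A.filter (fun x => i ∉ x)).filter (fun x => P (x \ {i, j}))).card =
      ((era {i, j} A).filter P).card := by
    rw [fib_one (A := A.filter (fun x => i ∉ x)) (T := {i, j})]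
    · congr 2
      ext y
      simp only [era, Finset.mem_image, Finset.mem_filter]
      constructor
      · rintro ⟨x, hx, rfl⟩
        exact ⟨x, hx.1, rfl⟩
      · rintro ⟨x, hx, rfl⟩
        by_cases h : i ∈ x
        · refine ⟨symmDiff x {i, j}, ⟨hp x hx, ?_⟩, symmDiff_pair_sdiff x i j⟩
          rw [mem1 x]
          simpa using h
        · exact ⟨x, ⟨hx, h⟩, rfl⟩
    · intro x hx y hy h
      rw [Finset.mem_filter] at hx hy
      exact key x hx.1 y hy.1 (by simp [hx.2, hy.2]) h
  have e3 := Finset.card_filter_add_card_filter_not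
    (s := A.filter (fun x => P (x \ {i, j}))) (fun x => i ∈ x)
  rw [Finset.filter_comm (fun x => P (x \ {i, j})) (fun x => i ∈ x),
    Finset.filter_comm (fun x => P (x \ {i, j})) (fun x => i ∉ x), e1, e2] at e3
  omega

theorem per_symmDiff {A : Finset (Finset α)} (hA : Flat A) {x y : Finset α} (hx : x ∈ A)
    (hy : y ∈ A) : Per A (symmDiff x y) := by
  apply per_of_exists hA
  refine ⟨x, hx, ?_⟩
  rw [← symmDiff_assoc, symmDiff_self, bot_symmDiff]
  exact hy

theorem even_pair {u : Finset α} {i j : α} (hij : i ≠ j) (h : Even (u ∩ {i, j}).card) :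
    (i ∈ u ↔ j ∈ u) := by
  by_contra hc
  have h1 := (card_split (x := u ∩ {i, j}) (I := {i, j}) hij (by simp) (by simp) (by
    simp only [Finset.mem_inter, Finset.mem_insert, Finset.mem_singleton, true_or, or_true,
      and_true]
    exact hc)).1
  have h2 : (u ∩ {i, j}) \ {i, j} = ∅ := by
    ext t
    simp only [Finset.mem_sdiff, Finset.mem_inter]
    constructor
    · rintro ⟨⟨_, a⟩, b⟩; exact absurd a b
    · intro a; exact absurd a (Finset.notMem_empty t)
  rw [h2, Finset.card_empty] at h1
  rw [h1] at h
  exact absurd h (by decide)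

theorem mem_symmDiff_iff' {x y : Finset α} {t : α} :
    t ∈ symmDiff x y ↔ ¬ (t ∈ x ↔ t ∈ y) := by
  rw [Finset.mem_symmDiff]; tauto

/-- the traces of the split members are self-orthogonal -/
theorem so_era {A : Finset (Finset α)} (hA : Flat A) (hSO : SO A) {i j : α} (hij : i ≠ j)
    (hne : (A.filter (fun x => ¬ (i ∈ x ↔ j ∈ x))).Nonempty) :
    SO (era {i, j} (A.filter (fun x => ¬ (i ∈ x ↔ j ∈ x)))) := by
  set A' := A.filter (fun x => ¬ (i ∈ x ↔ j ∈ x)) with hA'
  have lift : ∀ u', Per (era {i, j} A') u' → ∃ u, Per A u ∧ u \ {i, j} = u' ∧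
      (i ∈ u ↔ j ∈ u) := by
    intro u' hu'
    obtain ⟨x, hx⟩ := hne
    have hx' : x \ {i, j} ∈ era {i, j} A' := Finset.mem_image_of_mem _ hx
    have h1 := hu' _ hx'
    simp only [era, Finset.mem_image] at h1
    obtain ⟨y, hy, hyx⟩ := h1
    rw [hA', Finset.mem_filter] at hx hy
    refine ⟨symmDiff x y, per_symmDiff hA hx.1 hy.1, ?_, ?_⟩
    · ext t
      have h2 := Finset.ext_iff.1 hyx t
      simp only [Finset.mem_sdiff, mem_symmDiff_iff', Finset.mem_insert,
        Finset.mem_singleton] at h2 ⊢
      tauto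
    · rw [mem_symmDiff_iff', mem_symmDiff_iff']
      have := hx.2
      have := hy.2
      tauto
  intro u' v' hu hv
  obtain ⟨u, pu, rfl, eu⟩ := lift u' hu
  obtain ⟨v, pv, rfl, ev⟩ := lift v' hv
  have h1 := hSO u v pu pv
  have h2 : u \ {i, j} ∩ (v \ {i, j}) = (u ∩ v) \ {i, j} := by
    ext t; simp only [Finset.mem_inter, Finset.mem_sdiff]; tauto
  rw [h2]
  have h3 := Finset.card_sdiff_add_card_inter (u ∩ v) {i, j}
  by_cases hi : i ∈ u ∩ v
  · have hj : j ∈ u ∩ v := by
      rw [Finset.mem_inter] at hi ⊢
      exact ⟨eu.1 hi.1, ev.1 hi.2⟩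
    have h4 : (u ∩ v) ∩ {i, j} = {i, j} := by
      rw [Finset.inter_eq_right]
      intro t ht
      simp only [Finset.mem_insert, Finset.mem_singleton] at ht
      rcases ht with rfl | rfl
      · exact hi
      · exact hj
    rw [h4, Finset.card_pair hij] at h3
    rw [← h3] at h1
    simpa [Nat.even_add] using h1
  · have hj : j ∉ u ∩ v := by
      rw [Finset.mem_inter] at hi ⊢
      tauto
    have h4 : (u ∩ v) ∩ {i, j} = ∅ := by
      ext t
      simp only [Finset.mem_inter, Finset.mem_insert, Finset.mem_singleton, Finset.notMem_empty,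
        iff_false]
      rintro ⟨⟨a, b⟩, rfl | rfl⟩
      · exact hi (Finset.mem_inter.2 ⟨a, b⟩)
      · exact hj (Finset.mem_inter.2 ⟨a, b⟩)
    rw [h4, Finset.card_empty, add_zero] at h3
    rw [h3]
    exact h1

theorem so_bound (m : ℕ) : ∀ (U : Finset α) (A : Finset (Finset α)) (d w : ℕ) (I : Finset α),
    I ⊆ U → I.card = 2 * m → (∀ x ∈ A, x ⊆ U) → Flat A → A.card = 2 ^ d → SO A →
    (∀ d', TT α (U \ I).card d') →
    ((A.filter (fun x => (x ∩ I).card = m ∧ x.card = w)).card : ℝ) ≤
      bt (1 + d - w) * (A.filter (fun x => (x ∩ I).card = m)).card := by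
  induction m with
  | zero =>
    intro U A d w I _ hI hAU hA hd _ hTT
    have hI0 : I = ∅ := by
      rw [← Finset.card_eq_zero]; omega
    subst hI0
    have h1 : A.filter (fun x => (x ∩ (∅ : Finset α)).card = 0) = A :=
      Finset.filter_true_of_mem (fun x _ => by simp)
    have h2 : A.filter (fun x => (x ∩ (∅ : Finset α)).card = 0 ∧ x.card = w) =
        A.filter (fun x => x.card = w) :=
      Finset.filter_congr (fun x _ => by simp)
    rw [h1, h2, hd]
    have h3 := hTT d U A (by simp) hAU hA hd w
    rw [cnt] at h3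
    push_cast
    linarith
  | succ m ih =>
    intro U A d w I hIU hI hAU hA hd hSO hTT
    set F := A.filter (fun x => (x ∩ I).card = m + 1) with hF
    set Fw := A.filter (fun x => (x ∩ I).card = m + 1 ∧ x.card = w) with hFw
    have s1 := pair_sum_mid I F (m := m + 1) hI (fun x hx => by
      rw [hF, Finset.mem_filter] at hx; exact hx.2)
    have s2 := pair_sum_mid I Fw (m := m + 1) hI (fun x hx => by
      rw [hFw, Finset.mem_filter] at hx; exact hx.2.1)
    have key : ∀ p ∈ I.offDiag, ((Fw.filter (fun x => ¬ (p.1 ∈ x ↔ p.2 ∈ x))).card : ℝ) ≤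
        bt (1 + d - w) * (F.filter (fun x => ¬ (p.1 ∈ x ↔ p.2 ∈ x))).card := by
      rintro ⟨i, j⟩ hp
      rw [Finset.mem_offDiag] at hp
      obtain ⟨hi, hj, hij⟩ := hp
      simp only at hi hj hij ⊢
      have hb0 := bt_pos (1 + d - w)
      rcases w with _ | w
      · have : Fw.filter (fun x => ¬ (i ∈ x ↔ j ∈ x)) = ∅ := by
          apply Finset.filter_eq_empty_iff.2
          intro x hx
          rw [hFw, Finset.mem_filter, Finset.card_eq_zero] at hx
          rw [hx.2.2] at hx
          simp at hx
        rw [this, Finset.card_empty]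
        push_cast
        positivity
      set A' := A.filter (fun x => ¬ (i ∈ x ↔ j ∈ x)) with hA'
      have r1 : Fw.filter (fun x => ¬ (i ∈ x ↔ j ∈ x)) =
          A'.filter (fun x => ((x \ {i, j}) ∩ (I \ {i, j})).card = m ∧
            (x \ {i, j}).card = w) := by
        ext x
        simp only [hFw, hA', Finset.mem_filter]
        constructor
        · rintro ⟨⟨h1, h2, h3⟩, h4⟩
          obtain ⟨c1, c2⟩ := card_split (x := x) hij hi hj h4
          exact ⟨⟨h1, h4⟩, by omega, by omega⟩
        · rintro ⟨⟨h1, h4⟩, h2, h3⟩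
          obtain ⟨c1, c2⟩ := card_split (x := x) hij hi hj h4
          exact ⟨⟨h1, by omega, by omega⟩, h4⟩
      have r2 : F.filter (fun x => ¬ (i ∈ x ↔ j ∈ x)) =
          A'.filter (fun x => ((x \ {i, j}) ∩ (I \ {i, j})).card = m) := by
        ext x
        simp only [hF, hA', Finset.mem_filter]
        constructor
        · rintro ⟨⟨h1, h2⟩, h4⟩
          obtain ⟨c1, c2⟩ := card_split (x := x) hij hi hj h4
          exact ⟨⟨h1, h4⟩, by omega⟩
        · rintro ⟨⟨h1, h4⟩, h2⟩
          obtain ⟨c1, c2⟩ := card_split (x := x) hij hi hj h4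
          exact ⟨⟨h1, by omega⟩, h4⟩
      rw [r1, r2]
      rcases A'.eq_empty_or_nonempty with hE | hne
      · rw [hE]
        simp
      have hfl : Flat A' := hA.filter (aff_split i j) (by
        obtain ⟨x, hx⟩ := hne
        rw [hA', Finset.mem_filter] at hx
        exact ⟨x, hx.1, hx.2⟩)
      set B := era {i, j} A' with hB
      have hBfl : Flat B := hfl.era _
      have hBU : ∀ x ∈ B, x ⊆ U \ {i, j} := era_subset (fun x hx => by
        rw [hA', Finset.mem_filter] at hx
        exact hAU x hx.1)
      have hBSO : SO B := so_era hA hSO hij hne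
      have hpairI : ({i, j} : Finset α) ⊆ I := by
        intro t ht
        simp only [Finset.mem_insert, Finset.mem_singleton] at ht
        rcases ht with rfl | rfl
        · exact hi
        · exact hj
      have hI' : (I \ {i, j}).card = 2 * m := by
        rw [Finset.card_sdiff_of_subset hpairI, Finset.card_pair hij]
        omega
      have hII : (U \ {i, j}) \ (I \ {i, j}) = U \ I := by
        ext t
        have := @hpairI t
        simp only [Finset.mem_sdiff] at this ⊢
        tauto
      have fin : ∀ (f d' : ℕ), B.card = 2 ^ d' → d ≤ d' + 1 →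
          (∀ P : Finset α → Prop, ∀ [DecidablePred P],
            (A'.filter (fun x => P (x \ {i, j}))).card = f * (B.filter P).card) →
          ((A'.filter (fun x => ((x \ {i, j}) ∩ (I \ {i, j})).card = m ∧
            (x \ {i, j}).card = w)).card : ℝ) ≤ bt (1 + d - (w + 1 : ℕ)) *
            (A'.filter (fun x => ((x \ {i, j}) ∩ (I \ {i, j})).card = m)).card := by
        intro f d' hc hdd hf
        have q := ih (U \ {i, j}) B d' w (I \ {i, j})
          (Finset.sdiff_subset_sdiff hIU (Finset.Subset.refl _)) hI' hBU hBfl hc hBSO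
          (by rw [hII]; exact hTT)
        rw [hf (fun y => (y ∩ (I \ {i, j})).card = m ∧ y.card = w),
          hf (fun y => (y ∩ (I \ {i, j})).card = m)]
        have q2 : bt (1 + (d' : ℤ) - (w : ℤ)) ≤ bt (1 + (d : ℤ) - ((w + 1 : ℕ) : ℤ)) :=
          bt_anti (by push_cast; omega)
        push_cast at q2 ⊢
        have q3 : (0 : ℝ) ≤ ((B.filter (fun y => (y ∩ (I \ {i, j})).card = m)).card : ℝ) :=
          Nat.cast_nonneg _
        have q4 : (0 : ℝ) ≤ (f : ℝ) := Nat.cast_nonneg _
        calc (f : ℝ) * ((B.filter (fun y => (y ∩ (I \ {i, j})).card = m ∧ y.card = w)).card : ℝ)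
            ≤ f * (bt (1 + (d' : ℤ) - (w : ℤ)) *
              ((B.filter (fun y => (y ∩ (I \ {i, j})).card = m)).card : ℝ)) :=
              mul_le_mul_of_nonneg_left q q4
          _ ≤ f * (bt (1 + (d : ℤ) - ((w : ℤ) + 1)) *
              ((B.filter (fun y => (y ∩ (I \ {i, j})).card = m)).card : ℝ)) :=
              mul_le_mul_of_nonneg_left (mul_le_mul_of_nonneg_right q2 q3) q4
          _ = _ := by ring
      by_cases hinj : ∀ x ∈ A', ∀ y ∈ A', x \ {i, j} = y \ {i, j} → x = y
      · -- injective case
        have hBc : B.card = A'.card := by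
          have := fib_one hinj (fun _ => True)
          simpa using this.symm
        obtain ⟨x0, hx0⟩ := hne
        rw [hA', Finset.mem_filter] at hx0
        by_cases hall : ∀ x ∈ A, ¬ (i ∈ x ↔ j ∈ x)
        · have : A' = A := Finset.filter_true_of_mem hall
          refine fin 1 d ?_ (by omega) (fun P _ => ?_)
          · rw [hBc, this, hd]
          · rw [one_mul]; exact fib_one hinj P
        · push Not at hall
          obtain ⟨y0, hy0, hy1⟩ := hall
          have hd1 : 1 ≤ d := by
            by_contra hlt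
            have : d = 0 := by omega
            subst this
            rw [pow_zero, Finset.card_eq_one] at hd
            obtain ⟨z, rfl⟩ := hd
            simp only [Finset.mem_singleton] at hx0 hy0
            rw [hy0] at hy1
            rw [hx0.1] at hx0
            exact hx0.2 hy1
          obtain ⟨d1, rfl⟩ : ∃ d1, d = d1 + 1 := ⟨d - 1, by omega⟩
          refine fin 1 d1 ?_ (by omega) (fun P _ => ?_)
          · rw [hBc]
            exact hA.pow_half (aff_split i j) ⟨x0, hx0.1, hx0.2⟩ ⟨y0, hy0, by
              simpa using hy1⟩ hd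
          · rw [one_mul]; exact fib_one hinj P
      · -- the pair is a period
        push Not at hinj
        obtain ⟨x, hx, y, hy, hxy, hne'⟩ := hinj
        rw [hA', Finset.mem_filter] at hx hy
        have hyx : y = symmDiff x {i, j} := by
          have hio : ¬ (i ∈ x ↔ i ∈ y) := by
            intro h
            apply hne'
            ext t
            by_cases ht : t = i
            · subst ht; exact h
            by_cases ht' : t = j
            · subst ht'; have := hx.2; have := hy.2; tauto
            have := Finset.ext_iff.1 hxy t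
            simp only [Finset.mem_sdiff, Finset.mem_insert, Finset.mem_singleton, ht, ht',
              or_self, not_false_eq_true, and_true] at this
            exact this
          ext t
          rw [mem_symmDiff_pair]
          by_cases ht : t = i
          · subst ht; simp only [true_or, if_true]; tauto
          by_cases ht' : t = j
          · subst ht'
            simp only [or_true, if_true]
            have := hx.2; have := hy.2; tauto
          have := Finset.ext_iff.1 hxy t
          simp only [Finset.mem_sdiff, Finset.mem_insert, Finset.mem_singleton, ht, ht',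
            or_self, not_false_eq_true, and_true] at this
          simp only [ht, ht', or_self, if_false]
          exact this.symm
        have hper : Per A {i, j} := by
          apply per_of_exists hA
          exact ⟨x, hx.1, by rw [← hyx]; exact hy.1⟩
        have hall : ∀ z ∈ A, ¬ (i ∈ z ↔ j ∈ z) := by
          intro z hz
          have h1 := even_pair hij (hSO _ _ (per_symmDiff hA hx.1 hz) hper)
          rw [mem_symmDiff_iff', mem_symmDiff_iff'] at h1
          have := hx.2
          tauto
        have hAA : A' = A := Finset.filter_true_of_mem hall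
        have hf : ∀ P : Finset α → Prop, ∀ [DecidablePred P],
            (A'.filter (fun x => P (x \ {i, j}))).card = 2 * (B.filter P).card := by
          intro P _
          rw [hB, hAA]
          exact fib_two hij hall hper P
        have hBc : A'.card = 2 * B.card := by
          have := hf (fun _ => True)
          simpa using this
        rw [hAA, hd] at hBc
        have hd1 : 1 ≤ d := by
          by_contra hlt
          have : d = 0 := by omega
          subst this
          omega
        obtain ⟨d1, rfl⟩ : ∃ d1, d = d1 + 1 := ⟨d - 1, by omega⟩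
        refine fin 2 d1 ?_ (by omega) (fun P _ => hf P)
        rw [pow_succ] at hBc
        omega
    have t1 : ((∑ p ∈ I.offDiag, (Fw.filter (fun x => ¬ (p.1 ∈ x ↔ p.2 ∈ x))).card : ℕ) : ℝ) ≤
        bt (1 + d - w) *
          ((∑ p ∈ I.offDiag, (F.filter (fun x => ¬ (p.1 ∈ x ↔ p.2 ∈ x))).card : ℕ) : ℝ) := by
      push_cast
      rw [Finset.mul_sum]
      exact Finset.sum_le_sum key
    rw [s1, s2] at t1
    push_cast at t1
    have t2 : (0 : ℝ) < 2 * (((m : ℝ) + 1) * (m + 1)) := by positivity
    have t3 : (Fw.card : ℝ) * (2 * (((m : ℝ) + 1) * (m + 1))) ≤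
        (bt (1 + d - w) * F.card) * (2 * (((m : ℝ) + 1) * (m + 1))) := by linarith
    exact le_of_mul_le_mul_right t3 t2

end Pool.Agent.H59.MW
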