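import Pool.Agent.H59.MW.GlobA
import Pool.Agent.H59.MW.Cor
import Pool.Agent.H59.MW.Rk2
import Pool.Agent.H59.MW.SOB

/-!
# MW-GLOBD: the bound in the self-orthogonal case

`t, t+v ∈ Et` iff `|pt t| = w` and `2 |pt t ∩ Ih v| = |Ih v|`. Let `I = Ih v`, `|I| = 2m` (`MC.even_Ih`). `I ≠ ∅` since
`v ≠ 0` and `pt` is injective (`pt_add`). `so_bound m` (`TT` for `U \ I`: `h.ih1`):
`#{x ∈ A : |x ∩ I| = m, |x| = w} ≤ bt (1+d-w) #{x ∈ A : |x ∩ I| = m}` (`1 + d - w = e`), and by `Sys.bound1`
`#{x ∈ A : |x ∩ I| = m} ≤ 2^d bt (1 + rk a I - m)` if `|I| < |U|` (`h.ih1`). If `I = U` then the left side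
is empty: `|x| = |x ∩ U| = m = w` would give `|U| = 2w`, but `|U| = 2w + s` and `s > 0` (`MC.s_pos`).
-/

namespace Pool.Agent.H59.MW

open Finset Pool.Agent.H59.CW

set_option linter.unusedSectionVars false

variable {α : Type*} [DecidableEq α] {U : Finset α} {A : Finset (Finset α)} {d w e s : ℕ}
  {a : α → Fin d → ZMod 2} {c : α → ZMod 2}

theorem MC.D_bound (h : MC U A d w e s) (hS : Sys U A d a c) (hso : SO A)
    (v : Fin d → ZMod 2) (hv : v ≠ 0) :
    (((Et U a c w).filter (fun t => t + v ∈ Et U a c w)).card : ℝ) ≤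
      2 ^ d * (bt e * bt (1 + (rk a (Ih U a v) : ℤ) - (Ih U a v).card / 2)) := by
  obtain ⟨m, hm⟩ := h.even_Ih hS v
  set I := Ih U a v with hI
  have hIU : I ⊆ U := Finset.filter_subset _ _
  have hIne : I.Nonempty := by
    rw [Finset.nonempty_iff_ne_empty]
    intro h0
    apply hv
    have h1 : pt U a c (0 + v) = pt U a c 0 := by
      rw [pt_add, ← hI, h0]
      simp
    have h2 := hS.inj h1
    simpa using h2
  have hbe : 0 < bt (e : ℤ) := bt_pos _
  have hr : 0 < bt (1 + (rk a I : ℤ) - I.card / 2) := bt_pos _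
  -- membership
  have key : ∀ t ∈ (Et U a c w).filter (fun t => t + v ∈ Et U a c w),
      pt U a c t ∈ A.filter (fun x => (x ∩ I).card = m ∧ x.card = w) := by
    intro t ht
    rw [Finset.mem_filter] at ht
    have h1 : (pt U a c t).card = w := by
      have := ht.1
      simpa [Et] using this
    have h2 : (pt U a c (t + v)).card = w := by
      have := ht.2
      simpa [Et] using this
    rw [pt_add, ← hI] at h2
    have h3 := card_symm (pt U a c t) I
    rw [h2, h1, hm] at h3
    rw [Finset.mem_filter]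
    refine ⟨(hS.im _).2 ⟨t, rfl⟩, ?_, h1⟩
    push_cast at h3
    omega
  have hle : ((Et U a c w).filter (fun t => t + v ∈ Et U a c w)).card ≤
      (A.filter (fun x => (x ∩ I).card = m ∧ x.card = w)).card :=
    Finset.card_le_card_of_injOn (pt U a c) key (fun x _ y _ hxy => hS.inj hxy)
  have hle' : (((Et U a c w).filter (fun t => t + v ∈ Et U a c w)).card : ℝ) ≤
      ((A.filter (fun x => (x ∩ I).card = m ∧ x.card = w)).card : ℝ) := by exact_mod_cast hle
  refine hle'.trans ?_
  by_cases hlt : I.card < U.card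
  · have h1 := so_bound m U A d w I hIU (by omega) h.hU h.hA h.hd hso (fun d' => h.ih1 _ (by
      apply Finset.card_lt_card
      rw [Finset.ssubset_iff_of_subset Finset.sdiff_subset]
      obtain ⟨i, hi⟩ := hIne
      exact ⟨i, hIU hi, by simp [hi]⟩) d')
    have h2 := hS.bound1 h.hA hIU (h.ih1 _ hlt _) m
    have e1 : (1 + (d : ℤ) - (w : ℤ)) = e := by
      have := h.he
      omega
    rw [e1] at h1
    have e2 : (1 + (rk a I : ℤ) - (I.card : ℤ) / 2) = 1 + (rk a I : ℤ) - (m : ℤ) := by
      rw [hm]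
      push_cast
      omega
    rw [e2]
    calc ((A.filter (fun x => (x ∩ I).card = m ∧ x.card = w)).card : ℝ)
        ≤ bt e * (A.filter (fun x => (x ∩ I).card = m)).card := h1
      _ ≤ bt e * (2 ^ d * bt (1 + rk a I - m)) := mul_le_mul_of_nonneg_left h2 hbe.le
      _ = _ := by ring
  · have hIU' : I = U := Finset.eq_of_subset_of_card_le hIU (by omega)
    have h0 : A.filter (fun x => (x ∩ I).card = m ∧ x.card = w) = ∅ := by
      rw [Finset.filter_eq_empty_iff]
      rintro x hx ⟨h1, h2⟩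
      rw [hIU', Finset.inter_eq_left.mpr (h.hU x hx)] at h1
      have h3 := h.hn
      rw [← hIU', hm] at h3
      have h4 := h.s_pos.1
      omega
    rw [h0]
    simp only [Finset.card_empty, Nat.cast_zero]
    positivity

end Pool.Agent.H59.MW
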