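import Pool.Agent.H59.MW.Defs

/-!
# MW-PARAM: every flat is parametrised by `Fin d → ZMod 2`

Let `x₀ ∈ A` and `V` = the submodule of `U → ZMod 2` (functions on the subtype `↥U`) of the vectors `f` such that
`symmDiff x₀ (support of f) ∈ A` (support as a finset of elements of `α`): it contains `0` and is closed under
addition since `A` is a flat (`tri`); `f ↦ symmDiff x₀ (supp f)` is a bijection from `V` to `A`, so `|V| = 2^d`,
`finrank V = d` (`Module.card_eq_pow_finrank`, `ZMod.card`). Take a basis `b : Basis (Fin d) (ZMod 2) V`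
(`Module.finBasisOfFinrankEq`), `a i k = (b k) i` for `i ∈ U` (`0` outside), `c i = 1` iff `i ∈ x₀`. Then for
`i ∈ U`: `a i ⬝ᵥ t = (∑ k, t k • b k) i`, so `pt U a c t = symmDiff x₀ (supp (∑ k, t k • b k))`.
(Cf. `CW.fam`, `CW.card_of_finrank`, `CW.supp`, `CW.ind`, `CW.sub` in `Pool/Agent/H59/CW/Trans.lean` for `Fin n`.)
-/

namespace Pool.Agent.H59.MW

open Finset Pool.Agent.H59.CW

set_option linter.unusedSectionVars false

variable {α : Type*} [DecidableEq α] {U : Finset α} {A : Finset (Finset α)} {d w e s : ℕ}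

/-- support of a function on `U` -/
def paramSp (U : Finset α) (f : U → ZMod 2) : Finset α :=
  U.filter (fun i => ∃ h : i ∈ U, f ⟨i, h⟩ = 1)

theorem mem_paramSp {f : U → ZMod 2} {i : α} : i ∈ paramSp U f ↔ ∃ h : i ∈ U, f ⟨i, h⟩ = 1 := by
  unfold paramSp
  rw [Finset.mem_filter]
  exact ⟨fun h => h.2, fun h => ⟨h.1, h⟩⟩

theorem paramSp_add (f g : U → ZMod 2) : paramSp U (f + g) = symmDiff (paramSp U f) (paramSp U g) := by
  ext i
  rw [Finset.mem_symmDiff, mem_paramSp, mem_paramSp, mem_paramSp]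
  by_cases h : i ∈ U
  · have h1 := zadd_eq_one (f ⟨i, h⟩) (g ⟨i, h⟩)
    simp only [h, exists_true_left, Pi.add_apply]
    rw [h1]
    tauto
  · simp [h]

theorem paramSp_zero : paramSp U (0 : U → ZMod 2) = ∅ := by
  ext i
  rw [mem_paramSp]
  simp

theorem paramSp_inj {f g : U → ZMod 2} (h : paramSp U f = paramSp U g) : f = g := by
  have hz : ∀ a b : ZMod 2, (a = 1 ↔ b = 1) → a = b := by decide
  funext i
  apply hz
  have := Finset.ext_iff.1 h i.1
  rw [mem_paramSp, mem_paramSp] at this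
  simpa [i.2] using this

/-- the directions of a flat -/
def paramV (U : Finset α) (A : Finset (Finset α)) (hA : Flat A) (x₀ : Finset α) (hx₀ : x₀ ∈ A) :
    Submodule (ZMod 2) (U → ZMod 2) where
  carrier := {f | symmDiff x₀ (paramSp U f) ∈ A}
  zero_mem' := by
    rw [Set.mem_ofPred_eq, paramSp_zero]
    have : symmDiff x₀ (∅ : Finset α) = x₀ := symmDiff_bot x₀
    rw [this]
    exact hx₀
  add_mem' := by
    intro f g hf hg
    rw [Set.mem_ofPred_eq] at *
    rw [paramSp_add]
    have := hA.2 _ hf _ hx₀ _ hg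
    convert this using 1
    ext i
    simp only [mem_tri, Finset.mem_symmDiff]
    tauto
  smul_mem' := by
    intro c f hf
    have hc : c = 0 ∨ c = 1 := by
      revert c; decide
    rcases hc with rfl | rfl
    · rw [zero_smul, Set.mem_ofPred_eq, paramSp_zero]
      have : symmDiff x₀ (∅ : Finset α) = x₀ := symmDiff_bot x₀
      rw [this]
      exact hx₀
    · rw [one_smul]
      exact hf

theorem mem_paramV {hA : Flat A} {x₀ : Finset α} {hx₀ : x₀ ∈ A} {f : U → ZMod 2} :
    f ∈ paramV U A hA x₀ hx₀ ↔ symmDiff x₀ (paramSp U f) ∈ A := Iff.rfl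

theorem exists_sys (hU : ∀ x ∈ A, x ⊆ U) (hA : Flat A) (hd : A.card = 2 ^ d) :
    ∃ (a : α → Fin d → ZMod 2) (c : α → ZMod 2), Sys U A d a c := by
  obtain ⟨x₀, hx₀⟩ := hA.1
  set V := paramV U A hA x₀ hx₀ with hV
  have hsurj : ∀ y ∈ A, ∃ f ∈ V, symmDiff x₀ (paramSp U f) = y := by
    intro y hy
    have h1 : paramSp U (fun i => if (i : α) ∈ symmDiff x₀ y then 1 else 0) = symmDiff x₀ y := by
      ext i
      rw [mem_paramSp]
      constructor
      · rintro ⟨h, h1⟩
        by_contra hcon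
        simp [hcon] at h1
      · intro h
        have hi : i ∈ U := by
          rw [Finset.mem_symmDiff] at h
          rcases h with h | h
          · exact hU _ hx₀ h.1
          · exact hU _ hy h.1
        exact ⟨hi, by simp [h]⟩
    have h2 : symmDiff x₀ (symmDiff x₀ y) = y := symmDiff_symmDiff_cancel_left x₀ y
    refine ⟨fun i => if (i : α) ∈ symmDiff x₀ y then 1 else 0, ?_, ?_⟩
    · rw [hV, mem_paramV, h1, h2]
      exact hy
    · rw [h1, h2]
  have hinj : ∀ f g : U → ZMod 2, symmDiff x₀ (paramSp U f) = symmDiff x₀ (paramSp U g) → f = g := by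
    intro f g h
    apply paramSp_inj
    rw [← symmDiff_symmDiff_cancel_left x₀ (paramSp U f), h, symmDiff_symmDiff_cancel_left]
  have hcard : Nat.card V = 2 ^ d := by
    have h1 : Function.Bijective (fun f : V => (⟨symmDiff x₀ (paramSp U f.1), mem_paramV.1 f.2⟩ : {y // y ∈ A})) := by
      constructor
      · intro f g h
        exact Subtype.ext (hinj _ _ (congrArg Subtype.val h))
      · rintro ⟨y, hy⟩
        obtain ⟨f, hf, e⟩ := hsurj y hy
        exact ⟨⟨f, hf⟩, Subtype.ext e⟩
    rw [Nat.card_congr (Equiv.ofBijective _ h1), Nat.card_eq_fintype_card, Fintype.card_coe, hd]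
  have hfin : Module.finrank (ZMod 2) V = d := by
    have h1 : Nat.card V = Nat.card (ZMod 2) ^ Module.finrank (ZMod 2) V := Module.natCard_eq_pow_finrank
    rw [hcard, Nat.card_zmod] at h1
    exact (Nat.pow_right_injective le_rfl h1).symm
  let b : Module.Basis (Fin d) (ZMod 2) V := Module.finBasisOfFinrankEq (ZMod 2) V hfin
  let a : α → Fin d → ZMod 2 := fun i k => if h : i ∈ U then (b k : U → ZMod 2) ⟨i, h⟩ else 0
  let c : α → ZMod 2 := fun i => if i ∈ x₀ then 1 else 0
  have hF : ∀ (t : Fin d → ZMod 2) (i : α) (h : i ∈ U),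
      (((b.equivFun.symm t : V) : U → ZMod 2) ⟨i, h⟩) = a i ⬝ᵥ t := by
    intro t i h
    rw [Module.Basis.equivFun_symm_apply]
    simp only [a, dotProduct, h, dif_pos, Submodule.coe_sum, Finset.sum_apply, Submodule.coe_smul,
      Pi.smul_apply, smul_eq_mul]
    exact Finset.sum_congr rfl fun k _ => mul_comm _ _
  have hpt : ∀ t, pt U a c t = symmDiff x₀ (paramSp U (b.equivFun.symm t : V)) := by
    intro t
    ext i
    unfold pt
    rw [Finset.mem_filter, Finset.mem_symmDiff, mem_paramSp]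
    by_cases h : i ∈ U
    · have h1 := zadd_eq_one (a i ⬝ᵥ t) (c i)
      have h2 : c i = 1 ↔ i ∈ x₀ := by
        by_cases h3 : i ∈ x₀ <;> simp [c, h3]
      rw [h1, h2]
      simp only [h, exists_true_left, hF]
      tauto
    · have h3 : i ∉ x₀ := fun h4 => h (hU _ hx₀ h4)
      simp [h, h3]
  refine ⟨a, c, ⟨?_, ?_⟩⟩
  · intro t t' h
    rw [hpt, hpt] at h
    have h1 := hinj _ _ h
    exact b.equivFun.symm.injective (Subtype.ext h1)
  · intro x
    constructor
    · intro hx
      obtain ⟨f, hf, e⟩ := hsurj x hx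
      refine ⟨b.equivFun ⟨f, hf⟩, ?_⟩
      rw [hpt, LinearEquiv.symm_apply_apply, e]
    · rintro ⟨t, rfl⟩
      rw [hpt]
      exact mem_paramV.1 (b.equivFun.symm t : V).2

end Pool.Agent.H59.MW
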