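import Pool.Agent.H59.MW.HypA

/-!
# MW-HYPER: the choice of the blocks

`K = {b ∈ B : some row is {b}}` (`|K| ≤ q`). `J` = maximal set of pairwise disjoint rows of size 2 inside `B \ K`
(`Finset.exists_maximal` or `exists_max_image` on the powerset of `R`), `VJ = J.biUnion N` (`|VJ| = 2|J|`),
`Y₁ = B \ (K ∪ VJ)`, `R₁ = R.filter (N j ⊆ Y₁)`: its rows have size `≥ 3` (nonempty; a row of size 1 is inside
`K`; a row of size 2 inside `Y₁` could be added to `J`), and `|R₁| ≤ |Y₁|` by `hind`. Take `W, P` from `hyp1`,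
`Y = Y₁ \ W`. A row not in `J`, not in `P` and inside `Y` would be in `R₁` and miss `W`. Rows in `P` are inside `Y₁` and
disjoint from `W`. `J` and `P` are disjoint (sizes). Numbers: `|Y| = |Y₁| - |W|`,
`(3/4)|J| + (3/8)|P| + (1/2)(|Y| - |P|) = (3/4)|J| + (1/2)|Y₁| - ((1/2)|W| + (1/8)|P|) ≥ (3/4)|J| + (2/7)|Y₁|`,
`|Y₁| ≥ |B| - q - 2|J|`, and `3/4 ≥ 4/7`.
-/
namespace Pool.Agent.H59.MW

open Finset

variable {β ρ : Type*} [DecidableEq β] [DecidableEq ρ]

theorem hyper (B : Finset β) (R : Finset ρ) (N : ρ → Finset β) (q : ℕ)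
    (hN : ∀ j ∈ R, N j ⊆ B ∧ (N j).Nonempty)
    (hind : ∀ S ⊆ B, (R.filter (fun j => N j ⊆ S)).card ≤ S.card)
    (hq : (B.filter (fun b => ∃ j ∈ R, N j = {b})).card ≤ q) :
    ∃ (Y : Finset β) (J P : Finset ρ), Y ⊆ B ∧ J ⊆ R ∧ P ⊆ R ∧ Disjoint J P ∧
      (∀ j ∈ J, (N j).card = 2 ∧ Disjoint (N j) Y) ∧
      (∀ j ∈ J, ∀ l ∈ J, j ≠ l → Disjoint (N j) (N l)) ∧
      (∀ j ∈ P, 3 ≤ (N j).card ∧ N j ⊆ Y) ∧
      (∀ j ∈ P, ∀ l ∈ P, j ≠ l → Disjoint (N j) (N l)) ∧
      (∀ j ∈ R, j ∉ J → j ∉ P → ¬ N j ⊆ Y) ∧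
      (2 / 7 : ℝ) * (B.card - q) ≤
        3 / 4 * J.card + 3 / 8 * P.card + 1 / 2 * (Y.card - P.card) := by
  classical
  set K : Finset β := B.filter (fun b => ∃ j ∈ R, N j = {b}) with hK
  set good : Finset ρ → Prop := fun J =>
    (∀ j ∈ J, (N j).card = 2 ∧ N j ⊆ B \ K) ∧
      (∀ j ∈ J, ∀ l ∈ J, j ≠ l → Disjoint (N j) (N l)) with hgood
  have hne : (R.powerset.filter good).Nonempty :=
    ⟨∅, by simp [hgood]⟩
  obtain ⟨J, hJmem, hJmax⟩ := Finset.exists_max_image (R.powerset.filter good) Finset.card hne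
  rw [mem_filter, mem_powerset] at hJmem
  obtain ⟨hJR, hJ1, hJ2⟩ := hJmem
  set VJ : Finset β := J.biUnion N with hVJ
  set Y1 : Finset β := B \ (K ∪ VJ) with hY1
  set R1 : Finset ρ := R.filter (fun j => N j ⊆ Y1) with hR1
  have hY1B : Y1 ⊆ B := sdiff_subset
  have hY1K : ∀ x ∈ Y1, x ∉ K := by
    intro x hx hk
    rw [hY1, mem_sdiff, mem_union] at hx
    exact hx.2 (Or.inl hk)
  have hY1V : ∀ x ∈ Y1, x ∉ VJ := by
    intro x hx hk
    rw [hY1, mem_sdiff, mem_union] at hx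
    exact hx.2 (Or.inr hk)
  have hR1card : ∀ j ∈ R1, 3 ≤ (N j).card ∧ N j ⊆ Y1 := by
    intro j hj
    rw [hR1, mem_filter] at hj
    obtain ⟨hjR, hjY⟩ := hj
    refine ⟨?_, hjY⟩
    by_contra hlt
    have h1 : 0 < (N j).card := card_pos.mpr (hN j hjR).2
    have h12 : (N j).card = 1 ∨ (N j).card = 2 := by omega
    rcases h12 with h | h
    · obtain ⟨b, hb⟩ := card_eq_one.mp h
      have hbN : b ∈ N j := by rw [hb]; exact mem_singleton_self b
      refine hY1K b (hjY hbN) ?_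
      rw [hK, mem_filter]
      exact ⟨(hN j hjR).1 hbN, j, hjR, hb⟩
    · have hjJ : j ∉ J := by
        intro hjJ
        obtain ⟨b, hbN⟩ := (hN j hjR).2
        exact hY1V b (hjY hbN) (mem_biUnion.mpr ⟨j, hjJ, hbN⟩)
      have hdis : ∀ l ∈ J, Disjoint (N j) (N l) := by
        intro l hl
        rw [disjoint_left]
        intro x hx hx'
        exact hY1V x (hjY hx) (mem_biUnion.mpr ⟨l, hl, hx'⟩)
      have hins : insert j J ∈ R.powerset.filter good := by
        rw [mem_filter, mem_powerset]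
        refine ⟨insert_subset hjR hJR, ?_, ?_⟩
        · intro l hl
          rcases mem_insert.mp hl with rfl | hl
          · refine ⟨h, ?_⟩
            intro x hx
            rw [mem_sdiff]
            exact ⟨hY1B (hjY hx), hY1K x (hjY hx)⟩
          · exact hJ1 l hl
        · intro a ha b hb hab
          rcases mem_insert.mp ha with ha1 | ha1
          · rcases mem_insert.mp hb with hb1 | hb1
            · exact absurd (ha1.trans hb1.symm) hab
            · rw [ha1]
              exact hdis b hb1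
          · rcases mem_insert.mp hb with hb1 | hb1
            · rw [hb1]
              exact (hdis a ha1).symm
            · exact hJ2 a ha1 b hb1 hab
      have := hJmax _ hins
      rw [card_insert_of_notMem hjJ] at this
      omega
  have hR1le : R1.card ≤ Y1.card := hind Y1 hY1B
  obtain ⟨W, P, hPR1, hPdis, hPW, hPmiss, hWY, hnum⟩ := hyp1 Y1 R1 N hR1card hR1le
  refine ⟨Y1 \ W, J, P, sdiff_subset.trans hY1B, hJR, hPR1.trans (filter_subset _ _), ?_, ?_, hJ2,
    ?_, hPdis, ?_, ?_⟩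
  · rw [disjoint_left]
    intro j hj hjP
    have h1 := (hJ1 j hj).1
    have h2 := (hR1card j (hPR1 hjP)).1
    omega
  · intro j hj
    refine ⟨(hJ1 j hj).1, ?_⟩
    rw [disjoint_left]
    intro x hx hx'
    exact hY1V x (mem_sdiff.mp hx').1 (mem_biUnion.mpr ⟨j, hj, hx⟩)
  · intro j hj
    refine ⟨(hR1card j (hPR1 hj)).1, ?_⟩
    intro x hx
    rw [mem_sdiff]
    exact ⟨(hR1card j (hPR1 hj)).2 hx, disjoint_left.mp (hPW j hj) hx⟩
  · intro j hjR _ hjP hjY
    have hjR1 : j ∈ R1 := by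
      rw [hR1, mem_filter]
      exact ⟨hjR, hjY.trans sdiff_subset⟩
    refine hPmiss j hjR1 hjP ?_
    rw [disjoint_left]
    intro x hx
    exact (mem_sdiff.mp (hjY hx)).2
  · have hYc : ((Y1 \ W).card : ℝ) = Y1.card - W.card := by
      have h := card_sdiff_add_card_eq_card hWY
      have h' : (((Y1 \ W).card + W.card : ℕ) : ℝ) = Y1.card := by exact_mod_cast h
      push_cast at h'
      linarith
    have hVJc : VJ.card ≤ 2 * J.card := by
      calc VJ.card ≤ ∑ j ∈ J, (N j).card := card_biUnion_le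
        _ = ∑ j ∈ J, 2 := sum_congr rfl (fun j hj => (hJ1 j hj).1)
        _ = 2 * J.card := by rw [sum_const, smul_eq_mul, mul_comm]
    have hB : B.card ≤ Y1.card + (q + 2 * J.card) := by
      have h1 : B ⊆ Y1 ∪ (K ∪ VJ) := by
        intro x hx
        rw [mem_union, hY1, mem_sdiff]
        by_cases h : x ∈ K ∪ VJ
        · exact Or.inr h
        · exact Or.inl ⟨hx, h⟩
      calc B.card ≤ (Y1 ∪ (K ∪ VJ)).card := card_le_card h1
        _ ≤ Y1.card + (K ∪ VJ).card := card_union_le _ _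
        _ ≤ Y1.card + (K.card + VJ.card) := by
            have := card_union_le K VJ
            omega
        _ ≤ Y1.card + (q + 2 * J.card) := by omega
    have hB' : (B.card : ℝ) ≤ Y1.card + (q + 2 * J.card) := by exact_mod_cast hB
    have hJ0 : (0 : ℝ) ≤ J.card := Nat.cast_nonneg _
    rw [hYc]
    linarith

end Pool.Agent.H59.MW
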