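import Pool.Agent.H59.MW.Link
import Pool.Agent.H59.MW.Block
import Pool.Agent.H59.MW.Act
import Pool.Agent.H59.MW.Hyper

/-!
# MW-RANKL: the rank lemma

`N` from `sum_link`. Supports `Nsup j = univ.filter (fun b : ↥B => N j b ≠ 0)`; `hyper` with columns `univ : Finset ↥B`
(`|B| = d`), rows `R`, `q`: `Nsup j` nonempty since `a j ≠ 0` (`hRi`); `hind`: the rows `j ∈ R` with `Nsup j ⊆ S` are
independent vectors (`N` on `R` is independent because `a` is) supported in `S`, so at most `|S|`; `Nsup j = {b}` means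
`a j = a b`: `hq`. Get `Y, J, P`. `block` for `ε = 0, 1` (exchange the sums over `u` and over `j ∈ J`, `j ∈ P`) with
`act_two_zero`, `act_two_one`, `act_three`: with `ρY` = rank of the restrictions to `Y` of the rows of `R \ (J ∪ P)`:
`∑_u rke 0 ≥ 2^d (|J|/2 + 3|P|/16 + ρY/4)`, `∑_u rke 1 ≥ 2^d (|J|/4 + 3|P|/16 + ρY/4)`.
`ρY ≥ |Y| - (d - |R|) - |P|`: the restrictions to `Y` of all rows of `R` span a space of dimension at least
`|R| - (d - |Y|)` (independent rows; the kernel of the restriction has dimension `d - |Y|`); the rows of `J`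
restrict to `0`, the rows of `P` contribute at most `|P|`.
Sum of both: `≥ 2^d ((3/4)|J| + (3/8)|P| + (1/2)(|Y| - |P| - (d - |R|))) ≥ 2^d Φ`, and
`∑_u rke 0 ≥ 2^d (1/2)((3/4)|J| + (3/8)|P| + (1/2)ρY) ≥ 2^d Φ/2`. Finally `sum_link` for `ε = 0`
(`{i ∈ U : a i ⬝ᵥ h ≠ 0} = Ih U a h`) and `ε = 1` (`{i ∈ U : a i ⬝ᵥ h ≠ 1} = U \ Ih U a h`).
-/
namespace Pool.Agent.H59.MW

open Finset Pool.Agent.H59.CW

set_option linter.unusedSectionVars false

variable {α : Type*} [DecidableEq α] {d : ℕ}

theorem rkl_swap {C : Type*} [Fintype C] [DecidableEq C] (ε : ZMod 2) (T : Finset α)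
    (N : α → C → ZMod 2) :
    ∑ u : C → ZMod 2, ((T.filter (fun j => act ε u (N j))).card : ℝ)
      = ∑ j ∈ T, ((univ.filter (fun u : C → ZMod 2 => act ε u (N j))).card : ℝ) := by
  have e1 : ∀ u : C → ZMod 2, ((T.filter (fun j => act ε u (N j))).card : ℝ)
      = ∑ j ∈ T, (if act ε u (N j) then (1:ℝ) else 0) := fun u => by rw [Finset.sum_boole]
  have e2 : ∀ j, ((univ.filter (fun u : C → ZMod 2 => act ε u (N j))).card : ℝ)
      = ∑ u : C → ZMod 2, (if act ε u (N j) then (1:ℝ) else 0) := fun j => by rw [Finset.sum_boole]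
  simp only [e1, e2]
  exact Finset.sum_comm

theorem rkl_single {C : Type*} [Fintype C] [DecidableEq C] (S : Finset C) (v : C → ZMod 2)
    (h : ∀ b, b ∉ S → v b = 0) :
    v ∈ Submodule.span (ZMod 2) ((fun b => (Pi.single b 1 : C → ZMod 2)) '' (S : Set C)) := by
  have h1 : v = ∑ b ∈ S, v b • (Pi.single b 1 : C → ZMod 2) := by
    funext c
    rw [Finset.sum_apply]
    by_cases hc : c ∈ S
    · rw [Finset.sum_eq_single_of_mem c hc]
      · simp
      · intro b _ hbc
        simp [Pi.single_eq_of_ne (Ne.symm hbc)]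
    · rw [h c hc, Finset.sum_eq_zero]
      intro b hb
      have hbc : c ≠ b := fun h' => hc (h' ▸ hb)
      simp [Pi.single_eq_of_ne hbc]
  rw [h1]
  exact Submodule.sum_mem _ fun b hb => Submodule.smul_mem _ _ (Submodule.subset_span ⟨b, hb, rfl⟩)

theorem rkl_card_le {C : Type*} [Fintype C] [DecidableEq C] {N : α → C → ZMod 2} {T : Finset α}
    (hT : LinearIndepOn (ZMod 2) N (T : Set α)) (S : Finset C)
    (h : ∀ j ∈ T, ∀ b, b ∉ S → N j b = 0) : T.card ≤ S.card := by
  have h1 : Module.finrank (ZMod 2) (Submodule.span (ZMod 2) (N '' (T : Set α))) = T.card := by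
    have h2 := finrank_span_eq_card (R := ZMod 2) (b := fun j : T => N j) hT
    have h3 : Set.range (fun j : T => N j) = N '' (T : Set α) := by
      ext x
      simp
    rw [h3, Fintype.card_coe] at h2
    exact h2
  rw [← h1]
  refine le_trans (Submodule.finrank_mono (t := Submodule.span (ZMod 2)
    ((fun b => (Pi.single b 1 : C → ZMod 2)) '' (S : Set C))) ?_) (blk_card _ S)
  rw [Submodule.span_le]
  rintro _ ⟨j, hj, rfl⟩
  exact rkl_single S (N j) (h j hj)

theorem rank_lemma {U B R : Finset α} {a : α → Fin d → ZMod 2} (hB : B ⊆ U) (hR : R ⊆ U)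
    (hBR : Disjoint B R) (hBc : B.card = d) (hBi : LinearIndepOn (ZMod 2) a (B : Set α))
    (hRi : LinearIndepOn (ZMod 2) a (R : Set α)) (q : ℕ)
    (hq : (B.filter (fun b => ∃ j ∈ R, a j = a b)).card ≤ q) (Φ : ℝ)
    (hΦ : Φ = 2 / 7 * (d - q) - (d - R.card) / 2) :
    (2 : ℝ) ^ d * (d / 2 + Φ / 2) ≤ ∑ h : Fin d → ZMod 2, (rk a (Ih U a h) : ℝ) ∧
      (2 : ℝ) ^ d * (d + Φ) ≤
        ∑ h : Fin d → ZMod 2, ((rk a (Ih U a h) : ℝ) + rk a (U \ Ih U a h)) := by
  classical
  obtain ⟨N, hN, hsum⟩ := sum_link (U := U) (B := B) (R := R) (a := a) hB hR hBc hBi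
  have hcardB : Fintype.card B = d := by rw [Fintype.card_coe, hBc]
  have hNi : LinearIndepOn (ZMod 2) N (R : Set α) := by
    set L : (B → ZMod 2) →ₗ[ZMod 2] (Fin d → ZMod 2) :=
      { toFun := fun v => ∑ b : B, v b • a b
        map_add' := fun x y => by
          simp only [Pi.add_apply, add_smul, Finset.sum_add_distrib]
        map_smul' := fun c x => by
          simp only [Pi.smul_apply, smul_eq_mul, mul_smul, RingHom.id_apply, Finset.smul_sum] } with hL
    have h1 : LinearIndependent (ZMod 2) (L ∘ fun j : (R : Set α) => N j) := by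
      have h2 : (L ∘ fun j : (R : Set α) => N j) = fun j : (R : Set α) => a j := by
        funext j
        show ∑ b : B, N j b • a b = a j
        rw [← hN]
      rw [h2]
      exact hRi
    exact LinearIndependent.of_comp L h1
  have hone : ∀ x : ZMod 2, x ≠ 0 → x = 1 := by decide
  set Ns : α → Finset B := fun j => univ.filter (fun b : B => N j b ≠ 0) with hNs
  have hmemNs : ∀ j b, b ∈ Ns j ↔ N j b ≠ 0 := fun j b => by simp [hNs]
  obtain ⟨Y, J, P, hYB, hJR, hPR, hJP, hJ1, hJ2, hP1, hP2, hR3, hnum⟩ :=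
    hyper (univ : Finset B) R Ns q (by
      intro j hj
      refine ⟨Finset.subset_univ _, ?_⟩
      rw [Finset.nonempty_iff_ne_empty]
      intro he
      have h1 : a j = 0 := by
        rw [hN j]
        refine Finset.sum_eq_zero fun b _ => ?_
        have h2 : b ∉ Ns j := by rw [he]; exact Finset.notMem_empty b
        rw [hmemNs, not_not] at h2
        rw [h2, zero_smul]
      exact hRi.ne_zero hj h1) (by
      intro S _
      refine rkl_card_le (hNi.mono ?_) S ?_
      · intro j hj
        exact (Finset.mem_filter.1 (Finset.mem_coe.1 hj)).1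
      · intro j hj b hb
        have h1 := (Finset.mem_filter.1 hj).2
        by_contra h2
        exact hb (h1 ((hmemNs j b).2 h2))) (by
      refine le_trans ?_ hq
      rw [← Finset.card_map (Function.Embedding.subtype _)]
      refine Finset.card_le_card ?_
      intro x hx
      rw [Finset.mem_map] at hx
      obtain ⟨b, hb, rfl⟩ := hx
      obtain ⟨j, hj, hjb⟩ := (Finset.mem_filter.1 hb).2
      rw [Finset.mem_filter]
      refine ⟨b.2, j, hj, ?_⟩
      show a j = a b
      rw [hN j, Finset.sum_eq_single b]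
      · have h1 : b ∈ Ns j := by rw [hjb]; exact Finset.mem_singleton_self b
        rw [hone _ ((hmemNs j b).1 h1), one_smul]
      · intro c _ hcb
        have h1 : c ∉ Ns j := by rw [hjb, Finset.mem_singleton]; exact hcb
        rw [hmemNs, not_not] at h1
        rw [h1, zero_smul]
      · intro h
        exact absurd (Finset.mem_univ b) h)
  rw [Finset.card_univ, hcardB] at hnum
  -- hypotheses of `block`
  have zNs : ∀ j b, b ∉ Ns j → N j b = 0 := fun j b h => by
    rw [hmemNs, not_not] at h; exact h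
  have kJY : ∀ j ∈ J, ∀ b ∈ Y, N j b = 0 := fun j hj b hb =>
    zNs j b fun h => (Finset.disjoint_left.1 (hJ1 j hj).2) h hb
  have kPY : ∀ j ∈ P, ∀ b, b ∉ Y → N j b = 0 := fun j hj b hb =>
    zNs j b fun h => hb ((hP1 j hj).2 h)
  have kJd : ∀ j ∈ J, ∀ l ∈ J, j ≠ l → ∀ b, N j b = 0 ∨ N l b = 0 := fun j hj l hl hjl b => by
    by_cases h : b ∈ Ns j
    · exact Or.inr (zNs l b (Finset.disjoint_left.1 (hJ2 j hj l hl hjl) h))
    · exact Or.inl (zNs j b h)
  have kPd : ∀ j ∈ P, ∀ l ∈ P, j ≠ l → ∀ b, N j b = 0 ∨ N l b = 0 := fun j hj l hl hjl b => by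
    by_cases h : b ∈ Ns j
    · exact Or.inr (zNs l b (Finset.disjoint_left.1 (hP2 j hj l hl hjl) h))
    · exact Or.inl (zNs j b h)
  have kR : ∀ j ∈ R, j ∉ J → j ∉ P → ∃ b, b ∉ Y ∧ N j b ≠ 0 := fun j hj hjJ hjP => by
    have h1 := hR3 j hj hjJ hjP
    rw [Finset.not_subset] at h1
    obtain ⟨b, hb, hbY⟩ := h1
    exact ⟨b, hbY, (hmemNs j b).1 hb⟩
  have blk := fun ε => block ε R J P N Y hJR hPR hJP kJY kPY kJd kPd kR
  set rY : ℕ := Module.finrank (ZMod 2) (Submodule.span (ZMod 2)
        ((fun j => rst Y (N j)) '' {j | j ∈ R ∧ j ∉ J ∧ j ∉ P})) with hrY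
  -- the rank of the restrictions
  have hrho : R.card + Y.card ≤ rY + P.card + d := by
    have h1 := LinearMap.finrank_range_add_finrank_ker
      ((rstL Y).domRestrict (Submodule.span (ZMod 2) (N '' (R : Set α))))
    have h2 : Module.finrank (ZMod 2) (Submodule.span (ZMod 2) (N '' (R : Set α))) = R.card := by
      have h2 := finrank_span_eq_card (R := ZMod 2) (b := fun j : R => N j) hNi
      have h3 : Set.range (fun j : R => N j) = N '' (R : Set α) := by
        ext x
        simp
      rw [h3, Fintype.card_coe] at h2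
      exact h2
    have h3 : Module.finrank (ZMod 2) (LinearMap.ker
        ((rstL Y).domRestrict (Submodule.span (ZMod 2) (N '' (R : Set α))))) ≤ d - Y.card := by
      have h4 : Module.finrank (ZMod 2) (LinearMap.ker
          ((rstL Y).domRestrict (Submodule.span (ZMod 2) (N '' (R : Set α)))))
          = Module.finrank (ZMod 2) ((LinearMap.ker
          ((rstL Y).domRestrict (Submodule.span (ZMod 2) (N '' (R : Set α))))).map
            (Submodule.subtype _)) :=
        (Submodule.finrank_map_subtype_eq _ _).symm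
      rw [h4]
      refine le_trans (Submodule.finrank_mono (t := Submodule.span (ZMod 2)
        ((fun b => (Pi.single b 1 : B → ZMod 2)) '' ((Yᶜ : Finset B) : Set B))) ?_) ?_
      · rintro _ ⟨x, hx, rfl⟩
        refine rkl_single Yᶜ _ fun b hb => ?_
        rw [Finset.mem_compl, not_not] at hb
        rw [SetLike.mem_coe, LinearMap.mem_ker] at hx
        have h5 := congrFun hx b
        have h6 : rst Y (x : B → ZMod 2) b = 0 := h5
        simp only [rst, if_pos hb] at h6
        exact h6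
      · refine (blk_card _ _).trans ?_
        rw [Finset.card_compl, hcardB]
    have h5 : Module.finrank (ZMod 2) (LinearMap.range
        ((rstL Y).domRestrict (Submodule.span (ZMod 2) (N '' (R : Set α))))) ≤ rY + P.card := by
      rw [LinearMap.range_domRestrict]
      have h6 : (Submodule.span (ZMod 2) (N '' (R : Set α))).map (rstL Y) ≤
          Submodule.span (ZMod 2) ((fun j => rst Y (N j)) '' {j | j ∈ R ∧ j ∉ J ∧ j ∉ P}) ⊔
          Submodule.span (ZMod 2) ((fun j => rst Y (N j)) '' (P : Set α)) := by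
        rw [Submodule.map_span_le]
        rintro _ ⟨j, hj, rfl⟩
        show rst Y (N j) ∈ _
        by_cases hjJ : j ∈ J
        · have h7 : rst Y (N j) = 0 := by
            funext b
            simp only [rst, Pi.zero_apply]
            by_cases hb : b ∈ Y
            · simp [kJY j hjJ b hb]
            · simp [hb]
          rw [h7]
          exact Submodule.zero_mem _
        · by_cases hjP : j ∈ P
          · exact Submodule.mem_sup_right (Submodule.subset_span ⟨j, hjP, rfl⟩)
          · exact Submodule.mem_sup_left (Submodule.subset_span ⟨j, ⟨hj, hjJ, hjP⟩, rfl⟩)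
      refine (Submodule.finrank_mono h6).trans ((blk_sup_le _ _).trans ?_)
      exact Nat.add_le_add_left (blk_card _ _) _
    have h8 : Y.card ≤ d := by
      rw [← hcardB]
      exact Finset.card_le_univ Y
    omega
  have hrhoR : (R.card : ℝ) + Y.card ≤ rY + P.card + d := by exact_mod_cast hrho
  -- the numbers of active rows
  have cJ0 : ∑ u : B → ZMod 2, ((J.filter (fun j => act 0 u (N j))).card : ℝ)
      = J.card * (1 / 2 * 2 ^ d) := by
    rw [rkl_swap, Finset.sum_congr rfl fun j hj => act_two_zero (N j) (hJ1 j hj).1,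
      Finset.sum_const, nsmul_eq_mul, hcardB]
  have cJ1 : ∑ u : B → ZMod 2, ((J.filter (fun j => act 1 u (N j))).card : ℝ)
      = J.card * (1 / 4 * 2 ^ d) := by
    rw [rkl_swap, Finset.sum_congr rfl fun j hj => act_two_one (N j) (hJ1 j hj).1,
      Finset.sum_const, nsmul_eq_mul, hcardB]
  have cP : ∀ ε, P.card * (3 / 8 * 2 ^ d) ≤
      ∑ u : B → ZMod 2, ((P.filter (fun j => act ε u (N j))).card : ℝ) := by
    intro ε
    rw [rkl_swap]
    calc (P.card : ℝ) * (3 / 8 * 2 ^ d) = ∑ _j ∈ P, (3 / 8 * 2 ^ Fintype.card B : ℝ) := by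
          rw [Finset.sum_const, nsmul_eq_mul, hcardB]
      _ ≤ _ := Finset.sum_le_sum fun j hj => act_three ε (N j) (hP1 j hj).1
  have b0 := blk 0
  have b1 := blk 1
  rw [cJ0, hcardB] at b0
  rw [cJ1, hcardB] at b1
  have p0 := cP 0
  have p1 := cP 1
  have s0 := hsum 0
  have s1 := hsum 1
  have hD : (0:ℝ) < 2 ^ d := pow_pos two_pos d
  have e0 : ∀ h : Fin d → ZMod 2, U.filter (fun i => a i ⬝ᵥ h ≠ 0) = Ih U a h := by
    intro h
    unfold Ih
    refine Finset.filter_congr fun i _ => ⟨hone _, fun h1 => by rw [h1]; exact one_ne_zero⟩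
  have e1 : ∀ h : Fin d → ZMod 2, U.filter (fun i => a i ⬝ᵥ h ≠ 1) = U \ Ih U a h := by
    intro h
    unfold Ih
    ext i
    simp only [Finset.mem_filter, Finset.mem_sdiff, not_and]
    exact ⟨fun h1 => ⟨h1.1, fun _ => h1.2⟩, fun h1 => ⟨h1.1, h1.2 h1.1⟩⟩
  simp only [e0] at s0
  simp only [e1] at s1
  have hJ0 : (0:ℝ) ≤ J.card := Nat.cast_nonneg _
  have key : Φ ≤ 3 / 4 * J.card + 3 / 8 * P.card + 1 / 2 * rY := by
    rw [hΦ]
    linarith
  have q0 : (2:ℝ) ^ d * (J.card / 2 + 3 * P.card / 16 + rY / 4) ≤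
      ∑ u : B → ZMod 2, (rke 0 R N u : ℝ) := by
    refine le_trans ?_ b0
    nlinarith
  have q1 : (2:ℝ) ^ d * (J.card / 4 + 3 * P.card / 16 + rY / 4) ≤
      ∑ u : B → ZMod 2, (rke 1 R N u : ℝ) := by
    refine le_trans ?_ b1
    nlinarith
  constructor
  · refine le_trans ?_ s0
    have h1 : (2:ℝ) ^ d * (Φ / 2) ≤ 2 ^ d * (J.card / 2 + 3 * P.card / 16 + rY / 4) :=
      mul_le_mul_of_nonneg_left (by linarith) hD.le
    linarith
  · rw [Finset.sum_add_distrib]
    have h1 : (2:ℝ) ^ d * Φ ≤ 2 ^ d * (3 / 4 * J.card + 3 / 8 * P.card + 1 / 2 * rY) :=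
      mul_le_mul_of_nonneg_left key hD.le
    linarith

end Pool.Agent.H59.MW
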