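import Pool.Agent.H59.MW.Kap
import Pool.Agent.H59.MW.Param
import Pool.Agent.H59.MW.GlobB
import Pool.Agent.H59.MW.GlobC
import Pool.Agent.H59.MW.GlobD
import Pool.Agent.H59.MW.Fourier
import Pool.Agent.H59.MW.Dich
import Pool.Agent.H59.MW.DblC
import Pool.Agent.H59.MW.Edm
import Pool.Agent.H59.MW.RankL

/-!
# The minimal counterexample does not exist
-/

namespace Pool.Agent.H59.MW

open Finset Pool.Agent.H59.CW

set_option linter.unusedSectionVars false

variable {α : Type*} [DecidableEq α] {U : Finset α} {A : Finset (Finset α)} {d w e s : ℕ}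
  {a : α → Fin d → ZMod 2} {c : α → ZMod 2}

theorem card_G : (Fintype.card (Fin d → ZMod 2) : ℝ) = 2 ^ d := by
  simp

/-- the two bases, with the numbers -/
theorem MC.bases (h : MC U A d w e s) (hS : Sys U A d a c) :
    ∃ B J : Finset α, ∃ q : ℕ, B ⊆ U ∧ J ⊆ U ∧ Disjoint B J ∧ B.card = d ∧
      LinearIndepOn (ZMod 2) a (B : Set α) ∧ LinearIndepOn (ZMod 2) a (J : Set α) ∧
      (B.filter (fun b => ∃ j ∈ J, a j = a b)).card ≤ q ∧
      (((d : ℝ) - J.card) / 2 < 3 / 4 * e - 5 / 4) ∧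
      ((q : ℝ) = 0 ∨ ((4 : ℝ) * e - 1 ≤ s ∧ (q : ℝ) * (2 * e - 1) ≤ (2 * e - 1) + (e + 1) * s)) := by
  obtain ⟨B, J, F, hB, hJ, hF, hBJ, hBc, hBi, hJi, hn⟩ := edmonds_basis U a hS.span_top
  refine ⟨B, J, (B.filter (fun b => ∃ j ∈ J, a j = a b)).card, hB, hJ, hBJ, hBc, hBi, hJi,
    le_rfl, ?_, ?_⟩
  · have h1 := h.kap hS hF
    have h2 : ((U.card + 2 * rk a F : ℕ) : ℝ) ≤ ((d + J.card + F.card : ℕ) : ℝ) := by
      exact_mod_cast hn
    push_cast at h2
    linarith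
  · set K := B.filter (fun b => ∃ j ∈ J, a j = a b) with hK
    have key : 2 * K.card ≤ (Dbl U A).card := by
      have hc : ∀ b ∈ K, ∃ j ∈ J, a j = a b := by
        intro b hb
        rw [hK, Finset.mem_filter] at hb
        exact hb.2
      choose! f hf1 hf2 using hc
      have hinj : Set.InjOn f K := by
        intro x hx y hy hxy
        have e1 := hf2 x hx
        have e2 := hf2 y hy
        rw [hxy, e2] at e1
        have hxB : x ∈ B := (Finset.mem_filter.1 hx).1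
        have hyB : y ∈ B := (Finset.mem_filter.1 hy).1
        exact (hBi.injOn hyB hxB e1).symm
      have hdis : Disjoint K (K.image f) := by
        rw [Finset.disjoint_left]
        intro x hx hx'
        rw [Finset.mem_image] at hx'
        obtain ⟨y, hy, rfl⟩ := hx'
        exact Finset.disjoint_left.1 hBJ (Finset.mem_filter.1 hx).1 (hf1 y hy)
      have hpar : ∀ b ∈ K, Par A b (f b) := by
        intro b hb
        have hbU := hB (Finset.mem_filter.1 hb).1
        have hfU := hJ (hf1 b hb)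
        have hne : b ≠ f b := by
          intro hh
          exact Finset.disjoint_left.1 hBJ (Finset.mem_filter.1 hb).1 (by rw [hh]; exact hf1 b hb)
        exact hS.par_of_eq hbU hfU (hf2 b hb).symm (h.opp b hbU (f b) hfU hne)
      have hsub : K ∪ K.image f ⊆ Dbl U A := by
        intro x hx
        rw [Finset.mem_union, Finset.mem_image] at hx
        unfold Dbl
        rw [Finset.mem_filter]
        rcases hx with hx | ⟨y, hy, rfl⟩
        · refine ⟨hB (Finset.mem_filter.1 hx).1, f x, hJ (hf1 x hx), ?_, hpar x hx⟩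
          intro hh
          exact Finset.disjoint_left.1 hBJ (Finset.mem_filter.1 hx).1 (by rw [← hh]; exact hf1 x hx)
        · refine ⟨hJ (hf1 y hy), y, hB (Finset.mem_filter.1 hy).1, ?_,
            fun x hx => (hpar y hy x hx).symm⟩
          intro hh
          exact Finset.disjoint_left.1 hBJ (Finset.mem_filter.1 hy).1 (by rw [hh]; exact hf1 y hy)
      have := Finset.card_le_card hsub
      rw [Finset.card_union_of_disjoint hdis, Finset.card_image_of_injOn hinj] at this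
      omega
    rcases Finset.eq_empty_or_nonempty (Dbl U A) with h0 | h0
    · left
      rw [h0, Finset.card_empty] at key
      have : K.card = 0 := by omega
      rw [this]; simp
    · right
      have h1 := h.dbl_s h0
      have h2 := h.dbl_card
      have h3 : (2 * (K.card : ℝ)) ≤ (Dbl U A).card := by exact_mod_cast key
      have h4 : (4 : ℝ) * e ≤ s + 1 := by
        have : 4 * e ≤ s + 1 := by omega
        exact_mod_cast this
      have h5 : (2 : ℝ) ≤ e := by exact_mod_cast h.e2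
      refine ⟨by linarith, ?_⟩
      nlinarith

/-- bound for `1/μ` -/
theorem MC.inv_mu (h : MC U A d w e s) :
    (2 : ℝ) ^ d / cnt A w - 1 ≤ e / (48 / 10) := by
  have he := h.four_le
  have h1 := bt_inv (e := (e : ℤ)) (by exact_mod_cast he)
  have h2 := h.big
  have h3 := bt_pos (e : ℤ)
  have h4 : (0 : ℝ) < cnt A w := lt_trans (by positivity) h2
  have h5 : (2 : ℝ) ^ d / cnt A w ≤ 1 / bt e := by
    rw [div_le_div_iff₀ h4 h3]
    linarith
  push_cast at h1
  linarith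

/-- distance from the mean: second moment of the autocorrelation -/
theorem MC.var (h : MC U A d w e s) (hS : Sys U A d a c) :
    ∃ eps : ℝ, 0 ≤ eps ∧ eps * (2 * e - 1) ^ 2 * (48 / 10) ≤ e ∧
      ∑ v, (FF (Et U a c w) v - 1) ^ 2 ≤ 2 ^ d * eps ∧ ∑ v, FF (Et U a c w) v = 2 ^ d := by
  have he : (4 : ℝ) ≤ e := by exact_mod_cast h.four_le
  have hN : (0 : ℝ) < cnt A w := lt_trans (by have := bt_pos (e : ℤ); positivity) h.big
  have hcard : (Et U a c w).card = cnt A w := card_Et hS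
  have hne : (Et U a c w).Nonempty := by
    rw [← Finset.card_pos, hcard]; exact_mod_cast hN
  have h1 := sum_FF_sq hne (c := 1 / (2 * (e : ℝ) - 1)) (by
    apply div_nonneg zero_le_one; linarith) (by
    intro b hb
    have := h.unif_ch hS b hb
    rw [hcard, div_mul_eq_mul_div, one_mul, le_div_iff₀ (by linarith)]
    exact this.le)
  have h2 := h.inv_mu
  rw [hcard] at h1
  have hcl : (cnt A w : ℝ) ≤ 2 ^ d := by
    have : cnt A w ≤ A.card := Finset.card_filter_le _ _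
    rw [h.hd] at this
    exact_mod_cast this
  have h3 : (0 : ℝ) ≤ 2 ^ d / cnt A w - 1 := by
    rw [sub_nonneg, le_div_iff₀ hN]; linarith
  refine ⟨(2 ^ d / cnt A w - 1) * (1 / (2 * (e : ℝ) - 1)) ^ 2, by positivity, ?_, h1,
    sum_FF hne⟩
  have h4 : (2 * (e : ℝ) - 1) ≠ 0 := by linarith
  have : (2 ^ d / (cnt A w : ℝ) - 1) * (1 / (2 * (e : ℝ) - 1)) ^ 2 * (2 * e - 1) ^ 2 * (48 / 10) =
      (2 ^ d / (cnt A w : ℝ) - 1) * (48 / 10) := by
    field_simp
  rw [this]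
  linarith

/-- averaging against the majorant -/
theorem avg {E : Finset (Fin d → ZMod 2)} {eps G C : ℝ} (y : (Fin d → ZMod 2) → ℝ)
    (hC : 0 ≤ C)
    (h1 : ∑ v, (FF E v - 1) ^ 2 ≤ 2 ^ d * eps) (h2 : ∑ v, FF E v = 2 ^ d)
    (hy : ∀ v, y v ≤ G * (3 - 2 * FF E v) + C * (FF E v - 1) ^ 2) :
    ∑ v, y v ≤ 2 ^ d * (G + eps * C) := by
  have h3 : ∑ v, y v ≤ ∑ v, (G * (3 - 2 * FF E v) + C * (FF E v - 1) ^ 2) :=
    Finset.sum_le_sum (fun v _ => hy v)
  have h4 : ∑ v, (G * (3 - 2 * FF E v) + C * (FF E v - 1) ^ 2) =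
      G * (3 * 2 ^ d - 2 * ∑ v, FF E v) + C * ∑ v, (FF E v - 1) ^ 2 := by
    rw [Finset.sum_add_distrib, ← Finset.mul_sum, ← Finset.mul_sum, Finset.sum_sub_distrib,
      ← Finset.mul_sum, Finset.sum_const, Finset.card_univ, nsmul_eq_mul, card_G]
    ring
  rw [h4, h2] at h3
  have h5 := mul_le_mul_of_nonneg_left h1 hC
  linarith

theorem MC.d_ge (h : MC U A d w e s) : ((e : ℝ) - 1) * s + e ≤ d := by
  obtain ⟨h1, h2⟩ := h.s_pos
  have he := h.he
  have he2 := h.e2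
  obtain ⟨f, rfl⟩ : ∃ f, e = f + 1 := ⟨e - 1, by omega⟩
  have h3 : (2 * (f + 1) - 1) * s = 2 * (f * s) + s := by
    have : 2 * (f + 1) - 1 = 2 * f + 1 := by omega
    rw [this]; ring
  rw [h3] at h2
  have h4 : f * s + 1 ≤ w := by omega
  have h5 : f * s + (f + 1) ≤ d := by omega
  have h6 : ((f * s + (f + 1) : ℕ) : ℝ) ≤ d := by exact_mod_cast h5
  push_cast at h6 ⊢
  linarith

/-- normalisation of `FF` -/
theorem FF_le (hS : Sys U A d a c) {v : Fin d → ZMod 2} {X : ℝ} (hN : 0 < (cnt A w : ℝ))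
    (h1 : (((Et U a c w).filter (fun t => t + v ∈ Et U a c w)).card : ℝ) ≤ 2 ^ d * X) :
    FF (Et U a c w) v * ((cnt A w : ℝ) / 2 ^ d) ^ 2 ≤ X := by
  unfold FF
  rw [card_Et hS]
  have h2 : (0 : ℝ) < 2 ^ d := by positivity
  have e1 : (((Et U a c w).filter (fun t => t + v ∈ Et U a c w)).card : ℝ) * 2 ^ d /
      (cnt A w : ℝ) ^ 2 * ((cnt A w : ℝ) / 2 ^ d) ^ 2 =
      (((Et U a c w).filter (fun t => t + v ∈ Et U a c w)).card : ℝ) / 2 ^ d := by
    field_simp
  rw [e1, div_le_iff₀ h2]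
  linarith

/-- key inequality in case (N) -/
theorem key_N {e : ℤ} (he : 3 ≤ e) {F μ : ℝ} {g : ℤ} (hF : 0 ≤ F) (hμ : bt e < μ)
    (h1 : F * μ ^ 2 ≤ 1 / 2 * bt g) :
    F ^ 2 * (g + 1 / 4) ≤ (e + 27 / 100) ^ 2 / (4 * (12728 / 10000)) := by
  have b0 := bt_pos e
  have b1 := bt_upper g he
  have b2 := bt_lower he
  have he' : (3 : ℝ) ≤ e := by exact_mod_cast he
  rcases le_or_gt ((g : ℝ) + 1 / 4) 0 with h0 | h0
  · have : F ^ 2 * ((g : ℝ) + 1 / 4) ≤ 0 := mul_nonpos_of_nonneg_of_nonpos (sq_nonneg _) h0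
    refine this.trans (by positivity)
  · have h2 : F * bt e ^ 2 ≤ 1 / 2 * bt g := by
      refine le_trans ?_ h1
      apply mul_le_mul_of_nonneg_left _ hF
      apply pow_le_pow_left₀ b0.le hμ.le
    have h3 : (F * bt e ^ 2) ^ 2 ≤ (1 / 2 * bt g) ^ 2 :=
      pow_le_pow_left₀ (by positivity) h2 2
    have h4 : (F * bt e ^ 2) ^ 2 * ((g : ℝ) + 1 / 4) ≤ 1 / 4 * (bt e ^ 2 * (e + 27 / 100)) := by
      calc (F * bt e ^ 2) ^ 2 * ((g : ℝ) + 1 / 4) ≤ (1 / 2 * bt g) ^ 2 * ((g : ℝ) + 1 / 4) :=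
            mul_le_mul_of_nonneg_right h3 h0.le
        _ = 1 / 4 * (bt g ^ 2 * (g + 1 / 4)) := by ring
        _ ≤ _ := by linarith
    have h5 : F ^ 2 * ((g : ℝ) + 1 / 4) * bt e ^ 2 ≤ 1 / 4 * (e + 27 / 100) := by
      have h6 : (F ^ 2 * ((g : ℝ) + 1 / 4) * bt e ^ 2) * bt e ^ 2 ≤
          (1 / 4 * (e + 27 / 100)) * bt e ^ 2 := by nlinarith
      exact le_of_mul_le_mul_right h6 (by positivity)
    rw [le_div_iff₀ (by norm_num)]
    have h7 : F ^ 2 * ((g : ℝ) + 1 / 4) * (12728 / 10000) ≤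
        F ^ 2 * ((g : ℝ) + 1 / 4) * (bt e ^ 2 * (e + 27 / 100)) :=
      mul_le_mul_of_nonneg_left b2 (by positivity)
    have h8 : F ^ 2 * ((g : ℝ) + 1 / 4) * bt e ^ 2 * (e + 27 / 100) ≤
        1 / 4 * (e + 27 / 100) * (e + 27 / 100) :=
      mul_le_mul_of_nonneg_right h5 (by linarith)
    nlinarith

/-- key inequality in case (D) -/
theorem key_D {e : ℤ} (he : 3 ≤ e) {F μ : ℝ} {g : ℤ} (hF : 0 ≤ F) (hμ : bt e < μ)
    (h1 : F * μ ^ 2 ≤ bt e * bt (1 + g)) :
    F ^ 2 * (g + 5 / 4) ≤ e + 27 / 100 := by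
  have b0 := bt_pos e
  have b1 := bt_upper (1 + g) he
  push_cast at b1
  have he' : (3 : ℝ) ≤ e := by exact_mod_cast he
  rcases le_or_gt ((g : ℝ) + 5 / 4) 0 with h0 | h0
  · have : F ^ 2 * ((g : ℝ) + 5 / 4) ≤ 0 := mul_nonpos_of_nonneg_of_nonpos (sq_nonneg _) h0
    linarith
  · have h2 : F * bt e ≤ bt (1 + g) := by
      have h3 : F * bt e ^ 2 ≤ bt e * bt (1 + g) := by
        refine le_trans ?_ h1
        apply mul_le_mul_of_nonneg_left _ hF
        apply pow_le_pow_left₀ b0.le hμ.le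
      have h4 : (F * bt e) * bt e ≤ bt (1 + g) * bt e := by nlinarith
      exact le_of_mul_le_mul_right h4 b0
    have h3 : (F * bt e) ^ 2 ≤ (bt (1 + g)) ^ 2 := pow_le_pow_left₀ (by positivity) h2 2
    have h5 : (F ^ 2 * ((g : ℝ) + 5 / 4)) * bt e ^ 2 ≤ (e + 27 / 100) * bt e ^ 2 := by
      calc (F ^ 2 * ((g : ℝ) + 5 / 4)) * bt e ^ 2 = (F * bt e) ^ 2 * ((g : ℝ) + 5 / 4) := by ring
        _ ≤ (bt (1 + g)) ^ 2 * ((g : ℝ) + 5 / 4) := mul_le_mul_of_nonneg_right h3 h0.le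
        _ = bt (1 + g) ^ 2 * (1 + g + 1 / 4) := by ring
        _ ≤ _ := by linarith
    exact le_of_mul_le_mul_right h5 (by positivity)

end Pool.Agent.H59.MW
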