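import Pool.Agent.H59.MW.Fin

/-!
# The minimal counterexample does not exist (end)
-/

namespace Pool.Agent.H59.MW

open Finset Pool.Agent.H59.CW

set_option linter.unusedSectionVars false

variable {α : Type*} [DecidableEq α] {U : Finset α} {A : Finset (Finset α)} {d w e s : ℕ}
  {a : α → Fin d → ZMod 2} {c : α → ZMod 2}

theorem MC.N_pos (h : MC U A d w e s) : (0 : ℝ) < cnt A w :=
  lt_trans (by have := bt_pos (e : ℤ); positivity) h.big

theorem MC.mu_gt (h : MC U A d w e s) : bt e < (cnt A w : ℝ) / 2 ^ d := by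
  rw [lt_div_iff₀ (by positivity)]
  have := h.big
  linarith

theorem FF_nonneg (E : Finset (Fin d → ZMod 2)) (v : Fin d → ZMod 2) : 0 ≤ FF E v := by
  unfold FF; positivity

/-- case (N) -/
theorem MC.caseN (h : MC U A d w e s) (hS : Sys U A d a c) {eps : ℝ} (h0 : 0 ≤ eps)
    (h1 : eps * (2 * e - 1) ^ 2 * (48 / 10) ≤ e)
    (hv : ∑ v, (FF (Et U a c w) v - 1) ^ 2 ≤ 2 ^ d * eps)
    (hm : ∑ v, FF (Et U a c w) v = 2 ^ d)
    (hR : ((univ.filter (fun v => ∀ v', Bf U a v v' = 0)).card : ℝ) * (2 * e - 2) ^ 2 ≤ 2 ^ d) :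
    False := by
  obtain ⟨B, J, q, hB, hJ, hBJ, hBc, hBi, hJi, hq, hk, hq2⟩ := h.bases hS
  obtain ⟨-, hr2⟩ := rank_lemma hB hJ hBJ hBc hBi hJi q hq _ rfl
  set Φ : ℝ := 2 / 7 * (d - q) - (d - J.card) / 2 with hΦ
  have he4 : (4 : ℝ) ≤ e := by exact_mod_cast h.four_le
  have hs : (2 : ℝ) * e ≤ s := by exact_mod_cast h.s_ge
  have hd := h.d_ge
  set E := Et U a c w with hE
  set R := univ.filter (fun v => ∀ v', Bf U a v v' = 0) with hRdef
  set eta : ℝ := (R.card : ℝ) / 2 ^ d with heta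
  have h2d : (0 : ℝ) < 2 ^ d := by positivity
  have heta0 : 0 ≤ eta := by positivity
  have heta1 : eta * (2 * e - 2) ^ 2 ≤ 1 := by
    rw [heta, div_mul_eq_mul_div, div_le_one h2d]
    exact hR
  set G : ℝ := ((e : ℝ) + 27 / 100) ^ 2 / (4 * (12728 / 10000)) with hG
  set Y : ℝ := ((e : ℝ) - 1 + d) / 2 + 1 / 4 with hY
  set C : ℝ := 3 / 2 * Y + 2 * G with hC
  have hfin := fin_N (Φ := Φ) he4 hs hd hq2 (by rw [hΦ]; linarith) h0 h1 heta0 heta1 G Y hG hY
  have hG0 : 0 < G := by positivity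
  have hdge : 2 * (e : ℝ) ^ 2 - e ≤ d := by nlinarith
  have hY0 : 0 ≤ Y := by
    have : (0 : ℝ) ≤ d := Nat.cast_nonneg _
    rw [hY]; linarith
  have hC3 : 3 * G ≤ C := by
    have : G ≤ 3 / 2 * Y := by
      rw [hG, hY, div_le_iff₀ (by norm_num)]
      nlinarith
    linarith
  -- the function y
  set y : (Fin d → ZMod 2) → ℝ := fun v =>
    ((rk a (Ih U a v) : ℝ) + rk a (U \ Ih U a v) - w) / 2 + 1 / 4 with hy
  have hyY : ∀ v, y v ≤ Y := by
    intro v
    have r1 : (rk a (Ih U a v) : ℝ) ≤ d := by exact_mod_cast rk_le _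
    have r2 : (rk a (U \ Ih U a v) : ℝ) ≤ d := by exact_mod_cast rk_le _
    have r3 : (d : ℝ) + 1 = w + e := by exact_mod_cast h.he
    simp only [hy, hY]
    linarith
  have hmaj : ∀ v, y v - (if v ∈ R then Y else 0) ≤
      G * (3 - 2 * FF E v) + C * (FF E v - 1) ^ 2 := by
    intro v
    split_ifs with hvR
    · have := hyY v
      have h5 : 0 ≤ G * (3 - 2 * FF E v) + C * (FF E v - 1) ^ 2 := by
        have := maj_quad (F := FF E v) (y := 0) (Y := Y) hG0 hY0 (by simpa using hG0.le)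
          (le_refl _) hC3
        exact this
      linarith
    · have hv' : ∃ v', Bf U a v v' ≠ 0 := by
        rw [hRdef, Finset.mem_filter] at hvR
        push Not at hvR
        exact hvR (Finset.mem_univ _)
      obtain ⟨n1, n2⟩ := h.N_bound hS v hv'
      have hev := h.even_Ih hS v
      obtain ⟨m, hm2⟩ := hev
      rw [sub_zero]
      -- the larger of the two exponents
      have f1 := FF_le hS h.N_pos (X := 1 / 2 * bt ((rk a (Ih U a v) : ℤ) - (Ih U a v).card / 2))
        (n1.trans_eq (by ring))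
      have f2 := FF_le hS h.N_pos
        (X := 1 / 2 * bt ((rk a (U \ Ih U a v) : ℤ) - w + (Ih U a v).card / 2))
        (n2.trans_eq (by ring))
      have k1 := key_N (e := e) (by exact_mod_cast (by have := h.four_le; omega : 3 ≤ e))
        (FF_nonneg E v) h.mu_gt f1
      have k2 := key_N (e := e) (by exact_mod_cast (by have := h.four_le; omega : 3 ≤ e))
        (FF_nonneg E v) h.mu_gt f2
      have e3 : (((Ih U a v).card : ℤ) / 2) = m := by rw [hm2]; push_cast; omega
      rw [e3] at k1 k2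
      push_cast at k1 k2
      have hF2 : 0 ≤ FF E v ^ 2 := sq_nonneg _
      have hyk : FF E v ^ 2 * y v ≤ G := by
        have e4 : FF E v ^ 2 * y v = 1 / 2 * (FF E v ^ 2 * ((rk a (Ih U a v) : ℝ) - m + 1 / 4)) +
            1 / 2 * (FF E v ^ 2 * ((rk a (U \ Ih U a v) : ℝ) - w + m + 1 / 4)) := by
          simp only [hy]; ring
        rw [e4]
        linarith
      exact maj_quad hG0 (hyY v) hyk (le_refl _) hC3
  have hC0 : 0 ≤ C := by linarith
  have hav := avg (E := E) (fun v => y v - (if v ∈ R then Y else 0)) hC0 hv hm hmaj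
  have e5 : ∑ v, (y v - (if v ∈ R then Y else 0)) =
      1 / 2 * ∑ v, ((rk a (Ih U a v) : ℝ) + rk a (U \ Ih U a v)) +
        2 ^ d * (1 / 4 - w / 2) - R.card * Y := by
    rw [Finset.sum_sub_distrib]
    congr 1
    · have e6 : ∀ v, y v = 1 / 2 * ((rk a (Ih U a v) : ℝ) + rk a (U \ Ih U a v)) +
          (1 / 4 - w / 2) := by
        intro v; simp only [hy]; ring
      rw [Finset.sum_congr rfl (fun v _ => e6 v), Finset.sum_add_distrib, ← Finset.mul_sum,
        Finset.sum_const, Finset.card_univ, nsmul_eq_mul, card_G]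
    · rw [Finset.sum_ite_mem, Finset.univ_inter, Finset.sum_const, nsmul_eq_mul]
  rw [e5] at hav
  have e7 : (R.card : ℝ) * Y = 2 ^ d * (eta * Y) := by
    rw [heta]; field_simp
  rw [e7] at hav
  have r3 : (d : ℝ) + 1 = w + e := by exact_mod_cast h.he
  have e8 : (2 : ℝ) ^ d * (1 / 2 * (e - 1 + Φ) + 1 / 4 - eta * Y) ≤
      2 ^ d * (G + eps * C) := by
    refine le_trans ?_ hav
    have : (2 : ℝ) ^ d * (1 / 2 * (e - 1 + Φ) + 1 / 4 - eta * Y) =
      1 / 2 * (2 ^ d * (d + Φ)) + 2 ^ d * (1 / 4 - w / 2) - 2 ^ d * (eta * Y) := by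
      have : (e : ℝ) = d + 1 - w := by linarith
      rw [this]; ring
    rw [this]
    linarith
  have e9 := le_of_mul_le_mul_left e8 h2d
  rw [← hC] at hfin
  linarith

/-- case (D) -/
theorem MC.caseD (h : MC U A d w e s) (hS : Sys U A d a c) {eps : ℝ} (h0 : 0 ≤ eps)
    (h1 : eps * (2 * e - 1) ^ 2 * (48 / 10) ≤ e)
    (hv : ∑ v, (FF (Et U a c w) v - 1) ^ 2 ≤ 2 ^ d * eps)
    (hm : ∑ v, FF (Et U a c w) v = 2 ^ d)
    (hB0 : ∀ v v', Bf U a v v' = 0) (hQ : ∀ t, Qf U a c w t = 1) : False := by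
  obtain ⟨B, J, q, hB, hJ, hBJ, hBc, hBi, hJi, hq, hk, hq2⟩ := h.bases hS
  obtain ⟨hr1, -⟩ := rank_lemma hB hJ hBJ hBc hBi hJi q hq _ rfl
  set Φ : ℝ := 2 / 7 * (d - q) - (d - J.card) / 2 with hΦ
  have he5 : (5 : ℝ) ≤ e := by exact_mod_cast h.five_le (h.no_ser_of_Q hS hQ)
  have hs : (2 : ℝ) * e ≤ s := by exact_mod_cast h.s_ge
  have hd := h.d_ge
  set E := Et U a c w with hE
  have h2d : (0 : ℝ) < 2 ^ d := by positivity
  set G : ℝ := (e : ℝ) + 27 / 100 with hG
  set Y : ℝ := (d : ℝ) / 2 + 5 / 4 with hY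
  set C : ℝ := 3 / 2 * Y + 2 * G with hC
  have hfin := fin_D (Φ := Φ) he5 hs hd hq2 (by rw [hΦ]; linarith) h0 h1 G Y hG hY
  have hG0 : 0 < G := by rw [hG]; linarith
  have hdge : 2 * (e : ℝ) ^ 2 - e ≤ d := by nlinarith
  have hY0 : 0 ≤ Y := by
    have : (0 : ℝ) ≤ d := Nat.cast_nonneg _
    rw [hY]; linarith
  have hC3 : 3 * G ≤ C := by
    have : G ≤ 3 / 2 * Y := by
      rw [hG, hY]
      nlinarith
    linarith
  have hC0 : 0 ≤ C := by linarith
  set y : (Fin d → ZMod 2) → ℝ := fun v =>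
    (rk a (Ih U a v) : ℝ) - (Ih U a v).card / 2 + 5 / 4 with hy
  have hyY : ∀ v, y v ≤ Y := by
    intro v
    have r1 : (rk a (Ih U a v) : ℝ) ≤ d := by exact_mod_cast rk_le _
    have r2 : (rk a (Ih U a v) : ℝ) ≤ (Ih U a v).card := by exact_mod_cast rk_le_card _
    simp only [hy, hY]
    linarith
  have hmaj : ∀ v, y v ≤ G * (3 - 2 * FF E v) + C * (FF E v - 1) ^ 2 := by
    intro v
    by_cases hv0 : v = 0
    · have hI : Ih U a v = ∅ := by
        rw [hv0]; unfold Ih
        apply Finset.filter_eq_empty_iff.2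
        intro i _
        simp
      have r2 : (rk a (Ih U a v) : ℝ) ≤ (Ih U a v).card := by exact_mod_cast rk_le_card _
      have e1 : y v ≤ 5 / 4 := by
        simp only [hy]
        rw [hI] at r2 ⊢
        simp at r2 ⊢
        linarith
      refine e1.trans ?_
      have h8 : 2 * G * (FF E v - 1) ^ 2 ≤ C * (FF E v - 1) ^ 2 :=
        mul_le_mul_of_nonneg_right (by linarith) (sq_nonneg _)
      have h9 : 0 ≤ G * (2 * (FF E v - 1) - 1) ^ 2 := mul_nonneg hG0.le (sq_nonneg _)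
      have h10 : 5 / 4 ≤ G / 2 := by rw [hG]; linarith
      nlinarith
    · have n1 := h.D_bound hS (SO_of hS hB0) v hv0
      obtain ⟨m, hm2⟩ := h.even_Ih hS v
      have f1 := FF_le hS h.N_pos n1
      have e3 : (((Ih U a v).card : ℤ) / 2) = m := by rw [hm2]; push_cast; omega
      rw [e3] at f1
      have f1' : FF E v * ((cnt A w : ℝ) / 2 ^ d) ^ 2 ≤
          bt e * bt (1 + ((rk a (Ih U a v) : ℤ) - m)) := by
        rw [show (1 : ℤ) + ((rk a (Ih U a v) : ℤ) - m) = 1 + (rk a (Ih U a v) : ℤ) - m by ring]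
        exact f1
      have k1 := key_D (e := e) (by exact_mod_cast (by have := h.four_le; omega : 3 ≤ e))
        (FF_nonneg E v) h.mu_gt f1'
      push_cast at k1
      have e5 : ((Ih U a v).card : ℝ) / 2 = m := by rw [hm2]; push_cast; ring
      have hyk : FF E v ^ 2 * y v ≤ G := by
        simp only [hy]
        rw [e5]
        exact k1
      exact maj_quad hG0 (hyY v) hyk (le_refl _) hC3
  have hav := avg (E := E) y hC0 hv hm hmaj
  have e5 : ∑ v, y v = ∑ v, (rk a (Ih U a v) : ℝ) - 2 ^ d * (U.card / 4) +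
      2 ^ d * (5 / 4) := by
    simp only [hy]
    rw [Finset.sum_add_distrib, Finset.sum_sub_distrib, ← Finset.sum_div, h.sum_card_Ih hS,
      Finset.sum_const, Finset.card_univ, nsmul_eq_mul, card_G]
    ring
  rw [e5] at hav
  have r3 : (d : ℝ) + 1 = w + e := by exact_mod_cast h.he
  have r4 : (U.card : ℝ) = 2 * w + s := by exact_mod_cast h.hn
  have e8 : (2 : ℝ) ^ d * (Φ / 2 - s / 4 + e / 2 + 3 / 4) ≤ 2 ^ d * (G + eps * C) := by
    refine le_trans ?_ hav
    have : (2 : ℝ) ^ d * (Φ / 2 - s / 4 + e / 2 + 3 / 4) =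
      2 ^ d * (d / 2 + Φ / 2) - 2 ^ d * (U.card / 4) + 2 ^ d * (5 / 4) := by
      rw [r4]
      have : (e : ℝ) = d + 1 - w := by linarith
      rw [this]; ring
    rw [this]
    linarith
  have e9 := le_of_mul_le_mul_left e8 h2d
  rw [← hC] at hfin
  linarith

/-- There is no minimal counterexample. -/
theorem MC.false (h : MC U A d w e s) : False := by
  obtain ⟨a, c, hS⟩ := exists_sys h.hU h.hA h.hd
  obtain ⟨eps, h0, h1, hv, hm⟩ := h.var hS
  have he4 : (4 : ℝ) ≤ e := by exact_mod_cast h.four_le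
  have hcard : (Et U a c w).card = cnt A w := card_Et hS
  have hne : (Et U a c w).Nonempty := by
    rw [← Finset.card_pos, hcard]; exact_mod_cast h.N_pos
  have hpos : (0 : ℝ) < 2 * e - 1 := by linarith
  have hc1 : 1 / (2 * (e : ℝ) - 1) < 1 := by
    rw [div_lt_one hpos]; linarith
  have hd := dich hne (c := 1 / (2 * (e : ℝ) - 1)) (by positivity) hc1 (by
      intro b hb
      have := h.unif_ch hS b hb
      rw [hcard, div_mul_eq_mul_div, one_mul, lt_div_iff₀ hpos]
      exact this) (Qf U a c w) (by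
      intro t; unfold Qf; split_ifs <;> simp) (by
      intro t ht
      unfold Et at ht
      rw [Finset.mem_filter] at ht
      unfold Qf
      rw [ht.2]; simp) (Bf U a) (fun t v v' => h.quad hS t v v') (fun v t t' => Bf_add v t t')
  rcases hd with ⟨hB0, hQ⟩ | hR
  · exact h.caseD hS h0 h1 hv hm hB0 hQ
  · apply h.caseN hS h0 h1 hv hm
    have e1 : (1 - 1 / (2 * (e : ℝ) - 1)) = (2 * e - 2) / (2 * e - 1) := by
      field_simp; ring
    rw [e1, div_pow, div_pow, one_pow, mul_div_assoc', div_mul_eq_mul_div, one_mul,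
      div_lt_div_iff_of_pos_right (by positivity)] at hR
    exact hR.le

end Pool.Agent.H59.MW
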