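import Pool.Agent.H59.MW.Defs

/-!
# MW-PARAM2: simple facts about a parametrised flat

* `Sys.span_top`: if the span of `a '' U` is a proper subspace of `Fin d → ZMod 2` then some nonzero linear
  functional vanishes on it (`Submodule.exists_le_ker_of_lt_top`), every functional on `Fin d → ZMod 2` is
  `v ↦ v ⬝ᵥ h`, so some `h ≠ 0` has `a i ⬝ᵥ h = 0` for all `i ∈ U`; `Ih U a h = ∅`, `pt (t + h) = pt t`
  (`pt_add`), contradicting injectivity.
* `Sys.sum_char`: `b ∈ span (a '' U)` (`Sys.span_top`); the vectors of the form `∑_{i ∈ T} a i`, `T ⊆ U`, are a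
  submodule (`∑_T + ∑_T' = ∑_{symmDiff T T'}` in characteristic 2), so `b = ∑_{i ∈ T} a i`. Then
  `|pt t ∩ T| = ∑_{i ∈ T} (a i ⬝ᵥ t + c i) = b ⬝ᵥ t + ∑_{i∈T} c i` in `ZMod 2` (each summand is 1 if
  `i ∈ pt t` and 0 otherwise).
* `Sys.per_iff`: `pt_add`, surjectivity and `symmDiff` cancellation.
* `Sys.a_ne_zero`: if `a i = 0` the coordinate `i` is constant on `A`.
* `Sys.par_of_eq`: if `a i = a j` then either `c i = c j` (parallel) or `c i ≠ c j` (always different).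
-/

namespace Pool.Agent.H59.MW

open Finset Pool.Agent.H59.CW

set_option linter.unusedSectionVars false

variable {α : Type*} [DecidableEq α] {U : Finset α} {A : Finset (Finset α)} {d w e s : ℕ}
  {a : α → Fin d → ZMod 2} {c : α → ZMod 2}

theorem p2_mem (_ : Sys U A d a c) {i : α} (hi : i ∈ U) (t : Fin d → ZMod 2) :
    i ∈ pt U a c t ↔ a i ⬝ᵥ t + c i = 1 := by
  rw [pt, Finset.mem_filter]
  exact ⟨fun h1 => h1.2, fun h1 => ⟨hi, h1⟩⟩

theorem Sys.span_top (h : Sys U A d a c) :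
    Submodule.span (ZMod 2) (a '' (U : Set α)) = ⊤ := by
  by_contra hne
  obtain ⟨f, hf0, hfk⟩ := Submodule.exists_le_ker_of_lt_top _ (lt_top_iff_ne_top.2 hne)
  set g : Fin d → ZMod 2 := fun i => f (fun j => if i = j then 1 else 0) with hg
  have hfg : ∀ v : Fin d → ZMod 2, f v = v ⬝ᵥ g := by
    intro v
    rw [LinearMap.pi_apply_eq_sum_univ f v]
    rfl
  have h1 : Ih U a g = ∅ := by
    rw [Ih, Finset.filter_eq_empty_iff]
    intro i hi
    have h2 : a i ∈ LinearMap.ker f := hfk (Submodule.subset_span ⟨i, hi, rfl⟩)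
    rw [LinearMap.mem_ker, hfg] at h2
    rw [h2]
    decide
  have h3 : pt U a c (0 + g) = pt U a c 0 := by
    rw [pt_add, h1]
    exact symmDiff_bot _
  have h4 := h.inj h3
  rw [zero_add] at h4
  apply hf0
  apply LinearMap.ext
  intro v
  rw [hfg, h4, dotProduct_zero]
  rfl

theorem p2_z (x : ZMod 2) : (if x = 1 then (1 : ZMod 2) else 0) = x := by
  revert x; decide

theorem Sys.sum_char (h : Sys U A d a c) (b : Fin d → ZMod 2) :
    ∃ T ⊆ U, ∃ c0 : ZMod 2, (∀ t, (((pt U a c t) ∩ T).card : ZMod 2) = b ⬝ᵥ t + c0) ∧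
      b = ∑ i ∈ T, a i := by
  have hb : b ∈ Submodule.span (ZMod 2) (a '' (U : Set α)) := by
    rw [h.span_top]
    trivial
  rw [Submodule.mem_span_image_finset_iff_exists_fun] at hb
  obtain ⟨k', hk'⟩ := hb
  obtain ⟨k, hk⟩ : ∃ k : α → ZMod 2, ∑ i ∈ U, k i • a i = b := by
    refine ⟨fun i => if hi : i ∈ U then k' ⟨i, hi⟩ else 0, ?_⟩
    rw [← hk', ← Finset.sum_attach, ← Finset.univ_eq_attach]
    refine Finset.sum_congr rfl fun i _ => ?_
    have h1 : (fun j => if hj : j ∈ U then k' ⟨j, hj⟩ else 0) i.1 = k' i := dif_pos i.2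
    rw [h1]
  have hT : b = ∑ i ∈ U.filter (fun i => k i = 1), a i := by
    rw [← hk, Finset.sum_filter]
    refine Finset.sum_congr rfl fun i _ => ?_
    have h1 : ∀ x : ZMod 2, x = 1 ∨ x = 0 := by decide
    rcases h1 (k i) with h2 | h2
    · rw [h2, if_pos rfl, one_smul]
    · rw [h2, if_neg (by decide), zero_smul]
  refine ⟨U.filter (fun i => k i = 1), Finset.filter_subset _ _,
    ∑ i ∈ U.filter (fun i => k i = 1), c i, ?_, hT⟩
  intro t
  set T := U.filter (fun i => k i = 1) with hTdef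
  have h1 : pt U a c t ∩ T = T.filter (fun i => a i ⬝ᵥ t + c i = 1) := by
    ext i
    constructor
    · intro h4
      obtain ⟨h2, h3⟩ := Finset.mem_inter.1 h4
      exact Finset.mem_filter.2 ⟨h3, (p2_mem h (Finset.filter_subset _ _ h3) t).1 h2⟩
    · intro h4
      obtain ⟨h3, h2⟩ := Finset.mem_filter.1 h4
      exact Finset.mem_inter.2 ⟨(p2_mem h (Finset.filter_subset _ _ h3) t).2 h2, h3⟩
  rw [h1, Finset.card_filter, Nat.cast_sum]
  have h2 : ∀ i ∈ T, (((if a i ⬝ᵥ t + c i = 1 then 1 else 0 : ℕ)) : ZMod 2) = a i ⬝ᵥ t + c i := by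
    intro i _
    rw [Nat.cast_ite, Nat.cast_one, Nat.cast_zero]
    exact p2_z _
  rw [Finset.sum_congr rfl h2, Finset.sum_add_distrib, hT, sum_dotProduct]

theorem Sys.per_iff (h : Sys U A d a c) (z : Finset α) : Per A z ↔ ∃ t, Ih U a t = z := by
  constructor
  · intro hz
    have h1 : symmDiff (pt U a c 0) z ∈ A := hz _ ((h.im _).2 ⟨0, rfl⟩)
    obtain ⟨t, ht⟩ := (h.im _).1 h1
    refine ⟨t, ?_⟩
    rw [← zero_add t, pt_add] at ht
    exact symmDiff_right_injective _ ht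
  · rintro ⟨t, rfl⟩ x hx
    obtain ⟨s, rfl⟩ := (h.im _).1 hx
    rw [← pt_add]
    exact (h.im _).2 ⟨_, rfl⟩

theorem Sys.a_ne_zero (h : Sys U A d a c) {i : α} (hi : i ∈ U) (he : Ess A i) : a i ≠ 0 := by
  intro h0
  obtain ⟨⟨x, hx, hix⟩, ⟨y, hy, hiy⟩⟩ := he
  obtain ⟨s, rfl⟩ := (h.im _).1 hx
  obtain ⟨t, rfl⟩ := (h.im _).1 hy
  rw [p2_mem h hi, h0, zero_dotProduct] at hix hiy
  exact hiy hix

theorem p2_z3 (x p q : ZMod 2) (h : x + p = 1 ↔ x + q = 1) : p = q := by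
  revert x p q; decide

theorem Sys.par_of_eq (h : Sys U A d a c) {i j : α} (hi : i ∈ U) (hj : j ∈ U)
    (hij : a i = a j) (hopp : ¬ ∀ x ∈ A, ¬ (i ∈ x ↔ j ∈ x)) : Par A i j := by
  push Not at hopp
  obtain ⟨x, hx, hiff⟩ := hopp
  have hiff' : i ∈ x ↔ j ∈ x := by tauto
  obtain ⟨s, rfl⟩ := (h.im _).1 hx
  rw [p2_mem h hi, p2_mem h hj, hij] at hiff'
  have hc := p2_z3 _ _ _ hiff'
  intro y hy
  obtain ⟨t, rfl⟩ := (h.im _).1 hy
  rw [p2_mem h hi, p2_mem h hj, hij, hc]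

end Pool.Agent.H59.MW
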