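import Pool.Agent.H59.MW.Cell
import Pool.Agent.H59.MW.Param2
import Pool.Agent.H59.MW.FBase

/-!
# MW-GLOBA: the parametrised picture

`Et` = parameters of the members of size `w`; `Qf t = 1` iff `|pt t| = w mod 4`; `Bf h h' = |Ih h ∩ Ih h'| mod 2`.
* `card_Et`: `pt` is a bijection from `Fin d → ZMod 2` onto `A`.
* `Ih_add`: `Ih (h+h') = symmDiff (Ih h) (Ih h')` (as `pt_add`); `Bf_add`: `|X ∩ (Y △ Z)| = |X ∩ Y| + |X ∩ Z|` mod 2.
* `card_pt_add`: `|x △ y| = |x| + |y| - 2|x ∩ y|`.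
* `MC.even_Ih`: `card_pt_add` and `MC.par`.
* `MC.quad`: all `|pt t| - w` are even (`MC.par`). With `P = pt t`, `X = Ih h`, `Y = Ih h'`:
  `|P △ X △ Y| - |P △ X| - |P △ Y| + |P| = -2|X ∩ Y| + 4|P ∩ X ∩ Y|` (`card_pt_add` twice and
  `|(P △ X) ∩ Y| = |P ∩ Y| + |X ∩ Y| - 2|P ∩ X ∩ Y|`). So the sum of the four numbers `(|·| - w)/2` is
  `|X ∩ Y|` modulo 2, and `Qf = (-1)^((|·|-w)/2)`.
* `SO_of`: `Sys.per_iff`.
* `MC.sum_card_Ih`: exchange the sums; for `i ∈ U`, `a i ≠ 0` (`Sys.a_ne_zero`, `MC.ess`), and `a i ⬝ᵥ v = 1` for half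
  of the `v` (`sum_ch (b := a i)`, `ch`).
* `MC.no_ser_of_Q`: if `Per A {i,j}` then for every `x ∈ A` also `symmDiff x {i,j} ∈ A`; the sizes differ by
  `0` or `±2` and both are `w mod 4`, so by `0`: exactly one of `i,j` is in `x`, for all `x ∈ A`: contradiction with
  `MC.opp`.
-/

namespace Pool.Agent.H59.MW

open Finset Pool.Agent.H59.CW

set_option linter.unusedSectionVars false

variable {α : Type*} [DecidableEq α] {U : Finset α} {A : Finset (Finset α)} {d w e s : ℕ}
  {a : α → Fin d → ZMod 2} {c : α → ZMod 2}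

/-- parameters of the members of size `w` -/
def Et (U : Finset α) (a : α → Fin d → ZMod 2) (c : α → ZMod 2) (w : ℕ) :
    Finset (Fin d → ZMod 2) := univ.filter (fun t => (pt U a c t).card = w)

/-- `1` if the size is `w` modulo `4`, `-1` otherwise -/
noncomputable def Qf (U : Finset α) (a : α → Fin d → ZMod 2) (c : α → ZMod 2) (w : ℕ)
    (t : Fin d → ZMod 2) : ℝ := if (((pt U a c t).card : ℤ) - w) % 4 = 0 then 1 else -1

/-- the Gram form -/
def Bf (U : Finset α) (a : α → Fin d → ZMod 2) (h h' : Fin d → ZMod 2) : ZMod 2 :=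
  ((Ih U a h ∩ Ih U a h').card : ZMod 2)

theorem card_Et (hS : Sys U A d a c) : (Et U a c w).card = cnt A w := by
  unfold Et cnt
  apply Finset.card_bij (fun t _ => pt U a c t)
  · intro t ht
    rw [Finset.mem_filter] at ht ⊢
    exact ⟨(hS.im _).2 ⟨t, rfl⟩, ht.2⟩
  · intro t _ t' _ h
    exact hS.inj h
  · intro x hx
    rw [Finset.mem_filter] at hx
    obtain ⟨t, rfl⟩ := (hS.im _).1 hx.1
    exact ⟨t, by rw [Finset.mem_filter]; exact ⟨Finset.mem_univ _, hx.2⟩, rfl⟩

theorem Ih_add (t t' : Fin d → ZMod 2) :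
    Ih U a (t + t') = symmDiff (Ih U a t) (Ih U a t') := by
  ext i
  simp only [Ih, Finset.mem_filter, Finset.mem_symmDiff, dotProduct_add]
  have h1 := zadd_eq_one (a i ⬝ᵥ t) (a i ⬝ᵥ t')
  tauto

theorem card_symm (x y : Finset α) :
    ((symmDiff x y).card : ℤ) = x.card + y.card - 2 * (x ∩ y).card := by
  have h1 : (symmDiff x y).card = (x \ y).card + (y \ x).card := by
    rw [symmDiff_def]
    apply Finset.card_union_of_disjoint
    exact disjoint_sdiff_sdiff
  have h2 := Finset.card_sdiff_add_card_inter x y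
  have h3 := Finset.card_sdiff_add_card_inter y x
  rw [Finset.inter_comm y x] at h3
  omega

theorem inter_symm (x y z : Finset α) :
    x ∩ symmDiff y z = symmDiff (x ∩ y) (x ∩ z) := by
  ext i
  simp only [Finset.mem_inter, Finset.mem_symmDiff]
  tauto

theorem Bf_add (h t t' : Fin d → ZMod 2) : Bf U a h (t + t') = Bf U a h t + Bf U a h t' := by
  unfold Bf
  rw [Ih_add, inter_symm]
  have h1 := card_symm (Ih U a h ∩ Ih U a t) (Ih U a h ∩ Ih U a t')
  have h2 := congrArg (fun z : ℤ => (z : ZMod 2)) h1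
  simp only [Int.cast_natCast, Int.cast_sub, Int.cast_add, Int.cast_mul, Int.cast_ofNat] at h2
  rw [h2]
  have h3 : (2 : ZMod 2) = 0 := by decide
  rw [h3, zero_mul, sub_zero]

theorem MC.pt_mod (h : MC U A d w e s) (hS : Sys U A d a c) (t : Fin d → ZMod 2) :
    (((pt U a c t).card : ℤ) - w) % 2 = 0 := by
  have h1 := h.par _ ((hS.im _).2 ⟨t, rfl⟩)
  rw [Nat.odd_iff, Nat.odd_iff] at h1
  omega

theorem MC.even_Ih (h : MC U A d w e s) (hS : Sys U A d a c) (t : Fin d → ZMod 2) :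
    Even (Ih U a t).card := by
  have h1 := h.pt_mod hS 0
  have h2 := h.pt_mod hS (0 + t)
  have h3 := card_symm (pt U a c 0) (Ih U a t)
  rw [← pt_add] at h3
  rw [Nat.even_iff]
  omega

theorem MC.quad (h : MC U A d w e s) (hS : Sys U A d a c) (t v v' : Fin d → ZMod 2) :
    Qf U a c w t * Qf U a c w (t + v) * Qf U a c w (t + v') * Qf U a c w (t + v + v') =
      sg (Bf U a v v') := by
  have e0 := h.pt_mod hS t
  have e1 := h.pt_mod hS (t + v)
  have e2 := h.pt_mod hS (t + v')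
  have e3 := h.pt_mod hS (t + v + v')
  have k1 := card_symm (pt U a c t) (Ih U a v)
  rw [← pt_add] at k1
  have k2 := card_symm (pt U a c t) (Ih U a v')
  rw [← pt_add] at k2
  have k3 := card_symm (pt U a c (t + v)) (Ih U a v')
  rw [← pt_add] at k3
  have k4 := card_symm (Ih U a v' ∩ pt U a c t) (Ih U a v' ∩ Ih U a v)
  rw [← inter_symm, ← pt_add] at k4
  rw [Finset.inter_comm (Ih U a v') (pt U a c (t + v)), Finset.inter_comm (Ih U a v') (pt U a c t),
    Finset.inter_comm (Ih U a v') (Ih U a v)] at k4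
  have k5 := h.even_Ih hS v
  have k6 := h.even_Ih hS v'
  have hsg : sg (Bf U a v v') = if (Ih U a v ∩ Ih U a v').card % 2 = 1 then -1 else 1 := by
    unfold sg Bf
    have : (((Ih U a v ∩ Ih U a v').card : ℕ) : ZMod 2) = 1 ↔ (Ih U a v ∩ Ih U a v').card % 2 = 1 := by
      rw [← Nat.cast_one, ZMod.natCast_eq_natCast_iff]
      exact Iff.rfl
    simp only [this]
  rw [hsg]
  unfold Qf
  set n0 := (pt U a c t).card
  set n1 := (pt U a c (t + v)).card
  set n2 := (pt U a c (t + v')).card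
  set n3 := (pt U a c (t + v + v')).card
  set x := (Ih U a v).card
  set y := (Ih U a v').card
  set b := (Ih U a v ∩ Ih U a v').card
  generalize (pt U a c t ∩ Ih U a v).card = m1 at *
  generalize (pt U a c t ∩ Ih U a v').card = m2 at *
  generalize (pt U a c (t + v) ∩ Ih U a v').card = m3 at *
  generalize (pt U a c t ∩ Ih U a v' ∩ (Ih U a v ∩ Ih U a v')).card = m4 at *
  clear hsg
  have key : (n0 : ℤ) + n1 + n2 + n3 = 2 * n1 + 2 * n2 - 2 * b + 4 * m4 := by
    linarith
  clear k1 k2 k3 k4 k5 k6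
  split_ifs <;> first | (exfalso; omega) | norm_num

theorem SO_of (hS : Sys U A d a c) (hB : ∀ v v', Bf U a v v' = 0) : SO A := by
  intro u v hu hv
  obtain ⟨t, rfl⟩ := (hS.per_iff u).1 hu
  obtain ⟨t', rfl⟩ := (hS.per_iff v).1 hv
  have h1 := hB t t'
  unfold Bf at h1
  rw [ZMod.natCast_eq_zero_iff] at h1
  exact even_iff_two_dvd.2 h1

theorem MC.sum_card_Ih (h : MC U A d w e s) (hS : Sys U A d a c) :
    ∑ v : Fin d → ZMod 2, ((Ih U a v).card : ℝ) = 2 ^ d * (U.card / 2) := by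
  have h1 : ∀ v : Fin d → ZMod 2, ((Ih U a v).card : ℝ) = ∑ i ∈ U, (1 - ch (a i) v) / 2 := by
    intro v
    unfold Ih
    rw [Finset.card_filter]
    push_cast
    apply Finset.sum_congr rfl
    intro i _
    unfold ch
    split_ifs <;> norm_num
  rw [Finset.sum_congr rfl (fun v _ => h1 v), Finset.sum_comm]
  have h2 : ∀ i ∈ U, ∑ v : Fin d → ZMod 2, (1 - ch (a i) v) / 2 = 2 ^ d / 2 := by
    intro i hi
    rw [← Finset.sum_div, Finset.sum_sub_distrib, sum_ch (hS.a_ne_zero hi (h.ess i hi)),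
      Finset.sum_const, Finset.card_univ]
    simp
  rw [Finset.sum_congr rfl h2, Finset.sum_const, nsmul_eq_mul]
  ring

theorem MC.no_ser_of_Q (h : MC U A d w e s) (hS : Sys U A d a c)
    (hQ : ∀ t, Qf U a c w t = 1) : ∀ i ∈ U, ∀ j ∈ U, i ≠ j → ¬ Per A {i, j} := by
  intro i hi j hj hij hper
  have hmod : ∀ x ∈ A, ((x.card : ℤ) - w) % 4 = 0 := by
    intro x hx
    obtain ⟨t, rfl⟩ := (hS.im _).1 hx
    have h1 := hQ t
    unfold Qf at h1
    by_contra hcon
    rw [if_neg hcon] at h1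
    norm_num at h1
  apply h.opp i hi j hj hij
  intro x hx
  have h1 := hmod x hx
  have h2 := hmod _ (hper x hx)
  have h3 := card_symm x {i, j}
  have h4 : ({i, j} : Finset α).card = 2 := Finset.card_pair hij
  rw [h4] at h3
  intro hiff
  by_cases hix : i ∈ x
  · have hjx := hiff.1 hix
    have h5 : x ∩ {i, j} = {i, j} := by
      apply Finset.inter_eq_right.2
      intro k hk
      rw [Finset.mem_insert, Finset.mem_singleton] at hk
      rcases hk with rfl | rfl <;> assumption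
    rw [h5, h4] at h3
    omega
  · have hjx : j ∉ x := fun h' => hix (hiff.2 h')
    have h5 : x ∩ {i, j} = ∅ := by
      rw [← Finset.disjoint_iff_inter_eq_empty, Finset.disjoint_right]
      intro k hk
      rw [Finset.mem_insert, Finset.mem_singleton] at hk
      rcases hk with rfl | rfl <;> assumption
    rw [h5, Finset.card_empty] at h3
    omega

end Pool.Agent.H59.MW
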