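import Pool.Agent.H59.CW.Trans

/-!
Constructions of flats with many members of a given size.
-/

namespace Pool.Agent.H59.MW

open Finset Pool.Agent.H59.CW

set_option linter.unusedSectionVars false

variable {α : Type*} [DecidableEq α]

/-- a flat with `2^d` members, subsets of `X`, all sizes congruent to `v` modulo 2, exactly `N`
members of size `v` -/
structure Good (X : Finset α) (A : Finset (Finset α)) (d v N : ℕ) : Prop where
  sub : ∀ x ∈ A, x ⊆ X
  flat : Flat A
  card : A.card = 2 ^ d
  par : ∀ x ∈ A, (Odd x.card ↔ Odd v)
  cnt : cnt A v = N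

theorem insert_inj {X : Finset α} {A : Finset (Finset α)} (h : ∀ x ∈ A, x ⊆ X) {p : α}
    (hp : p ∉ X) : Set.InjOn (fun x => insert p x) (A : Set (Finset α)) := by
  intro x hx y hy hxy
  have hx' : p ∉ x := fun hh => hp (h x hx hh)
  have hy' : p ∉ y := fun hh => hp (h y hy hh)
  have hxy' : insert p x = insert p y := hxy
  rw [← Finset.erase_insert hx', ← Finset.erase_insert hy', hxy']

theorem tri_insert3 {x y z : Finset α} {p : α} (hx : p ∉ x) (hy : p ∉ y) (hz : p ∉ z) :
    tri (insert p x) (insert p y) (insert p z) = insert p (tri x y z) := by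
  ext t
  simp only [mem_tri, Finset.mem_insert]
  by_cases h : t = p
  · subst h; simp
  · simp [h]

theorem Good.one {X : Finset α} {A : Finset (Finset α)} {d v N : ℕ} (h : Good X A d v N) {p : α}
    (hp : p ∉ X) : Good (insert p X) (A.image (fun x => insert p x)) d (v + 1) N := by
  have hpx : ∀ x ∈ A, p ∉ x := fun x hx hh => hp (h.sub x hx hh)
  refine ⟨?_, ⟨h.flat.1.image _, ?_⟩, ?_, ?_, ?_⟩
  · intro x hx
    rw [Finset.mem_image] at hx
    obtain ⟨y, hy, rfl⟩ := hx
    exact Finset.insert_subset_insert _ (h.sub y hy)
  · intro x hx y hy z hz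
    rw [Finset.mem_image] at *
    obtain ⟨x, hx, rfl⟩ := hx
    obtain ⟨y, hy, rfl⟩ := hy
    obtain ⟨z, hz, rfl⟩ := hz
    exact ⟨tri x y z, h.flat.2 x hx y hy z hz,
      (tri_insert3 (hpx x hx) (hpx y hy) (hpx z hz)).symm⟩
  · rw [Finset.card_image_of_injOn (insert_inj h.sub hp), h.card]
  · intro x hx
    rw [Finset.mem_image] at hx
    obtain ⟨y, hy, rfl⟩ := hx
    rw [Finset.card_insert_of_notMem (hpx y hy), Nat.odd_add_one, Nat.odd_add_one, h.par y hy]
  · rw [← h.cnt]
    unfold CW.cnt
    symm
    apply Finset.card_nbij (fun x => insert p x)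
    · intro x hx
      rw [Finset.mem_coe, Finset.mem_filter] at hx ⊢
      exact ⟨Finset.mem_image_of_mem _ hx.1, by
        rw [Finset.card_insert_of_notMem (hpx x hx.1), hx.2]⟩
    · exact (insert_inj h.sub hp).mono (Finset.coe_subset.2 (Finset.filter_subset _ _))
    · intro x hx
      rw [Finset.mem_coe, Finset.mem_filter, Finset.mem_image] at hx
      obtain ⟨⟨y, hy, rfl⟩, hc⟩ := hx
      rw [Finset.card_insert_of_notMem (hpx y hy)] at hc
      exact ⟨y, by rw [Finset.mem_coe, Finset.mem_filter]; exact ⟨hy, by omega⟩, rfl⟩

theorem Good.pair {X : Finset α} {A : Finset (Finset α)} {d v N : ℕ} (h : Good X A d v N)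
    {p r : α} (hp : p ∉ X) (hr : r ∉ X) (hpr : p ≠ r) :
    Good (insert p (insert r X))
      (A.image (fun x => insert p x) ∪ A.image (fun x => insert r x)) (d + 1) (v + 1)
      (2 * N) := by
  have h1 := h.one hp
  have h2 := h.one hr
  have hpx : ∀ x ∈ A, p ∉ x := fun x hx hh => hp (h.sub x hx hh)
  have hrx : ∀ x ∈ A, r ∉ x := fun x hx hh => hr (h.sub x hx hh)
  have hdis : Disjoint (A.image (fun x => insert p x)) (A.image (fun x => insert r x)) := by
    rw [Finset.disjoint_left]
    intro x hx hx'
    rw [Finset.mem_image] at hx hx'
    obtain ⟨y, hy, rfl⟩ := hx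
    obtain ⟨z, hz, hyz⟩ := hx'
    have : p ∈ insert r z := by rw [hyz]; exact Finset.mem_insert_self _ _
    rw [Finset.mem_insert] at this
    rcases this with h | h
    · exact hpr h
    · exact hpx z hz h
  refine ⟨?_, ⟨(h.flat.1.image _).mono Finset.subset_union_left, ?_⟩, ?_, ?_, ?_⟩
  · intro x hx
    rw [Finset.mem_union] at hx
    rcases hx with hx | hx
    · exact (h1.sub x hx).trans (Finset.insert_subset_insert _ (Finset.subset_insert _ _))
    · exact (h2.sub x hx).trans (Finset.subset_insert _ _)
  · -- closed under `tri`
    have key : ∀ x, x ∈ A.image (fun x => insert p x) ∪ A.image (fun x => insert r x) ↔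
        ((x \ {p, r}) ∈ A ∧ ¬ (p ∈ x ↔ r ∈ x)) := by
      intro x
      rw [Finset.mem_union, Finset.mem_image, Finset.mem_image]
      constructor
      · rintro (⟨y, hy, rfl⟩ | ⟨y, hy, rfl⟩)
        · have e1 : insert p y \ {p, r} = y := by
            ext t
            simp only [Finset.mem_sdiff, Finset.mem_insert, Finset.mem_singleton]
            constructor
            · rintro ⟨h1 | h1, h2⟩
              · exact absurd (Or.inl h1) h2
              · exact h1
            · intro ht
              refine ⟨Or.inr ht, ?_⟩
              rintro (rfl | rfl)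
              · exact hpx y hy ht
              · exact hrx y hy ht
          rw [e1]
          refine ⟨hy, ?_⟩
          have a1 : p ∈ insert p y := Finset.mem_insert_self _ _
          have a2 : r ∉ insert p y := by
            rw [Finset.mem_insert]
            rintro (h | h)
            · exact hpr h.symm
            · exact hrx y hy h
          tauto
        · have e1 : insert r y \ {p, r} = y := by
            ext t
            simp only [Finset.mem_sdiff, Finset.mem_insert, Finset.mem_singleton]
            constructor
            · rintro ⟨h1 | h1, h2⟩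
              · exact absurd (Or.inr h1) h2
              · exact h1
            · intro ht
              refine ⟨Or.inr ht, ?_⟩
              rintro (rfl | rfl)
              · exact hpx y hy ht
              · exact hrx y hy ht
          rw [e1]
          refine ⟨hy, ?_⟩
          have a1 : r ∈ insert r y := Finset.mem_insert_self _ _
          have a2 : p ∉ insert r y := by
            rw [Finset.mem_insert]
            rintro (h | h)
            · exact hpr h
            · exact hpx y hy h
          tauto
      · rintro ⟨hy, hs⟩
        by_cases hpx' : p ∈ x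
        · left
          have hrx' : r ∉ x := by tauto
          refine ⟨_, hy, ?_⟩
          ext t
          simp only [Finset.mem_insert, Finset.mem_sdiff, Finset.mem_singleton]
          by_cases t1 : t = p
          · subst t1; simp [hpx']
          by_cases t2 : t = r
          · subst t2; simp [hrx', t1]
          simp [t1, t2]
        · right
          have hrx' : r ∈ x := by tauto
          refine ⟨_, hy, ?_⟩
          ext t
          simp only [Finset.mem_insert, Finset.mem_sdiff, Finset.mem_singleton]
          by_cases t2 : t = r
          · subst t2; simp [hrx']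
          by_cases t1 : t = p
          · subst t1; simp [hpx', t2]
          simp [t1, t2]
    intro x hx y hy z hz
    rw [key] at hx hy hz ⊢
    refine ⟨?_, ?_⟩
    · rw [tri_sdiff]
      exact h.flat.2 _ hx.1 _ hy.1 _ hz.1
    · exact (aff_split p r x y z).2
        ⟨fun _ => ⟨fun _ => hz.2, fun _ => hy.2⟩, fun _ => hx.2⟩
  · rw [Finset.card_union_of_disjoint hdis, h1.card, h2.card, pow_succ]; ring
  · intro x hx
    rw [Finset.mem_union] at hx
    rcases hx with hx | hx
    · exact h1.par x hx
    · exact h2.par x hx
  · have e1 := h1.cnt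
    have e2 := h2.cnt
    unfold CW.cnt at e1 e2 ⊢
    rw [Finset.filter_union, Finset.card_union_of_disjoint, e1, e2]
    · ring
    · exact Finset.disjoint_filter_filter hdis

theorem Good.mono {X Y : Finset α} {A : Finset (Finset α)} {d v N : ℕ} (h : Good X A d v N)
    (hXY : X ⊆ Y) : Good Y A d v N :=
  ⟨fun x hx => (h.sub x hx).trans hXY, h.flat, h.card, h.par, h.cnt⟩

end Pool.Agent.H59.MW
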