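import Mathlib

/-!
# MW-HYPA: transversals of hypergraphs

Rows `j ∈ R` with supports `N j` (sets of columns).
* `hyp2` : strong induction on `|R|`. If the rows in `R` are pairwise disjoint take `W = ∅`, `P = R`
  (`(1/8)|R| ≤ (1/4)|R|`). Otherwise some column `b` is in (at least) two rows: apply the induction hypothesis to the rows
  not containing `b` (at most `|R| - 2`), put `W' = insert b W`. Rows in `P` do not contain `b`.
  `(1/2)(|W|+1) + (1/8)|P| ≤ (1/4)(|R|-2) + 1/2`.
* `hyp1'` : strong induction on `|R|` (for all `Y`). If a column `b ∈ Y` is in at least three rows: apply the induction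
  hypothesis to `Y.erase b` and the rows not containing `b`: `k+1`, `m`. Otherwise every column is in at most two rows:
  double counting gives `3|R| ≤ ∑_j |N j| ≤ 2|Y|`; take `k = 0`, `m = |R|` and `hyp2`.
* `hyp1`: `(1/2)k + (1/4)m = (1/7)(m+3k) + (1/28)(3m+2k) ≤ (1/7)|R| + (1/14)|Y| ≤ (3/14)|Y|`.
-/
namespace Pool.Agent.H59.MW

open Finset

variable {β ρ : Type*} [DecidableEq β] [DecidableEq ρ]

theorem hyp2 (R : Finset ρ) (N : ρ → Finset β) :
    ∃ (W : Finset β) (P : Finset ρ), P ⊆ R ∧ (∀ j ∈ P, ∀ l ∈ P, j ≠ l → Disjoint (N j) (N l)) ∧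
      (∀ j ∈ P, Disjoint (N j) W) ∧ (∀ j ∈ R, j ∉ P → ¬ Disjoint (N j) W) ∧
      W ⊆ R.biUnion N ∧ (1 / 2 : ℝ) * W.card + 1 / 8 * P.card ≤ 1 / 4 * R.card := by
  induction hn : R.card using Nat.strong_induction_on generalizing R with
  | _ n ih =>
    by_cases hd : ∀ j ∈ R, ∀ l ∈ R, j ≠ l → Disjoint (N j) (N l)
    · refine ⟨∅, R, subset_rfl, hd, fun j _ => disjoint_empty_right _,
        fun j hj hj' => absurd hj hj', empty_subset _, ?_⟩
      rw [card_empty, hn]
      push_cast
      have : (0 : ℝ) ≤ n := Nat.cast_nonneg n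
      linarith
    · push Not at hd
      obtain ⟨j, hj, l, hl, hjl, hb⟩ := hd
      obtain ⟨b, hbj, hbl⟩ := not_disjoint_iff.1 hb
      let R' := R.filter fun i => b ∉ N i
      have hR' : R'.card + 2 ≤ R.card := by
        have h1 : R' ∪ {j, l} ⊆ R := by
          refine union_subset (filter_subset _ _) ?_
          intro i hi
          rcases mem_insert.1 hi with rfl | hi
          · exact hj
          · rwa [mem_singleton.1 hi]
        have h2 : Disjoint R' {j, l} := by
          rw [disjoint_left]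
          intro i hi hi'
          have h3 := (mem_filter.1 hi).2
          rcases mem_insert.1 hi' with rfl | hi'
          · exact h3 hbj
          · rw [mem_singleton.1 hi'] at h3
            exact h3 hbl
        have h3 := card_le_card h1
        rw [card_union_of_disjoint h2, card_pair hjl] at h3
        exact h3
      obtain ⟨W, P, h1, h2, h3, h4, h5, h6⟩ := ih R'.card (by omega) R' rfl
      refine ⟨insert b W, P, h1.trans (filter_subset _ _), h2, ?_, ?_, ?_, ?_⟩
      · intro i hi
        rw [disjoint_insert_right]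
        exact ⟨(mem_filter.1 (h1 hi)).2, h3 i hi⟩
      · intro i hi hiP hdis
        rw [disjoint_insert_right] at hdis
        exact h4 i (mem_filter.2 ⟨hi, hdis.1⟩) hiP hdis.2
      · intro x hx
        rcases mem_insert.1 hx with rfl | hx
        · exact mem_biUnion.2 ⟨j, hj, hbj⟩
        · obtain ⟨i, hi, hxi⟩ := mem_biUnion.1 (h5 hx)
          exact mem_biUnion.2 ⟨i, (mem_filter.1 hi).1, hxi⟩
      · have h7 : ((insert b W).card : ℝ) ≤ W.card + 1 := by
          exact_mod_cast card_insert_le b W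
        have h8 : (R'.card : ℝ) + 2 ≤ n := by
          rw [← hn]
          exact_mod_cast hR'
        linarith

theorem hyp1' (Y : Finset β) (R : Finset ρ) (N : ρ → Finset β)
    (hN : ∀ j ∈ R, 3 ≤ (N j).card ∧ N j ⊆ Y) :
    ∃ (W : Finset β) (P : Finset ρ) (k m : ℕ), P ⊆ R ∧
      (∀ j ∈ P, ∀ l ∈ P, j ≠ l → Disjoint (N j) (N l)) ∧
      (∀ j ∈ P, Disjoint (N j) W) ∧ (∀ j ∈ R, j ∉ P → ¬ Disjoint (N j) W) ∧
      W ⊆ Y ∧ (1 / 2 : ℝ) * W.card + 1 / 8 * P.card ≤ 1 / 2 * k + 1 / 4 * m ∧
      m + 3 * k ≤ R.card ∧ 3 * m + 2 * k ≤ 2 * Y.card := by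
  induction hn : R.card using Nat.strong_induction_on generalizing R Y with
  | _ n ih =>
    by_cases hb : ∃ b ∈ Y, 3 ≤ (R.filter fun i => b ∈ N i).card
    · obtain ⟨b, hbY, hb3⟩ := hb
      let R' := R.filter fun i => b ∉ N i
      have hR' : R'.card + 3 ≤ R.card := by
        have h1 := card_filter_add_card_filter_not (s := R) (fun i => b ∈ N i)
        have h2 : R'.card = (R.filter fun i => ¬ b ∈ N i).card := rfl
        omega
      have hY : (Y.erase b).card + 1 = Y.card := card_erase_add_one hbY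
      obtain ⟨W, P, k, m, h1, h2, h3, h4, h5, h6, h7, h8⟩ := ih R'.card (by omega) (Y.erase b) R'
        (fun i hi => ⟨(hN i (mem_filter.1 hi).1).1, fun x hx => mem_erase.2
          ⟨fun hxb => (mem_filter.1 hi).2 (hxb ▸ hx), (hN i (mem_filter.1 hi).1).2 hx⟩⟩) rfl
      refine ⟨insert b W, P, k + 1, m, h1.trans (filter_subset _ _), h2, ?_, ?_, ?_, ?_, ?_, ?_⟩
      · intro i hi
        rw [disjoint_insert_right]
        exact ⟨(mem_filter.1 (h1 hi)).2, h3 i hi⟩
      · intro i hi hiP hdis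
        rw [disjoint_insert_right] at hdis
        exact h4 i (mem_filter.2 ⟨hi, hdis.1⟩) hiP hdis.2
      · intro x hx
        rcases mem_insert.1 hx with rfl | hx
        · exact hbY
        · exact (mem_erase.1 (h5 hx)).2
      · have h9 : ((insert b W).card : ℝ) ≤ W.card + 1 := by
          exact_mod_cast card_insert_le b W
        push_cast
        linarith
      · omega
      · omega
    · push Not at hb
      obtain ⟨W, P, h1, h2, h3, h4, h5, h6⟩ := hyp2 R N
      refine ⟨W, P, 0, R.card, h1, h2, h3, h4, ?_, ?_, ?_, ?_⟩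
      · intro x hx
        obtain ⟨i, hi, hxi⟩ := mem_biUnion.1 (h5 hx)
        exact (hN i hi).2 hxi
      · push_cast
        linarith
      · omega
      · have h7 : ∑ j ∈ R, (N j).card = ∑ b ∈ Y, (R.filter fun i => b ∈ N i).card := by
          have h8 : ∀ j ∈ R, (N j).card = ∑ b ∈ Y, if b ∈ N j then 1 else 0 := by
            intro j hj
            rw [← card_filter]
            congr 1
            ext x
            rw [mem_filter]
            exact ⟨fun h => ⟨(hN j hj).2 h, h⟩, fun h => h.2⟩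
          rw [sum_congr rfl h8, sum_comm]
          refine sum_congr rfl fun b _ => ?_
          rw [← card_filter]
        have h9 : R.card * 3 ≤ ∑ j ∈ R, (N j).card := by
          rw [← smul_eq_mul]
          exact card_nsmul_le_sum _ _ _ fun j hj => (hN j hj).1
        have h10 : ∑ b ∈ Y, (R.filter fun i => b ∈ N i).card ≤ Y.card * 2 := by
          rw [← smul_eq_mul]
          exact sum_le_card_nsmul _ _ _ fun b hb' => Nat.le_of_lt_succ (hb b hb')
        omega

theorem hyp1 (Y : Finset β) (R : Finset ρ) (N : ρ → Finset β)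
    (hN : ∀ j ∈ R, 3 ≤ (N j).card ∧ N j ⊆ Y) (hR : R.card ≤ Y.card) :
    ∃ (W : Finset β) (P : Finset ρ), P ⊆ R ∧ (∀ j ∈ P, ∀ l ∈ P, j ≠ l → Disjoint (N j) (N l)) ∧
      (∀ j ∈ P, Disjoint (N j) W) ∧ (∀ j ∈ R, j ∉ P → ¬ Disjoint (N j) W) ∧
      W ⊆ Y ∧ (1 / 2 : ℝ) * W.card + 1 / 8 * P.card ≤ 3 / 14 * Y.card := by
  obtain ⟨W, P, k, m, h1, h2, h3, h4, h5, h6, h7, h8⟩ := hyp1' Y R N hN
  refine ⟨W, P, h1, h2, h3, h4, h5, h6.trans ?_⟩
  have h7' : ((m + 3 * k : ℕ) : ℝ) ≤ (R.card : ℝ) := by exact_mod_cast h7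
  have h8' : ((3 * m + 2 * k : ℕ) : ℝ) ≤ ((2 * Y.card : ℕ) : ℝ) := by exact_mod_cast h8
  have h9 : (R.card : ℝ) ≤ Y.card := by exact_mod_cast hR
  push_cast at h7' h8'
  linarith

end Pool.Agent.H59.MW
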