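import Mathlib

/-!
Numerical inequalities.
-/

namespace Pool.Agent.H59.MW

/-- majorant of `1/(A + |z|/2)` -/
theorem maj_inv {A s z : ℝ} (hA : 0 < A) (hs : 0 ≤ s) :
    1 / (A + |z| / 2) ≤ 1 / (A + s) - (z - 2 * s) / (2 * (A + s) ^ 2) +
      (z - 2 * s) ^ 2 / (4 * A * (A + s) ^ 2) := by
  have hB : 0 < A + s := by linarith
  have hz : 0 < A + |z| / 2 := by positivity
  rw [div_le_iff₀ hz]
  have e1 : (1 / (A + s) - (z - 2 * s) / (2 * (A + s) ^ 2) +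
      (z - 2 * s) ^ 2 / (4 * A * (A + s) ^ 2)) * (A + |z| / 2) =
      ((4 * A * (A + s) - 2 * A * (z - 2 * s) + (z - 2 * s) ^ 2) * (A + |z| / 2)) /
        (4 * A * (A + s) ^ 2) := by
    field_simp
    ring
  rw [e1, le_div_iff₀ (by positivity), one_mul]
  rcases abs_cases z with ⟨h1, h2⟩ | ⟨h1, h2⟩
  · rw [h1]
    nlinarith [mul_nonneg h2 (sq_nonneg (z - 2 * s))]
  · rw [h1]
    have h3 : 0 < -z := by linarith
    nlinarith [mul_nonneg h3.le (sq_nonneg (z - 2 * s)), mul_pos hA h3,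
      mul_nonneg hs h3.le, mul_nonneg hA.le (mul_nonneg hs h3.le), mul_pos hA (mul_pos h3 h3),
      mul_nonneg hs (mul_nonneg hs h3.le), mul_pos hA (mul_pos hA h3)]

/-- the quadratic majorant -/
theorem maj_quad {F y Y G C : ℝ} (hG : 0 < G) (hy : y ≤ Y)
    (hFy : F ^ 2 * y ≤ G) (hC : 3 / 2 * Y + 2 * G ≤ C) (hC3 : 3 * G ≤ C) :
    y ≤ G * (3 - 2 * F) + C * (F - 1) ^ 2 := by
  rcases le_or_gt y 0 with h0 | h0
  · have : 0 ≤ G * (3 - 2 * F) + C * (F - 1) ^ 2 := by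
      nlinarith [mul_nonneg hG.le (sq_nonneg (F - 1)), mul_le_mul_of_nonneg_right hC3
        (sq_nonneg (F - 1)), sq_nonneg (3 * (F - 1) - 1)]
    linarith
  · rcases le_or_gt F 1 with h1 | h1
    · have k1 : (3 / 2 * y + 2 * G) * (F - 1) ^ 2 ≤ C * (F - 1) ^ 2 :=
        mul_le_mul_of_nonneg_right (by linarith) (sq_nonneg _)
      have k2 : F ^ 2 * y * ((3 - 2 * F) + 2 * (F - 1) ^ 2) ≤
          G * ((3 - 2 * F) + 2 * (F - 1) ^ 2) :=
        mul_le_mul_of_nonneg_right hFy (by nlinarith [sq_nonneg (F - 1)])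
      have k3 : 0 ≤ y * ((F - 1) * (2 * F - 1)) ^ 2 := mul_nonneg h0.le (sq_nonneg _)
      nlinarith
    · have k1 : 3 * G * (F - 1) ^ 2 ≤ C * (F - 1) ^ 2 :=
        mul_le_mul_of_nonneg_right hC3 (sq_nonneg _)
      have k0 : 0 ≤ 3 * F ^ 2 - 8 * F + 6 := by nlinarith [sq_nonneg (3 * F - 4)]
      have k2 : F ^ 2 * y * (3 * F ^ 2 - 8 * F + 6) ≤ G * (3 * F ^ 2 - 8 * F + 6) :=
        mul_le_mul_of_nonneg_right hFy k0
      have k3 : 0 ≤ y * ((F - 1) ^ 3 * (3 * F + 1)) :=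
        mul_nonneg h0.le (mul_nonneg (pow_nonneg (by linarith) 3) (by linarith))
      nlinarith

theorem eps_bd4 {e eps : ℝ} (he : 4 ≤ e) (h0 : 0 ≤ eps)
    (h : eps * (2 * e - 1) ^ 2 * (48 / 10) ≤ e) : eps * e * (147 / 10) ≤ 1 := by
  have h1 : (7 / 4 * e) ^ 2 ≤ (2 * e - 1) ^ 2 := by nlinarith
  have h2 : eps * (7 / 4 * e) ^ 2 ≤ eps * (2 * e - 1) ^ 2 := mul_le_mul_of_nonneg_left h1 h0
  have h3 : (eps * e * (147 / 10)) * e ≤ 1 * e := by nlinarith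
  exact le_of_mul_le_mul_right h3 (by linarith)

theorem eta_bd4 {e eta : ℝ} (he : 4 ≤ e) (h0 : 0 ≤ eta)
    (h : eta * (2 * e - 2) ^ 2 ≤ 1) : eta * e * e * (9 / 4) ≤ 1 := by
  have h1 : (3 / 2 * e) ^ 2 ≤ (2 * e - 2) ^ 2 := by nlinarith
  have h2 : eta * (3 / 2 * e) ^ 2 ≤ eta * (2 * e - 2) ^ 2 := mul_le_mul_of_nonneg_left h1 h0
  nlinarith

theorem eps_bd5 {e eps : ℝ} (he : 5 ≤ e) (h0 : 0 ≤ eps)
    (h : eps * (2 * e - 1) ^ 2 * (48 / 10) ≤ e) : eps * e * (1944 / 125) ≤ 1 := by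
  have h1 : (9 / 5 * e) ^ 2 ≤ (2 * e - 1) ^ 2 := by nlinarith
  have h2 : eps * (9 / 5 * e) ^ 2 ≤ eps * (2 * e - 1) ^ 2 := mul_le_mul_of_nonneg_left h1 h0
  have h3 : (eps * e * (1944 / 125)) * e ≤ 1 * e := by nlinarith
  exact le_of_mul_le_mul_right h3 (by linarith)

/-- the numbers for the kappa bound -/
theorem kap_num {e s A T : ℝ} (he : 4 ≤ e) (hs : 2 * e ≤ s) (hA : 3 / 4 * e ≤ A)
    (hT : T ≤ s ^ 2 + 6 * (e + 1)) :
    (e + 27 / 100) * (1 / (A + s) + s / (2 * (A + s) ^ 2) + (s ^ 2 + T) / (4 * A * (A + s) ^ 2))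
      ≤ 1 := by
  have hA0 : 0 < A := by linarith
  have hs0 : 0 < s := by linarith
  have hB : 11 / 4 * e ≤ A + s := by linarith
  have hB0 : 0 < A + s := by linarith
  have e1 : 1 / (A + s) + s / (2 * (A + s) ^ 2) + (s ^ 2 + T) / (4 * A * (A + s) ^ 2) =
      1 / 2 * (1 / A + 1 / (A + s)) + (T - s ^ 2) / (4 * A * (A + s) ^ 2) := by
    field_simp
    ring
  rw [e1]
  have b1 : 1 / A ≤ 1 / (3 / 4 * e) := one_div_le_one_div_of_le (by linarith) hA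
  have b2 : 1 / (A + s) ≤ 1 / (11 / 4 * e) := one_div_le_one_div_of_le (by linarith) hB
  have b3 : (T - s ^ 2) / (4 * A * (A + s) ^ 2) ≤ 6 * (e + 1) / (4 * (3 / 4 * e) * (11 / 4 * e) ^ 2) := by
    apply div_le_div₀ (by linarith) (by linarith) (by positivity)
    apply mul_le_mul (by linarith) (pow_le_pow_left₀ (by linarith) hB 2) (by positivity)
      (by linarith)
  have b4 : (e + 27 / 100) * (1 / 2 * (1 / (3 / 4 * e) + 1 / (11 / 4 * e)) +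
      6 * (e + 1) / (4 * (3 / 4 * e) * (11 / 4 * e) ^ 2)) ≤ 1 := by
    have : (e + 27 / 100) * (1 / 2 * (1 / (3 / 4 * e) + 1 / (11 / 4 * e)) +
      6 * (e + 1) / (4 * (3 / 4 * e) * (11 / 4 * e) ^ 2)) =
      ((e + 27 / 100) * (28 * 11 * e ^ 2 + 3 * 32 * (e + 1))) / (363 * e ^ 3) := by
      field_simp
      ring
    rw [this, div_le_one (by positivity)]
    nlinarith [mul_nonneg (sub_nonneg.2 he) (sub_nonneg.2 he),
      mul_nonneg (mul_nonneg (sub_nonneg.2 he) (sub_nonneg.2 he)) (sub_nonneg.2 he)]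
  refine le_trans ?_ b4
  apply mul_le_mul_of_nonneg_left _ (by linarith)
  linarith

theorem pN1 {e : ℝ} (he : 4 ≤ e) : 0 < 1 / 7 * (2 * e ^ 2 - e) - 3 / 2 * (10 / 147 * e) - 4 / 9 +
      (e / 8 + 3 / 8) - 1965 / 10000 * (e + 27 / 100) ^ 2 -
      2 * (1965 / 10000 * (10 / 147 * e + 54 / 100 * (10 / 147) + 729 / 10000 * (10 / 588))) := by
  nlinarith [mul_nonneg (sub_nonneg.2 he) (sub_nonneg.2 he)]

theorem pN2 {e : ℝ} (he : 4 ≤ e) : 0 < 116 / 1000 * ((e - 1) * (4 * e - 1)) - 5 / 49 * (4 * e - 1) +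
      116 / 1000 * e - 1 / 7 + (e / 8 + 3 / 8) - 1965 / 10000 * (e + 27 / 100) ^ 2 -
      2 * (1965 / 10000 * (10 / 147 * e + 54 / 100 * (10 / 147) + 729 / 10000 * (10 / 588))) -
      3 / 4 * (10 / 147) - 1 / 2 * (1 / 9) := by
  nlinarith [mul_nonneg (sub_nonneg.2 he) (sub_nonneg.2 he)]

theorem pD1 {e : ℝ} (he : 5 ≤ e) : 0 < 1 / 7 * (2 * e ^ 2 - e) - 3 / 2 * (125 / 1944 * e) -
      (2 * e) / 4 + (e / 8 + 11 / 8) - (e + 27 / 100) - 5 / 4 * (125 / 1944) -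
      2415 / 1000 * (25 / 1944) := by
  nlinarith [mul_nonneg (sub_nonneg.2 he) (sub_nonneg.2 he)]

theorem pD2 {e : ℝ} (he : 5 ≤ e) : 0 < 133 / 1000 * ((e - 1) * (4 * e - 1)) -
      (2 / 21 + 1 / 4) * (4 * e - 1) +
      133 / 1000 * e - 1 / 7 + (e / 8 + 11 / 8) - (e + 27 / 100) - 2 * (125 / 1944) -
      2415 / 1000 * (25 / 1944) := by
  nlinarith [mul_nonneg (sub_nonneg.2 he) (sub_nonneg.2 he)]

/-- final numbers, case (N) -/
theorem fin_N {e s D q Φ eps eta : ℝ} (he : 4 ≤ e) (hs : 2 * e ≤ s)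
    (hD : (e - 1) * s + e ≤ D)
    (hq : q = 0 ∨ (4 * e - 1 ≤ s ∧ q * (2 * e - 1) ≤ (2 * e - 1) + (e + 1) * s))
    (hΦ : 2 / 7 * (D - q) - (3 / 4 * e - 5 / 4) ≤ Φ)
    (h0 : 0 ≤ eps) (h1 : eps * (2 * e - 1) ^ 2 * (48 / 10) ≤ e)
    (h2 : 0 ≤ eta) (h3 : eta * (2 * e - 2) ^ 2 ≤ 1) (G Y : ℝ)
    (hG : G = (e + 27 / 100) ^ 2 / (4 * (12728 / 10000))) (hY : Y = (e - 1 + D) / 2 + 1 / 4) :
    G + eps * (3 / 2 * Y + 2 * G) + eta * Y < 1 / 2 * (e - 1 + Φ) + 1 / 4 := by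
  have a1 := eps_bd4 he h0 h1
  have a2 := eta_bd4 he h2 h3
  have he0 : 0 < e := by linarith
  have b1 : eps * e ≤ 10 / 147 := by linarith
  have b1' : eps ≤ 10 / 588 := by nlinarith
  have b2 : eta * e ^ 2 ≤ 4 / 9 := by nlinarith
  have b2' : eta * e ≤ 1 / 9 := by nlinarith [mul_nonneg h2 he0.le]
  have b2'' : eta ≤ 1 / 36 := by nlinarith
  have hG2 : G ≤ 1965 / 10000 * (e + 27 / 100) ^ 2 := by
    rw [hG, div_le_iff₀ (by norm_num)]
    nlinarith [sq_nonneg (e + 27 / 100)]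
  have k4 : eps * e ^ 2 ≤ 10 / 147 * e := by nlinarith
  have k3 : eps * G ≤ 1965 / 10000 * (10 / 147 * e + 54 / 100 * (10 / 147) +
      729 / 10000 * (10 / 588)) := by
    have : eps * G ≤ eps * (1965 / 10000 * (e + 27 / 100) ^ 2) :=
      mul_le_mul_of_nonneg_left hG2 h0
    have e1 : eps * (1965 / 10000 * (e + 27 / 100) ^ 2) =
      1965 / 10000 * (eps * e ^ 2 + 54 / 100 * (eps * e) + 729 / 10000 * eps) := by ring
    rw [e1] at this
    linarith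
  have hc : 0 ≤ 1 / 7 - 3 / 4 * eps - 1 / 2 * eta := by linarith
  have k1 : (1 / 7 - 3 / 4 * eps - 1 / 2 * eta) * ((e - 1) * s + e) ≤
      (1 / 7 - 3 / 4 * eps - 1 / 2 * eta) * D := mul_le_mul_of_nonneg_left hD hc
  have key : ∀ Z : ℝ, Z ≤ (1 / 7 - 3 / 4 * eps - 1 / 2 * eta) * D - 1 / 7 * q →
      G + eps * (3 / 2 * Y + 2 * G) + eta * Y ≤ 1 / 2 * (e - 1 + Φ) + 1 / 4 -
        (Z + (e / 8 + 3 / 8) - G - eps * (3 / 4 * e - 3 / 8) - 2 * (eps * G) -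
          eta * (1 / 2 * e - 1 / 4)) := by
    intro Z hZ
    have e2 : eps * (3 / 2 * Y + 2 * G) + eta * Y = eps * (3 / 4 * e - 3 / 8) + 2 * (eps * G) +
      eta * (1 / 2 * e - 1 / 4) + (3 / 4 * eps + 1 / 2 * eta) * D := by rw [hY]; ring
    have e3 : (1 / 7 - 3 / 4 * eps - 1 / 2 * eta) * D =
      1 / 7 * D - (3 / 4 * eps + 1 / 2 * eta) * D := by ring
    linarith
  rcases hq with rfl | ⟨hs4, hq⟩
  · have k2 : (1 / 7 - 3 / 4 * eps - 1 / 2 * eta) * ((e - 1) * (2 * e) + e) ≤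
        (1 / 7 - 3 / 4 * eps - 1 / 2 * eta) * ((e - 1) * s + e) := by
      apply mul_le_mul_of_nonneg_left _ hc
      have : (e - 1) * (2 * e) ≤ (e - 1) * s := mul_le_mul_of_nonneg_left hs (by linarith)
      linarith
    have k := key ((1 / 7 - 3 / 4 * eps - 1 / 2 * eta) * ((e - 1) * (2 * e) + e)) (by linarith)
    refine lt_of_le_of_lt k ?_
    have e4 : (1 / 7 - 3 / 4 * eps - 1 / 2 * eta) * ((e - 1) * (2 * e) + e) =
      1 / 7 * (2 * e ^ 2 - e) - 3 / 2 * (eps * e ^ 2) + 3 / 4 * (eps * e) - eta * e ^ 2 +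
        1 / 2 * (eta * e) := by ring
    have e5 : eps * (3 / 4 * e - 3 / 8) = 3 / 4 * (eps * e) - 3 / 8 * eps := by ring
    have e6 : eta * (1 / 2 * e - 1 / 4) = 1 / 2 * (eta * e) - 1 / 4 * eta := by ring
    have e7 := pN1 he
    rw [e4, e5, e6]
    linarith
  · have k5 : q ≤ 1 + 5 / 7 * s := by
      have h5 : (e + 1) * s ≤ 5 / 7 * (2 * e - 1) * s :=
        mul_le_mul_of_nonneg_right (by linarith) (by linarith)
      have h6 : q * (2 * e - 1) ≤ (1 + 5 / 7 * s) * (2 * e - 1) := by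
        have : (1 + 5 / 7 * s) * (2 * e - 1) = (2 * e - 1) + 5 / 7 * (2 * e - 1) * s := by ring
        linarith
      exact le_of_mul_le_mul_right h6 (by linarith)
    have hs0 : 0 ≤ (e - 1) * s + e := by
      have : 0 ≤ (e - 1) * s := mul_nonneg (by linarith) (by linarith)
      linarith
    have k6 : (116 / 1000) * ((e - 1) * s + e) ≤
        (1 / 7 - 3 / 4 * eps - 1 / 2 * eta) * ((e - 1) * s + e) := by
      apply mul_le_mul_of_nonneg_right _ hs0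
      linarith
    have k := key (116 / 1000 * ((e - 1) * s + e) - 1 / 7 * (1 + 5 / 7 * s)) (by linarith)
    refine lt_of_le_of_lt k ?_
    have e5 : eps * (3 / 4 * e - 3 / 8) = 3 / 4 * (eps * e) - 3 / 8 * eps := by ring
    have e6 : eta * (1 / 2 * e - 1 / 4) = 1 / 2 * (eta * e) - 1 / 4 * eta := by ring
    have e8 : 116 / 1000 * ((e - 1) * (4 * e - 1)) - 5 / 49 * (4 * e - 1) ≤
        116 / 1000 * ((e - 1) * s) - 5 / 49 * s := by
      have h8 : 0 ≤ (116 / 1000 * (e - 1) - 5 / 49) * (s - (4 * e - 1)) :=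
        mul_nonneg (by linarith) (by linarith)
      have h9 : (116 / 1000 * (e - 1) - 5 / 49) * (s - (4 * e - 1)) =
        (116 / 1000 * ((e - 1) * s) - 5 / 49 * s) -
          (116 / 1000 * ((e - 1) * (4 * e - 1)) - 5 / 49 * (4 * e - 1)) := by ring
      linarith
    have e7 := pN2 he
    rw [e5, e6]
    linarith

/-- final numbers, case (D) -/
theorem fin_D {e s D q Φ eps : ℝ} (he : 5 ≤ e) (hs : 2 * e ≤ s)
    (hD : (e - 1) * s + e ≤ D)
    (hq : q = 0 ∨ (4 * e - 1 ≤ s ∧ q * (2 * e - 1) ≤ (2 * e - 1) + (e + 1) * s))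
    (hΦ : 2 / 7 * (D - q) - (3 / 4 * e - 5 / 4) ≤ Φ)
    (h0 : 0 ≤ eps) (h1 : eps * (2 * e - 1) ^ 2 * (48 / 10) ≤ e) (G Y : ℝ)
    (hG : G = e + 27 / 100) (hY : Y = D / 2 + 5 / 4) :
    G + eps * (3 / 2 * Y + 2 * G) < Φ / 2 - s / 4 + e / 2 + 3 / 4 := by
  have a1 := eps_bd5 he h0 h1
  have he0 : 0 < e := by linarith
  have b1 : eps * e ≤ 125 / 1944 := by linarith
  have b1' : eps ≤ 25 / 1944 := by nlinarith
  have k4 : eps * e ^ 2 ≤ 125 / 1944 * e := by nlinarith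
  have hc : 0 ≤ 1 / 7 - 3 / 4 * eps := by linarith
  have k1 : (1 / 7 - 3 / 4 * eps) * ((e - 1) * s + e) ≤
      (1 / 7 - 3 / 4 * eps) * D := mul_le_mul_of_nonneg_left hD hc
  have key : ∀ Z : ℝ, Z ≤ (1 / 7 - 3 / 4 * eps) * D - 1 / 7 * q - s / 4 →
      G + eps * (3 / 2 * Y + 2 * G) ≤ Φ / 2 - s / 4 + e / 2 + 3 / 4 -
        (Z + (e / 8 + 11 / 8) - (e + 27 / 100) - eps * (2 * e + 2415 / 1000)) := by
    intro Z hZ
    have e2 : eps * (3 / 2 * Y + 2 * G) = eps * (2 * e + 2415 / 1000) + 3 / 4 * eps * D := by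
      rw [hY, hG]; ring
    have e3 : (1 / 7 - 3 / 4 * eps) * D = 1 / 7 * D - 3 / 4 * eps * D := by ring
    linarith
  have e5 : eps * (2 * e + 2415 / 1000) = 2 * (eps * e) + 2415 / 1000 * eps := by ring
  rcases hq with rfl | ⟨hs4, hq⟩
  · have k2 : (1 / 7 - 3 / 4 * eps) * ((e - 1) * (2 * e) + e) - (2 * e) / 4 ≤
        (1 / 7 - 3 / 4 * eps) * ((e - 1) * s + e) - s / 4 := by
      have h7 : 0 ≤ (1 / 7 - 3 / 4 * eps) * (e - 1) - 1 / 4 := by nlinarith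
      have h8 : 0 ≤ ((1 / 7 - 3 / 4 * eps) * (e - 1) - 1 / 4) * (s - 2 * e) :=
        mul_nonneg h7 (by linarith)
      have h9 : ((1 / 7 - 3 / 4 * eps) * (e - 1) - 1 / 4) * (s - 2 * e) =
        ((1 / 7 - 3 / 4 * eps) * ((e - 1) * s + e) - s / 4) -
          ((1 / 7 - 3 / 4 * eps) * ((e - 1) * (2 * e) + e) - (2 * e) / 4) := by ring
      linarith
    have k := key ((1 / 7 - 3 / 4 * eps) * ((e - 1) * (2 * e) + e) - (2 * e) / 4) (by linarith)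
    refine lt_of_le_of_lt k ?_
    have e4 : (1 / 7 - 3 / 4 * eps) * ((e - 1) * (2 * e) + e) =
      1 / 7 * (2 * e ^ 2 - e) - 3 / 2 * (eps * e ^ 2) + 3 / 4 * (eps * e) := by ring
    have e7 := pD1 he
    rw [e4, e5]
    linarith
  · have k5 : q ≤ 1 + 2 / 3 * s := by
      have h5 : (e + 1) * s ≤ 2 / 3 * (2 * e - 1) * s :=
        mul_le_mul_of_nonneg_right (by linarith) (by linarith)
      have h6 : q * (2 * e - 1) ≤ (1 + 2 / 3 * s) * (2 * e - 1) := by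
        have : (1 + 2 / 3 * s) * (2 * e - 1) = (2 * e - 1) + 2 / 3 * (2 * e - 1) * s := by ring
        linarith
      exact le_of_mul_le_mul_right h6 (by linarith)
    have hs0 : 0 ≤ (e - 1) * s + e := by
      have : 0 ≤ (e - 1) * s := mul_nonneg (by linarith) (by linarith)
      linarith
    have k6 : (133 / 1000) * ((e - 1) * s + e) ≤
        (1 / 7 - 3 / 4 * eps) * ((e - 1) * s + e) := by
      apply mul_le_mul_of_nonneg_right _ hs0
      linarith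
    have k := key (133 / 1000 * ((e - 1) * s + e) - 1 / 7 * (1 + 2 / 3 * s) - s / 4)
      (by linarith)
    refine lt_of_le_of_lt k ?_
    have e8 : 133 / 1000 * ((e - 1) * (4 * e - 1)) - (2 / 21 + 1 / 4) * (4 * e - 1) ≤
        133 / 1000 * ((e - 1) * s) - (2 / 21 + 1 / 4) * s := by
      have h8 : 0 ≤ (133 / 1000 * (e - 1) - (2 / 21 + 1 / 4)) * (s - (4 * e - 1)) :=
        mul_nonneg (by linarith) (by linarith)
      have h9 : (133 / 1000 * (e - 1) - (2 / 21 + 1 / 4)) * (s - (4 * e - 1)) =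
        (133 / 1000 * ((e - 1) * s) - (2 / 21 + 1 / 4) * s) -
          (133 / 1000 * ((e - 1) * (4 * e - 1)) - (2 / 21 + 1 / 4) * (4 * e - 1)) := by ring
      linarith
    have e7 := pD2 he
    rw [e5]
    linarith

end Pool.Agent.H59.MW
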