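import Pool.Agent.H59.MW.Rk

/-!
# MW-RK3: conditioning on the trace on `F`

For `y = x₀ ∩ F` the fibre `B = {x ∈ A : x ∩ F = y}` is a flat with `2^(d - rk a F)` members (`Sys.card_fibre`,
`rk_le`); `era F B` (`x ↦ x \ F`) is injective on `B`, gives a flat of subsets of `U \ F` of the same size, sizes go
down by `|y|`. `TT` for `U \ F` gives `cnt B w ≤ 2^(d-rk) bt (1 + (d-rk) - (w - |y|))` (if `w < |y|` then
`cnt B w = 0`). The family of complements `{(U \ F) \ x}` is a flat of the same size (cf. `comp_facts` in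
`All.lean` for the proof: `(U \ x) + (U \ y) + (U \ z) = U \ (x+y+z)`), sizes `|U \ F| - ·`, so
`cnt B w ≤ 2^(d-rk) bt (1 + (d-rk) - (|U \ F| - (w - |y|)))` (if `w - |y| > |U \ F|` then `cnt B w = 0`). Together:
the bound with `max` (one of the two is the `max`). Sum over the fibres:
`cnt A w = ∑_y cnt B_y w ≤ ∑_y |B_y| bt (..) = ∑_{x ∈ A} bt (..)` (`Finset.sum_fiberwise` / `card_eq_sum_card_image`).
-/

namespace Pool.Agent.H59.MW

open Finset Pool.Agent.H59.CW

set_option linter.unusedSectionVars false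

variable {α : Type*} [DecidableEq α] {U : Finset α} {A : Finset (Finset α)} {d w e s : ℕ}
  {a : α → Fin d → ZMod 2} {c : α → ZMod 2}

namespace Rk3H

theorem sdiff_tri' {U x y z : Finset α} (hx : x ⊆ U) (hy : y ⊆ U) (hz : z ⊆ U) :
    tri (U \ x) (U \ y) (U \ z) = U \ tri x y z := by
  ext i
  simp only [mem_tri, Finset.mem_sdiff]
  by_cases h0 : i ∈ U
  · simp only [h0, true_and]
    tauto
  · have h1 : i ∉ x := fun h => h0 (hx h)
    have h2 : i ∉ y := fun h => h0 (hy h)
    have h3 : i ∉ z := fun h => h0 (hz h)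
    simp [h0]

/-- the family of complements -/
def cp (U : Finset α) (A : Finset (Finset α)) : Finset (Finset α) := A.image (fun x => U \ x)

theorem cp_inj {U : Finset α} {A : Finset (Finset α)} (hU : ∀ x ∈ A, x ⊆ U) :
    Set.InjOn (fun x => U \ x) (A : Set (Finset α)) := by
  intro x hx y hy h
  have h' : U \ x = U \ y := h
  rw [← Finset.sdiff_sdiff_eq_self (hU x hx), ← Finset.sdiff_sdiff_eq_self (hU y hy), h']

theorem cp_facts {U : Finset α} {A : Finset (Finset α)} (hU : ∀ x ∈ A, x ⊆ U) (hA : Flat A) :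
    (∀ x ∈ cp U A, x ⊆ U) ∧ Flat (cp U A) ∧ (cp U A).card = A.card := by
  refine ⟨?_, ⟨hA.1.image _, ?_⟩, Finset.card_image_of_injOn (cp_inj hU)⟩
  · intro x hx
    unfold cp at hx
    rw [Finset.mem_image] at hx
    obtain ⟨y, _, rfl⟩ := hx
    exact Finset.sdiff_subset
  · intro x hx y hy z hz
    unfold cp at *
    rw [Finset.mem_image] at *
    obtain ⟨x, hx, rfl⟩ := hx
    obtain ⟨y, hy, rfl⟩ := hy
    obtain ⟨z, hz, rfl⟩ := hz
    exact ⟨tri x y z, hA.2 x hx y hy z hz, (sdiff_tri' (hU x hx) (hU y hy) (hU z hz)).symm⟩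

theorem cp_cnt {U : Finset α} {A : Finset (Finset α)} (hU : ∀ x ∈ A, x ⊆ U) {w : ℕ}
    (hw : w ≤ U.card) : cnt A w ≤ cnt (cp U A) (U.card - w) := by
  unfold cnt
  apply Finset.card_le_card_of_injOn (fun x => U \ x)
  · intro x hx
    rw [Finset.mem_coe, Finset.mem_filter] at hx ⊢
    refine ⟨Finset.mem_image_of_mem _ hx.1, ?_⟩
    rw [Finset.card_sdiff_of_subset (hU x hx.1), hx.2]
  · exact (cp_inj hU).mono (Finset.coe_subset.2 (Finset.filter_subset _ _))

/-- both bounds from the affine theorem -/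
theorem two_bounds {V : Finset α} {B : Finset (Finset α)} {d' : ℕ} (hV : ∀ x ∈ B, x ⊆ V)
    (hB : Flat B) (hc : B.card = 2 ^ d') (hT : TT α V.card d') (v : ℕ) :
    (cnt B v : ℝ) ≤ 2 ^ d' * bt (max (1 + (d' : ℤ) - v) (1 + (d' : ℤ) - ((V.card : ℤ) - v))) := by
  have h1 := hT V B rfl hV hB hc v
  rcases le_total (1 + (d' : ℤ) - ((V.card : ℤ) - v)) (1 + (d' : ℤ) - v) with h | h
  · rw [max_eq_left h]
    exact h1
  · rw [max_eq_right h]
    by_cases hv : v ≤ V.card
    · obtain ⟨c1, c2, c3⟩ := cp_facts hV hB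
      have h2 := hT V (cp V B) rfl c1 c2 (by rw [c3, hc]) (V.card - v)
      have h3 : (cnt B v : ℝ) ≤ cnt (cp V B) (V.card - v) := by
        exact_mod_cast cp_cnt hV hv
      rw [Nat.cast_sub hv] at h2
      exact h3.trans h2
    · have h4 : cnt B v = 0 := by
        unfold cnt
        rw [Finset.card_eq_zero]
        apply Finset.filter_eq_empty_iff.2
        intro x hx hxc
        have := Finset.card_le_card (hV x hx)
        omega
      rw [h4, Nat.cast_zero]
      have := bt_pos (1 + (d' : ℤ) - ((V.card : ℤ) - v))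
      positivity

end Rk3H

open Rk3H in
theorem Sys.fib_le (hS : Sys U A d a c) (hA : Flat A) (hU : ∀ x ∈ A, x ⊆ U) {F : Finset α}
    (hF : F ⊆ U) (hT : ∀ d', TT α (U \ F).card d') :
    (cnt A w : ℝ) ≤ ∑ x ∈ A, bt (max (1 + (d : ℤ) - rk a F - w + (x ∩ F).card)
      (1 + (d : ℤ) - rk a F - ((U.card : ℤ) - F.card - w + (x ∩ F).card))) := by
  set G : Finset α → ℝ := fun y => bt (max (1 + (d : ℤ) - rk a F - w + y.card)
      (1 + (d : ℤ) - rk a F - ((U.card : ℤ) - F.card - w + y.card))) with hG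
  have hrk : rk a F ≤ d := rk_le F
  have hUF : ((U \ F).card : ℤ) = U.card - F.card := by
    rw [Finset.card_sdiff_of_subset hF, Nat.cast_sub (Finset.card_le_card hF)]
  -- the fibres
  have key : ∀ y ∈ A.image (fun x => x ∩ F),
      (cnt (A.filter (fun x => x ∩ F = y)) w : ℝ) ≤
        (A.filter (fun x => x ∩ F = y)).card * G y := by
    intro y hy
    have hcard := hS.card_fibre hA hF hy
    obtain ⟨x₀, hx₀, hy₀⟩ := Finset.mem_image.1 hy
    set B := A.filter (fun x => x ∩ F = y) with hBdef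
    have hmem : ∀ x, x ∈ B ↔ x ∈ A ∧ x ∩ F = y := by
      intro x
      rw [hBdef, Finset.mem_filter]
    have hBflat : Flat B := by
      refine ⟨⟨x₀, (hmem x₀).2 ⟨hx₀, hy₀⟩⟩, ?_⟩
      intro x hx x' hx' x'' hx''
      rw [hmem] at *
      refine ⟨hA.2 x hx.1 x' hx'.1 x'' hx''.1, ?_⟩
      ext i
      have e1 := Finset.ext_iff.1 hx.2 i
      have e2 := Finset.ext_iff.1 hx'.2 i
      have e3 := Finset.ext_iff.1 hx''.2 i
      simp only [Finset.mem_inter, mem_tri] at *
      tauto
    have hBcard : B.card = 2 ^ (d - rk a F) := by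
      have h2 : 2 ^ d = 2 ^ (d - rk a F) * 2 ^ rk a F := by
        rw [← pow_add]
        congr 1
        omega
      rw [h2] at hcard
      exact Nat.eq_of_mul_eq_mul_right (by positivity) hcard
    have hinj : ∀ x ∈ B, ∀ x' ∈ B, x \ F = x' \ F → x = x' := by
      intro x hx x' hx' h
      rw [hmem] at hx hx'
      rw [← Finset.sdiff_union_inter x F, ← Finset.sdiff_union_inter x' F, h, hx.2, hx'.2]
    obtain ⟨e1, e2⟩ := cnt_era (T := F) (t := y.card) (w := w) hinj (by
      intro x hx _
      rw [((hmem x).1 hx).2])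
    have hsub : ∀ x ∈ era F B, x ⊆ U \ F := era_subset (fun x hx => hU x ((hmem x).1 hx).1)
    have hb := two_bounds hsub (hBflat.era F) (by rw [e1, hBcard]) (hT _) (w - y.card)
    rw [hBcard]
    push_cast
    by_cases hwy : y.card ≤ w
    · have h5 : (cnt B w : ℝ) ≤ cnt (era F B) (w - y.card) := by exact_mod_cast e2
      refine h5.trans (hb.trans (le_of_eq ?_))
      rw [hG]
      simp only
      congr 2
      rw [hUF, Nat.cast_sub hrk, Nat.cast_sub hwy]
      congr 1 <;> ring
    · have h4 : cnt B w = 0 := by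
        unfold cnt
        rw [Finset.card_eq_zero]
        apply Finset.filter_eq_empty_iff.2
        intro x hx hxc
        have h6 : x ∩ F = y := ((hmem x).1 hx).2
        have : y.card ≤ x.card := by
          rw [← h6]
          exact Finset.card_le_card Finset.inter_subset_left
        omega
      rw [h4, Nat.cast_zero]
      have := bt_pos (max (1 + (d : ℤ) - rk a F - w + y.card)
        (1 + (d : ℤ) - rk a F - ((U.card : ℤ) - F.card - w + y.card)))
      positivity
  have hsum : (cnt A w : ℝ) = ∑ y ∈ A.image (fun x => x ∩ F),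
      (cnt (A.filter (fun x => x ∩ F = y)) w : ℝ) := by
    have h1 : cnt A w = ∑ y ∈ A.image (fun x => x ∩ F), cnt (A.filter (fun x => x ∩ F = y)) w := by
      unfold cnt
      rw [Finset.card_eq_sum_card_fiberwise (f := fun x => x ∩ F)
        (t := A.image (fun x => x ∩ F)) (by
          intro x hx
          rw [Finset.mem_coe, Finset.mem_filter] at hx
          exact Finset.mem_coe.2 (Finset.mem_image_of_mem _ hx.1))]
      apply Finset.sum_congr rfl
      intro y _
      congr 1
      ext x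
      simp only [Finset.mem_filter]
      tauto
    rw [h1]
    push_cast
    rfl
  have hsum2 : ∑ x ∈ A, G (x ∩ F) = ∑ y ∈ A.image (fun x => x ∩ F),
      (A.filter (fun x => x ∩ F = y)).card * G y := by
    rw [← Finset.sum_fiberwise_of_maps_to (s := A) (t := A.image (fun x => x ∩ F))
      (g := fun x => x ∩ F) (fun x hx => Finset.mem_image_of_mem _ hx)]
    apply Finset.sum_congr rfl
    intro y _
    rw [Finset.sum_congr rfl (g := fun _ => G y)]
    · rw [Finset.sum_const, nsmul_eq_mul]
    · intro x hx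
      rw [(Finset.mem_filter.1 hx).2]
  rw [hsum]
  refine (Finset.sum_le_sum key).trans (le_of_eq ?_)
  rw [← hsum2]

end Pool.Agent.H59.MW
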