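import Pool.Agent.H59.MW.Defs

/-!
# MW-MATCH3: pairs in classes of size at least two

A symmetric relation `r` on a finite set `X`, transitive on different elements, such that every element
has a partner: there are `k` pairs `(p a, q a)`, all `2k` elements different, `r (p a) (q a)`, and
`|X| ≤ 3k`. Proof: strong induction on `|X|`; if `X` is empty take `k = 0`. Take `i ∈ X` with partner `j`. If
there is `l ∈ X`, `l ≠ i, j`, with `r i l` such that no element of `X \ {i,j,l}` is related to `l` (class of size
exactly 3) remove `i, j, l`; otherwise (class of size 2 or at least 4) remove `i, j`. In both cases every remaining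
element still has a partner in the remaining set (an element not related to `i` keeps its partner; an element
related to `i` in a class of size at least 4 has another partner). Add the pair `(i, j)` (`Fin.cons`).
-/

namespace Pool.Agent.H59.MW

open Finset Pool.Agent.H59.CW

set_option linter.unusedSectionVars false

variable {α : Type*} [DecidableEq α] {U : Finset α} {A : Finset (Finset α)} {d w e s : ℕ}

theorem match3 (X : Finset α) (r : α → α → Prop) (hs : ∀ i j, r i j → r j i)
    (ht : ∀ i j l, r i j → r j l → i ≠ l → r i l) (hi : ∀ i, ¬ r i i)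
    (hX : ∀ i ∈ X, ∃ j ∈ X, r i j) :
    ∃ (k : ℕ) (p q : Fin k → α), (∀ a, p a ∈ X ∧ q a ∈ X ∧ r (p a) (q a)) ∧
      (∀ a b, a ≠ b → p a ≠ p b ∧ p a ≠ q b ∧ q a ≠ q b) ∧ X.card ≤ 3 * k := by
  -- a maximal family of disjoint pairs
  set P : ℕ → Prop := fun k => ∃ (p q : Fin k → α), (∀ a, p a ∈ X ∧ q a ∈ X ∧ r (p a) (q a)) ∧
      (∀ a b, a ≠ b → p a ≠ p b ∧ p a ≠ q b ∧ q a ≠ q b) with hP
  have hbd : ∀ k, P k → k ≤ X.card := by
    rintro k ⟨p, q, h1, h2⟩
    have hinj : Function.Injective p := by
      intro a b hab
      by_contra hne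
      exact (h2 a b hne).1 hab
    have h3 : (Finset.univ.image p).card = k := by
      rw [Finset.card_image_of_injective _ hinj, Finset.card_univ, Fintype.card_fin]
    rw [← h3]
    apply Finset.card_le_card
    intro x hx
    obtain ⟨a, _, rfl⟩ := Finset.mem_image.1 hx
    exact (h1 a).1
  have hP0 : P 0 := ⟨fun a => a.elim0, fun a => a.elim0, fun a => a.elim0, fun a => a.elim0⟩
  obtain ⟨k, hk, hk'⟩ : ∃ k, P k ∧ ¬ P (k + 1) := by
    by_contra hcon
    push Not at hcon
    have hall : ∀ k, P k := by
      intro k
      induction k with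
      | zero => exact hP0
      | succ k ih => exact hcon k ih
    have := hbd _ (hall (X.card + 1))
    omega
  obtain ⟨p, q, h1, h2⟩ := hk
  refine ⟨k, p, q, h1, h2, ?_⟩
  set S : Finset α := Finset.univ.image p ∪ Finset.univ.image q with hS
  have hpS : ∀ a, p a ∈ S := fun a =>
    Finset.mem_union_left _ (Finset.mem_image_of_mem _ (Finset.mem_univ a))
  have hqS : ∀ a, q a ∈ S := fun a =>
    Finset.mem_union_right _ (Finset.mem_image_of_mem _ (Finset.mem_univ a))
  have hno : ∀ l ∈ X \ S, ∀ l' ∈ X \ S, ¬ r l l' := by
    intro l hl l' hl' hr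
    rw [Finset.mem_sdiff] at hl hl'
    apply hk'
    have hlp : ∀ a, l ≠ p a := fun a h => hl.2 (h ▸ hpS a)
    have hlq : ∀ a, l ≠ q a := fun a h => hl.2 (h ▸ hqS a)
    have hlp' : ∀ a, l' ≠ p a := fun a h => hl'.2 (h ▸ hpS a)
    have hlq' : ∀ a, l' ≠ q a := fun a h => hl'.2 (h ▸ hqS a)
    refine ⟨Fin.cons l p, Fin.cons l' q, ?_, ?_⟩
    · intro a
      refine Fin.cases ?_ (fun a => ?_) a
      · simp only [Fin.cons_zero]
        exact ⟨hl.1, hl'.1, hr⟩
      · simp only [Fin.cons_succ]
        exact h1 a
    · intro a b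
      refine Fin.cases ?_ (fun a => ?_) a
      · refine Fin.cases ?_ (fun b => ?_) b
        · intro h; exact absurd rfl h
        · intro _
          simp only [Fin.cons_zero, Fin.cons_succ]
          exact ⟨hlp b, hlq b, hlq' b⟩
      · refine Fin.cases ?_ (fun b => ?_) b
        · intro _
          simp only [Fin.cons_zero, Fin.cons_succ]
          exact ⟨(hlp a).symm, (hlp' a).symm, (hlq' a).symm⟩
        · intro hab
          simp only [Fin.cons_succ]
          exact h2 a b (fun h => hab (by rw [h]))
  have hex : ∀ l ∈ X \ S, ∃ a, r l (p a) := by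
    intro l hl
    have hl' := Finset.mem_sdiff.1 hl
    obtain ⟨j, hj, hr⟩ := hX l hl'.1
    have hjS : j ∈ S := by
      by_contra hcon
      exact hno l hl j (Finset.mem_sdiff.2 ⟨hj, hcon⟩) hr
    rw [hS, Finset.mem_union, Finset.mem_image, Finset.mem_image] at hjS
    rcases hjS with ⟨a, _, rfl⟩ | ⟨a, _, rfl⟩
    · exact ⟨a, hr⟩
    · exact ⟨a, ht l (q a) (p a) hr (hs _ _ (h1 a).2.2) (fun h => hl'.2 (h ▸ hpS a))⟩
  have hL : (X \ S).card ≤ k := by
    classical
    rcases Nat.eq_zero_or_pos k with rfl | hkpos
    · have : X \ S = ∅ := by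
        rw [Finset.eq_empty_iff_forall_notMem]
        intro l hl
        obtain ⟨a, _⟩ := hex l hl
        exact a.elim0
      rw [this, Finset.card_empty]
    · haveI : Nonempty (Fin k) := ⟨⟨0, hkpos⟩⟩
      choose! φ hφ using hex
      have h3 : Set.InjOn φ (X \ S : Finset α) := by
        intro l hl l' hl' he
        by_contra hne
        have h4 := hφ l hl
        have h5 := hφ l' hl'
        rw [← he] at h5
        exact hno l hl l' hl' (ht _ _ _ h4 (hs _ _ h5) hne)
      have h4 := Finset.card_le_card_of_injOn φ (t := Finset.univ)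
        (fun a _ => Finset.mem_coe.2 (Finset.mem_univ _)) h3
      rwa [Finset.card_univ, Fintype.card_fin] at h4
  have hSc : S.card ≤ 2 * k := by
    have h3 : (Finset.univ.image p).card ≤ k := by
      simpa using Finset.card_image_le (s := Finset.univ) (f := p)
    have h4 : (Finset.univ.image q).card ≤ k := by
      simpa using Finset.card_image_le (s := Finset.univ) (f := q)
    have h5 : S.card ≤ (Finset.univ.image p).card + (Finset.univ.image q).card :=
      Finset.card_union_le (Finset.univ.image p) (Finset.univ.image q)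
    omega
  have hXc : X.card ≤ (X \ S).card + S.card := by
    have h3 : X ⊆ (X \ S) ∪ S := by
      intro x hx
      by_cases h : x ∈ S
      · exact Finset.mem_union_right _ h
      · exact Finset.mem_union_left _ (Finset.mem_sdiff.2 ⟨hx, h⟩)
    exact (Finset.card_le_card h3).trans (Finset.card_union_le _ _)
  omega

end Pool.Agent.H59.MW
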