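import Pool.Agent.H59.MW.LOB
import Pool.Agent.H59.MW.Four
import Pool.Agent.H59.MW.Match3

/-!
# MW-SERCARD: few coordinates in series

`match3` on `SerS U A` with `r i j = (i ≠ j ∧ Per A {i, j})`: transitive on different elements since
`symmDiff (symmDiff x {i,j}) {j,l} = symmDiff x {i,l}`. Then `MC.lo_bound` with `ι = Fin k`, `v = 1`,
`g a = {p a, q a}` (for `x ∈ A`, `|x ∩ {p,q}| = 1` if exactly one is in `x`, otherwise `0` or `2`), `4 ≤ e` by
`MC.four_le`: `k ≤ e + 1`.
-/

namespace Pool.Agent.H59.MW

open Finset Pool.Agent.H59.CW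

set_option linter.unusedSectionVars false

variable {α : Type*} [DecidableEq α] {U : Finset α} {A : Finset (Finset α)} {d w e s : ℕ}

theorem MC.ser_card (h : MC U A d w e s) : (SerS U A).card ≤ 3 * (e + 1) := by
  have hmemS : ∀ i, i ∈ SerS U A ↔ i ∈ U ∧ ∃ j ∈ U, j ≠ i ∧ Per A {i, j} := by
    intro i
    unfold SerS
    exact Finset.mem_filter
  obtain ⟨k, p, q, h1, h2, h3⟩ := match3 (SerS U A) (fun i j => i ≠ j ∧ Per A {i, j})
    (fun i j hij => ⟨hij.1.symm, by rw [Finset.pair_comm]; exact hij.2⟩)
    (by
      rintro i j l ⟨hij, h1⟩ ⟨hjl, h2⟩ hil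
      refine ⟨hil, fun x hx => ?_⟩
      have h3 := h2 _ (h1 x hx)
      have h4 : symmDiff (symmDiff x {i, j}) {j, l} = symmDiff x {i, l} := by
        ext t
        rw [mem_symmDiff_pair, mem_symmDiff_pair, mem_symmDiff_pair]
        by_cases e1 : t = i
        · subst e1; simp [hij, hil]
        · by_cases e2 : t = j
          · subst e2; simp [e1, hjl]
          · by_cases e3 : t = l
            · subst e3; simp [e1, e2]
            · simp [e1, e2, e3]
      rwa [h4] at h3)
    (fun i hi => hi.1 rfl)
    (by
      intro i hi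
      obtain ⟨hiU, j, hjU, hji, hper⟩ := (hmemS i).1 hi
      refine ⟨j, (hmemS j).2 ⟨hjU, i, hiU, hji.symm, ?_⟩, hji.symm, hper⟩
      rw [Finset.pair_comm]
      exact hper)
  have hk : Fintype.card (Fin k) ≤ e + 1 := by
    refine h.lo_bound h.four_le (v := 1) one_pos p q (fun a => {p a, q a})
      (fun a => ((hmemS _).1 (h1 a).1).1) (fun a => ((hmemS _).1 (h1 a).2.1).1)
      (fun a => (h1 a).2.2.1) (fun a => (h1 a).2.2.2) ?_ ?_ ?_ ?_ ?_ ?_
    · intro a b hab
      obtain ⟨e1, e2, e3⟩ := h2 a b hab
      obtain ⟨e4, e5, e6⟩ := h2 b a hab.symm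
      rw [Finset.disjoint_left]
      intro x hx hx'
      rw [Finset.mem_insert, Finset.mem_singleton] at hx hx'
      rcases hx with rfl | rfl <;> rcases hx' with hx' | hx'
      · exact e1 hx'
      · exact e2 hx'
      · exact e5 hx'.symm
      · exact e3 hx'
    · intro a
      exact Finset.mem_insert_self _ _
    · intro a
      exact Finset.mem_insert_of_mem (Finset.mem_singleton_self _)
    · intro a
      rw [Finset.card_pair (h1 a).2.2.1]
    · intro a x _ hx
      rw [Finset.card_eq_one]
      by_cases hp : p a ∈ x
      · have hq : q a ∉ x := fun hq => hx ⟨fun _ => hq, fun _ => hp⟩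
        refine ⟨p a, ?_⟩
        ext t
        simp only [Finset.mem_inter, Finset.mem_insert, Finset.mem_singleton]
        constructor
        · rintro ⟨ht, rfl | rfl⟩
          · rfl
          · exact absurd ht hq
        · rintro rfl
          exact ⟨hp, Or.inl rfl⟩
      · have hq : q a ∈ x := by
          by_contra hq
          exact hx ⟨fun h => absurd h hp, fun h => absurd h hq⟩
        refine ⟨q a, ?_⟩
        ext t
        simp only [Finset.mem_inter, Finset.mem_insert, Finset.mem_singleton]
        constructor
        · rintro ⟨ht, rfl | rfl⟩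
          · exact absurd ht hp
          · rfl
        · rintro rfl
          exact ⟨hq, Or.inr rfl⟩
    · intro a x _ hx
      by_cases hp : p a ∈ x
      · have hq := hx.1 hp
        right
        have h5 : x ∩ {p a, q a} = {p a, q a} := by
          apply Finset.inter_eq_right.2
          intro t ht
          rw [Finset.mem_insert, Finset.mem_singleton] at ht
          rcases ht with rfl | rfl
          · exact hp
          · exact hq
        rw [h5, Finset.card_pair (h1 a).2.2.1]
      · have hq : q a ∉ x := fun hq => hp (hx.2 hq)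
        left
        rw [Finset.card_eq_zero, Finset.eq_empty_iff_forall_notMem]
        intro t ht
        simp only [Finset.mem_inter, Finset.mem_insert, Finset.mem_singleton] at ht
        obtain ⟨ht, rfl | rfl⟩ := ht
        · exact hp ht
        · exact hq ht
  rw [Fintype.card_fin] at hk
  omega

end Pool.Agent.H59.MW
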