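import Pool.Agent.H59.MW.Dbl
import Pool.Agent.H59.MW.SerCard

/-!
# MW-VVLE: the number of parallel pairs is at most `s² + 6(e+1)`

Let `i ~ j` iff `i = j ∨ Per A {i, j}` (an equivalence relation; classes inside `U`), `N = cnt A w`.
For every `x`: `∑_{i ~ j} chi i x chi j x = ∑_{classes C} (∑_{i ∈ C} chi i x)² ≥ #(U \ SerS U A)` (a class with one
element gives 1, every other class gives `≥ 0`). E.g. with `cl i = U.filter (i ~ ·)`, `i ~ j ↔ cl i = cl j`,
`Finset.sum_fiberwise`/`sum_image`. So `∑_{i ~ j} cor i j ≥ N |U \ SerS|`. For `i ≁ j`: `cor i j = N` if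
`Par A i j` (`cor_of_par`), `≥ 0` otherwise (`MC.cor_pos`). By `MC.sum_cor`, `MC.sum_mag`:
`s² N = ∑_{i,j ∈ U} cor i j ≥ N (|U \ SerS| + #{(i,j) : Par, i ≁ j})`. On the other hand
`VV U A = #{Par, ≁} + #{Par, ~} ≤ #{Par, ≁} + |U \ SerS| + 2 |SerS|`: for `i ∈ U \ SerS` only `j = i` is `~ i`;
for `i ∈ SerS` at most two `j ∈ U` are parallel to `i` (`MC.mult`, `MC.four_le`). Hence
`VV ≤ s² + 2 |SerS| ≤ s² + 6(e+1)` (`MC.ser_card`).
-/

namespace Pool.Agent.H59.MW

open Finset Pool.Agent.H59.CW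

set_option linter.unusedSectionVars false

variable {α : Type*} [DecidableEq α] {U : Finset α} {A : Finset (Finset α)} {d w e s : ℕ}

/-- equal or in series -/
def vvR (A : Finset (Finset α)) (i j : α) : Prop := i = j ∨ Per A {i, j}

theorem vvR_symm {i j : α} (h : vvR A i j) : vvR A j i := by
  rcases h with rfl | h
  · exact Or.inl rfl
  · right
    rwa [Finset.pair_comm]

theorem vvR_trans {i j l : α} (h1 : vvR A i j) (h2 : vvR A j l) : vvR A i l := by
  by_cases hil : i = l
  · exact Or.inl hil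
  rcases h1 with rfl | h1
  · exact h2
  rcases h2 with rfl | h2
  · exact Or.inr h1
  by_cases hij : i = j
  · subst hij; exact Or.inr h2
  by_cases hjl : j = l
  · subst hjl; exact Or.inr h1
  right
  intro x hx
  have h3 := h2 _ (h1 x hx)
  rw [symmDiff_assoc] at h3
  have h4 : symmDiff ({i, j} : Finset α) {j, l} = {i, l} := by
    ext t
    simp only [Finset.mem_symmDiff, Finset.mem_insert, Finset.mem_singleton]
    constructor
    · rintro (⟨rfl | rfl, h5⟩ | ⟨rfl | rfl, h5⟩)
      · exact Or.inl rfl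
      · exact absurd (Or.inl rfl) h5
      · exact absurd (Or.inr rfl) h5
      · exact Or.inr rfl
    · rintro (rfl | rfl)
      · left
        exact ⟨Or.inl rfl, fun h6 => h6.elim hij hil⟩
      · right
        refine ⟨Or.inr rfl, fun h6 => h6.elim (fun h7 => hil h7.symm) (fun h7 => hjl h7.symm)⟩
  rwa [h4] at h3

open Classical in
/-- the class -/
noncomputable def vvC (U : Finset α) (A : Finset (Finset α)) (i : α) : Finset α :=
  U.filter (fun j => vvR A i j)

theorem mem_vvC {i j : α} : j ∈ vvC U A i ↔ j ∈ U ∧ vvR A i j := by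
  classical
  simp [vvC]

theorem vvC_eq {i j : α} (h : vvR A i j) : vvC U A j = vvC U A i := by
  ext t
  rw [mem_vvC, mem_vvC]
  exact ⟨fun h1 => ⟨h1.1, vvR_trans h h1.2⟩, fun h1 => ⟨h1.1, vvR_trans (vvR_symm h) h1.2⟩⟩

theorem mem_vvC_iff {i j : α} : j ∈ vvC U A i ↔ j ∈ U ∧ vvC U A j = vvC U A i := by
  rw [mem_vvC]
  constructor
  · rintro ⟨h1, h2⟩
    exact ⟨h1, vvC_eq h2⟩
  · rintro ⟨h1, h2⟩
    refine ⟨h1, ?_⟩
    have h3 : j ∈ vvC U A j := mem_vvC.2 ⟨h1, Or.inl rfl⟩
    rw [h2] at h3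
    exact (mem_vvC.1 h3).2

/-- sum over classes -/
theorem vv_class_sum (f : α → ℤ) (hf : ∀ i, f i * f i = 1) :
    ((U.filter (fun i => vvC U A i = {i})).card : ℤ) ≤ ∑ i ∈ U, ∑ j ∈ vvC U A i, f i * f j := by
  rw [Finset.card_filter]
  push_cast
  rw [← Finset.sum_fiberwise_of_maps_to (s := U) (t := U.image (vvC U A))
      (g := vvC U A) (fun i hi => Finset.mem_image_of_mem _ hi)
      (fun i => ∑ j ∈ vvC U A i, f i * f j),
    ← Finset.sum_fiberwise_of_maps_to (s := U) (t := U.image (vvC U A))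
      (g := vvC U A) (fun i hi => Finset.mem_image_of_mem _ hi)
      (fun i => if vvC U A i = {i} then (1 : ℤ) else 0)]
  refine Finset.sum_le_sum fun C hC => ?_
  obtain ⟨i0, hi0, rfl⟩ := Finset.mem_image.1 hC
  have hfib : U.filter (fun i => vvC U A i = vvC U A i0) = vvC U A i0 := by
    ext j
    rw [Finset.mem_filter, mem_vvC_iff]
  rw [hfib]
  have h1 : ∑ i ∈ vvC U A i0, ∑ j ∈ vvC U A i, f i * f j
      = (∑ i ∈ vvC U A i0, f i) * (∑ i ∈ vvC U A i0, f i) := by
    rw [Finset.sum_mul_sum]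
    refine Finset.sum_congr rfl fun i hi => ?_
    rw [(mem_vvC_iff.1 hi).2]
  rw [h1]
  by_cases hs : ∃ k, vvC U A i0 = {k}
  · obtain ⟨k, hk⟩ := hs
    have hk2 : k ∈ vvC U A i0 := by rw [hk]; simp
    have hk3 := (mem_vvC_iff.1 hk2).2
    rw [hk, Finset.sum_singleton, Finset.sum_singleton, hf]
    split_ifs <;> norm_num
  · have h2 : ∑ i ∈ vvC U A i0, (if vvC U A i = {i} then (1 : ℤ) else 0) = 0 := by
      refine Finset.sum_eq_zero fun i hi => ?_
      rw [if_neg]
      intro h3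
      exact hs ⟨i, by rw [← (mem_vvC_iff.1 hi).2]; exact h3⟩
    rw [h2]
    exact mul_self_nonneg _

theorem vv_single {i : α} (hi : i ∈ U) : vvC U A i = {i} ↔ i ∉ SerS U A := by
  unfold SerS
  rw [Finset.mem_filter]
  constructor
  · rintro h1 ⟨-, j, hj, hji, hp⟩
    have h2 : j ∈ vvC U A i := mem_vvC.2 ⟨hj, Or.inr hp⟩
    rw [h1, Finset.mem_singleton] at h2
    exact hji h2
  · intro h1
    ext j
    rw [mem_vvC, Finset.mem_singleton]
    constructor
    · rintro ⟨hj, rfl | hp⟩
      · rfl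
      · by_contra hne
        exact h1 ⟨hi, j, hj, hne, hp⟩
    · rintro rfl
      exact ⟨hi, Or.inl rfl⟩

theorem vv_chi_sq (i : α) (x : Finset α) : chi i x * chi i x = 1 := by
  unfold chi
  split_ifs <;> norm_num

theorem vv_ser_sub : SerS U A ⊆ U := Finset.filter_subset _ _

theorem vv_cor_ser :
    (cnt A w : ℤ) * ((U \ SerS U A).card : ℤ) ≤ ∑ i ∈ U, ∑ j ∈ vvC U A i, cor A w i j := by
  have h1 : ∑ i ∈ U, ∑ j ∈ vvC U A i, cor A w i j
      = ∑ x ∈ EE A w, ∑ i ∈ U, ∑ j ∈ vvC U A i, chi i x * chi j x := by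
    unfold cor
    rw [Finset.sum_comm]
    refine Finset.sum_congr rfl fun i _ => ?_
    rw [Finset.sum_comm]
  rw [h1]
  have h2 : (U.filter (fun i => vvC U A i = {i})) = U \ SerS U A := by
    ext i
    rw [Finset.mem_filter, Finset.mem_sdiff]
    constructor
    · rintro ⟨hi, h3⟩
      exact ⟨hi, (vv_single hi).1 h3⟩
    · rintro ⟨hi, h3⟩
      exact ⟨hi, (vv_single hi).2 h3⟩
  calc (cnt A w : ℤ) * ((U \ SerS U A).card : ℤ)
      = ∑ _x ∈ EE A w, ((U \ SerS U A).card : ℤ) := by
        rw [Finset.sum_const, card_EE, nsmul_eq_mul]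
    _ ≤ _ := by
        refine Finset.sum_le_sum fun x _ => ?_
        rw [← h2]
        exact vv_class_sum (fun i => chi i x) (fun i => vv_chi_sq i x)

theorem MC.vv_main (h : MC U A d w e s) :
    (cnt A w : ℤ) * (((U \ SerS U A).card : ℤ)
      + ∑ i ∈ U, (((U \ vvC U A i).filter (fun j => Par A i j)).card : ℤ))
      ≤ (s : ℤ) ^ 2 * cnt A w := by
  have h1 : (s : ℤ) ^ 2 * cnt A w = ∑ i ∈ U, ∑ j ∈ U, cor A w i j := by
    rw [Finset.sum_congr rfl fun i _ => h.sum_cor i, ← Finset.mul_sum, h.sum_mag]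
    ring
  rw [h1]
  have hsub : ∀ i, vvC U A i ⊆ U := fun i j hj => (mem_vvC.1 hj).1
  have h2 : ∀ i ∈ U, ∑ j ∈ U, cor A w i j
      = ∑ j ∈ vvC U A i, cor A w i j + ∑ j ∈ U \ vvC U A i, cor A w i j := by
    intro i _
    rw [add_comm, Finset.sum_sdiff (hsub i)]
  rw [Finset.sum_congr rfl h2, Finset.sum_add_distrib, mul_add]
  refine add_le_add vv_cor_ser ?_
  rw [Finset.mul_sum]
  refine Finset.sum_le_sum fun i hi => ?_
  rw [Finset.card_filter]
  push_cast
  rw [Finset.mul_sum]
  refine Finset.sum_le_sum fun j hj => ?_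
  obtain ⟨hjU, hjC⟩ := Finset.mem_sdiff.1 hj
  have hnR : ¬ vvR A i j := fun h3 => hjC (mem_vvC.2 ⟨hjU, h3⟩)
  by_cases hp : Par A i j
  · rw [if_pos hp, cor_of_par hp, mul_one]
  · rw [if_neg hp, mul_zero]
    exact (h.cor_pos hi hjU hp (fun h3 => hnR (Or.inr h3))).le

theorem MC.VV_le (h : MC U A d w e s) : VV U A ≤ s ^ 2 + 6 * (e + 1) := by
  have hN : (0 : ℤ) < cnt A w := by exact_mod_cast h.cor_cnt_pos
  have h1 := h.vv_main
  rw [mul_comm ((s : ℤ) ^ 2)] at h1
  have h2 := le_of_mul_le_mul_left h1 hN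
  have h4 := h.four_le
  -- the number of parallel pairs
  have hVV : VV U A = ∑ i ∈ U, (U.filter (fun j => Par A i j)).card := by
    unfold VV
    rw [Finset.card_filter, Finset.sum_product]
    refine Finset.sum_congr rfl fun i _ => ?_
    rw [Finset.card_filter]
  have hsub : ∀ i, vvC U A i ⊆ U := fun i j hj => (mem_vvC.1 hj).1
  have hsplit : ∀ i ∈ U, (U.filter (fun j => Par A i j)).card ≤
      ((U \ vvC U A i).filter (fun j => Par A i j)).card + (if i ∈ SerS U A then 2 else 1) := by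
    intro i hi
    by_cases hs : i ∈ SerS U A
    · rw [if_pos hs]
      have h5 : (U.filter (fun j => Par A i j)).card ≤ 2 := by
        by_contra hcon
        push Not at hcon
        rw [Finset.two_lt_card] at hcon
        obtain ⟨a, ha, b, hb, c, hc, hab, hac, hbc⟩ := hcon
        obtain ⟨haU, hia⟩ := Finset.mem_filter.1 ha
        obtain ⟨hbU, hib⟩ := Finset.mem_filter.1 hb
        obtain ⟨hcU, hic⟩ := Finset.mem_filter.1 hc
        have hpab : Par A a b := fun x hx => ((hia x hx).symm.trans (hib x hx))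
        have hpac : Par A a c := fun x hx => ((hia x hx).symm.trans (hic x hx))
        exact h.mult (by omega) haU hab hac hbc hpab hpac hbU hcU
      omega
    · rw [if_neg hs]
      have h5 : (U.filter (fun j => Par A i j)) ⊆
          ((U \ vvC U A i).filter (fun j => Par A i j)) ∪ {i} := by
        intro j hj
        obtain ⟨hjU, hij⟩ := Finset.mem_filter.1 hj
        rw [Finset.mem_union, Finset.mem_singleton]
        by_cases hji : j = i
        · exact Or.inr hji
        · left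
          rw [Finset.mem_filter, Finset.mem_sdiff]
          refine ⟨⟨hjU, ?_⟩, hij⟩
          rw [(vv_single hi).2 hs, Finset.mem_singleton]
          exact hji
      refine (Finset.card_le_card h5).trans ((Finset.card_union_le _ _).trans ?_)
      rw [Finset.card_singleton]
  have h6 : VV U A ≤ ∑ i ∈ U, ((U \ vvC U A i).filter (fun j => Par A i j)).card
      + ∑ i ∈ U, (if i ∈ SerS U A then 2 else 1) := by
    rw [hVV, ← Finset.sum_add_distrib]
    exact Finset.sum_le_sum hsplit
  have h7 : ∑ i ∈ U, (if i ∈ SerS U A then 2 else 1) = (U \ SerS U A).card + 2 * (SerS U A).card := by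
    rw [← Finset.sum_sdiff (vv_ser_sub (U := U) (A := A))]
    congr 1
    · rw [Finset.sum_congr rfl (g := fun _ => 1)]
      · simp
      · intro i hi
        rw [if_neg (Finset.mem_sdiff.1 hi).2]
    · rw [Finset.sum_congr rfl (g := fun _ => 2)]
      · simp [mul_comm]
      · intro i hi
        rw [if_pos hi]
  have h8 := h.ser_card
  have h9 : (U \ SerS U A).card + ∑ i ∈ U, ((U \ vvC U A i).filter (fun j => Par A i j)).card
      ≤ s ^ 2 := by
    exact_mod_cast h2
  omega

end Pool.Agent.H59.MW
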