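import Pool.Agent.H59.MW.SGe
import Pool.Agent.H59.MW.VVle
import Pool.Agent.H59.MW.Rk3
import Pool.Agent.H59.MW.Num

/-!
# MW-KAP: no very dense set of coordinates

`f = |F|`, `ρ = rk a F`, `k = f - 2ρ + 2d - n` (`n = |U| = 2w+s`, `d + 1 = w + e`). Claim `k < 3e/2 - 5/2`.
Suppose `k ≥ 3e/2 - 5/2`, `A₀ = 5/4 + k/2 ≥ 3e/4 > 0`. `F ≠ ∅`, since otherwise
`k = 2d - n = 2e - 2 - s ≤ -2` (`MC.s_ge`), but `3e/2 - 5/2 ≥ 7/2`. So `|U \ F| < n`, `h.ih1` gives `TT` for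
`U \ F`. For `x ∈ A` put `σ x = f - 2|x ∩ F| = ∑_{i ∈ F} chi i x`, `z = s - σ x`. In `Sys.fib_le` the argument
`g` of `bt` satisfies exactly `g = 1 + (k + |z|)/2`: the two entries of the `max` are
`1 + (k + z)/2`, `1 + (k - z)/2`. By `bt_upper` `bt g ^2 (A₀ + |z|/2) ≤ bt e ^2 (e + .27) =: K`. So
`N² ≤ (∑_{x∈A} bt g)² ≤ 2^d ∑ bt g² ≤ 2^d K ∑_{x ∈ A} 1/(A₀ + |z|/2)` and by `maj_inv`
`∑ 1/(A₀+|z|/2) ≤ ∑ [1/(A₀+s) - (z-2s)/(2(A₀+s)²) + (z-2s)²/(4A₀(A₀+s)²)]`, `z - 2s = -(s + σ x)`,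
`∑_{x∈A} σ x = 0` (`CW.sum_aff`, all coordinates essential: `MC.ess`),
`∑ σ² = 2^d T`, `T = #{(i,j) ∈ F×F parallel} ≤ VV U A ≤ s² + 6(e+1)` (`CW.sum_chi_chi`, `MC.opp`, `MC.VV_le`):
the sum is `2^d (1/(A₀+s) + s/(2(A₀+s)²) + (s²+T)/(4A₀(A₀+s)²))`, so
`N² ≤ 4^d bt(e)² * 1` by `kap_num`, contradicting `h.big`.
-/

namespace Pool.Agent.H59.MW

open Finset Pool.Agent.H59.CW

set_option linter.unusedSectionVars false

variable {α : Type*} [DecidableEq α] {U : Finset α} {A : Finset (Finset α)} {d w e s : ℕ}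
  {a : α → Fin d → ZMod 2} {c : α → ZMod 2}

/-- the signed size of the trace on `F` -/
theorem kap_sig (F x : Finset α) : ∑ i ∈ F, chi i x = (F.card : ℤ) - 2 * (x ∩ F).card := by
  rw [← sum_chi (U := F) (x := x ∩ F) Finset.inter_subset_right]
  refine Finset.sum_congr rfl (fun i hi => ?_)
  unfold chi
  simp [hi]

theorem kap_sum1 (h : MC U A d w e s) {F : Finset α} (hF : F ⊆ U) :
    ∑ x ∈ A, ∑ i ∈ F, chi i x = 0 := by
  rw [Finset.sum_comm]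
  refine Finset.sum_eq_zero (fun i hi => ?_)
  have h1 := h.ess i (hF hi)
  exact sum_aff h.hA (aff_mem i) h1.1 h1.2

theorem kap_sum2 (h : MC U A d w e s) {F : Finset α} (hF : F ⊆ U) :
    ∑ x ∈ A, (∑ i ∈ F, chi i x) ^ 2 =
      2 ^ d * (((F ×ˢ F).filter (fun p => Par A p.1 p.2)).card : ℤ) := by
  have h1 : ∀ x ∈ A, (∑ i ∈ F, chi i x) ^ 2 = ∑ p ∈ F ×ˢ F, chi p.1 x * chi p.2 x := by
    intro x _
    rw [sq, Finset.sum_mul_sum, Finset.sum_product]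
  rw [Finset.sum_congr rfl h1, Finset.sum_comm]
  have h2 : ∀ p ∈ F ×ˢ F, ∑ x ∈ A, chi p.1 x * chi p.2 x =
      if Par A p.1 p.2 then (2 : ℤ) ^ d else 0 := by
    intro p hp
    rw [Finset.mem_product] at hp
    rw [sum_chi_chi h.hA p.1 p.2 (fun hne => h.opp _ (hF hp.1) _ (hF hp.2) hne), h.hd]
    push_cast
    rfl
  rw [Finset.sum_congr rfl h2, ← Finset.sum_filter, Finset.sum_const, nsmul_eq_mul]
  ring

theorem kap_T_le (h : MC U A d w e s) {F : Finset α} (hF : F ⊆ U) :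
    ((F ×ˢ F).filter (fun p => Par A p.1 p.2)).card ≤ s ^ 2 + 6 * (e + 1) := by
  refine le_trans ?_ h.VV_le
  unfold VV
  exact Finset.card_le_card (Finset.filter_subset_filter _ (Finset.product_subset_product hF hF))

theorem MC.kap (h : MC U A d w e s) (hS : Sys U A d a c) {F : Finset α} (hF : F ⊆ U) :
    (F.card : ℝ) - 2 * rk a F + 2 * d - U.card < 3 / 2 * e - 5 / 2 := by
  by_contra hcon
  rw [not_lt] at hcon
  have he4 := h.four_le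
  have he4' : (4 : ℝ) ≤ e := by exact_mod_cast he4
  have hs2 := h.s_ge
  have hs2' : (2 : ℝ) * e ≤ s := by exact_mod_cast hs2
  have hn : (U.card : ℝ) = 2 * w + s := by exact_mod_cast h.hn
  have hd1 : (d : ℝ) + 1 = w + e := by exact_mod_cast h.he
  have hρ : (0 : ℝ) ≤ rk a F := Nat.cast_nonneg _
  obtain ⟨k, hk⟩ : ∃ k : ℝ, k = (F.card : ℝ) - 2 * rk a F + 2 * d - U.card := ⟨_, rfl⟩
  rw [← hk] at hcon
  -- `F` is not empty
  have hFne : F.Nonempty := by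
    rw [Finset.nonempty_iff_ne_empty]
    rintro rfl
    rw [Finset.card_empty, hn] at hk
    push_cast at hk
    linarith
  have hlt : (U \ F).card < U.card := by
    apply Finset.card_lt_card
    rw [Finset.ssubset_iff_subset_ne]
    refine ⟨Finset.sdiff_subset, fun hq => ?_⟩
    obtain ⟨i, hi⟩ := hFne
    have : i ∈ U \ F := by rw [hq]; exact hF hi
    exact (Finset.mem_sdiff.1 this).2 hi
  have hfib := hS.fib_le (w := w) h.hA h.hU hF (fun d' => h.ih1 _ hlt d')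
  obtain ⟨g, hg⟩ : ∃ g : Finset α → ℤ, ∀ x, g x = max (1 + (d : ℤ) - rk a F - w + (x ∩ F).card)
      (1 + (d : ℤ) - rk a F - ((U.card : ℤ) - F.card - w + (x ∩ F).card)) := ⟨_, fun _ => rfl⟩
  simp only [← hg] at hfib
  obtain ⟨A0, hA0⟩ : ∃ A0 : ℝ, A0 = 5 / 4 + k / 2 := ⟨_, rfl⟩
  have hA0' : 3 / 4 * (e : ℝ) ≤ A0 := by rw [hA0]; linarith
  have hA0p : 0 < A0 := by linarith
  have hsp : (0 : ℝ) < s := by linarith
  obtain ⟨K, hK⟩ : ∃ K : ℝ, K = bt e ^ 2 * ((e : ℝ) + 27 / 100) := ⟨_, rfl⟩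
  have hK0 : 0 ≤ K := by rw [hK]; positivity
  -- the pointwise bound
  have hpt : ∀ x ∈ A, bt (g x) ^ 2 ≤ K * (1 / (A0 + s) +
      ((s : ℝ) + ((∑ i ∈ F, chi i x : ℤ) : ℝ)) / (2 * (A0 + s) ^ 2) +
      ((s : ℝ) + ((∑ i ∈ F, chi i x : ℤ) : ℝ)) ^ 2 / (4 * A0 * (A0 + s) ^ 2)) := by
    intro x _
    have h1 := kap_sig F x
    obtain ⟨z, hz⟩ : ∃ z : ℝ, z = (s : ℝ) - ((∑ i ∈ F, chi i x : ℤ) : ℝ) := ⟨_, rfl⟩
    have h2 : ((∑ i ∈ F, chi i x : ℤ) : ℝ) = (F.card : ℝ) - 2 * ((x ∩ F).card : ℝ) := by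
      rw [h1]; push_cast; ring
    have h3 : (g x : ℝ) = 1 + (k + |z|) / 2 := by
      have e1 : (g x : ℝ) = max (1 + (d : ℝ) - rk a F - w + (x ∩ F).card)
          (1 + (d : ℝ) - rk a F - ((U.card : ℝ) - F.card - w + (x ∩ F).card)) := by
        rw [hg]; push_cast; rfl
      rw [e1, abs_eq_max_neg]
      have e2 : 1 + (k + max z (-z)) / 2 = max (1 + (k + z) / 2) (1 + (k - z) / 2) := by
        rcases le_total z (-z) with h5 | h5
        · rw [max_eq_right h5, max_eq_right (by linarith)]; ring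
        · rw [max_eq_left h5, max_eq_left (by linarith)]
      rw [e2]
      congr 1
      · rw [hk, hz, h2, hn]; ring
      · rw [hk, hz, h2, hn]; ring
    have h4 : (bt (g x)) ^ 2 * ((g x : ℝ) + 1 / 4) ≤ K := by
      have h5 := bt_upper (g x) (e := (e : ℤ)) (by exact_mod_cast (by omega : 3 ≤ e))
      rw [hK]
      simpa using h5
    have h5 : (g x : ℝ) + 1 / 4 = A0 + |z| / 2 := by rw [h3, hA0]; ring
    rw [h5] at h4
    have h6 : 0 < A0 + |z| / 2 := by positivity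
    have h7 : bt (g x) ^ 2 ≤ K * (1 / (A0 + |z| / 2)) := by
      rw [mul_one_div, le_div_iff₀ h6]; exact h4
    refine h7.trans (mul_le_mul_of_nonneg_left ?_ hK0)
    refine (maj_inv (z := z) hA0p hsp.le).trans (le_of_eq ?_)
    have h8 : z - 2 * s = -((s : ℝ) + ((∑ i ∈ F, chi i x : ℤ) : ℝ)) := by rw [hz]; ring
    rw [h8, neg_sq, neg_div, sub_neg_eq_add]
  -- Cauchy-Schwarz and the moments
  have hcs : (cnt A w : ℝ) ^ 2 ≤ 2 ^ d * ∑ x ∈ A, bt (g x) ^ 2 := by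
    have h1 : (0 : ℝ) ≤ cnt A w := Nat.cast_nonneg _
    have h2 : (∑ x ∈ A, bt (g x)) ^ 2 ≤ (A.card : ℝ) * ∑ x ∈ A, bt (g x) ^ 2 :=
      sq_sum_le_card_mul_sum_sq
    rw [h.hd] at h2
    push_cast at h2
    exact (pow_le_pow_left₀ h1 hfib 2).trans h2
  obtain ⟨T, hT⟩ : ∃ T : ℝ, T = (((F ×ˢ F).filter (fun p => Par A p.1 p.2)).card : ℝ) :=
    ⟨_, rfl⟩
  have hm1 : ∑ x ∈ A, ((∑ i ∈ F, chi i x : ℤ) : ℝ) = 0 := by
    have := kap_sum1 h hF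
    exact_mod_cast this
  have hm2 : ∑ x ∈ A, ((∑ i ∈ F, chi i x : ℤ) : ℝ) ^ 2 = 2 ^ d * T := by
    have := kap_sum2 h hF
    rw [hT]
    exact_mod_cast this
  have hcard : (A.card : ℝ) = 2 ^ d := by rw [h.hd]; push_cast; rfl
  have hsum : ∑ x ∈ A, bt (g x) ^ 2 ≤ K * (2 ^ d * (1 / (A0 + s) + s / (2 * (A0 + s) ^ 2) +
      ((s : ℝ) ^ 2 + T) / (4 * A0 * (A0 + s) ^ 2))) := by
    refine (Finset.sum_le_sum hpt).trans (le_of_eq ?_)
    rw [← Finset.mul_sum, Finset.sum_add_distrib, Finset.sum_add_distrib, Finset.sum_const,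
      nsmul_eq_mul, hcard, ← Finset.sum_div, ← Finset.sum_div]
    have e1 : ∑ x ∈ A, ((s : ℝ) + ((∑ i ∈ F, chi i x : ℤ) : ℝ)) = 2 ^ d * s := by
      rw [Finset.sum_add_distrib, Finset.sum_const, nsmul_eq_mul, hcard, hm1, add_zero]
    have e2 : ∑ x ∈ A, ((s : ℝ) + ((∑ i ∈ F, chi i x : ℤ) : ℝ)) ^ 2 =
        2 ^ d * ((s : ℝ) ^ 2 + T) := by
      have e3 : ∀ x ∈ A, ((s : ℝ) + ((∑ i ∈ F, chi i x : ℤ) : ℝ)) ^ 2 =
          (s : ℝ) ^ 2 + 2 * s * ((∑ i ∈ F, chi i x : ℤ) : ℝ) +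
            ((∑ i ∈ F, chi i x : ℤ) : ℝ) ^ 2 := fun x _ => by ring
      rw [Finset.sum_congr rfl e3, Finset.sum_add_distrib, Finset.sum_add_distrib,
        Finset.sum_const, nsmul_eq_mul, hcard, ← Finset.mul_sum, hm1, hm2]
      ring
    rw [e1, e2]
    ring
  have hTle : T ≤ (s : ℝ) ^ 2 + 6 * (e + 1) := by
    rw [hT]
    exact_mod_cast kap_T_le h hF
  have hnum := kap_num (e := (e : ℝ)) (s := (s : ℝ)) (A := A0) (T := T) he4' hs2' hA0' hTle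
  have hfin : (cnt A w : ℝ) ^ 2 ≤ (2 ^ d * bt e) ^ 2 := by
    calc (cnt A w : ℝ) ^ 2 ≤ 2 ^ d * ∑ x ∈ A, bt (g x) ^ 2 := hcs
      _ ≤ 2 ^ d * (K * (2 ^ d * (1 / (A0 + s) + s / (2 * (A0 + s) ^ 2) +
          ((s : ℝ) ^ 2 + T) / (4 * A0 * (A0 + s) ^ 2)))) :=
        mul_le_mul_of_nonneg_left hsum (by positivity)
      _ = (2 ^ d * bt e) ^ 2 * (((e : ℝ) + 27 / 100) * (1 / (A0 + s) + s / (2 * (A0 + s) ^ 2) +
          ((s : ℝ) ^ 2 + T) / (4 * A0 * (A0 + s) ^ 2))) := by rw [hK]; ring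
      _ ≤ (2 ^ d * bt e) ^ 2 * 1 := mul_le_mul_of_nonneg_left hnum (by positivity)
      _ = (2 ^ d * bt e) ^ 2 := mul_one _
  have hb := h.big
  have hb0 : 0 ≤ 2 ^ d * bt e := by
    have := bt_pos (e : ℤ)
    positivity
  have := pow_lt_pow_left₀ hb hb0 (two_ne_zero)
  linarith

end Pool.Agent.H59.MW
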