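import Pool.Agent.H59.MW.Defs
import Pool.Agent.H59.MW.BDefs

/-!
# MW-LINK: rank of a random half of the coordinates

`b` = the basis of `Fin d → ZMod 2` given by `a` on `B` (`|B| = d`, independent), indexed by `↥B`,
`N j = b.repr (a j) : ↥B → ZMod 2`, so `N b = Pi.single b 1` for `b ∈ B`, `a j = ∑_b N j b • a b`. For `h` let
`u b = a b ⬝ᵥ h`; then `a j ⬝ᵥ h = N j ⬝ᵥ u`. The span of the `a i`, `i ∈ U`, `a i ⬝ᵥ h ≠ ε`, contains the
`a b`, `b ∈ B`, `u b ≠ ε`, and the `a j`, `j ∈ R`, `N j ⬝ᵥ u ≠ ε`. Apply the isomorphism `b.equivFun` and then the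
linear map `msk ε u` (restriction to the coordinates with `u = ε`): the kernel contains the `Pi.single b 1`, `u b ≠ ε`
(a subspace of dimension `#{b : u b ≠ ε}`), the image contains the span defining `rke ε R N u`. So
`rk a {i ∈ U : a i ⬝ᵥ h ≠ ε} ≥ #{b : u b ≠ ε} + rke ε R N u`. The map `h ↦ u` is a bijection from `Fin d → ZMod 2` to
`↥B → ZMod 2` (linear, injective since the `a b` span; `|B| = d`), and `∑_u #{b : u b ≠ ε} = d 2^d / 2`.
-/
namespace Pool.Agent.H59.MW

open Finset Pool.Agent.H59.CW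

set_option linter.unusedSectionVars false

variable {α : Type*} [DecidableEq α] {d : ℕ}

theorem link_aux_zadd_one_ne (z e : ZMod 2) : z + 1 ≠ e ↔ z = e := by
  revert z e; decide

theorem link_aux_card_half {C : Type*} [Fintype C] [DecidableEq C] (x : C) (ε : ZMod 2) :
    2 * ∑ u : C → ZMod 2, (if u x ≠ ε then (1 : ℝ) else 0) = 2 ^ Fintype.card C := by
  have h1 : ∑ u : C → ZMod 2, (if u x ≠ ε then (1 : ℝ) else 0)
      = ∑ u : C → ZMod 2, (if u x = ε then (1 : ℝ) else 0) := by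
    rw [← Equiv.sum_comp (Equiv.addRight (Pi.single x (1 : ZMod 2) : C → ZMod 2))]
    refine Finset.sum_congr rfl fun u _ => ?_
    simp only [Equiv.coe_addRight, Pi.add_apply, Pi.single_eq_same]
    simp only [link_aux_zadd_one_ne]
  have h2 : ∑ u : C → ZMod 2, (if u x ≠ ε then (1 : ℝ) else 0)
      + ∑ u : C → ZMod 2, (if u x = ε then (1 : ℝ) else 0) = 2 ^ Fintype.card C := by
    rw [← Finset.sum_add_distrib]
    have : ∀ u : C → ZMod 2, ((if u x ≠ ε then (1 : ℝ) else 0) + if u x = ε then (1 : ℝ) else 0)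
        = 1 := by
      intro u
      by_cases h : u x = ε <;> simp [h]
    simp only [this]
    simp [ZMod.card]
  linarith

/-- `msk ε u` as a linear map -/
def link_aux_mskL {C : Type*} [DecidableEq C] (ε : ZMod 2) (u : C → ZMod 2) :
    (C → ZMod 2) →ₗ[ZMod 2] (C → ZMod 2) where
  toFun := msk ε u
  map_add' := by
    intro v w
    ext b
    simp only [msk, Pi.add_apply]
    split_ifs <;> simp
  map_smul' := by
    intro c v
    ext b
    simp only [msk, Pi.smul_apply, smul_eq_mul, RingHom.id_apply]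
    split_ifs <;> simp

theorem sum_link {U B R : Finset α} {a : α → Fin d → ZMod 2} (hB : B ⊆ U) (hR : R ⊆ U)
    (hBc : B.card = d) (hBi : LinearIndepOn (ZMod 2) a (B : Set α)) :
    ∃ N : α → B → ZMod 2, (∀ j, a j = ∑ b : B, N j b • a b) ∧ ∀ ε : ZMod 2,
      2 ^ d * (d / 2 : ℝ) + ∑ u : B → ZMod 2, (rke ε R N u : ℝ) ≤
        ∑ h : Fin d → ZMod 2, (rk a (U.filter (fun i => a i ⬝ᵥ h ≠ ε)) : ℝ) := by
  have hBi' : LinearIndependent (ZMod 2) (fun x : B => a x) := hBi
  have hcard : Fintype.card B = d := by simp [hBc]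
  obtain ⟨bb, hbb⟩ : ∃ bb : Module.Basis B (ZMod 2) (Fin d → ZMod 2), ∀ x : B, bb x = a x := by
    refine ⟨basisOfLinearIndependentOfCardEqFinrank' _ hBi' (by simp [hBc]), fun x => ?_⟩
    simp
  refine ⟨fun j => bb.equivFun (a j), ?_, ?_⟩
  · intro j
    have h := bb.sum_equivFun (a j)
    simp only [hbb] at h
    exact h.symm
  intro ε
  have hdot : ∀ (h : Fin d → ZMod 2) (v : Fin d → ZMod 2),
      v ⬝ᵥ h = bb.equivFun v ⬝ᵥ (fun x : B => a x ⬝ᵥ h) := by
    intro h v
    have h1 := bb.sum_equivFun v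
    conv_lhs => rw [← h1]
    rw [sum_dotProduct]
    simp only [dotProduct, hbb, Pi.smul_apply, smul_eq_mul, Finset.mul_sum, mul_assoc]
  have hinj : Function.Injective (fun (h : Fin d → ZMod 2) (x : B) => a x ⬝ᵥ h) := by
    intro h h' e
    have e' : ∀ v : Fin d → ZMod 2, v ⬝ᵥ h = v ⬝ᵥ h' := by
      intro v
      rw [hdot h v, hdot h' v]
      exact congrArg _ e
    ext i
    have := e' (Pi.single i 1)
    simpa using this
  have hbij : Function.Bijective (fun (h : Fin d → ZMod 2) (x : B) => a x ⬝ᵥ h) := by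
    rw [Fintype.bijective_iff_injective_and_card]
    refine ⟨hinj, ?_⟩
    simp [hBc]
  have key : ∀ h : Fin d → ZMod 2,
      (∑ x : B, if a x ⬝ᵥ h ≠ ε then (1 : ℝ) else 0) +
        (rke ε R (fun j => bb.equivFun (a j)) (fun x : B => a x ⬝ᵥ h) : ℝ) ≤
      (rk a (U.filter (fun i => a i ⬝ᵥ h ≠ ε)) : ℝ) := by
    intro h
    set u : B → ZMod 2 := fun x : B => a x ⬝ᵥ h with hu
    set S := Submodule.span (ZMod 2) (a '' (U.filter (fun i => a i ⬝ᵥ h ≠ ε) : Set α)) with hS
    have hmem : ∀ i ∈ U, a i ⬝ᵥ h ≠ ε → a i ∈ S := by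
      intro i hi hne
      exact Submodule.subset_span ⟨i, by simp [hi, hne], rfl⟩
    let f : S →ₗ[ZMod 2] (B → ZMod 2) :=
      ((link_aux_mskL ε u).comp (bb.equivFun : (Fin d → ZMod 2) →ₗ[ZMod 2] (B → ZMod 2))).comp S.subtype
    have hrn := f.finrank_range_add_finrank_ker
    have h1 : rke ε R (fun j => bb.equivFun (a j)) u ≤ Module.finrank (ZMod 2) (LinearMap.range f) := by
      apply Submodule.finrank_mono
      rw [Submodule.span_le]
      rintro _ ⟨j, ⟨hjR, hj⟩, rfl⟩
      have hj' : a j ⬝ᵥ h ≠ ε := by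
        rw [hdot h (a j)]
        exact hj
      exact ⟨⟨a j, hmem j (hR hjR) hj'⟩, rfl⟩
    have h2 : Fintype.card {x : B // a x ⬝ᵥ h ≠ ε} ≤ Module.finrank (ZMod 2) (LinearMap.ker f) := by
      have hk : ∀ x : {x : B // a x ⬝ᵥ h ≠ ε}, a x.1 ∈ S := fun x => hmem _ (hB x.1.2) x.2
      have hk2 : ∀ x : {x : B // a x ⬝ᵥ h ≠ ε}, (⟨a x.1, hk x⟩ : S) ∈ LinearMap.ker f := by
        intro x
        rw [LinearMap.mem_ker]
        change msk ε u (bb.equivFun (a x.1)) = 0
        have e1 : bb.equivFun (a x.1) = Pi.single x.1 1 := by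
          rw [← hbb x.1]
          ext y
          simp [Pi.single_apply, eq_comm]
        rw [e1]
        ext y
        simp only [msk, Pi.zero_apply]
        split_ifs with hy
        · rw [Pi.single_apply, if_neg]
          rintro rfl
          exact x.2 hy
        · rfl
      have hli : LinearIndependent (ZMod 2)
          (fun x : {x : B // a x ⬝ᵥ h ≠ ε} => (⟨⟨a x.1, hk x⟩, hk2 x⟩ : LinearMap.ker f)) := by
        apply LinearIndependent.of_comp (S.subtype.comp (LinearMap.ker f).subtype)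
        exact hBi'.comp (fun x : {x : B // a x ⬝ᵥ h ≠ ε} => x.1) Subtype.val_injective
      exact hli.fintype_card_le_finrank
    have h3 : (∑ x : B, if a x ⬝ᵥ h ≠ ε then (1 : ℝ) else 0)
        = (Fintype.card {x : B // a x ⬝ᵥ h ≠ ε} : ℝ) := by
      rw [Fintype.card_subtype, Finset.sum_boole]
    rw [h3]
    have h4 : rk a (U.filter (fun i => a i ⬝ᵥ h ≠ ε)) = Module.finrank (ZMod 2) S := rfl
    rw [h4, ← hrn]
    push_cast
    have h1' : (rke ε R (fun j => bb.equivFun (a j)) u : ℝ)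
        ≤ (Module.finrank (ZMod 2) (LinearMap.range f) : ℝ) := by exact_mod_cast h1
    have h2' : (Fintype.card {x : B // a x ⬝ᵥ h ≠ ε} : ℝ)
        ≤ (Module.finrank (ZMod 2) (LinearMap.ker f) : ℝ) := by exact_mod_cast h2
    linarith
  have hsum := Finset.sum_le_sum fun h (_ : h ∈ (Finset.univ : Finset (Fin d → ZMod 2))) => key h
  rw [Finset.sum_add_distrib] at hsum
  refine le_trans (le_of_eq ?_) hsum
  congr 1
  · have e := hbij.sum_comp (fun u : B → ZMod 2 => ∑ x : B, if u x ≠ ε then (1 : ℝ) else 0)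
    refine Eq.trans ?_ e.symm
    rw [Finset.sum_comm]
    have e2 : ∀ x : B, ∑ u : B → ZMod 2, (if u x ≠ ε then (1 : ℝ) else 0) = 2 ^ d / 2 := by
      intro x
      have := link_aux_card_half x ε
      rw [hcard] at this
      linarith
    simp only [e2]
    simp [hBc]
    ring
  · exact (hbij.sum_comp (fun u : B → ZMod 2 =>
      (rke ε R (fun j => bb.equivFun (a j)) u : ℝ))).symm

end Pool.Agent.H59.MW
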