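import Pool.Agent.H59.MW.Defs

/-!
# MW-RK: rank of a set of coordinates

`rk a Y` = dimension of the span of the vectors `a i`, `i ∈ Y`.
* `card_trace`: the linear map `t ↦ (a i ⬝ᵥ t)_{i ∈ Y}` from `Fin d → ZMod 2` to `↥Y → ZMod 2` is `Matrix.mulVecLin`
  of the matrix with rows `a i`; its range has dimension `rk a Y` (`Matrix.rank`, `Matrix.rank_transpose`,
  `Matrix.rank_eq_finrank_span_cols` / `rank_eq_finrank_span_row`), so the range has `2^(rk a Y)` elements
  (`Module.card_eq_pow_finrank`), and `pt U a c t ∩ Y` determines, and is determined by, this vector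
  (`i ∈ pt t` iff `a i ⬝ᵥ t = 1 + c i`).
* `card_fibre`: all fibres of `x ↦ x ∩ Y` on `A` have the same size (for `y = x₀ ∩ Y`, `y' = x₁ ∩ Y` the map
  `x ↦ tri x x₀ x₁` is a bijection between the fibres since `A` is a flat), their number is `2^(rk a Y)` and
  `|A| = 2^d` (`pt` is a bijection).
-/

namespace Pool.Agent.H59.MW

open Finset Pool.Agent.H59.CW

set_option linter.unusedSectionVars false

variable {α : Type*} [DecidableEq α] {U : Finset α} {A : Finset (Finset α)} {d w e s : ℕ}
  {a : α → Fin d → ZMod 2} {c : α → ZMod 2}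

theorem rk_le (X : Finset α) : rk a X ≤ d := by
  unfold rk
  refine (Submodule.finrank_le _).trans ?_
  rw [Module.finrank_fin_fun]

theorem rk_le_card (X : Finset α) : rk a X ≤ X.card := by
  classical
  unfold rk
  have h1 := finrank_span_finset_le_card (R := ZMod 2) (X.image a)
  rw [Finset.coe_image] at h1
  exact h1.trans Finset.card_image_le

theorem Rk_image (hS : Sys U A d a c) : A = Finset.univ.image (fun t => pt U a c t) := by
  ext x
  rw [hS.im x]
  simp

theorem Sys.card_A (hS : Sys U A d a c) : A.card = 2 ^ d := by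
  rw [Rk_image hS, Finset.card_image_of_injective _ hS.inj, Finset.card_univ, Fintype.card_fun,
    ZMod.card, Fintype.card_fin]

theorem Rk_bit {x y z : ZMod 2} (h : x + z = 1 ↔ y + z = 1) : x = y := by
  revert x y z; decide

theorem Rk_range {Y : Finset α} (a : α → Fin d → ZMod 2) :
    (Finset.univ.image (fun t : Fin d → ZMod 2 => fun i : Y => a i ⬝ᵥ t)).card = 2 ^ rk a Y := by
  classical
  let M : Matrix Y (Fin d) (ZMod 2) := fun i => a i
  have h1 : M.rank = rk a Y := by
    rw [Matrix.rank_eq_finrank_span_row]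
    unfold rk
    have h2 : Set.range M.row = a '' (Y : Set α) := by
      ext v
      constructor
      · rintro ⟨i, rfl⟩
        exact ⟨i, i.2, rfl⟩
      · rintro ⟨i, hi, rfl⟩
        exact ⟨⟨i, hi⟩, rfl⟩
    rw [h2]
  have h3 : (Finset.univ.image (fun t : Fin d → ZMod 2 => fun i : Y => a i ⬝ᵥ t)).card
      = Nat.card (LinearMap.range M.mulVecLin) := by
    rw [← Set.ncard_coe_finset, Finset.coe_image, Finset.coe_univ, Set.image_univ]
    rfl
  rw [h3, Module.natCard_eq_pow_finrank (K := ZMod 2), Nat.card_zmod]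
  congr 1

theorem Sys.card_trace (hS : Sys U A d a c) {Y : Finset α} (hY : Y ⊆ U) :
    (A.image (fun x => x ∩ Y)).card = 2 ^ rk a Y := by
  classical
  let g : (Y → ZMod 2) → Finset α := fun v =>
    (Finset.univ.filter (fun i : Y => v i + c i = 1)).image Subtype.val
  have hg : Function.Injective g := by
    intro v v' h
    funext i
    apply Rk_bit (z := c i)
    have h1 : ∀ u : Y → ZMod 2, (i : α) ∈ g u ↔ u i + c i = 1 := by
      intro u
      simp only [g, Finset.mem_image, Finset.mem_filter, Finset.mem_univ, true_and]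
      constructor
      · rintro ⟨k, hk, hki⟩
        have : k = i := Subtype.ext hki
        rw [← this]; exact hk
      · intro hk
        exact ⟨i, hk, rfl⟩
    rw [← h1, ← h1, h]
  have h2 : A.image (fun x => x ∩ Y)
      = (Finset.univ.image (fun t : Fin d → ZMod 2 => fun i : Y => a i ⬝ᵥ t)).image g := by
    rw [Rk_image hS, Finset.image_image, Finset.image_image]
    apply Finset.image_congr
    intro t _
    ext i
    simp only [g, Function.comp, pt, Finset.mem_inter, Finset.mem_filter, Finset.mem_image,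
      Finset.mem_univ, true_and]
    constructor
    · rintro ⟨⟨_, h1⟩, h2⟩
      exact ⟨⟨i, h2⟩, h1, rfl⟩
    · rintro ⟨k, h1, rfl⟩
      exact ⟨⟨hY k.2, h1⟩, k.2⟩
  rw [h2, Finset.card_image_of_injective _ hg, Rk_range]

theorem Rk_fibre_le (hA : Flat A) {Y x₀ x₁ : Finset α} (h0 : x₀ ∈ A) (h1 : x₁ ∈ A) :
    (A.filter (fun x => x ∩ Y = x₀ ∩ Y)).card ≤ (A.filter (fun x => x ∩ Y = x₁ ∩ Y)).card := by
  apply Finset.card_le_card_of_injOn (fun x => tri x x₀ x₁)
  · intro x hx
    simp only [Finset.coe_filter, Set.mem_ofPred_eq] at hx ⊢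
    refine ⟨hA.2 x hx.1 x₀ h0 x₁ h1, ?_⟩
    ext i
    have h2 : i ∈ x ∩ Y ↔ i ∈ x₀ ∩ Y := by rw [hx.2]
    simp only [Finset.mem_inter, mem_tri] at h2 ⊢
    tauto
  · intro x _ y _ h
    have h2 : tri (tri x x₀ x₁) x₀ x₁ = tri (tri y x₀ x₁) x₀ x₁ := by
      simp only at h
      rw [h]
    rwa [tri_tri, tri_tri] at h2

theorem Sys.card_fibre (hS : Sys U A d a c) (hA : Flat A) {Y : Finset α} (hY : Y ⊆ U)
    {y : Finset α} (hy : y ∈ A.image (fun x => x ∩ Y)) :
    (A.filter (fun x => x ∩ Y = y)).card * 2 ^ rk a Y = 2 ^ d := by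
  have h1 := Finset.card_eq_sum_card_fiberwise (f := fun x => x ∩ Y) (s := A)
    (t := A.image (fun x => x ∩ Y)) (fun x hx => Finset.mem_image_of_mem _ hx)
  have h2 : ∀ y' ∈ A.image (fun x => x ∩ Y),
      (A.filter (fun x => x ∩ Y = y')).card = (A.filter (fun x => x ∩ Y = y)).card := by
    intro y' hy'
    rw [Finset.mem_image] at hy hy'
    obtain ⟨x₀, h0, rfl⟩ := hy
    obtain ⟨x₁, h1', rfl⟩ := hy'
    exact le_antisymm (Rk_fibre_le hA h1' h0) (Rk_fibre_le hA h0 h1')
  rw [Finset.sum_congr rfl h2, Finset.sum_const, smul_eq_mul, hS.card_trace hY, hS.card_A] at h1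
  rw [mul_comm]
  exact h1.symm

end Pool.Agent.H59.MW
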