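import Pool.Agent.H59.MW.Dbl
import Pool.Agent.H59.MW.SerCard

/-!
# MW-SGE: `s ≥ 2e`

Suppose `s ≤ 2e - 1`. `Dbl U A = ∅` (`MC.dbl_s`, `e ≥ 4`). For `i ∈ U` let
`c(i) = 1 + #{j ∈ U : j ≠ i, Per A {i,j}}` (size of the series class). By `MC.sum_cor`
`s mag i = N + ∑_{j≠i} cor i j ≥ N + ∑_{j ≠ i, Per} cor i j` (others positive, `MC.cor_pos`; no parallel
pairs), each `cor i j (2e-1) > -N` (`MC.cor_gt`), so `s mag i (2e-1) ≥ N (2e-1) - (c(i)-1) N`; with
`mag i (2e-1) < N`, `s > 0`: `s N > N (2e - c(i))`, i.e. `c(i) ≥ 2e - s + 1 =: t ≥ 2`.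
(`t = 2d - n + 3`, `n = |U| = 2w+s`, `d + 1 = w + e`.)

* `s = 2e-1`: `c(i) ≥ 2` for all `i`, so `SerS U A = U`, `n ≤ 3(e+1)` (`MC.ser_card`), but
  `n > (2e-1) s = (2e-1)²` (`MC.s_pos`) `≥ 3(e+1)`.
* `s ≤ 2e-2`: `t ≥ 3`. Let `P ⊆ U` contain exactly one element of each series class (`r = |P|`), `f j` = the
  representative of `j`. `CW.pow_le_card (U \ P) f A`: `2^(n-r) ≤ 2^d`, so `n - r ≤ d`. Each class has
  at least `t` elements: `r t ≤ n`. With `v = n - d ≤ r`: `v t ≤ n`, `t = n - 2v + 3`, `v ≥ 1`: otherwise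
  `d ≥ n`, `A` (a family of `2^d` subsets of `U`) is the full power set of `U` and contains sets of both
  parities, contradicting `MC.par`; `2v ≤ n` since `t ≥ 3`. But `v t - n = (v-1)(n-2v) + v > 0`.
-/

namespace Pool.Agent.H59.MW

open Finset Pool.Agent.H59.CW

set_option linter.unusedSectionVars false

variable {α : Type*} [DecidableEq α] {U : Finset α} {A : Finset (Finset α)} {d w e s : ℕ}

theorem sge_per_symm {i j : α} (h : Per A {i, j}) : Per A {j, i} := by
  rw [Finset.pair_comm]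
  exact h

theorem sge_per_trans {i j l : α} (hij : i ≠ j) (hjl : j ≠ l) (hil : i ≠ l) (h1 : Per A {i, j})
    (h2 : Per A {j, l}) : Per A {i, l} := by
  intro x hx
  have h3 := h2 _ (h1 x hx)
  convert h3 using 1
  ext t
  simp only [Finset.mem_symmDiff, Finset.mem_insert, Finset.mem_singleton]
  by_cases t1 : t = i
  · subst t1
    simp [hij, hil]
  · by_cases t2 : t = j
    · subst t2
      by_cases tx : t ∈ x <;> simp [t1, hjl, tx]
    · by_cases t3 : t = l
      · subst t3
        simp [t1, t2]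
      · simp [t1, t2, t3]

/-- maximal independent sets for a symmetric relation -/
theorem sge_rep (r : α → α → Prop) (hr : ∀ a b, r a b → r b a) (U : Finset α) :
    ∃ P ⊆ U, (∀ p ∈ P, ∀ q ∈ P, p ≠ q → ¬ r p q) ∧ ∀ j ∈ U \ P, ∃ p ∈ P, r j p := by
  induction U using Finset.induction_on with
  | empty => exact ⟨∅, by simp, by simp, by simp⟩
  | insert a U ha ih =>
    obtain ⟨P, hPU, hP1, hP2⟩ := ih
    by_cases h : ∃ p ∈ P, r a p
    · refine ⟨P, hPU.trans (Finset.subset_insert _ _), hP1, fun j hj => ?_⟩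
      rw [Finset.mem_sdiff, Finset.mem_insert] at hj
      rcases hj.1 with h1 | h1
      · rw [h1]
        exact h
      · exact hP2 j (Finset.mem_sdiff.2 ⟨h1, hj.2⟩)
    · push Not at h
      refine ⟨insert a P, Finset.insert_subset_insert _ hPU, ?_, ?_⟩
      · intro p hp q hq hpq
        rw [Finset.mem_insert] at hp hq
        rcases hp with rfl | hp <;> rcases hq with rfl | hq
        · exact absurd rfl hpq
        · exact h q hq
        · exact fun hc => h p hp (hr _ _ hc)
        · exact hP1 p hp q hq hpq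
      · intro j hj
        rw [Finset.mem_sdiff, Finset.mem_insert, Finset.mem_insert, not_or] at hj
        rcases hj.1 with h1 | h1
        · exact absurd h1 hj.2.1
        · obtain ⟨p, hp, hrp⟩ := hP2 j (Finset.mem_sdiff.2 ⟨h1, hj.2.2⟩)
          exact ⟨p, Finset.mem_insert_of_mem hp, hrp⟩

theorem MC.cls_ge (h : MC U A d w e s) (hs : s < 2 * e) {i : α} (hi : i ∈ U) :
    2 * e ≤ s + (U.filter (fun j => j ≠ i ∧ Per A {i, j})).card := by
  have h4 : 4 ≤ e := h.four_le
  have hdbl : ∀ j ∈ U, j ≠ i → ¬ Par A i j := by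
    intro j hj hji hp
    have hne : (Dbl U A).Nonempty := ⟨i, Finset.mem_filter.2 ⟨hi, j, hj, hji, hp⟩⟩
    have := h.dbl_s hne
    omega
  set c := (U.filter (fun j => j ≠ i ∧ Per A {i, j})).card with hc
  have hN := h.cor_cnt_pos
  have hE := h.cor_two
  have hlow : ∀ j ∈ U, (if j = i then (cnt A w : ℝ) * (2 * e - 1) else 0)
      - (if j ≠ i ∧ Per A {i, j} then (cnt A w : ℝ) else 0) ≤ (cor A w i j : ℝ) * (2 * e - 1) := by
    intro j hj
    by_cases hji : j = i
    · subst hji
      have h1 : cor A w j j = cnt A w := cor_of_par (fun x _ => Iff.rfl)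
      rw [h1]
      simp
    · by_cases hper : Per A {i, j}
      · have h1 := h.cor_gt hi hj (hdbl j hj hji)
        rw [if_neg hji, if_pos ⟨hji, hper⟩]
        linarith
      · have h1 := h.cor_pos hi hj (hdbl j hj hji) hper
        rw [if_neg hji, if_neg (fun hh => hper hh.2)]
        have h2 : (0 : ℝ) < cor A w i j := by exact_mod_cast h1
        have h3 := mul_pos h2 hE
        linarith
  have hsum := Finset.sum_le_sum hlow
  rw [Finset.sum_sub_distrib, Finset.sum_ite_eq' U i, if_pos hi, ← Finset.sum_filter,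
    Finset.sum_const, ← hc, nsmul_eq_mul, ← Finset.sum_mul] at hsum
  have hsc : (∑ j ∈ U, (cor A w i j : ℝ)) = (s : ℝ) * mag A w i := by
    exact_mod_cast h.sum_cor i
  rw [hsc] at hsum
  have hmag := h.mag_lt hi
  have hs0 : (0 : ℝ) < s := by exact_mod_cast h.s_pos.1
  have h5 : (s : ℝ) * ((mag A w i : ℝ) * (2 * e - 1)) < s * cnt A w :=
    mul_lt_mul_of_pos_left hmag hs0
  have h6 : (cnt A w : ℝ) * (2 * e - 1) < (cnt A w : ℝ) * (s + c) := by nlinarith
  have h7 := lt_of_mul_lt_mul_left h6 hN.le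
  have h8 : ((2 * e : ℕ) : ℝ) < ((s + c + 1 : ℕ) : ℝ) := by
    push_cast
    linarith
  have h9 : 2 * e < s + c + 1 := by exact_mod_cast h8
  omega

theorem MC.s_ge (h : MC U A d w e s) : 2 * e ≤ s := by
  by_contra hcon
  push Not at hcon
  have hcls := fun (i : α) (hi : i ∈ U) => h.cls_ge hcon hi
  obtain ⟨P, hPU, hP1, hP2⟩ := sge_rep (fun i j => Per A {i, j}) (fun a b hab => sge_per_symm hab) U
  have hUne : 0 < U.card := by
    have := h.s_pos.1
    have := h.hn
    omega
  obtain ⟨u, hu⟩ := Finset.card_pos.1 hUne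
  have hPne : 0 < P.card := by
    rw [Finset.card_pos]
    by_cases huP : u ∈ P
    · exact ⟨u, huP⟩
    · obtain ⟨p, hp, _⟩ := hP2 u (Finset.mem_sdiff.2 ⟨hu, huP⟩)
      exact ⟨p, hp⟩
  -- the bound by the dimension
  have hdim : U.card ≤ d + P.card := by
    classical
    choose! f hfP hfr using hP2
    have h1 := pow_le_card (U \ P) f A h.hA (fun j hj => hfr j hj)
      (fun j hj hc => (Finset.mem_sdiff.1 hc).2 (hfP j hj))
    rw [h.hd] at h1
    have h2 : (U \ P).card ≤ d := (Nat.pow_le_pow_iff_right (by norm_num)).1 h1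
    rw [Finset.card_sdiff_of_subset hPU] at h2
    omega
  -- the classes
  let K : α → Finset α := fun p => insert p (U.filter (fun j => j ≠ p ∧ Per A {p, j}))
  have hKc : ∀ p ∈ P, 2 * e - s + 1 ≤ (K p).card := by
    intro p hp
    have h1 : (K p).card = (U.filter (fun j => j ≠ p ∧ Per A {p, j})).card + 1 :=
      Finset.card_insert_of_notMem (by simp)
    have h2 := hcls p (hPU hp)
    rw [h1]
    omega
  have hKU : ∀ p ∈ P, K p ⊆ U := by
    intro p hp
    exact Finset.insert_subset (hPU hp) (Finset.filter_subset _ _)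
  have hdisj : ∀ p ∈ P, ∀ q ∈ P, p ≠ q → Disjoint (K p) (K q) := by
    intro p hp q hq hpq
    rw [Finset.disjoint_left]
    intro j hj1 hj2
    simp only [K, Finset.mem_insert, Finset.mem_filter] at hj1 hj2
    have hnpq := hP1 p hp q hq hpq
    rcases hj1 with h1 | ⟨_, h1a, h1b⟩
    · rcases hj2 with h2 | ⟨_, h2a, h2b⟩
      · exact hpq (h1.symm.trans h2)
      · rw [h1] at h2b
        exact hnpq (sge_per_symm h2b)
    · rcases hj2 with h2 | ⟨_, h2a, h2b⟩
      · rw [h2] at h1b
        exact hnpq h1b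
      · exact hnpq (sge_per_trans (Ne.symm h1a) h2a hpq h1b (sge_per_symm h2b))
  have hcard : P.card * (2 * e - s + 1) ≤ U.card := by
    have h1 : (P.biUnion K).card = ∑ p ∈ P, (K p).card :=
      Finset.card_biUnion (fun p hp q hq hpq => hdisj p hp q hq hpq)
    have h2 : P.biUnion K ⊆ U := Finset.biUnion_subset.2 hKU
    have h3 := Finset.card_le_card h2
    rw [h1] at h3
    refine le_trans ?_ h3
    have h4 := Finset.card_nsmul_le_sum P (fun p => (K p).card) (2 * e - s + 1) hKc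
    simpa [smul_eq_mul] using h4
  have hn := h.hn
  have he := h.he
  obtain ⟨t, ht⟩ : ∃ t, 2 * e = s + 1 + t := ⟨2 * e - s - 1, by omega⟩
  have ht' : 2 * e - s + 1 = t + 2 := by omega
  rw [ht'] at hcard
  obtain ⟨r, hr⟩ : ∃ r, P.card = r + 1 := ⟨P.card - 1, by omega⟩
  rw [hr] at hcard hdim
  have h1 : (r + 1) * (t + 2) = r * t + 2 * r + t + 2 := by ring
  rw [h1] at hcard
  have h2 : 0 ≤ r * t := Nat.zero_le _
  omega

end Pool.Agent.H59.MW
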